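import Pool.Agent.Lib.MP_1f6494_pr.Top2

set_option autoImplicit false

namespace Pool.Agent.Lib.MP_1f6494_pr

open Finset Classical Function Real

variable {k : ℕ} {L : Finset V} {o : V} {σ : Cfg}

/-- all strands leave the region through one double edge -/
def Pend (L : Finset V) (o : V) (σ : Cfg) : Prop :=
  Valid L σ ∧ ∀ x ∈ L, ∀ d, x + vec d ∉ L → (σ x).m d = if x = o + vec 0 ∧ d = 2 then 2 else 0

lemma extract (ho' : o ∉ L) (hr : o + vec 0 ∈ L) (h : Pend L o σ) :
    ∃ (n : ℕ) (s : Fin n → Dir) (l : Fin n → ℕ), Prp (key o s) l ∧ (∀ x ∈ L, Rep o s l σ x) ∧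
      pos o s n = o ∧ 0 < n ∧ ∀ i, 0 < i → i < n → pos o s i ∈ L := by
  obtain ⟨hv, hx⟩ := h
  have m2 : (σ (o + vec 0)).m 2 = 2 := by
    rw [hx _ hr 2 (by rwa [show o + vec 0 + vec 2 = o from add_vec_opp o 0]), if_pos ⟨rfl, rfl⟩]
  have X1 : ∀ a : HH, a.1 ∈ L → InR σ a → (ph σ a).1 ∉ L →
      a = (o + vec 0, 2, 0) ∨ a = (o + vec 0, 2, 1) := by
    rintro ⟨x, d, j⟩ a1 a2 a3
    have := hx x a1 d a3
    simp only [InR] at a2
    split_ifs at this with g
    · obtain ⟨rfl, rfl⟩ := g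
      have : j = 0 ∨ j = 1 := by omega
      rcases this with rfl | rfl <;> simp
    · omega
  have nf : ∀ a : HH, a.1 ∈ L → InR σ a → mu σ a ≠ a := fun a a1 a2 e => by
    have : a.2 ∈ op (σ a.1) := mem_op.2 ⟨a2, congrArg Prod.snd e⟩
    rw [(hv.1 _ a1).1] at this
    simp at this
  have mr : ∀ a : HH, InR σ a → InR σ (mu σ a) := fun a r => (σ a.1).inr r
  have e1 : ph σ (o, 0, 0) = mu σ (o + vec 0, 2, 0) := rfl
  have r1 : InR σ (ph σ (o, 0, 0)) := e1 ▸ mr _ (by simp [InR, m2])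
  obtain ⟨N, n1, n2⟩ := ex_min (h := ph σ (o, 0, 0)) hr (hv.2.2 _ hr r1)
  set H : ℕ → HH := fun t => (ph σ)^[t] (o, 0, 0) with hH
  have Hs' : ∀ t, H (t + 1) = (ph σ)^[t] (ph σ (o, 0, 0)) := fun t => iterate_succ_apply _ _ _
  have Hs : ∀ t, H (t + 1) = ph σ (H t) := fun t => iterate_succ_apply' _ _ _
  have HL : ∀ t, 0 < t → t < N + 2 → (H t).1 ∈ L ∧ InR σ (H t) := by
    intro t h0 h1
    obtain ⟨t, rfl⟩ := Nat.exists_eq_succ_of_ne_zero h0.ne'
    rw [Hs']
    exact ⟨n1 t (by omega), hv.2.1.inR_iter r1 fun j hj => n1 j (by omega)⟩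
  have P : ∀ i ≤ N + 2, pos o (fun t : Fin (N + 2) => (H t).2.1) i = (H i).1 := by
    intro i
    induction i with
    | zero => intro; rw [pos_zero]; rfl
    | succ i ih => intro hi; rw [pos_succ ⟨i, hi⟩, ih (by omega), Hs, ph_fst]
  have last : (H (N + 2)).1 = o := by
    have := HL (N + 1) (by omega) (by omega)
    rcases X1 _ this.1 this.2 (by rw [← Hs, Hs']; exact n2) with e | e <;>
      rw [Hs, e, ph_fst] <;> exact add_vec_opp o 0
  have D1 : ∀ t t', t < t' → t' < N + 2 → H t ≠ H t' := fun t t' h1 h2 e => by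
    have : H t' = (ph σ)^[t] (H (t' - t)) := by
      simp only [hH]; rw [← iterate_add_apply]; congr 1; omega
    have e2 := (((mu_inv σ).injective.comp io_inv.injective).iterate t) (e.trans this)
    exact ho' (by have := (HL (t' - t) (by omega) (by omega)).1; rwa [← e2] at this)
  have D2 : ∀ t t', t ≤ t' + 1 → t < N + 2 → t' < N + 2 → io (H t') ≠ H t := fun t t' h1 h2 h3 e => by
    have e2 : (ph σ)^[t' + 1 - t] (H t) = mu σ (H t) := by
      rw [← e, ← ph_apply, ← Hs, e]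
      simp only [hH]; rw [← iterate_add_apply]; congr 1; omega
    obtain ⟨j, j1, j2⟩ := palin io_inv (mu_inv σ) io_ne e2
    have e3 : (ph σ)^[j] (H t) = H (j + t) := (iterate_add_apply _ _ _ _).symm
    rw [e3] at j2
    exact nf _ (HL _ (by omega) (by omega)).1 (HL _ (by omega) (by omega)).2 j2
  have D : ∀ t t' : Fin (N + 2), ek (H t).1 (H t).2.1 = ek (H t').1 (H t').2.1 →
      (H t).2.2 = (H t').2.2 → t = t' := by
    intro t t' e e'
    rcases ek_eq.1 e with g | g
    · have : H t = H t' := Prod.ext g.1 (Prod.ext g.2 e')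
      rcases lt_trichotomy t t' with c | c | c
      exacts [absurd this (D1 _ _ c t'.2), c, absurd this.symm (D1 _ _ c t.2)]
    · have : io (H t) = H t' := Prod.ext g.1 (Prod.ext g.2 e')
      rcases le_total (t' : ℕ) (t + 1) with c | c
      · exact absurd this (D2 _ _ c t'.2 t.2)
      · exact absurd (by rw [← this, io_inv]) (D2 t t' (by omega) t.2 t'.2)
  have tr : ∀ a : HH, a.1 ∈ L → InR σ a → ∃ j y, (y = (o + vec 0, 2, 0) ∨ y = (o + vec 0, 2, 1)) ∧
      (ph σ)^[j] a = y ∧ (ph σ)^[j] (mu σ y) = mu σ a ∧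
      ∀ i ≤ j, ((ph σ)^[i] a).1 ∈ L ∧ ((ph σ)^[i] (mu σ y)).1 ∈ L := by
    intro a a1 a2
    obtain ⟨j, j1, j2⟩ := ex_min a1 (hv.2.2 a a1 a2)
    have b := iter_refl io_inv (mu_inv σ) j a
    refine ⟨j, _, X1 _ (j1 j le_rfl) (hv.2.1.inR_iter a2 j1) (by rwa [iterate_succ_apply'] at j2),
      rfl, b, fun i hi => ⟨j1 i hi, ?_⟩⟩
    have := iter_back io_inv (mu_inv σ) (j := j - i) (by omega) b
    rw [show j - (j - i) = i by omega] at this
    rw [this]; exact j1 _ (by omega)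
  have Cv : ∀ a : HH, a.1 ∈ L → InR σ a → ∃ t : Fin (N + 2), a = H t ∨ a = io (H t) := by
    intro a a1 a2
    have le : ∀ j, (∀ i ≤ j, ((ph σ)^[i] (mu σ (o + vec 0, 2, 0))).1 ∈ L) → j ≤ N := fun j g => by
      by_contra c
      exact n2 (g _ (by omega))
    obtain ⟨j, y, y1, y2, y3, y4⟩ := tr a a1 a2
    obtain ⟨j', y', z1, z2, z3, z4⟩ := tr (mu σ a) a1 (mr a a2)
    rw [mu_inv] at z3
    rcases z1 with rfl | rfl
    · exact ⟨⟨j' + 1, by have := le j' fun i hi => (z4 i hi).2; omega⟩, Or.inl (z3.symm.trans (Hs' _).symm)⟩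
    rcases y1 with rfl | rfl
    · refine ⟨⟨j, by have := le j fun i hi => (y4 i hi).2; omega⟩, Or.inr ?_⟩
      show a = io (H j)
      rw [← mu_inv σ a, ← y3, ← e1, ← Hs', Hs, ph_apply, mu_inv]
    · exfalso
      obtain ⟨i, i1, i2⟩ := palin io_inv (mu_inv σ) io_ne (a := mu σ (o + vec 0, 2, 1)) (n := j + j')
        (by rw [iterate_add_apply, z3, y2, mu_inv])
      have inL : ∀ i ≤ j + j', ((ph σ)^[i] (mu σ (o + vec 0, 2, 1))).1 ∈ L := fun i hi => by
        rcases le_total i j' with c | c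
        · exact (z4 i c).2
        · rw [show i = (i - j') + j' by omega, iterate_add_apply, z3]; exact (y4 _ (by omega)).1
      exact nf _ (inL i (by omega)) (hv.2.1.inR_iter (mr _ (by simp [InR, m2]))
        fun t ht => inL t (by omega)) i2
  have kH : ∀ t : Fin (N + 2), key o (fun t : Fin (N + 2) => (H t).2.1) t = ek (H t).1 (H t).2.1 :=
    fun t => by rw [key, P t t.2.le]
  have M : ∀ x ∈ L, (σ x).m = mul o (fun t : Fin (N + 2) => (H t).2.1) x := by
    intro x hx'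
    funext d
    rw [← card_range ((σ x).m d), mul]
    symm
    refine card_bij (fun t _ => (H t).2.2) (fun t ht => mem_range.2 ?_) (fun a ha b hb e => D a b
      (by rw [← kH, ← kH, (mem_fib _).1 ha, (mem_fib _).1 hb]) e) fun j hj => ?_
    · rw [mem_fib, kH, ek_eq] at ht
      rcases ht with ⟨g1, g2⟩ | ⟨g1, g2⟩
      · have t0 : 0 < (t : ℕ) := Nat.pos_of_ne_zero fun g => ho' (by rw [← g1, g] at hx'; exact hx')
        have := (HL t t0 t.2).2
        rwa [InR, g1, g2] at this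
      · have t1 : (t : ℕ) + 1 < N + 2 := lt_of_le_of_ne t.2 fun g => ho' (by
          rw [← last, ← g, Hs, ph_fst, g1]; exact hx')
        have := mr _ (HL (t + 1) (by omega) t1).2
        rw [Hs, ph_apply, mu_inv, InR] at this
        simp only [io] at this
        rwa [g1, g2] at this
    · obtain ⟨t, e | e⟩ := Cv (x, d, j) hx' (mem_range.1 hj)
      · exact ⟨t, by rw [mem_fib, kH, ← e], by simp only [← e]⟩
      · exact ⟨t, by rw [mem_fib, kH, ← ek_opp]; exact congrArg (fun a : HH => ek a.1 a.2.1) e.symm,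
          (congrArg (fun a : HH => a.2.2) e).symm⟩
  refine ⟨N + 2, fun t => (H t).2.1, fun t => (H t).2.2, ⟨fun t => ?_, fun t t' e => D t t'
    (by rwa [kH, kH] at e)⟩, fun x hx' => ⟨M x hx', fun t t' e g => ?_⟩, (P _ le_rfl).trans last,
    by omega, fun i h0 h1 => P i h1.le ▸ (HL i h0 h1).1⟩
  · rcases Nat.eq_zero_or_pos t with g | g
    · have : (H t).2.2 = 0 := by rw [g]; rfl
      simp only [this]
      exact card_pos.2 ⟨t, (mem_fib _).2 rfl⟩
    · have := (HL t g t.2).2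
      rw [InR, M _ (HL t g t.2).1] at this
      rwa [kH]
  · rw [P _ t'.2.le, e, Hs, ph_fst] at g
    simp only [e, Hs, ph_apply, mu, io, g]

lemma close_sum {G : ℕ → ℝ} (G0 : G 0 = 1) (Gp : ∀ j, 0 < G j) (ho' : o ∉ L) (hr : o + vec 0 ∈ L)
    (n0 : ℕ) : sm (fun _ => Wt G) L (fun σ => ind (Pend L o σ ∧ n0 ≤ ∑ x ∈ L, deg (σ x).m / 2)) vcf ≤
      ENNReal.ofReal (8 / G 1) * ∑' n, ind (n0 ≤ n) * ZW G n := by
  simp only [ZW_eq G o, ← ENNReal.tsum_mul_left]
  rw [← ENNReal.tsum_sigma' (fun b : Σ n : ℕ, (Fin n → Dir) × (Fin n → ℕ) => ENNReal.ofReal (8 / G 1) *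
    (ind (n0 ≤ b.1) * (ind (Prp (key o b.2.1) b.2.2) * ENNReal.ofReal (wt G o b.2.1 / NL o b.2.1))))]
  refine tsum_le_of_rel _ _ (fun σ b => (∀ x, x ∉ L → σ x = vcf x) ∧ Prp (key o b.2.1) b.2.2 ∧
    pos o b.2.1 b.1 = o ∧ ∀ x ∈ L, Rep o b.2.1 b.2.2 σ x) ?_ ?_
  swap
  · rintro σ σ' ⟨n, s, l⟩ ⟨a1, a2, a3, a4⟩ ⟨b1, -, -, b4⟩
    funext x
    by_cases hx : x ∈ L
    · exact (a4 x hx).eq a2 (b4 x hx) (fun e => ho' (e ▸ hx)) fun e => ho' (by rwa [e, a3] at hx)
    · rw [a1 x hx, b1 x hx]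
  intro σ h
  have h1 : ∀ x, x ∉ L → σ x = vcf x := by by_contra g; exact h (by rw [ind_neg g, zero_mul])
  have h2 : Pend L o σ ∧ n0 ≤ ∑ x ∈ L, deg (σ x).m / 2 := by
    by_contra g; exact h (by simp only [ind_neg g, mul_zero])
  obtain ⟨n, s, l, a1, a2, a3, a4, a5⟩ := extract ho' hr h2.1
  refine ⟨⟨n, s, l⟩, ⟨h1, a1, a3, a2⟩, ?_⟩
  have mA : ∀ i ≤ n, pos o s i ∈ insert o L := fun i hi => by
    rcases Nat.eq_zero_or_pos i with rfl | h0
    · simp
    rcases hi.lt_or_eq with hi | rfl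
    · exact mem_insert_of_mem (a5 i h0 hi)
    · simp [a3]
  have dg : ∀ x ∈ L, deg (σ x).m / 2 = lt o s x := fun x hx => by
    have := deg_mul (o := o) (s := s) x
    rw [a3, ← (a2 x hx).1] at this
    omega
  have lo : lt o s o = 1 := by
    rw [lt, card_eq_one]
    refine ⟨⟨n - 1, by omega⟩, eq_singleton_iff_unique_mem.2 ⟨by
      simp [show n - 1 + 1 = n by omega, a3], fun t ht => Fin.ext ?_⟩⟩
    by_contra g
    simp only at g
    exact ho' ((mem_filter.1 ht).2 ▸ a5 (t + 1) (by omega) (by omega))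
  have sl := sum_lt (A := insert o L) fun t => mA (t + 1) t.2
  rw [sum_insert ho'] at sl
  have h3 : n0 ≤ n := by
    have := h2.2
    rw [sum_congr rfl dg] at this
    exact this.trans ((Nat.le_add_left _ (lt o s o)).trans sl.le)
  simp only
  rw [ind_pos h1, ind_pos h2, ind_pos a1, ind_pos h3, one_mul, one_mul, one_mul, mul_one,
    ← ENNReal.ofReal_mul (by have := Gp 1; positivity), wt_eq G0 fun t => mA (t + 1) t.2,
    ← prod_rf mA, prod_insert ho', prod_insert ho', lo]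
  have pw : ∀ x, 0 < G (lt o s x) / 4 ^ lt o s x := fun x => by have := Gp (lt o s x); positivity
  calc _ ≤ ENNReal.ofReal (∏ x ∈ L, G (lt o s x) / 4 ^ lt o s x / rf (mul o s x)) := by
        rw [ENNReal.ofReal_prod_of_nonneg fun x _ => (div_pos (pw x) (rf_pos _)).le]
        refine prod_le_prod' fun x hx => (mul_le_of_le_one_left' (ind_le_one _)).trans (le_of_eq ?_)
        rw [w0, dg x hx, (a2 x hx).1]
    _ ≤ _ := by
        refine ENNReal.ofReal_le_ofReal ?_
        have r2 : rf (mul o s o) ≤ 2 := by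
          have := deg_mul (o := o) (s := s) o
          rw [a3, lo] at this
          have h4 := Nat.le_of_dvd (Nat.factorial_pos _)
            (Nat.prod_factorial_dvd_factorial_sum univ (mul o s o))
          rw [show ∑ d, mul o s o d = 2 by unfold deg at this; omega] at h4
          refine sqrt_le_iff.2 ⟨by norm_num, ?_⟩
          have : (∏ d, ((mul o s o d).factorial : ℝ)) ≤ (2 : ℕ) := by exact_mod_cast h4
          push_cast at this; linarith
        have p1 := Gp 1
        have p2 := rf_pos (mul o s o)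
        have p3 : 0 < ∏ x ∈ L, rf (mul o s x) := prod_pos fun _ _ => rf_pos _
        have p4 : 0 < ∏ x ∈ L, G (lt o s x) / 4 ^ lt o s x := prod_pos fun x _ => pw x
        rw [prod_div_distrib]
        generalize ∏ x ∈ L, rf (mul o s x) = u at *
        generalize ∏ x ∈ L, G (lt o s x) / 4 ^ lt o s x = v at *
        rw [show 8 / G 1 * (G 1 / 4 ^ 1 * v / (rf (mul o s o) * u)) = v / u * (2 / rf (mul o s o)) by
          field_simp; norm_num]
        exact le_mul_of_one_le_right (by positivity) ((one_le_div p2).2 r2)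

lemma close_ring {G : ℕ → ℝ} (Gp : ∀ j, 0 < G j) (k : ℕ) : ∃ κ : ℝ, ∀ (q : Fin 3) (M n0 : ℕ)
    (E : Cfg → Prop), (∀ η, E η → Valid (box 0 M) η ∧ (∀ x ∈ bd (box 0 M), good k q (η x)) ∧
      n0 ≤ ∑ x ∈ box 0 M, deg (η x).m / 2) →
    ex (-(κ * (4 * M + 4))) * sm (fun _ => Wt G) (box 0 M) (fun σ => ind (E σ)) vcf ≤
      sm (fun _ => Wt G) (box (-1, -1) (M + 2)) (fun σ => ind (Pend (box (-1, -1) (M + 2)) (-2, -1) σ ∧
        n0 ≤ ∑ x ∈ box (-1, -1) (M + 2), deg (σ x).m / 2)) vcf := by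
  obtain ⟨m1, -, hm⟩ := exists_min_image (Fintype.piFinset fun _ : Dir => range (12 * k + 4)) (w0 G)
    ⟨fun _ => 0, by simp⟩
  have w1 : 0 < w0 G m1 := by
    have := Gp (deg m1 / 2); have := rf_pos m1; unfold w0; positivity
  refine ⟨-log (w0 G m1), fun q M n0 E hE => ?_⟩
  set Y := box 0 M with hY
  set B := box (-1, -1) (M + 2) with hB
  have sY : Y ⊆ B := by intro x; simp only [hY, hB, mem_box]; simp; omega
  have mT : ∀ x, x ∈ B \ Y ↔ ((-1 ≤ x.1 ∧ x.1 ≤ M) ∧ -1 ≤ x.2 ∧ x.2 ≤ M) ∧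
      (x.1 = -1 ∨ x.1 = M ∨ x.2 = -1 ∨ x.2 = M) := by
    intro x; simp only [hY, hB, mem_sdiff, mem_box]; simp; omega
  have rT : ((-1, -1) : V) ∈ B \ Y := (mT _).2 (by simp)
  have cT : ∀ x ∈ B \ Y, ∃ r, r = ((-1, -1) : V) ∧ Conn (· ∈ B \ Y) x r := by
    have dn : ∀ x ∈ B \ Y, x.1 = -1 ∨ x.1 = M → Conn (· ∈ B \ Y) x (x.1, -1) := fun x hx h => by
      have h1 := (mT x).1 hx
      have := conn_line (· ∈ B \ Y) x 3 (x.2 + 1).toNat fun i hi => (mT _).2 (by simp [vec3]; omega)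
      rwa [show x + ((x.2 + 1).toNat : ℤ) • vec 3 = (x.1, -1) by ext <;> simp [vec3]; omega] at this
    have lf : ∀ x ∈ B \ Y, x.2 = -1 ∨ x.2 = M → Conn (· ∈ B \ Y) x (-1, x.2) := fun x hx h => by
      have h1 := (mT x).1 hx
      have := conn_line (· ∈ B \ Y) x 2 (x.1 + 1).toNat fun i hi => (mT _).2 (by simp [vec2]; omega)
      rwa [show x + ((x.1 + 1).toNat : ℤ) • vec 2 = (-1, x.2) by ext <;> simp [vec2]; omega] at this
    intro x hx
    refine ⟨_, rfl, ?_⟩
    by_cases h : x.1 = -1 ∨ x.1 = M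
    · exact (dn x hx h).trans (lf _ ((dn x hx h).mem hx) (Or.inl rfl))
    · have h2 : x.2 = -1 ∨ x.2 = M := by have := ((mT x).1 hx).2; tauto
      exact (lf x hx h2).trans (dn _ ((lf x hx h2).mem hx) (Or.inl rfl))
  obtain ⟨rank, par, hp⟩ := exists_rank _ cT
  have cd : ((B \ Y).card : ℝ) = 4 * M + 4 := by
    rw [card_sdiff_of_subset sY, hB, hY, card_box, card_box,
      Nat.cast_sub (Nat.pow_le_pow_left (by omega) 2)]
    push_cast; ring
  conv_rhs => rw [← union_sdiff_of_subset sY]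
  rw [sm_union disjoint_sdiff, ← sm_mul]
  refine sm_mono fun η _ => mul_ind_le fun h => ?_
  obtain ⟨h1, h2, h3⟩ := hE η h
  let base : V → Dir → ℕ := fun x d => if x + vec d ∈ Y then (η (x + vec d)).m (opp d) else
    if x + vec d ∈ B then 2 else if x = (-1, -1) ∧ d = 2 then 2 else 0
  have nY : ∀ x ∈ Y, ∀ d, x + vec d ∈ B := fun x hx d => by
    have := abs_le.1 (vec_fst d); have := abs_le.1 (vec_snd d)
    simp only [hY, hB, mem_box] at hx ⊢; simp at hx ⊢; omega
  have o2 : ((-1, -1) : V) + vec 2 ∉ B := by simp [hB, mem_box, vec2]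
  obtain ⟨m0, j, g1, g2, g3⟩ := glue_mid (T := B \ Y) (N := (B \ Y).erase (-1, -1)) disjoint_sdiff h1
    base rank par (erase_subset _ _)
    (fun x hx d hd => by simp [base, (mem_sdiff.1 hx).1, (mem_sdiff.1 hx).2, (mem_sdiff.1 hd).1,
      (mem_sdiff.1 hd).2])
    (fun x _ d hd => if_pos hd)
    (fun x hx => by
      have := hp x (mem_of_mem_erase hx) (ne_of_mem_erase hx)
      exact ⟨by simp [base, (mem_sdiff.1 this.1).1, (mem_sdiff.1 this.1).2], Or.inl this⟩)
    (Or.inr ⟨(-1, -1), (2, 0), (insert_erase rT).symm,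
      by simp only [base, if_neg o2, if_neg fun g => o2 (sY g)]; simp,
      ⟨0, by rw [union_sdiff_of_subset sY]; exact o2, fun j h0 h1 => by omega⟩,
      fun x hx => (hp x (mem_of_mem_erase hx) (ne_of_mem_erase hx)).1, by
      let m1 : V → Dir → ℕ := fun x => if x ∈ Y then (η x).m else base x
      have p1 := parity (A := B) m1 (fun x hx d hd => by
        by_cases a : x ∈ Y <;> by_cases b : x + vec d ∈ Y
        · simp only [m1, a, b, if_true]; exact h1.2.1 x a d b
        · simp [m1, a, b, base]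
        · simp [m1, a, b, base]
        · simp [m1, a, b, base, hx, hd])
      rw [sum_eq_zero (s := B) (f := fun x => ∑ d, if x + vec d ∈ B then 0 else (m1 x d : ZMod 2))
        fun x _ => sum_eq_zero fun d _ => by
          split_ifs with g
          · rfl
          · simp only [m1, base, if_neg fun a => g (nY x a d), if_neg g, if_neg fun a => g (sY a)]
            split_ifs <;> rfl, ← sum_sdiff sY, sum_eq_zero (s := Y) fun x hx =>
          ZMod.natCast_eq_zero_iff_even.2 (by simp only [m1, if_pos hx]; exact (h1.1 x hx).2),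
        add_zero] at p1
      rw [← p1]
      exact sum_congr rfl fun x hx => by simp only [m1, if_neg (mem_sdiff.1 hx).2]⟩)
  have g4 := g3 (Wt G) (fun _ => ENNReal.ofReal (w0 G m1)) fun x hx t t1 t2 => by
    rw [Wt, ind_pos ⟨t2, by rw [t1, g2 x hx]; exact even_two_mul _⟩, one_mul, t1]
    refine ENNReal.ofReal_le_ofReal (hm _ (Fintype.mem_piFinset.2 fun d => mem_range.2 ?_))
    have : base x d ≤ 12 * k + 2 := by
      simp only [base]
      split_ifs with a
      · have := (h2 _ (mem_bd.2 ⟨a, opp d, by simpa using (mem_sdiff.1 hx).2⟩) (opp d)).2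
        have := bq_le k q
        omega
      all_goals omega
    rcases g1 x hx d with g | g <;> omega
  refine le_trans ?_ (g4.trans (sm_mono fun σ hσ => ind_mono fun ⟨a1, a2⟩ => ⟨⟨a2, ?_⟩, ?_⟩))
  · rw [← cd, show -(-log (w0 G m1) * (B \ Y).card) = (B \ Y).card * log (w0 G m1) by ring,
      ← ex_pow, ← prod_const]
    refine prod_le_prod' fun x _ => ?_
    rw [ex, exp_log w1]
    refine le_mul_of_one_le_right' ?_
    have : ∀ j, 1 ≤ Df j := fun j => by
      induction j with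
      | zero => exact le_rfl
      | succ j ih => exact Nat.mul_pos (by omega) ih
    exact_mod_cast this _
  · rw [union_sdiff_of_subset sY]
    intro x hx d hd
    have x1 : x ∈ B \ Y := mem_sdiff.2 ⟨hx, fun a => hd (nY x a d)⟩
    rw [a1 x x1, (g1 x x1 d).resolve_right fun g => g.2.2.elim (fun a => hd (mem_sdiff.1 a).1)
      fun a => hd (a.2 ▸ (mem_sdiff.1 (hp x x1 (ne_of_mem_erase a.1)).1).1)]
    simp only [base, if_neg hd, if_neg fun a => hd (sY a)]
    rfl
  · refine h3.trans (le_trans (le_of_eq (sum_congr rfl fun x hx => ?_))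
      (sum_le_sum_of_subset subset_union_left))
    rw [hσ x fun g => (mem_sdiff.1 g).2 hx]

end Pool.Agent.Lib.MP_1f6494_pr
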