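import Pool.Agent.Lib.MP_1f6494_pr.Sum

set_option autoImplicit false

namespace Pool.Agent.Lib.MP_1f6494_pr

open Finset Classical Function

lemma tsum_ind_le {α β : Type*} (p : α → Prop) (φ : α → β)
    (hφ : ∀ a b, p a → p b → φ a = φ b → a = b) (H : β → ENNReal) :
    ∑' a, ind (p a) * H (φ a) ≤ ∑' b, H b := by
  have h1 := ENNReal.tsum_comp_le_tsum_of_injective (f := fun a : {a // p a} => φ a.1)
    (fun a b h => Subtype.ext (hφ _ _ a.2 b.2 h)) H
  refine le_trans (le_of_eq ?_) h1
  have := tsum_subtype {a | p a} (fun a => H (φ a))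
  refine Eq.trans ?_ this.symm
  congr 1; ext a
  by_cases h : p a
  · rw [ind_pos h, one_mul, Set.indicator_of_mem (by exact h)]
  · rw [ind_neg h, zero_mul, Set.indicator_of_notMem (by exact h)]

lemma tsum_le_of_cover {α β : Type*} (F : α → ENNReal) (H : β → ENNReal) (g : β → α)
    (h : ∀ a, F a ≠ 0 → ∃ b, g b = a ∧ F a ≤ H b) : ∑' a, F a ≤ ∑' b, H b := by
  calc ∑' a, F a ≤ ∑' a, ∑' b, ind (g b = a) * H b := by
        refine ENNReal.tsum_le_tsum fun a => ?_
        by_cases h0 : F a = 0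
        · simp [h0]
        · obtain ⟨b, hb, h2⟩ := h a h0
          refine le_trans ?_ (ENNReal.le_tsum b)
          rwa [ind_pos hb, one_mul]
    _ = ∑' b, H b := by
        rw [ENNReal.tsum_comm]
        congr 1; ext b
        rw [tsum_eq_single (g b), ind_pos rfl, one_mul]
        intro a ha; rw [ind_neg (Ne.symm ha), zero_mul]

noncomputable def walkSet : V → List Dir → Finset V
  | x, [] => {x}
  | x, d :: l => insert x (walkSet (x + vec d) l)

lemma walkSet_root (x : V) (l : List Dir) : x ∈ walkSet x l := by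
  cases l <;> simp [walkSet]

lemma walkSet_detour (d : Dir) (l : List Dir) : ∀ x u, u ∈ walkSet x l →
    ∃ l' : List Dir, l'.length = l.length + 2 ∧ walkSet x l' = insert (u + vec d) (walkSet x l) := by
  have key : ∀ (x : V) (l : List Dir), walkSet x (d :: opp d :: l) =
      insert (x + vec d) (walkSet x l) := by
    intro x l
    simp only [walkSet, add_vec_opp]
    rw [insert_comm, insert_eq_of_mem (walkSet_root x l)]
  induction l with
  | nil =>
    intro x u hu
    simp only [walkSet, mem_singleton] at hu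
    exact ⟨[d, opp d], rfl, hu ▸ key u []⟩
  | cons e l ih =>
    intro x u hu
    rcases mem_insert.1 hu with rfl | hu
    · exact ⟨d :: opp d :: e :: l, rfl, key _ _⟩
    · obtain ⟨l', h1, h2⟩ := ih _ u hu
      exact ⟨e :: l', by simp [h1], by simp only [walkSet, h2]; rw [insert_comm]⟩

lemma exists_walkSet {G : Finset V} (hG : Cn G) {x : V} (hx : x ∈ G) :
    ∃ l : List Dir, l.length = 2 * (G.card - 1) ∧ walkSet x l = G := by
  have key : ∀ j, j < G.card → ∃ l : List Dir, l.length = 2 * j ∧ walkSet x l ⊆ G ∧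
      (walkSet x l).card = j + 1 := by
    intro j
    induction j with
    | zero => exact fun _ => ⟨[], rfl, by simpa [walkSet] using hx, by simp [walkSet]⟩
    | succ j ih =>
      intro hj
      obtain ⟨l, h1, h2, h3⟩ := ih (by omega)
      obtain ⟨y, hy, hy'⟩ := exists_mem_notMem_of_card_lt_card (s := walkSet x l) (t := G) (by omega)
      obtain ⟨a, b, -, -, ha, hb, hb', d, rfl⟩ :=
        (hG x hx y hy).exit (R := (· ∈ walkSet x l)) (walkSet_root x l) hy'
      obtain ⟨l', h4, h5⟩ := walkSet_detour d l x a ha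
      exact ⟨l', by omega, h5 ▸ insert_subset hb h2, by rw [h5, card_insert_of_notMem hb', h3]⟩
  have hp := card_pos.2 ⟨x, hx⟩
  obtain ⟨l, h1, h2, h3⟩ := key (G.card - 1) (by omega)
  exact ⟨l, h1, eq_of_subset_of_card_le h2 (by omega)⟩

lemma tsum_geom {t : ℝ} (h : 1 ≤ t) : ∑' n : ℕ, ex (-(n * t)) ≤ 2 := by
  have : ∀ n : ℕ, ex (-(n * t)) ≤ (2⁻¹ : ENNReal) ^ n := fun n => by
    rw [show -(n * t) = n * (-t) by ring, ← ex_pow]
    gcongr
    rw [ENNReal.le_inv_iff_mul_le]
    calc ex (-t) * 2 ≤ ex (-t) * ex 1 := by gcongr; exact two_le_ex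
      _ ≤ 1 := by rw [← ex_add]; exact ex_le_one (by linarith)
  refine (ENNReal.tsum_le_tsum this).trans ?_
  rw [ENNReal.tsum_geometric]; simp

lemma tsum_cn (x : V) {s : ℝ} (hs : 4 ≤ s) :
    ∑' G : Finset V, ind (x ∈ G ∧ Cn G) * ex (-(s * G.card)) ≤ ex (1 - s) := by
  have h1 := tsum_le_of_cover (fun G : Finset V => ind (x ∈ G ∧ Cn G) * ex (-(s * G.card)))
    (fun t : Σ n : ℕ, List.Vector Dir (2 * n) => ex (-(s * (t.1 + 1))))
    (fun t => walkSet x t.2.1) (by
      intro G hG
      have h : x ∈ G ∧ Cn G := by by_contra hn; exact hG (by simp only [ind_neg hn, zero_mul])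
      obtain ⟨l, h1, h2⟩ := exists_walkSet h.2 h.1
      refine ⟨⟨G.card - 1, l, h1⟩, h2, ?_⟩
      have hp := card_pos.2 ⟨x, h.1⟩
      rw [ind_pos h, one_mul]
      refine ex_le (le_of_eq ?_)
      simp only [Nat.cast_pred hp]; ring)
  refine h1.trans ?_
  rw [ENNReal.tsum_sigma']
  calc _ ≤ ∑' n : ℕ, ex (-s) * ex (-(n * (s - 3))) := by
        refine ENNReal.tsum_le_tsum fun n => ?_
        dsimp only
        rw [tsum_fintype, sum_const, card_univ, card_vector, nsmul_eq_mul, ← ex_add]
        have : ((Fintype.card Dir ^ (2 * n) : ℕ) : ENNReal) ≤ ex (3 * n) := by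
          apply nat_le_ex
          rw [pow_mul, mul_comm (3 : ℝ), Real.exp_nat_mul]
          push_cast
          gcongr
          have := Real.exp_one_gt_d9
          rw [show (3 : ℝ) = (3 : ℕ) * 1 by norm_num, Real.exp_nat_mul]
          simp only [Fintype.card_fin]
          calc ((4 : ℕ) : ℝ) ^ 2 ≤ 2.7 ^ 3 := by norm_num
            _ ≤ _ := by gcongr; linarith
        calc _ ≤ ex (3 * n) * ex (-(s * (n + 1))) := by gcongr
          _ = _ := by rw [← ex_add]; congr 1; ring
    _ ≤ ex (-s) * ex 1 := by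
        rw [ENNReal.tsum_mul_left]
        gcongr
        exact (tsum_geom (by linarith)).trans two_le_ex
    _ = _ := by rw [← ex_add]; congr 1; ring

lemma tsum_fill (x : V) {s : ℝ} (hs : 5 ≤ s) :
    ∑' G : Finset V, ind (Cn G ∧ x ∈ fill G) * ex (-(s * G.card)) ≤ ex (3 - s) := by
  calc _ ≤ ∑' G : Finset V, ∑' j : ℕ, ex (-(j * 1)) *
        (ind (x + (j : ℤ) • vec 2 ∈ G ∧ Cn G) * ex (-((s - 1) * G.card))) := by
        refine ENNReal.tsum_le_tsum fun G => ?_
        rw [mul_comm]
        refine mul_ind_le fun h => le_trans ?_ (ENNReal.le_tsum (lj G x))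
        rw [ind_pos ⟨le_mem h.2, h.1⟩, one_mul, ← ex_add]
        have : (lj G x : ℝ) ≤ G.card := by exact_mod_cast (lj_lt_card h.2).le
        exact ex_le (by linarith)
    _ ≤ ∑' j : ℕ, ex (-(j * 1)) * ex (1 - (s - 1)) := by
        rw [ENNReal.tsum_comm]
        refine ENNReal.tsum_le_tsum fun j => ?_
        rw [ENNReal.tsum_mul_left]
        gcongr
        exact tsum_cn _ (by linarith)
    _ ≤ ex 1 * ex (1 - (s - 1)) := by
        rw [ENNReal.tsum_mul_right]
        gcongr
        exact (tsum_geom le_rfl).trans two_le_ex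
    _ = _ := by rw [← ex_add]; congr 1; ring

lemma tsum_fam {ι : Type*} (r : ι → ENNReal) {t : ℝ} (ht : 0 ≤ t)
    (h : ∑' a, r a ≤ ENNReal.ofReal t) : ∑' F : Finset ι, ∏ a ∈ F, r a ≤ ex t := by
  rw [ENNReal.tsum_eq_iSup_sum]
  refine iSup_le fun S => ?_
  have fin : ∀ a, r a ≠ ⊤ := fun a =>
    ne_top_of_le_ne_top ENNReal.ofReal_ne_top ((ENNReal.le_tsum a).trans h)
  calc ∑ F ∈ S, ∏ a ∈ F, r a ≤ ∑ F ∈ (S.biUnion id).powerset, ∏ a ∈ F, r a :=
        sum_le_sum_of_subset fun F hF => mem_powerset.2 (subset_biUnion_of_mem id hF)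
    _ = ∏ a ∈ S.biUnion id, (1 + r a) := (prod_one_add _).symm
    _ ≤ ∏ a ∈ S.biUnion id, ex (r a).toReal := by
        refine prod_le_prod' fun a _ => ?_
        conv_lhs => rw [← ENNReal.ofReal_toReal (fin a), ← ENNReal.ofReal_one,
          ← ENNReal.ofReal_add zero_le_one ENNReal.toReal_nonneg]
        exact ENNReal.ofReal_le_ofReal (by linarith [Real.add_one_le_exp (r a).toReal])
    _ ≤ ex t := by
        rw [ex_sum]
        refine ex_le ?_
        rw [← ENNReal.toReal_sum fun a _ => fin a]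
        exact ENNReal.toReal_le_of_le_ofReal ht ((ENNReal.sum_le_tsum _).trans h)

/-- families with disjoint fillings inside a region -/
def Fam (L : Finset V) (F : Finset (Finset V)) : Prop :=
  (∀ G ∈ F, G.Nonempty ∧ fill G ⊆ L) ∧ ∀ G ∈ F, ∀ G' ∈ F, G ≠ G' → Disjoint (fill G) (fill G')

lemma scan (r : Finset V → ENNReal) {a : ℝ}
    (h : ∀ x, ex (-a) + ∑' G, ind (x ∈ fill G) * r G ≤ 1) (L : Finset V) :
    ∑' F, ind (Fam L F) * ∏ G ∈ F, (r G * ex (a * (fill G).card)) ≤ ex (a * L.card) := by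
  induction L using Finset.strongInduction with
  | H L ih =>
  rcases L.eq_empty_or_nonempty with rfl | ⟨x, hx⟩
  · rw [tsum_eq_single ∅]
    · simpa using ind_le_one _
    · intro F hF
      rw [ind_neg, zero_mul]
      intro h
      obtain ⟨G, hG⟩ := nonempty_iff_ne_empty.2 hF
      obtain ⟨⟨y, hy⟩, h2⟩ := h.1 G hG
      simpa using h2 (sub_fill G hy)
  set P : Finset (Finset V) → ENNReal := fun F => ∏ G ∈ F, (r G * ex (a * (fill G).card)) with hP
  calc _ ≤ ∑' F, (ind (Fam (L.erase x) F) * P F + ∑' G, (ind (x ∈ fill G ∧ fill G ⊆ L) *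
          (r G * ex (a * (fill G).card))) *
          (ind (G ∈ F) * (ind (Fam (L \ fill G) (F.erase G)) * P (F.erase G)))) := by
        refine ENNReal.tsum_le_tsum fun F => ?_
        rw [mul_comm]
        refine mul_ind_le fun hF => ?_
        by_cases hc : ∃ G ∈ F, x ∈ fill G
        · obtain ⟨G, hG, hxG⟩ := hc
          refine le_add_left (le_trans ?_ (ENNReal.le_tsum G))
          rw [ind_pos ⟨hxG, (hF.1 G hG).2⟩, ind_pos hG, ind_pos, one_mul, one_mul, one_mul]
          · exact (mul_prod_erase F _ hG).ge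
          · refine ⟨fun G' h' => ⟨(hF.1 G' (mem_of_mem_erase h')).1, subset_sdiff.2
              ⟨(hF.1 G' (mem_of_mem_erase h')).2,
                hF.2 G' (mem_of_mem_erase h') G hG (ne_of_mem_erase h')⟩⟩, fun A hA B hB =>
              hF.2 A (mem_of_mem_erase hA) B (mem_of_mem_erase hB)⟩
        · refine le_add_right ?_
          rw [ind_pos, one_mul]
          exact ⟨fun G hG => ⟨(hF.1 G hG).1, subset_erase.2 ⟨(hF.1 G hG).2,
            fun h => hc ⟨G, hG, h⟩⟩⟩, hF.2⟩
    _ ≤ ex (-a) * ex (a * L.card) + ∑' G, ind (x ∈ fill G) * r G * ex (a * L.card) := by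
        rw [ENNReal.tsum_add, ENNReal.tsum_comm]
        refine add_le_add ((ih _ (erase_ssubset hx)).trans (le_of_eq ?_))
          (ENNReal.tsum_le_tsum fun G => ?_)
        · rw [← ex_add, card_erase_of_mem hx, Nat.cast_pred (card_pos.2 ⟨x, hx⟩)]
          congr 1; ring
        · rw [ENNReal.tsum_mul_left]
          by_cases hG : x ∈ fill G ∧ fill G ⊆ L
          swap
          · simp [ind_neg hG]
          have h1 := tsum_ind_le (fun F : Finset (Finset V) => G ∈ F) (fun F => F.erase G)
            (fun A B hA hB e => by rw [← insert_erase hA, ← insert_erase hB]; exact congrArg _ e)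
            (fun F => ind (Fam (L \ fill G) F) * P F)
          have h2 := ih (L \ fill G) (sdiff_ssubset hG.2 ⟨x, hG.1⟩)
          rw [ind_pos hG, ind_pos hG.1, one_mul, one_mul, mul_assoc]
          gcongr
          calc _ ≤ ex (a * (fill G).card) * ex (a * (L \ fill G).card) := by
                gcongr; exact h1.trans h2
            _ = _ := by
                rw [← ex_add, ← card_sdiff_add_card_eq_card hG.2]; push_cast; congr 1; ring
    _ ≤ _ := by
        rw [ENNReal.tsum_mul_right, ← add_mul]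
        exact mul_le_of_le_one_left' (h x)

end Pool.Agent.Lib.MP_1f6494_pr
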