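import Mathlib

set_option autoImplicit false

namespace Pool.Agent.Lib.MP_1f6494_pr

open MeasureTheory

/-- position `S_i` in `ℤ^d` after `i` steps; a step is a coordinate and a sign -/
def walk {d n : ℕ} (s : Fin n → Fin d × Bool) (i : ℕ) : Fin d → ℤ :=
  ∑ t : Fin n, if (t : ℕ) < i then Pi.single (s t).1 (if (s t).2 then 1 else -1) else 0

/-- local time `ℓ_n(x)`, the number of `1 ≤ i ≤ n` with `S_i = x` -/
def localTime {d n : ℕ} (s : Fin n → Fin d × Bool) (x : Fin d → ℤ) : ℕ :=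
  ((Finset.Icc 1 n).filter fun i => walk s i = x).card

/-- `g*_{δ,β}(l)` for i.i.d. charges of law `ν` -/
noncomputable def gstar (ν : Measure ℝ) (δ β : ℝ) (l : ℕ) : ℝ :=
  ∫ ω : Fin l → ℝ, Real.exp (δ * ∑ i, ω i - β * (∑ i, ω i) ^ 2) ∂(Measure.pi fun _ => ν)

/-- `Z*_n(δ,β)`, average over the `(2d)^n` walks of length `n` -/
noncomputable def Zstar (d : ℕ) (ν : Measure ℝ) (δ β : ℝ) (n : ℕ) : ℝ :=
  (∑ s : Fin n → Fin d × Bool, ∏ᶠ x, gstar ν δ β (localTime s x)) / (2 * d) ^ n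

/-- the excess free energy `F*(δ,β)` -/
noncomputable def Fstar (d : ℕ) (ν : Measure ℝ) (p : ℝ × ℝ) : ℝ :=
  Filter.limsup (fun n : ℕ => Real.log (Zstar d ν p.1 p.2 n) / n) Filter.atTop

end Pool.Agent.Lib.MP_1f6494_pr
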