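import Pool.Agent.Lib.MP_1f6494_pr.Glue

set_option autoImplicit false

namespace Pool.Agent.Lib.MP_1f6494_pr

open Finset Classical Function

noncomputable def badS (k : ℕ) (L : Finset V) (σ : Cfg) : Finset V := L.filter (fun x => bad k (σ x))
noncomputable def TB (k : ℕ) (L : Finset V) (σ : Cfg) : Finset V := thick (badS k L σ)

def Base (k : ℕ) (q : Fin 3) (L : Finset V) (σ : Cfg) : Prop :=
  Valid L σ ∧ (∀ x ∈ TB k L σ, x ∈ L ∧ ∀ d, x + vec d ∈ L) ∧ ∀ x ∈ bd L, good k q (σ x)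

def Ens (k : ℕ) (q : Fin 3) (n : ℕ) (L : Finset V) (σ : Cfg) : Prop :=
  Base k q L σ ∧ ∀ G, IsComp (TB k L σ) G → (fill G).card ≤ n

def QC (k : ℕ) (q : Fin 3) (L : Finset V) (σ : Cfg) (G : Finset V) : Prop :=
  IsComp (TB k L σ) G ∧ ∀ x ∈ G, ∀ d, x + vec d ∉ fill G → good k q (σ (x + vec d))

def EE (k : ℕ) (q : Fin 3) (n : ℕ) (L : Finset V) (F : Finset (Finset V)) (σ : Cfg) : Prop :=
  Base k q L σ ∧ (∀ G ∈ F, QC k q L σ G) ∧
    ∀ G, IsComp (TB k L σ) G → (∃ G' ∈ F, G ⊆ fill G') ∨ (fill G).card ≤ n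

def vcf : Cfg := fun _ => St.free 0

/-- partition function of an event, with the boundary edge factors -/
noncomputable def ZZ (W : St → ENNReal) (ψ : ℕ → ENNReal) (L : Finset V) (E : Cfg → Prop) :
    ENNReal := sm (fun _ => W) L (fun σ => X ψ L (· ∉ L) σ * ind (E σ)) vcf

variable {k : ℕ} {W : St → ENNReal} {ψ : ℕ → ENNReal} {q : Fin 3} {n : ℕ} {L : Finset V}
  {σ σ' : Cfg}

lemma mem_badS {x : V} : x ∈ badS k L σ ↔ x ∈ L ∧ bad k (σ x) := mem_filter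

lemma ZZ_mono {E E' : Cfg → Prop} (h : ∀ σ, E σ → E' σ) : ZZ W ψ L E ≤ ZZ W ψ L E' :=
  sm_mono fun σ _ => mul_le_mul_right (ind_mono (h σ)) _

lemma TB_congr (e : ∀ x, x ∈ L → σ x = σ' x) : TB k L σ = TB k L σ' := by
  unfold TB badS
  rw [filter_congr fun x hx => by rw [e x hx]]

lemma Base.congr (h : Base k q L σ) (e : ∀ x, x ∈ L → σ x = σ' x) : Base k q L σ' :=
  ⟨h.1.congr e, TB_congr (k := k) e ▸ h.2.1, fun x hx => e x (mem_bd.1 hx).1 ▸ h.2.2 x hx⟩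

lemma Ens.congr (h : Ens k q n L σ) (e : ∀ x, x ∈ L → σ x = σ' x) : Ens k q n L σ' :=
  ⟨h.1.congr e, TB_congr (k := k) e ▸ h.2⟩

lemma dep_base : Dep (· ∈ L) (fun σ => X ψ L (· ∉ L) σ * ind (Base k q L σ)) :=
  (X_dep _ _ _).mul (Dep.ind fun _ _ e h => h.congr e)

lemma dep_ens : Dep (· ∈ L) (fun σ => X ψ L (· ∉ L) σ * ind (Ens k q n L σ)) :=
  (X_dep _ _ _).mul (Dep.ind fun _ _ e h => h.congr e)

lemma not_bad_of_not_TB {x : V} (hx : x ∈ L) (h : x ∉ TB k L σ) : ¬ bad k (σ x) :=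
  fun hb => h (sub_thick _ (mem_badS.2 ⟨hx, hb⟩))

lemma not_bad_of_adj {x y : V} (hy : y ∈ L) (h : x ∉ TB k L σ) (a : Adj x y) : ¬ bad k (σ y) :=
  fun hb => h (mem_thick.2 (Or.inr ⟨y, mem_badS.2 ⟨hy, hb⟩, a.symm⟩))

lemma cls_step (hk : 1 ≤ k) (hc : Cons L σ) {x : V} (hx : x ∈ L) (h : x ∉ TB k L σ) (d : Dir)
    (hd : x + vec d ∈ L) : cls k (σ x) = cls k (σ (x + vec d)) :=
  cls_adj hk (not_bad_of_not_TB hx h) (not_bad_of_adj hd h (adj_vec _ _)) (hc x hx d hd)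

lemma Base.ext (hk : 1 ≤ k) (h : Base k q L σ) {x : V} (hx : x ∈ L)
    (hf : ∀ G, IsComp (TB k L σ) G → x ∉ fill G) : good k q (σ x) := by
  have h1 := ext_class (fun x => cls k (σ x)) q h.2.1 (fun x hx => cls_step hk h.1.2.1 hx)
    (fun x hx => (h.2.2 x hx).cls_eq hk) x hx hf
  have h2 : x ∉ TB k L σ := fun hS => by
    obtain ⟨G, hG, hx'⟩ := exists_comp hS
    exact hf G hG (sub_fill G hx')
  exact h1 ▸ good_cls (not_bad_of_not_TB hx h2)

lemma Base.qc (hk : 1 ≤ k) (h : Base k q L σ) {G : Finset V} (hG : MaxC (TB k L σ) G) :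
    QC k q L σ G :=
  ⟨hG.1, fun x hx d hd => h.ext hk ((h.2.1 x (hG.1.2.1 hx)).2 d) fun _ hG' =>
    hG.outer hG' (sub_fill G hx) hd (adj_vec _ _)⟩

lemma Base.cover (hk : 1 ≤ k) (h : Base k q L σ) {x : V} (hx : x ∈ L) (hg : ¬ good k q (σ x)) :
    ∃ G, MaxC (TB k L σ) G ∧ x ∈ fill G := by
  by_contra hn
  refine hg (h.ext hk hx fun G hG hx' => ?_)
  obtain ⟨M, h1, h2⟩ := exists_maxC hG
  exact hn ⟨M, h1, h2 hx'⟩

lemma Base.ens (h : Base k q L σ) (hL : NoHole L) : Ens k q L.card L σ :=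
  ⟨h, fun _ hG => card_le_card (hL.fill_sub fun x hx => (h.2.1 x (hG.2.1 hx)).1)⟩

lemma Ens.mono {n' : ℕ} (h : Ens k q n L σ) (hn : n ≤ n') : Ens k q n' L σ :=
  ⟨h.1, fun G hG => (h.2 G hG).trans hn⟩

lemma isComp_union {A B G : Finset V} (hn : ∀ x ∈ A, ∀ y ∈ B, ¬ Adj x y) (h : IsComp A G) :
    IsComp (A ∪ B) G :=
  ⟨h.1, h.2.1.trans subset_union_left, h.2.2.1, fun x hx y hy a =>
    (mem_union.1 hy).elim (fun g => h.2.2.2 x hx y g a) fun g => absurd a (hn x (h.2.1 hx) y g)⟩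

lemma isComp_cases {A B G : Finset V} (hn : ∀ x ∈ A, ∀ y ∈ B, ¬ Adj x y) (h : IsComp (A ∪ B) G) :
    IsComp A G ∨ IsComp B G := by
  obtain ⟨x, hx⟩ := h.1
  rcases mem_union.1 (h.2.1 hx) with a | a
  · obtain ⟨G', h1, h2⟩ := exists_comp a
    exact Or.inl (h.eq (isComp_union hn h1) hx h2 ▸ h1)
  · obtain ⟨G', h1, h2⟩ := exists_comp a
    have := isComp_union (fun x hx y hy a => hn y hy x hx a.symm) h1
    rw [union_comm] at this
    exact Or.inr (h.eq this hx h2 ▸ h1)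

lemma thick_union (A B : Finset V) : thick (A ∪ B) = thick A ∪ thick B := by
  ext y; simp only [mem_thick, mem_union]
  constructor
  · rintro ((h | h) | ⟨x, h | h, a⟩)
    exacts [Or.inl (Or.inl h), Or.inr (Or.inl h), Or.inl (Or.inr ⟨x, h, a⟩), Or.inr (Or.inr ⟨x, h, a⟩)]
  · rintro ((h | ⟨x, h, a⟩) | (h | ⟨x, h, a⟩))
    exacts [Or.inl (Or.inl h), Or.inr ⟨x, Or.inl h, a⟩, Or.inl (Or.inr h), Or.inr ⟨x, Or.inr h, a⟩]

lemma TB_union (A B : Finset V) : TB k (A ∪ B) σ = TB k A σ ∪ TB k B σ := by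
  unfold TB badS; rw [filter_union, thick_union]

lemma TB_good {T : Finset V} (h : ∀ x ∈ T, good k q (σ x)) : TB k T σ = ∅ := by
  unfold TB badS
  rw [filter_eq_empty_iff.2 fun x hx => (h x hx).not_bad]; simp [thick]

lemma ZZ_empty : ZZ W ψ ∅ (Ens k q n ∅) = 1 := by
  rw [ZZ, sm_empty, ind_pos]
  · simp [X]
  · have : TB k ∅ vcf = ∅ := TB_good (q := q) (by simp)
    refine ⟨⟨valid_empty _, by simp [this], by simp [bd]⟩, fun G hG => ?_⟩
    obtain ⟨x, hx⟩ := hG.1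
    simpa [this] using hG.2.1 hx

lemma glueA {c : ℝ} (H : GH k W ψ q c) {Y T : Finset V} (hd : Disjoint Y T)
    (hr : ∀ x ∈ T, ∃ r, (∃ d, r + vec d ∉ Y ∪ T) ∧ Conn (· ∈ T) x r) {E E' : Cfg → Prop}
    (hE : ∀ η, E η → Valid Y η ∧ ∀ x ∈ bd Y, good k q (η x))
    (hE' : ∀ η σ, E η → (∀ x, x ∉ T → σ x = η x) → (∀ x ∈ T, good k q (σ x)) →
      Valid (Y ∪ T) σ → E' σ) :
    ex (-(c * T.card)) * ZZ W ψ Y E ≤ ZZ W ψ (Y ∪ T) E' := by
  unfold ZZ
  rw [sm_union hd, ← sm_mul]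
  refine sm_mono fun η _ => ?_
  rw [← mul_assoc]
  refine mul_ind_le fun hη => ?_
  have g := glue H hd (hE η hη).1 (fun x hx d h => (hE η hη).2 _ (mem_bd.2 ⟨h, opp d, by
    simpa using disjoint_right.1 hd hx⟩)) (Or.inl hr)
  rw [X_split (Q := (· ∉ Y ∪ T)) (R := (· ∈ T)) η (fun y => by
    have : y ∈ T → y ∉ Y := fun h => disjoint_right.1 hd h
    simp only [mem_union]; tauto) 
    (fun y h h' => h (by simp [h'])),
    mul_left_comm]
  refine (mul_le_mul_right g _).trans ?_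
  rw [← sm_mul]
  refine sm_mono fun σ hσ => ?_
  rw [X_union hd, mul_assoc]
  refine mul_le_mul' (le_of_eq (X_dep _ _ _ _ _ fun x hx => (hσ x (disjoint_left.1 hd hx)).symm))
    (mul_le_mul_right (ind_mono fun h => hE' η σ hη hσ h.1 h.2) _)

lemma glue_ens {c : ℝ} (H : GH k W ψ q c) {Y T : Finset V} (hd : Disjoint Y T)
    (hr : ∀ x ∈ T, ∃ r, (∃ d, r + vec d ∉ Y ∪ T) ∧ Conn (· ∈ T) x r) :
    ex (-(c * T.card)) * ZZ W ψ Y (Ens k q n Y) ≤ ZZ W ψ (Y ∪ T) (Ens k q n (Y ∪ T)) := by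
  refine glueA H hd hr (fun η h => ⟨h.1.1, h.1.2.2⟩) fun η σ h e hg hv => ?_
  have h' := h.congr fun x hx => (e x (disjoint_left.1 hd hx)).symm
  have : TB k (Y ∪ T) σ = TB k Y σ := by rw [TB_union, TB_good hg, union_empty]
  refine ⟨⟨hv, fun x hx => ?_, fun x hx => ?_⟩, this ▸ h'.2⟩
  · have := h'.1.2.1 x (this ▸ hx)
    exact ⟨mem_union_left _ this.1, fun d => mem_union_left _ (this.2 d)⟩
  · obtain ⟨h1, d, h2⟩ := mem_bd.1 hx
    exact (mem_union.1 h1).elim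
      (fun a => h'.1.2.2 x (mem_bd.2 ⟨a, d, fun g => h2 (mem_union_left _ g)⟩)) (hg x)

lemma mult_ens {A B : Finset V} (hd : Disjoint A B) (hn : ∀ x ∈ A, ∀ d, x + vec d ∉ B) :
    ZZ W ψ A (Ens k q n A) * ZZ W ψ B (Ens k q n B) ≤ ZZ W ψ (A ∪ B) (Ens k q n (A ∪ B)) := by
  have hn' : ∀ x ∈ B, ∀ d, x + vec d ∉ A := fun x hx d h => hn _ h (opp d) (by simpa using hx)
  unfold ZZ
  rw [← sm_mul_sm hd dep_ens dep_ens]
  refine sm_mono fun σ _ => ?_
  rw [X_union hd, mul_mul_mul_comm, ← ind_and]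
  refine mul_le_mul' (le_of_eq ?_) (ind_mono fun ⟨h1, h2⟩ => ⟨⟨h1.1.1.union h2.1.1 hn, ?_, ?_⟩, ?_⟩)
  · congr 1
    · exact X_congr (fun x hx d => by simp [hn x hx d]) fun _ _ _ _ => rfl
    · exact X_congr (fun x hx d => by simp [hn' x hx d]) fun _ _ _ _ => rfl
  · rw [TB_union]
    intro x hx
    rcases mem_union.1 hx with a | a
    · exact ⟨mem_union_left _ (h1.1.2.1 x a).1, fun d => mem_union_left _ ((h1.1.2.1 x a).2 d)⟩
    · exact ⟨mem_union_right _ (h2.1.2.1 x a).1, fun d => mem_union_right _ ((h2.1.2.1 x a).2 d)⟩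
  · intro x hx
    obtain ⟨g1, d, g2⟩ := mem_bd.1 hx
    rcases mem_union.1 g1 with a | a
    · exact h1.1.2.2 x (mem_bd.2 ⟨a, d, fun g => g2 (mem_union_left _ g)⟩)
    · exact h2.1.2.2 x (mem_bd.2 ⟨a, d, fun g => g2 (mem_union_right _ g)⟩)
  · rw [TB_union]
    intro G hG
    refine (isComp_cases ?_ hG).elim (h1.2 G) (h2.2 G)
    rintro x hx y hy ⟨d, rfl⟩
    exact hn x (h1.1.2.1 x hx).1 d (h2.1.2.1 _ hy).1

lemma Ens.shift {a : V} (h : Ens k q n L (fun x => σ (x + a))) : Ens k q n (sh a L) σ := by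
  have e : TB k (sh a L) σ = sh a (TB k L fun x => σ (x + a)) := by
    unfold TB
    rw [← thick_sh]
    congr 1; ext y; simp [mem_badS, mem_sh]
  refine ⟨⟨h.1.1.shift, ?_, ?_⟩, ?_⟩
  · rw [e]
    intro x hx
    have := h.1.2.1 _ (mem_sh.1 hx)
    exact ⟨mem_sh.2 this.1, fun d => mem_sh.2 (by
      rw [show x + vec d - a = x - a + vec d by abel]; exact this.2 d)⟩
  · rw [bd_sh]
    intro x hx
    simpa using h.1.2.2 _ (mem_sh.1 hx)
  · rw [e]
    intro G hG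
    have := isComp_sh (a := -a) hG
    rw [sh_sh] at this
    have := h.2 _ this
    rwa [fill_sh, card_sh] at this

lemma X_shift (a : V) : X ψ (sh a L) (· ∉ sh a L) σ = X ψ L (· ∉ L) (fun x => σ (x + a)) := by
  unfold X
  rw [sh, prod_image fun x _ y _ h => add_left_injective a h]
  refine prod_congr rfl fun x _ => prod_congr rfl fun d _ => ?_
  congr 2
  rw [show x + a + vec d = x + vec d + a by abel]
  exact propext add_mem_sh

lemma ZZ_shift (a : V) : ZZ W ψ (sh a L) (Ens k q n (sh a L)) = ZZ W ψ L (Ens k q n L) := by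
  have key : ∀ (a : V) (L : Finset V),
      ZZ W ψ L (Ens k q n L) ≤ ZZ W ψ (sh a L) (Ens k q n (sh a L)) := by
    intro a L
    unfold ZZ
    have := sm_shift (L := L) (f := fun σ => X ψ L (· ∉ L) σ * ind (Ens k q n L σ)) (η := vcf) W a
    refine le_trans this.ge (sm_mono fun σ _ => ?_)
    rw [X_shift]
    exact mul_le_mul_right (ind_mono Ens.shift) _
  refine le_antisymm ?_ (key a L)
  have := key (-a) (sh a L)
  rwa [sh_sh] at this

/-- standing hypotheses on the weights -/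
structure Hyp (k : ℕ) (W : St → ENNReal) (ψ : ℕ → ENNReal) (C τ : ℝ) : Prop where
  hk : 1 ≤ k
  hC : 10 ≤ C
  hτ : 1000 * C ≤ τ
  ψ1 : ∀ m, ψ m ≤ 1
  vac : W (St.free 0) ≤ 1
  S1 : ∑' s, W s * wh (bad k s) (ex (55 * τ)) ≤ ex C
  S2 : ∀ (F : Dir → Prop) (v : Dir → ℕ),
    ∑' s, W s * ind (¬ bad k s ∧ ∀ d, F d → s.m d = v d) ≤ ex C * ∏ d, wh (F d) (ψ (v d))
  G : ∀ q, q ≠ 0 → GH k W ψ q C

variable {C τ : ℝ}

lemma one_le_wh {p : Prop} {a : ENNReal} (h : 1 ≤ a) : 1 ≤ wh p a := by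
  unfold wh; split_ifs; exacts [h, le_rfl]

lemma Hyp.tot (H : Hyp k W ψ C τ) : ∑' s, W s ≤ ex C :=
  le_trans (ENNReal.tsum_le_tsum fun _ => le_mul_of_one_le_right'
    (one_le_wh (one_le_ex (by linarith [H.hC, H.hτ])))) H.S1

lemma Hyp.crude (H : Hyp k W ψ C τ) (L : Finset V) (η : Cfg) :
    sm (fun _ => W) L (fun _ => 1) η ≤ ex (C * L.card) := by
  have := sm_prod (w := fun _ => W) (L := L) (η := η) (fun _ _ => 1)
  simp only [prod_const_one, mul_one, prod_const] at this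
  rw [this, mul_comm, ← ex_pow]
  gcongr; exact H.tot

lemma Hyp.ZZ_le (H : Hyp k W ψ C τ) (L : Finset V) (E : Cfg → Prop) :
    ZZ W ψ L E ≤ ex (C * L.card) :=
  (sm_mono fun _ _ => mul_le_one' (X_le_one H.ψ1 _ _ _) (ind_le_one _)).trans (H.crude L _)

lemma St.eq_vac {s : St} (h : ∀ d, s.m d = 0) : s = St.free 0 :=
  St.ext (funext h) (funext fun a => s.out a (by simp [h]))

lemma Hyp.ZZ_zero (H : Hyp k W ψ C τ) (L : Finset V) : ZZ W ψ L (Base k 0 L) ≤ 1 := by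
  calc _ ≤ sm (fun _ => W) L (fun σ => ∏ x ∈ L, ind (σ x = St.free 0)) vcf := by
        refine sm_mono fun σ _ => mul_ind_le fun h => (X_le_one H.ψ1 _ _ _).trans ?_
        refine (prod_eq_one fun x hx => ind_pos (St.eq_vac (h.1.vacuum (fun y hy d => ?_) x hx))).ge
        have := h.2.2 y hy d
        simpa [J, bq] using this
    _ ≤ 1 := by
        rw [sm_prod (fun _ s => ind (s = St.free 0))]
        refine prod_le_one' fun x _ => ?_
        rw [tsum_eq_single (St.free 0) fun s hs => by rw [ind_neg hs, mul_zero], ind_pos rfl, mul_one]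
        exact H.vac

def Cut (k : ℕ) (G A : Finset V) (σ : Cfg) : Prop :=
  ∀ x ∈ G, ∀ d, x + vec d ∈ A → ¬ bad k (σ x) ∧ (σ x).m d = (σ (x + vec d)).m (opp d)

lemma Hyp.cut (H : Hyp k W ψ C τ) {G A : Finset V} (hd : Disjoint G A) (w : V → St → ENNReal)
    (β : V → ENNReal) (hw : ∀ x ∈ G, (w x = W ∧ β x = ex C) ∨ ((∀ d, x + vec d ∈ G) ∧
      ∑' s, w x s * wh (bad k s) (ex (55 * τ)) ≤ β x)) (η : Cfg) :
    sm w G (fun σ => ex (55 * τ * (badS k G σ).card) * ind (Cut k G A σ)) η ≤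
      (∏ x ∈ G, β x) * X ψ A (· ∈ G) η := by
  calc _ ≤ sm w G (fun σ => ∏ x ∈ G, (wh (bad k (σ x)) (ex (55 * τ)) * ind (∀ d, x + vec d ∈ A →
        ¬ bad k (σ x) ∧ (σ x).m d = (η (x + vec d)).m (opp d)))) η := by
        refine sm_mono fun σ hσ => mul_ind_le fun h => le_of_eq ?_
        rw [prod_mul_distrib, prod_eq_one (s := G) (f := fun x => ind _) fun x hx => ind_pos
          fun d hd' => by rw [← hσ _ (disjoint_right.1 hd hd')]; exact h x hx d hd', mul_one]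
        simp only [wh_eq]
        rw [← prod_filter, prod_const, ex_pow, mul_comm]; rfl
    _ ≤ _ := by
        rw [sm_prod (fun x s => wh (bad k s) (ex (55 * τ)) * ind (∀ d, x + vec d ∈ A →
          ¬ bad k s ∧ s.m d = (η (x + vec d)).m (opp d))), ← X_swap, ← prod_mul_distrib]
        refine prod_le_prod' fun x hx => ?_
        by_cases hA : ∃ d, x + vec d ∈ A
        · obtain ⟨d, hA⟩ := hA
          obtain ⟨h1, h2⟩ := (hw x hx).resolve_right fun h => disjoint_left.1 hd (h.1 d) hA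
          rw [h1, h2]
          refine le_trans (ENNReal.tsum_le_tsum fun s => mul_le_mul_right (mul_ind_le fun h => ?_) _)
            (H.S2 (fun d => x + vec d ∈ A) fun d => (η (x + vec d)).m (opp d))
          rw [wh_neg (h d hA).1, ind_pos ⟨(h d hA).1, fun d hd => (h d hd).2⟩]
        · rw [prod_eq_one fun d _ => wh_neg fun h => hA ⟨d, h⟩, mul_one]
          refine le_trans (ENNReal.tsum_le_tsum fun s => mul_le_mul_right
            (mul_le_of_le_one_right' (ind_le_one _)) _) ?_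
          rcases hw x hx with ⟨h1, h2⟩ | h
          · rw [h1, h2]; exact H.S1
          · exact h.2

end Pool.Agent.Lib.MP_1f6494_pr
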