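import Pool.Agent.Lib.MP_1f6494_pr.Law2
import Pool.Agent.Lib.MP_1f6494_pr.Defs

set_option autoImplicit false

namespace Pool.Agent.Lib.MP_1f6494_pr

open Finset Classical Function Real Filter MeasureTheory

def st : Dir → Fin 2 × Bool := ![(0, true), (1, true), (0, false), (1, false)]

lemma st_bij : Bijective st := by decide

lemma walk_st {n : ℕ} (s : Fin n → Dir) (i : ℕ) :
    LinearEquiv.finTwoArrow ℤ ℤ (walk (fun t => st (s t)) i) = pos 0 s i := by
  rw [walk, pos, zero_add, map_sum]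
  refine sum_congr rfl fun t _ => ?_
  split_ifs with h h'
  · generalize s t = d at *
    revert d; decide
  · generalize s t = d at *
    revert d; decide
  · exact map_zero _

lemma localTime_st {n : ℕ} (s : Fin n → Dir) (x : Fin 2 → ℤ) :
    localTime (fun t => st (s t)) x = lt 0 s (LinearEquiv.finTwoArrow ℤ ℤ x) := by
  symm
  refine card_bij (fun t _ => (t : ℕ) + 1) (fun t ht => ?_) (fun a _ b _ h => Fin.ext (by omega))
    fun i hi => ?_
  · simp only [mem_filter, mem_univ, true_and, ← walk_st, EmbeddingLike.apply_eq_iff_eq] at ht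
    exact mem_filter.2 ⟨mem_Icc.2 ⟨by omega, t.2⟩, ht⟩
  · obtain ⟨h1, h2⟩ := mem_filter.1 hi
    rw [mem_Icc] at h1
    refine ⟨⟨i - 1, by omega⟩, ?_, by simp only; omega⟩
    simp only [mem_filter, mem_univ, true_and, ← walk_st, EmbeddingLike.apply_eq_iff_eq]
    rwa [Nat.sub_add_cancel h1.1]

lemma Fstar_eq (ν : Measure ℝ) (δ β : ℝ) : Fstar 2 ν (δ, β) = FE (gstar ν δ β) := by
  have g0 : gstar ν δ β 0 = 1 := by
    simp [gstar, Measure.real]
  unfold Fstar FE
  congr 1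
  funext n
  congr 2
  rw [Zstar, Zr, sum_div]
  symm
  refine Fintype.sum_bijective (fun (s : Fin n → Dir) t => st (s t)) (st_bij.comp_left) _ _ fun s => ?_
  rw [wt, finprod_eq_of_bijective (g := fun y => gstar ν δ β (lt 0 s y)) _
    (LinearEquiv.finTwoArrow ℤ ℤ).bijective fun x => by rw [localTime_st],
    finprod_eq_prod_of_mulSupport_subset (s := univ.image fun t : Fin n => pos 0 s (t + 1))]
  · norm_num
  intro y hy
  by_contra h
  refine hy ?_
  have : lt 0 s y = 0 := card_eq_zero.2 (filter_eq_empty_iff.2 fun t _ e => h (by simp [← e]))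
  simp only [this, g0]

lemma exists_nu {ι : Type} [Fintype ι] {P v : ι → ℝ} (h0 : ∀ i, 0 ≤ P i) (h1 : ∑ i, P i = 1) :
    ∃ ν : Measure ℝ, IsProbabilityMeasure ν ∧ (∀ f : ℝ → ℝ, Continuous f → Integrable f ν ∧
      ∫ t, f t ∂ν = ∑ i, P i * f (v i)) ∧ ∀ (l : ℕ) (f : (Fin l → ℝ) → ℝ), Continuous f →
      ∫ t, f t ∂(Measure.pi fun _ => ν) = ∑ ω : Fin l → ι, (∏ i, P (ω i)) * f fun i => v (ω i) := by
  let _ : MeasurableSpace ι := ⊤
  let μ := (PMF.ofFintype (fun i => ENNReal.ofReal (P i)) (by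
    rw [← ENNReal.ofReal_sum_of_nonneg fun i _ => h0 i, h1, ENNReal.ofReal_one])).toMeasure
  have hv : Measurable v := measurable_from_top
  have hμ : ∀ i, μ {i} = ENNReal.ofReal (P i) := fun i => PMF.toMeasure_apply_singleton _ _ trivial
  have : IsProbabilityMeasure (μ.map v) := Measure.isProbabilityMeasure_map hv.aemeasurable
  refine ⟨μ.map v, this, fun f hf => ⟨?_, ?_⟩, fun l f hf => ?_⟩
  · rw [integrable_map_measure hf.aestronglyMeasurable hv.aemeasurable]
    exact .of_finite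
  · rw [integral_map hv.aemeasurable hf.aestronglyMeasurable, integral_fintype .of_finite]
    simp [Measure.real, hμ, h0]
  · rw [← Measure.pi_map_pi fun _ => hv.aemeasurable, integral_map (measurable_of_finite _).aemeasurable
      hf.aestronglyMeasurable,
      integral_fintype .of_finite]
    simp [Measure.real, hμ, h0]

theorem final : ∃ ν : Measure ℝ, IsProbabilityMeasure ν ∧
    (∀ δ : ℝ, Integrable (fun ω => exp (δ * ω)) ν) ∧ ∫ ω, ω ∂ν = 0 ∧ ∫ ω, ω ^ 2 ∂ν = 1 ∧
    ∃ δ β : ℝ, 0 < δ ∧ 0 < β ∧ 0 < Fstar 2 ν (δ, β) ∧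
      ¬ DifferentiableAt ℝ (fun t => Fstar 2 ν (t, β)) δ ∧ ¬ AnalyticAt ℝ (Fstar 2 ν) (δ, β) := by
  obtain ⟨k, F, x, P, s, h0, h1, h2, h3, h4, h5, h6, h7⟩ := exists_law
  have v0 : 0 < ∑ j : TT k, P j * vv x j ^ 2 :=
    sum_pos' (fun j _ => mul_nonneg (h0 _).le (sq_nonneg _))
      ⟨⟨0, zero_TT⟩, mem_univ _, mul_pos (h0 _) (by simp only [h3]; norm_num)⟩
  obtain ⟨σ, σ0, σ1⟩ : ∃ σ, 0 < σ ∧ σ ^ 2 = ∑ j : TT k, P j * vv x j ^ 2 :=
    ⟨_, sqrt_pos.2 v0, sq_sqrt v0.le⟩
  obtain ⟨ν, n1, n2, n3⟩ := exists_nu (P := fun j : TT k => P j) (v := fun j => vv x j / σ)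
    (fun j => (h0 _).le) h1
  have key : ∀ s, Fstar 2 ν ((64 * F * k + s) * σ, 32 * F * k * σ ^ 2) = FE (gl k F x P s) := fun s => by
    rw [Fstar_eq]
    congr 1
    funext l
    rw [gstar, n3 l _ (by fun_prop), gl]
    refine sum_congr rfl fun ω _ => ?_
    simp only [← sum_div, phs, Om]
    congr 2
    field_simp
  have nd : ¬ DifferentiableAt ℝ (fun t => Fstar 2 ν (t, 32 * F * k * σ ^ 2)) ((64 * F * k + s) * σ) :=
    fun h => h7 (by
      simp only [← key]
      exact h.comp s (f := fun s => (64 * F * k + s) * σ) (by fun_prop))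
  refine ⟨ν, n1, fun δ => (n2 _ (by fun_prop)).1, ?_, ?_, _, _, mul_pos h4 σ0, by positivity,
    key s ▸ h6, nd, fun h => nd ?_⟩
  · rw [(n2 (fun t => t) continuous_id).2]
    simp only [← mul_div_assoc, ← sum_div, h2, zero_div]
  · rw [(n2 (fun t => t ^ 2) (by fun_prop)).2]
    simp only [div_pow, ← mul_div_assoc, ← sum_div, ← σ1]
    exact div_self (by positivity)
  · exact h.differentiableAt.comp _ (f := fun t => (t, 32 * F * k * σ ^ 2)) (by fun_prop)

end Pool.Agent.Lib.MP_1f6494_pr
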