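import Mathlib

set_option autoImplicit false

namespace Pool.Agent.Lib.MP_1f6494_pr

open Finset Classical

abbrev V := ℤ × ℤ
abbrev Dir := Fin 4

def vec : Dir → V := ![(1, 0), (0, 1), (-1, 0), (0, -1)]
def opp (d : Dir) : Dir := d + 2

lemma vec0 : vec 0 = (1, 0) := rfl
lemma vec1 : vec 1 = (0, 1) := rfl
lemma vec2 : vec 2 = (-1, 0) := rfl
lemma vec3 : vec 3 = (0, -1) := rfl

lemma vec_opp (d : Dir) : vec (opp d) = -vec d := by revert d; decide
@[simp] lemma opp_opp (d : Dir) : opp (opp d) = d := by revert d; decide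
lemma opp_ne (d : Dir) : opp d ≠ d := by revert d; decide
lemma vec_inj : Function.Injective vec := by decide
lemma vec_ne (d : Dir) : vec d ≠ 0 := by revert d; decide
@[simp] lemma add_vec_opp (x : V) (d : Dir) : x + vec d + vec (opp d) = x := by
  rw [vec_opp]; abel
@[simp] lemma add_vec_opp' (x : V) (d : Dir) : x + vec (opp d) + vec d = x := by
  rw [vec_opp]; abel
lemma add_vec_ne (x : V) (d : Dir) : x + vec d ≠ x := by
  intro h; exact vec_ne d (by simpa using h)
lemma vec_fst (d : Dir) : |(vec d).1| ≤ 1 := by revert d; decide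
lemma vec_snd (d : Dir) : |(vec d).2| ≤ 1 := by revert d; decide

def Adj (x y : V) : Prop := ∃ d, y = x + vec d

lemma Adj.symm {x y : V} (h : Adj x y) : Adj y x := by
  obtain ⟨d, rfl⟩ := h
  exact ⟨opp d, by simp⟩

lemma adj_vec (x : V) (d : Dir) : Adj x (x + vec d) := ⟨d, rfl⟩

/-- connection by nearest neighbour steps inside a set -/
def Conn (P : V → Prop) : V → V → Prop :=
  Relation.ReflTransGen (fun a b => P a ∧ P b ∧ Adj a b)

namespace Conn
variable {P Q : V → Prop} {x y z : V}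

lemma refl : Conn P x x := Relation.ReflTransGen.refl
lemma trans (h : Conn P x y) (h' : Conn P y z) : Conn P x z := Relation.ReflTransGen.trans h h'
lemma single (hx : P x) (hy : P y) (h : Adj x y) : Conn P x y :=
  Relation.ReflTransGen.single ⟨hx, hy, h⟩
lemma tail (h : Conn P x y) (hy : P y) (hz : P z) (h' : Adj y z) : Conn P x z :=
  h.trans (single hy hz h')
lemma symm (h : Conn P x y) : Conn P y x := by
  induction h with
  | refl => exact refl
  | tail _ h2 ih => exact (single h2.2.1 h2.1 h2.2.2.symm).trans ih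
lemma mem (h : Conn P x y) (hx : P x) : P y := by
  induction h with
  | refl => exact hx
  | tail _ h2 _ => exact h2.2.1
lemma ind (h : Conn P x y) {R : V → Prop} (hx : R x)
    (hs : ∀ a b, P a → P b → Adj a b → R a → R b) : R y := by
  induction h with
  | refl => exact hx
  | tail _ h2 ih => exact hs _ _ h2.1 h2.2.1 h2.2.2 ih
/-- transfer along an invariant -/
lemma transfer (h : Conn P x y) (hx : Q x)
    (hs : ∀ a b, P a → P b → Adj a b → Q a → Q b) : Conn Q x y := by
  have : Conn Q x y ∧ Q y := by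
    refine h.ind (R := fun z => Conn Q x z ∧ Q z) ⟨refl, hx⟩ ?_
    intro a b ha hb hab ⟨h1, h2⟩
    exact ⟨h1.tail h2 (hs a b ha hb hab h2) hab, hs a b ha hb hab h2⟩
  exact this.1
lemma mono (h : Conn P x y) (hs : ∀ a, P a → Q a) : Conn Q x y := by
  induction h with
  | refl => exact refl
  | tail _ h2 ih => exact ih.tail (hs _ h2.1) (hs _ h2.2.1) h2.2.2
lemma shift (h : Conn P x y) (a : V) (hs : ∀ z, P z → Q (z + a)) : Conn Q (x + a) (y + a) := by
  induction h with
  | refl => exact refl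
  | tail _ h2 ih =>
    refine ih.tail (hs _ h2.1) (hs _ h2.2.1) ?_
    obtain ⟨d, hd⟩ := h2.2.2
    exact ⟨d, by rw [hd]; abel⟩
/-- first exit from a set along a connection -/
lemma exit (h : Conn P x y) {R : V → Prop} (hx : R x) (hy : ¬ R y) :
    ∃ a b, Conn (fun z => P z ∧ R z) x a ∧ P a ∧ R a ∧ P b ∧ ¬ R b ∧ Adj a b := by
  by_contra hn
  apply hy
  have : Conn (fun z => P z ∧ R z) x y ∧ R y := by
    refine h.ind (R := fun z => Conn (fun z => P z ∧ R z) x z ∧ R z) ⟨refl, hx⟩ ?_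
    intro a b ha hb hab ⟨h1, h2⟩
    have hb' : R b := by
      by_contra hb'
      exact hn ⟨a, b, h1, ha, h2, hb, hb', hab⟩
    exact ⟨h1.tail ⟨ha, h2⟩ ⟨hb, hb'⟩ hab, hb'⟩
  exact this.2
end Conn

lemma conn_line (P : V → Prop) (x : V) (d : Dir) (n : ℕ)
    (h : ∀ i : ℕ, i ≤ n → P (x + (i : ℤ) • vec d)) : Conn P x (x + (n : ℤ) • vec d) := by
  induction n with
  | zero => simpa using Conn.refl
  | succ n ih =>
    refine (ih fun i hi => h i (by omega)).tail (h n (by omega)) (h _ le_rfl) ⟨d, ?_⟩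
    push_cast; rw [add_smul, one_smul]; abel

/-- connected finite sets -/
def Cn (G : Finset V) : Prop := ∀ x ∈ G, ∀ y ∈ G, Conn (· ∈ G) x y

lemma cn_of_root {G : Finset V} (r : V) (h : ∀ x ∈ G, Conn (· ∈ G) r x) : Cn G :=
  fun x hx y hy => (h x hx).symm.trans (h y hy)

def IsComp (S G : Finset V) : Prop :=
  G.Nonempty ∧ G ⊆ S ∧ Cn G ∧ ∀ x ∈ G, ∀ y ∈ S, Adj x y → y ∈ G

lemma exists_comp {S : Finset V} {x : V} (hx : x ∈ S) : ∃ G, IsComp S G ∧ x ∈ G := by
  refine ⟨S.filter (Conn (· ∈ S) x), ⟨⟨x, by simp [hx, Conn.refl]⟩, filter_subset _ _, ?_, ?_⟩,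
    by simp [hx, Conn.refl]⟩
  · refine cn_of_root x fun y hy => ?_
    have h2 := (mem_filter.1 hy).2
    refine h2.transfer (Q := (· ∈ S.filter (Conn (· ∈ S) x))) (by simp [hx, Conn.refl]) ?_
    intro a b ha hb hab h
    exact mem_filter.2 ⟨hb, (mem_filter.1 h).2.tail ha hb hab⟩
  · intro a ha b hb hab
    exact mem_filter.2 ⟨hb, (mem_filter.1 ha).2.tail (mem_filter.1 ha).1 hb hab⟩

lemma IsComp.sub {S G A : Finset V} (h : IsComp S G) (hA : Cn A) (hS : A ⊆ S) {x : V}
    (hx : x ∈ A) (hx' : x ∈ G) : A ⊆ G := fun y hy =>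
  (hA x hx y hy).ind (R := (· ∈ G)) hx' fun a b _ hb hab ha => h.2.2.2 a ha b (hS hb) hab

lemma IsComp.eq {S G G' : Finset V} (h : IsComp S G) (h' : IsComp S G') {x : V}
    (hx : x ∈ G) (hx' : x ∈ G') : G = G' :=
  Subset.antisymm (h'.sub h.2.2.1 h.2.1 hx hx') (h.sub h'.2.2.1 h'.2.1 hx' hx)

lemma IsComp.disj {S G G' : Finset V} (h : IsComp S G) (h' : IsComp S G') (hne : G ≠ G') :
    Disjoint G G' := disjoint_left.2 fun _ hx hx' => hne (h.eq h' hx hx')

/-- points joined to the far left without meeting the set -/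
def Out (S : Finset V) (y : V) : Prop :=
  y ∉ S ∧ ∃ z, Conn (· ∉ S) y z ∧ ∀ w ∈ S, z.1 < w.1

lemma Out.of_conn {S : Finset V} {y y' : V} (h : Out S y') (hc : Conn (· ∉ S) y y') :
    Out S y := by
  obtain ⟨h1, z, h2, h3⟩ := h
  exact ⟨hc.symm.mem h1, z, hc.trans h2, h3⟩

lemma out_of_left {S : Finset V} {y : V} (h : ∀ w ∈ S, y.1 < w.1) : Out S y :=
  ⟨fun hy => lt_irrefl _ (h y hy), y, Conn.refl, h⟩

lemma Out.mono {S S' : Finset V} {y : V} (h : Out S' y) (hs : S ⊆ S') : Out S y := by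
  obtain ⟨h1, z, h2, h3⟩ := h
  exact ⟨fun h => h1 (hs h), z, h2.mono fun a ha h => ha (hs h), fun w hw => h3 w (hs hw)⟩

lemma exists_bound (S : Finset V) (y : V) : ∃ n : ℕ, ∀ w ∈ S, |w.1 - y.1| < n ∧ |w.2 - y.2| < n := by
  induction S using Finset.induction_on with
  | empty => exact ⟨0, by simp⟩
  | insert a S _ ih =>
    obtain ⟨n, hn⟩ := ih
    refine ⟨n + (a.1 - y.1).natAbs + (a.2 - y.2).natAbs + 1, fun w hw => ?_⟩
    rcases mem_insert.1 hw with rfl | hw
    · push_cast; constructor <;> linarith [abs_nonneg (w.1 - y.1), abs_nonneg (w.2 - y.2)]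
    · have := hn w hw
      push_cast; constructor <;> linarith [abs_nonneg (a.1 - y.1), abs_nonneg (a.2 - y.2)]

lemma out_of_ray {S : Finset V} {y : V} (h : ∀ j : ℕ, y + (j : ℤ) • vec 2 ∉ S) : Out S y := by
  obtain ⟨n, hn⟩ := exists_bound S y
  refine (out_of_left (y := y + (n : ℤ) • vec 2) fun w hw => ?_).of_conn
    (conn_line _ y 2 n fun i _ => h i)
  have := (abs_lt.1 (hn w hw).1).1
  simp [vec2]; linarith

lemma out_of_row {S : Finset V} {y : V} (h : y.2 ∉ S.image Prod.snd) : Out S y :=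
  out_of_ray fun j hj => h (mem_image.2 ⟨_, hj, by simp [vec2]⟩)

lemma out_of_col {S : Finset V} {y : V} (h : y.1 ∉ S.image Prod.fst) : Out S y := by
  obtain ⟨n, hn⟩ := exists_bound S y
  refine (out_of_row (y := y + (n : ℤ) • vec 1) fun hw => ?_).of_conn
    (conn_line _ y 1 n fun i _ hj => h (mem_image.2 ⟨_, hj, by simp [vec1]⟩))
  obtain ⟨w, hw, e⟩ := mem_image.1 hw
  have := (abs_lt.1 (hn w hw).2).2
  simp [vec1] at e; linarith

lemma Out.conn {S : Finset V} {y y' : V} (h : Out S y) (h' : Out S y') : Conn (· ∉ S) y y' := by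
  have key : ∀ z z' : V, (∀ w ∈ S, z.1 < w.1) → z'.1 ≤ z.1 → Conn (· ∉ S) z z' := by
    intro z z' hz hle
    have a1 : Conn (· ∉ S) z (z'.1, z.2) := by
      have := conn_line (· ∉ S) z 2 (z.1 - z'.1).toNat fun i _ hi => by
        have := hz _ hi
        simp [vec2] at this; omega
      rwa [show z + (((z.1 - z'.1).toNat : ℕ) : ℤ) • vec 2 = (z'.1, z.2) by
        ext <;> simp [vec2]; omega] at this
    have a2 : ∀ s t : ℤ, s ≤ t → Conn (· ∉ S) (z'.1, s) (z'.1, t) := by
      intro s t hst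
      have := conn_line (· ∉ S) (z'.1, s) 1 (t - s).toNat fun i _ hi => by
        have := hz _ hi
        simp [vec1] at this; omega
      rwa [show (z'.1, s) + (((t - s).toNat : ℕ) : ℤ) • vec 1 = (z'.1, t) by
        ext <;> simp [vec1]; omega] at this
    rcases le_total z.2 z'.2 with h | h
    · exact a1.trans (a2 _ _ h)
    · exact a1.trans (a2 _ _ h).symm
  obtain ⟨_, z, h2, h3⟩ := h
  obtain ⟨_, z', h2', h3'⟩ := h'
  rcases le_total z'.1 z.1 with h | h
  · exact (h2.trans (key z z' h3 h)).trans h2'.symm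
  · exact (h2.trans (key z' z h3' h).symm).trans h2'.symm

noncomputable def fill (S : Finset V) : Finset V :=
  (S.image Prod.fst ×ˢ S.image Prod.snd).filter (fun y => ¬ Out S y)

lemma mem_fill {S : Finset V} {y : V} : y ∈ fill S ↔ ¬ Out S y := by
  refine ⟨fun h => (mem_filter.1 h).2, fun h => mem_filter.2 ⟨mem_product.2 ⟨?_, ?_⟩, h⟩⟩
  · by_contra hn; exact h (out_of_col hn)
  · by_contra hn; exact h (out_of_row hn)

lemma not_mem_fill {S : Finset V} {y : V} : y ∉ fill S ↔ Out S y := by rw [mem_fill, not_not]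

lemma fill_col {S : Finset V} {y : V} (h : y ∈ fill S) : ∃ w ∈ S, w.1 = y.1 :=
  mem_image.1 (mem_product.1 (mem_filter.1 h).1).1

lemma fill_row {S : Finset V} {y : V} (h : y ∈ fill S) : ∃ w ∈ S, w.2 = y.2 :=
  mem_image.1 (mem_product.1 (mem_filter.1 h).1).2

lemma card_fill (S : Finset V) : (fill S).card ≤ S.card ^ 2 := by
  refine (card_filter_le _ _).trans ?_
  rw [card_product, sq]
  exact Nat.mul_le_mul card_image_le card_image_le

lemma sub_fill (S : Finset V) : S ⊆ fill S := fun _ hy => mem_fill.2 fun h => h.1 hy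

lemma fill_mono {S S' : Finset V} (h : S ⊆ S') : fill S ⊆ fill S' := fun _ hy =>
  mem_fill.2 fun h' => mem_fill.1 hy (h'.mono h)

lemma fill_conn {S : Finset V} {y y' : V} (h : y ∈ fill S) (hc : Conn (· ∉ S) y y') :
    y' ∈ fill S := mem_fill.2 fun h' => mem_fill.1 h (h'.of_conn hc)

lemma fill_bd {S : Finset V} {x y : V} (hx : x ∈ fill S) (hy : y ∉ fill S) (h : Adj x y) :
    x ∈ S := by
  by_contra hn
  exact hy (fill_conn hx (Conn.single hn (fun h => hy (sub_fill S h)) h))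

def NoHole (L : Finset V) : Prop := ∀ y, y ∉ L → Out L y

lemma NoHole.fill_sub {L S : Finset V} (h : NoHole L) (hS : S ⊆ L) : fill S ⊆ L := fun y hy => by
  by_contra hn
  exact mem_fill.1 hy ((h y hn).mono hS)

lemma noHole_fill (S : Finset V) : NoHole (fill S) := by
  intro y hy
  obtain ⟨h1, z, h2, h3⟩ := not_mem_fill.1 hy
  refine ⟨hy, z, h2.transfer hy fun a b ha hb hab h h' => ?_, fun w hw => ?_⟩
  · exact h (fill_conn h' (Conn.single hb ha hab.symm))
  · obtain ⟨v, hv, e⟩ := fill_col hw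
    rw [← e]; exact h3 v hv

lemma fill_sub_fill {S S' : Finset V} (h : S ⊆ fill S') : fill S ⊆ fill S' :=
  (noHole_fill S').fill_sub h

lemma fill_dich {A G : Finset V} (hA : Cn A) (hd : Disjoint A G) :
    A ⊆ fill G ∨ Disjoint A (fill G) := by
  by_cases h : Disjoint A (fill G)
  · exact Or.inr h
  · left
    obtain ⟨x, hx, hx'⟩ := not_disjoint_iff.1 h
    intro y hy
    exact fill_conn hx' ((hA x hx y hy).mono fun a ha => disjoint_left.1 hd ha)

/-- the first point of the set to the left -/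
noncomputable def lj (G : Finset V) (y : V) : ℕ := sInf {j : ℕ | y + (j : ℤ) • vec 2 ∈ G}
noncomputable def le (G : Finset V) (y : V) : V := y + (lj G y : ℤ) • vec 2

lemma le_mem {G : Finset V} {y : V} (h : y ∈ fill G) : le G y ∈ G := by
  have : {j : ℕ | y + (j : ℤ) • vec 2 ∈ G}.Nonempty := by
    by_contra hn
    exact mem_fill.1 h (out_of_ray fun j hj => hn ⟨j, hj⟩)
  exact Nat.sInf_mem this

lemma lj_lt {G : Finset V} {y : V} {i : ℕ} (hi : i < lj G y) : y + (i : ℤ) • vec 2 ∉ G :=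
  Nat.notMem_of_lt_sInf hi

lemma ray_fill {G : Finset V} {y : V} (h : y ∈ fill G) {i : ℕ} (hi : i ≤ lj G y) :
    y + (i : ℤ) • vec 2 ∈ fill G := by
  rcases hi.lt_or_eq with hi | rfl
  · exact fill_conn h (conn_line _ y 2 i fun j hj => lj_lt (by omega))
  · exact sub_fill _ (le_mem h)

lemma lj_lt_card {G : Finset V} {y : V} (h : y ∈ fill G) : lj G y < G.card := by
  have : (range (lj G y + 1)).image (fun i : ℕ => y.1 - i) ⊆ G.image Prod.fst := by
    intro t ht
    obtain ⟨i, hi, rfl⟩ := mem_image.1 ht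
    obtain ⟨w, hw, e⟩ := fill_col (ray_fill h (i := i) (by simpa [Nat.lt_succ_iff] using hi))
    exact mem_image.2 ⟨w, hw, by rw [e]; simp [vec2]; ring⟩
  have h2 := card_le_card this
  rw [card_image_of_injective _ (fun a b hab => by simpa using hab), card_range] at h2
  exact lt_of_lt_of_le h2 card_image_le

lemma le_conn {G : Finset V} {y : V} (hy : y ∉ G) (h : y ∈ fill G) :
    Conn (· ∉ G) y (le G y + vec 0) := by
  have h0 : lj G y ≠ 0 := by
    intro h0
    have := le_mem h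
    simp [le, h0] at this
    exact hy this
  obtain ⟨j, hj⟩ := Nat.exists_eq_succ_of_ne_zero h0
  have := conn_line (· ∉ G) y 2 j fun i hi => lj_lt (by omega)
  rwa [show y + (j : ℤ) • vec 2 = le G y + vec 0 by
    ext <;> simp [le, hj, vec0, vec2]; ring] at this

lemma le_conn_fill {G : Finset V} {y : V} (h : y ∈ fill G) : Conn (· ∈ fill G) y (le G y) :=
  conn_line _ y 2 _ fun _ hi => ray_fill h hi

lemma cn_fill {G : Finset V} (h : Cn G) : Cn (fill G) := fun _ hx _ hy =>
  ((le_conn_fill hx).trans ((h _ (le_mem hx) _ (le_mem hy)).mono fun _ ha => sub_fill G ha)).trans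
    (le_conn_fill hy).symm

lemma exists_ray {G : Finset V} {y : V} (h : y ∈ fill G) :
    ∃ R : Finset V, y ∈ R ∧ Cn R ∧ (∃ v ∈ R, v ∈ G) ∧ R.card ≤ G.card := by
  refine ⟨(range (lj G y + 1)).image (fun i : ℕ => y + (i : ℤ) • vec 2),
    mem_image.2 ⟨0, by simp, by simp⟩, cn_of_root y fun x hx => ?_,
    ⟨le G y, mem_image.2 ⟨lj G y, by simp, rfl⟩, le_mem h⟩, ?_⟩
  · obtain ⟨i, hi, rfl⟩ := mem_image.1 hx
    exact conn_line _ y 2 i fun j hj => mem_image.2 ⟨j, by simp at hi ⊢; omega, rfl⟩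
  · exact card_image_le.trans (by rw [card_range]; exact lj_lt_card h)

lemma exists_leftmost {G : Finset V} (h : G.Nonempty) : ∃ v ∈ G, ∀ w ∈ G, v.1 ≤ w.1 :=
  exists_min_image G Prod.fst h

lemma left_out {G : Finset V} {v : V} (hv : ∀ w ∈ G, v.1 ≤ w.1) : Out G (v + vec 2) :=
  out_of_left fun w hw => by have := hv w hw; simp [vec2]; omega

lemma not_mutual {G G' : Finset V} (hne : G.Nonempty) (hd : Disjoint G G') (h : G ⊆ fill G')
    (h' : G' ⊆ fill G) : False := by
  obtain ⟨v, hv, hm⟩ := exists_leftmost hne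
  have h1 := le_mem (h hv)
  obtain ⟨w, hw, e⟩ := fill_col (h' h1)
  have h2 := hm w hw
  have h0 : lj G' v ≠ 0 := by
    intro h0
    simp [le, h0] at h1
    exact disjoint_left.1 hd hv h1
  simp [le, vec2] at e
  omega

end Pool.Agent.Lib.MP_1f6494_pr
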