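import Pool.Agent.Lib.MP_1f6494_pr.Geo

set_option autoImplicit false

namespace Pool.Agent.Lib.MP_1f6494_pr

open Finset Classical

lemma exists_prim {A : Type*} [AddCommGroup A] (g : ℤ → A) :
    ∃ F : ℤ → A, F 0 = 0 ∧ ∀ n, F (n + 1) = F n + g n := by
  refine ⟨fun n => ∑ i ∈ Ico 0 n, g i - ∑ i ∈ Ico n 0, g i, by simp, fun n => ?_⟩
  rcases le_or_gt 0 n with h | h
  · have e1 : Ico (0 : ℤ) (n + 1) = insert n (Ico 0 n) := by ext; simp; omega
    have e2 : Ico (n + 1) (0 : ℤ) = ∅ := by ext; simp; omega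
    have e3 : Ico n (0 : ℤ) = ∅ := by ext; simp; omega
    simp only [e1, e2, e3]
    rw [sum_insert (by simp)]; simp; abel
  · have e1 : Ico n (0 : ℤ) = insert n (Ico (n + 1) 0) := by ext; simp; omega
    have e2 : Ico (0 : ℤ) (n + 1) = ∅ := by ext; simp; omega
    have e3 : Ico (0 : ℤ) n = ∅ := by ext; simp; omega
    simp only [e1, e2, e3]
    rw [sum_insert (by simp)]; simp

lemma exists_potential {A : Type*} [AddCommGroup A] (h v : V → A)
    (sq : ∀ x : V, h x + v (x + vec 0) = v x + h (x + vec 1)) :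
    ∃ f : V → A, ∀ x, f (x + vec 0) = f x + h x ∧ f (x + vec 1) = f x + v x := by
  obtain ⟨H, -, hH⟩ := exists_prim (fun n => h (n, 0))
  choose K K0 hK using fun a : ℤ => exists_prim (fun n => v (a, n))
  refine ⟨fun x => H x.1 + K x.1 x.2, fun ⟨a, b⟩ => ⟨?_, ?_⟩⟩
  · have step : ∀ b : ℤ, H (a + 1) + K (a + 1) (b + 1) - (H a + K a (b + 1) + h (a, b + 1)) =
        H (a + 1) + K (a + 1) b - (H a + K a b + h (a, b)) := by
      intro b
      have := sq (a, b)
      simp only [vec0, vec1, Prod.mk_add_mk, add_zero] at this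
      rw [hK, hK]
      have e : v (a + 1, b) = v (a, b) + h (a, b + 1) - h (a, b) := by rw [← this]; abel
      rw [e]; abel
    have : ∀ b : ℤ, H (a + 1) + K (a + 1) b - (H a + K a b + h (a, b)) = 0 := by
      intro b
      induction b using Int.induction_on with
      | zero => rw [K0, K0, hH]; abel
      | succ n ih => rw [step, ih]
      | pred n ih => rw [← step, ← ih]; congr 3 <;> ring_nf
    simpa [vec0, sub_eq_zero] using this b
  · simp only [vec1, Prod.mk_add_mk, add_zero]; rw [hK]; abel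

/-- a locally constant label is constant along the boundary of a connected set, seen from
one component of the complement -/
lemma timar {α : Type*} {G : Finset V} (hG : Cn G) (c : V → α)
    (h1 : ∀ u v, u ∉ G → v ∈ G → Adj u v → c u = c v)
    (h2 : ∀ u u', u ∉ G → u' ∉ G → Adj u u' → (∃ v ∈ G, Adj u v) → (∃ v ∈ G, Adj u' v) →
      c u = c u')
    {y y' v v' : V} (hy : y ∉ G) (hv : v ∈ G) (hv' : v' ∈ G) (a : Adj y v) (a' : Adj y' v')
    (hc : Conn (· ∉ G) y y') : c y = c y' := by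
  let χ : V → ZMod 2 := fun u => if c u = c y then 1 else 0
  let e : V → V → ZMod 2 := fun u w => if u ∉ G ∧ w ∉ G then χ u + χ w else 0
  have two : ∀ t : ZMod 2, t + t = 0 := by decide
  have hχ : ∀ u w, c u = c w → χ u = χ w := fun u w h => by simp only [χ, h]
  obtain ⟨f, hf⟩ := exists_potential (fun x => e x (x + vec 0)) (fun x => e x (x + vec 1)) (by
    intro x
    have e1 : x + vec 1 + vec 0 = x + vec 0 + vec 1 := by abel
    rw [e1]
    have a01 : Adj x (x + vec 0) := adj_vec _ _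
    have a02 : Adj x (x + vec 1) := adj_vec _ _
    have a13 : Adj (x + vec 0) (x + vec 0 + vec 1) := adj_vec _ _
    have a23 : Adj (x + vec 1) (x + vec 0 + vec 1) := e1 ▸ adj_vec _ _
    generalize x + vec 0 + vec 1 = p3 at *
    generalize x + vec 0 = p1 at *
    generalize x + vec 1 = p2 at *
    have key : ∀ s t r w : ZMod 2, s + t + (t + w) = s + r + (r + w) := by decide
    by_cases g0 : x ∈ G <;> by_cases g1 : p1 ∈ G <;> by_cases g2 : p2 ∈ G <;>
      by_cases g3 : p3 ∈ G <;> simp only [e, g0, g1, g2, g3, not_true, not_false_iff, and_true,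
        and_false, false_and, true_and, if_true, if_false, add_zero, zero_add, and_self]
    · rw [hχ p2 p3 (h2 _ _ g2 g3 a23 ⟨_, g0, a02.symm⟩ ⟨_, g1, a13.symm⟩), two]
    · rw [hχ p1 p3 (h2 _ _ g1 g3 a13 ⟨_, g0, a01.symm⟩ ⟨_, g2, a23.symm⟩), two]
    · rw [hχ p1 p2 ((h1 _ _ g1 g0 a01.symm).trans (h1 _ _ g2 g0 a02.symm).symm)]
    · rw [hχ x p2 (h2 _ _ g0 g2 a02 ⟨_, g1, a01⟩ ⟨_, g3, a23⟩), two]
    · rw [hχ x p3 ((h1 _ _ g0 g1 a01).trans (h1 _ _ g3 g1 a13.symm).symm)]
      generalize χ p3 = s; generalize χ p2 = t; revert s t; decide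
    · rw [hχ x p1 (h2 _ _ g0 g1 a01 ⟨_, g2, a02⟩ ⟨_, g3, a13⟩), two]
    · rw [hχ x p3 ((h1 _ _ g0 g2 a02).trans (h1 _ _ g3 g2 a23.symm).symm)]
      generalize χ p3 = s; generalize χ p1 = t; revert s t; decide
    · rw [hχ p1 p2 ((h1 _ _ g1 g3 a13).trans (h1 _ _ g2 g3 a23).symm)]
    · exact key _ _ _ _)
  have es : ∀ u w, e u w = e w u := fun u w => by simp only [e, and_comm, add_comm]
  have hadj : ∀ u w, Adj u w → f w = f u + e u w := by
    have back : ∀ u w, f u = f w + e w u → f w = f u + e u w := by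
      intro u w h; rw [h, es w u, add_assoc, two, add_zero]
    rintro u w ⟨d, rfl⟩
    fin_cases d
    · exact (hf u).1
    · exact (hf u).2
    · apply back
      have := (hf (u + vec 2)).1
      rwa [show u + vec 2 + vec 0 = u from add_vec_opp u 2] at this
    · apply back
      have := (hf (u + vec 3)).2
      rwa [show u + vec 3 + vec 1 = u from add_vec_opp u 3] at this
  have c1 : f v' = f v := (hG v hv v' hv').ind (R := fun z => f z = f v) rfl fun a b ha _ hab h => by
    rw [hadj a b hab, h]; simp [e, ha]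
  have c2 : f y' + χ y' = f y + χ y :=
    hc.ind (R := fun z => f z + χ z = f y + χ y) rfl fun a b ha hb hab h => by
      rw [hadj a b hab, ← h]; simp only [e, ha, hb, not_false_iff, and_self, if_true]
      rw [add_assoc, add_assoc, two, add_zero]
  have c3 : f v = f y := by rw [hadj y v a]; simp [e, hv]
  have c4 : f v' = f y' := by rw [hadj y' v' a']; simp [e, hv']
  rw [← c3, ← c4, c1] at c2
  have : χ y' = χ y := add_left_cancel c2
  by_contra hn
  simp [χ, Ne.symm hn] at this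

/-- components not surrounded by another component -/
def MaxC (S G : Finset V) : Prop := IsComp S G ∧ ∀ G', IsComp S G' → G ⊆ fill G' → G' = G

lemma exists_maxC {S G : Finset V} (h : IsComp S G) : ∃ M, MaxC S M ∧ fill G ⊆ fill M := by
  obtain ⟨M, hM, hmax⟩ := exists_max_image
    (S.powerset.filter fun M => IsComp S M ∧ G ⊆ fill M) (fun M => (fill M).card)
    ⟨G, mem_filter.2 ⟨mem_powerset.2 h.2.1, h, sub_fill G⟩⟩
  obtain ⟨-, hM1, hM2⟩ := mem_filter.1 hM
  refine ⟨M, ⟨hM1, fun G' h' hs => ?_⟩, fill_sub_fill hM2⟩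
  by_contra hne
  have h3 := fill_sub_fill hs
  have h4 := hmax G' (mem_filter.2 ⟨mem_powerset.2 h'.2.1, h', hM2.trans h3⟩)
  have h5 : fill M = fill G' := eq_of_subset_of_card_le h3 h4
  exact not_mutual hM1.1 (hM1.disj h' (Ne.symm hne)) hs (h5 ▸ sub_fill G')

lemma MaxC.disj {S G G' : Finset V} (h : MaxC S G) (h' : MaxC S G') (hne : G ≠ G') :
    Disjoint (fill G) (fill G') := by
  have d1 : Disjoint G' (fill G) := by
    rcases fill_dich h'.1.2.2.1 (h'.1.disj h.1 hne.symm) with hs | hd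
    · exact absurd (h'.2 G h.1 hs) hne
    · exact hd
  rcases fill_dich (cn_fill h.1.2.2.1) d1.symm with hs | hd
  · exact absurd (h.2 G' h'.1 ((sub_fill G).trans hs)) hne.symm
  · exact hd

lemma comp_nbr {S G G' : Finset V} (h : IsComp S G) (h' : IsComp S G')
    (hd : Disjoint (fill G) (fill G')) {x u : V}
    (hx : x ∈ fill G) (hu : u ∈ fill G') (a : Adj x u) : False := by
  have h1 := fill_bd hx (disjoint_right.1 hd hu) a
  have h2 := fill_bd hu (disjoint_left.1 hd hx) a.symm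
  exact disjoint_left.1 hd (sub_fill _ (h.2.2.2 x h1 u (h'.2.1 h2) a)) hu

lemma MaxC.outer {S G G' : Finset V} (h : MaxC S G) (h' : IsComp S G') {x u : V}
    (hx : x ∈ fill G) (hu : u ∉ fill G) (a : Adj x u) : u ∉ fill G' := by
  intro hu'
  obtain ⟨M, hM, hs⟩ := exists_maxC h'
  by_cases e : G = M
  · exact hu (e ▸ hs hu')
  · exact comp_nbr h.1 hM.1 (h.disj hM e) hx (hs hu') a

noncomputable def bd (Y : Finset V) : Finset V := Y.filter (fun x => ∃ d, x + vec d ∉ Y)

lemma mem_bd {Y : Finset V} {x : V} : x ∈ bd Y ↔ x ∈ Y ∧ ∃ d, x + vec d ∉ Y := mem_filter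

lemma ext_class {α : Type*} {S L : Finset V} (c : V → α) (q : α)
    (b3 : ∀ x ∈ S, x ∈ L ∧ ∀ d, x + vec d ∈ L)
    (hc : ∀ x ∈ L, x ∉ S → ∀ d, x + vec d ∈ L → c x = c (x + vec d))
    (bc : ∀ x ∈ bd L, c x = q) :
    ∀ x ∈ L, (∀ G, IsComp S G → x ∉ fill G) → c x = q := by
  obtain ⟨N, hN⟩ := exists_bound L 0
  have key : ∀ n : ℕ, ∀ x ∈ L, x.1 + N ≤ n → (∀ G, IsComp S G → x ∉ fill G) → c x = q := by
    intro n
    induction n with
    | zero =>
      intro x hx h
      have := (abs_lt.1 (hN x hx).1).1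
      simp at this h; omega
    | succ n ih =>
      intro x hx hn h
      have hxS : x ∉ S := fun hS => by
        obtain ⟨G, hG, hx'⟩ := exists_comp hS
        exact h G hG (sub_fill G hx')
      by_cases h1 : x + vec 2 ∈ L
      swap
      · exact bc x (mem_bd.2 ⟨hx, 2, h1⟩)
      by_cases h2 : ∀ G, IsComp S G → x + vec 2 ∉ fill G
      · rw [hc x hx hxS 2 h1]
        exact ih _ h1 (by simp [vec2]; push_cast at hn; omega) h2
      push Not at h2
      obtain ⟨G0, hG0, h3⟩ := h2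
      obtain ⟨G, hG, hs⟩ := exists_maxC hG0
      have h4 := h G hG.1
      have h5 : x + vec 2 ∈ G := fill_bd (hs h3) h4 (adj_vec x 2).symm
      obtain ⟨v, hv, hm⟩ := exists_leftmost hG.1.1
      have h6 := left_out hm
      have nb : ∀ u w, u ∉ G → w ∈ G → Adj u w → u ∈ L ∧ u ∉ S := by
        intro u w hu hw a
        obtain ⟨d, rfl⟩ := a.symm
        exact ⟨(b3 w (hG.1.2.1 hw)).2 d, fun hS => hu (hG.1.2.2.2 w hw _ hS (adj_vec _ _))⟩
      have h7 : c x = c (v + vec 2) := by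
        refine timar hG.1.2.2.1 c ?_ ?_ (not_mem_fill.1 h4).1 h5 hv (adj_vec x 2)
          (adj_vec v 2).symm ((not_mem_fill.1 h4).conn h6)
        · intro u w hu hw a
          obtain ⟨h8, h9⟩ := nb u w hu hw a
          obtain ⟨d, rfl⟩ := a
          exact hc u h8 h9 d (b3 _ (hG.1.2.1 hw)).1
        · rintro u u' hu hu' a ⟨w, hw, b⟩ ⟨w', hw', b'⟩
          obtain ⟨h8, h9⟩ := nb u w hu hw b
          obtain ⟨d, rfl⟩ := a
          exact hc u h8 h9 d (nb _ w' hu' hw' b').1
      rw [h7]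
      refine ih _ ((b3 v (hG.1.2.1 hv)).2 2) ?_ fun G' hG' =>
        hG.outer hG' (sub_fill G hv) (not_mem_fill.2 h6) (adj_vec v 2)
      have := hm _ h5
      simp [vec2] at this ⊢; push_cast at hn; omega
  intro x hx
  exact key (x.1 + N).toNat x hx (by omega)

/-- a connected set surrounding a region -/
def Guard (G L : Finset V) : Prop :=
  G.Nonempty ∧ Cn G ∧ Disjoint G L ∧ L ⊆ fill G ∧ ∀ x ∈ L, ∀ d, x + vec d ∈ L ∨ x + vec d ∈ G

lemma Guard.noHole {G L : Finset V} (h : Guard G L) : NoHole L := by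
  obtain ⟨hne, hG, hd, hs, hn⟩ := h
  have tr : ∀ y y', y ∉ L → Conn (· ∉ G) y y' → Conn (· ∉ L) y y' := by
    intro y y' hy hc
    refine hc.transfer hy fun a b ha _ hab h hb => ?_
    obtain ⟨d, rfl⟩ := hab.symm
    rcases hn b hb d with h' | h'
    · exact h h'
    · exact ha h'
  have lf : ∀ z : V, (∀ w ∈ G, z.1 < w.1) → Out L z := fun z hz => out_of_left fun w hw => by
    obtain ⟨v, hv, e⟩ := fill_col (hs hw)
    rw [← e]; exact hz v hv
  have c1 : ∀ y ∈ G, Out L y := by
    intro y hy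
    obtain ⟨v, hv, hm⟩ := exists_leftmost hne
    have := lf (v + vec 2) fun w hw => by have := hm w hw; simp [vec2]; omega
    exact this.of_conn (((hG y hy v hv).mono fun a ha => disjoint_left.1 hd ha).tail
      (disjoint_left.1 hd hv) this.1 (adj_vec v 2))
  intro y hy
  by_cases hyG : y ∈ G
  · exact c1 y hyG
  by_cases hf : y ∈ fill G
  · have h1 := tr _ _ hy (le_conn hyG hf)
    exact (c1 _ (le_mem hf)).of_conn (h1.tail (h1.mem hy) (disjoint_left.1 hd (le_mem hf))
      (adj_vec _ 0).symm)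
  · obtain ⟨-, z, h2, h3⟩ := not_mem_fill.1 hf
    exact (lf z h3).of_conn (tr _ _ hy h2)

noncomputable def box (a : V) (n : ℕ) : Finset V := Ico a.1 (a.1 + n) ×ˢ Ico a.2 (a.2 + n)

lemma mem_box {a x : V} {n : ℕ} :
    x ∈ box a n ↔ (a.1 ≤ x.1 ∧ x.1 < a.1 + n) ∧ a.2 ≤ x.2 ∧ x.2 < a.2 + n := by
  simp [box]

lemma card_box (a : V) (n : ℕ) : (box a n).card = n ^ 2 := by simp [box, sq]

lemma noHole_box (a : V) (n : ℕ) : NoHole (box a n) := by
  intro y hy
  by_cases h : a.1 ≤ y.1 ∧ y.1 < a.1 + n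
  · refine out_of_row fun hw => ?_
    obtain ⟨w, hw, e⟩ := mem_image.1 hw
    exact hy (mem_box.2 ⟨h, e ▸ (mem_box.1 hw).2⟩)
  · refine out_of_col fun hw => ?_
    obtain ⟨w, hw, e⟩ := mem_image.1 hw
    exact h (e ▸ (mem_box.1 hw).1)

lemma cn_spread {G : Finset V} (hG : Cn G) (π : V → ℤ) (hπ : ∀ x d, |π (x + vec d) - π x| ≤ 1)
    {x y : V} (hx : x ∈ G) (hy : y ∈ G) : π y - π x < G.card := by
  have : Icc (π x) (π y) ⊆ G.image π := by
    refine (hG x hx y hy).ind (R := fun z => Icc (π x) (π z) ⊆ G.image π) ?_ ?_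
    · simpa using mem_image_of_mem π hx
    · rintro a b _ hb ⟨d, rfl⟩ h t ht
      have := abs_le.1 (hπ a d)
      rw [mem_Icc] at ht
      by_cases h' : t ≤ π a
      · exact h (mem_Icc.2 ⟨ht.1, h'⟩)
      · exact mem_image.2 ⟨_, hb, by omega⟩
  have h2 := (card_le_card this).trans card_image_le
  rw [Int.card_Icc] at h2
  omega

lemma exists_box {G : Finset V} (hne : G.Nonempty) (hG : Cn G) :
    ∃ a : V, fill G ⊆ box a G.card ∧ ∃ r ∈ G, r.1 = a.1 := by
  obtain ⟨v, hv, hm⟩ := exists_leftmost hne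
  obtain ⟨w, hw, hm'⟩ := exists_min_image G Prod.snd hne
  refine ⟨(v.1, w.2), (noHole_box _ _).fill_sub fun y hy => mem_box.2 ?_, v, hv, rfl⟩
  have h1 := cn_spread hG Prod.fst (fun x d => by simpa using vec_fst d) hv hy
  have h2 := cn_spread hG Prod.snd (fun x d => by simpa using vec_snd d) hw hy
  have := hm y hy
  have := hm' y hy
  simp; omega

noncomputable def thick (D : Finset V) : Finset V :=
  D ∪ D.biUnion (fun x => univ.image (fun d => x + vec d))

lemma mem_thick {D : Finset V} {y : V} : y ∈ thick D ↔ y ∈ D ∨ ∃ x ∈ D, Adj x y := by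
  simp [thick, Adj, eq_comm]

lemma card_thick (D : Finset V) : (thick D).card ≤ 5 * D.card := by
  refine (card_union_le _ _).trans ?_
  have := card_biUnion_le_card_mul D (fun x => univ.image (fun d : Dir => x + vec d)) 4
    fun x _ => card_image_le.trans (by simp)
  omega

lemma thick_mono {D D' : Finset V} (h : D ⊆ D') : thick D ⊆ thick D' := fun _ hy =>
  mem_thick.2 ((mem_thick.1 hy).imp (fun h' => h h') fun ⟨x, hx, a⟩ => ⟨x, h hx, a⟩)

lemma sub_thick (D : Finset V) : D ⊆ thick D := subset_union_left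

lemma comp_thick {D G : Finset V} (h : IsComp (thick D) G) : G ⊆ thick (D ∩ G) := by
  intro y hy
  rcases mem_thick.1 (h.2.1 hy) with h' | ⟨x, hx, a⟩
  · exact sub_thick _ (mem_inter.2 ⟨h', hy⟩)
  · exact mem_thick.2 (Or.inr ⟨x, mem_inter.2 ⟨hx, h.2.2.2 y hy x (sub_thick _ hx) a.symm⟩, a⟩)

lemma card_bd_le {Y T : Finset V} (h : ∀ x ∈ bd Y, ∃ y ∈ T, Adj y x) : (bd Y).card ≤ 4 * T.card := by
  have : bd Y ⊆ T.biUnion (fun x => univ.image (fun d => x + vec d)) := by
    intro x hx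
    obtain ⟨y, hy, d, rfl⟩ := h x hx
    exact mem_biUnion.2 ⟨y, hy, mem_image.2 ⟨d, mem_univ _, rfl⟩⟩
  have h2 := card_biUnion_le_card_mul T (fun x => univ.image (fun d : Dir => x + vec d)) 4
    fun x _ => card_image_le.trans (by simp)
  have := card_le_card this
  omega

/-- translation of a finite set -/
noncomputable def sh (a : V) (S : Finset V) : Finset V := S.image (· + a)

lemma mem_sh {a y : V} {S : Finset V} : y ∈ sh a S ↔ y - a ∈ S := by
  simp only [sh, mem_image]
  exact ⟨fun ⟨x, hx, e⟩ => by rw [← e]; simpa using hx, fun h => ⟨_, h, by simp⟩⟩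

lemma add_mem_sh {a y : V} {S : Finset V} : y + a ∈ sh a S ↔ y ∈ S := by simp [mem_sh]

lemma card_sh (a : V) (S : Finset V) : (sh a S).card = S.card :=
  card_image_of_injective _ (add_left_injective a)

lemma sh_sh (a : V) (S : Finset V) : sh (-a) (sh a S) = S := by ext; simp [mem_sh]

lemma out_sh {a y : V} {S : Finset V} (h : Out S y) : Out (sh a S) (y + a) := by
  obtain ⟨h1, z, h2, h3⟩ := h
  refine ⟨fun h => h1 (add_mem_sh.1 h), z + a, h2.shift a fun w hw h => hw (add_mem_sh.1 h),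
    fun w hw => ?_⟩
  have := h3 _ (mem_sh.1 hw)
  simp at this ⊢; omega

lemma fill_sh (a : V) (S : Finset V) : fill (sh a S) = sh a (fill S) := by
  ext y
  rw [mem_sh, mem_fill, mem_fill, not_iff_not]
  constructor
  · intro h
    have := out_sh (a := -a) h
    rwa [sh_sh, ← sub_eq_add_neg] at this
  · intro h
    simpa using out_sh (a := a) h

lemma cn_sh {a : V} {G : Finset V} (h : Cn G) : Cn (sh a G) := fun x hx y hy => by
  have := (h _ (mem_sh.1 hx) _ (mem_sh.1 hy)).shift (Q := (· ∈ sh a G)) a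
    fun z hz => add_mem_sh.2 hz
  simpa using this

lemma isComp_sh {a : V} {S G : Finset V} (h : IsComp S G) : IsComp (sh a S) (sh a G) := by
  refine ⟨h.1.image _, image_subset_image h.2.1, cn_sh h.2.2.1, fun x hx y hy ⟨d, hd⟩ => ?_⟩
  exact mem_sh.2 (h.2.2.2 _ (mem_sh.1 hx) _ (mem_sh.1 hy) ⟨d, by rw [hd]; abel⟩)

lemma thick_sh (a : V) (D : Finset V) : thick (sh a D) = sh a (thick D) := by
  ext y
  simp only [mem_thick, mem_sh]
  refine or_congr Iff.rfl ⟨fun ⟨x, hx, d, hd⟩ => ⟨x - a, hx, d, by rw [hd]; abel⟩,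
    fun ⟨x, hx, d, hd⟩ => ⟨x + a, by simpa using hx, d, ?_⟩⟩
  rw [sub_eq_iff_eq_add] at hd; rw [hd]; abel

lemma bd_sh (a : V) (Y : Finset V) : bd (sh a Y) = sh a (bd Y) := by
  ext y
  simp only [mem_bd, mem_sh]
  refine and_congr Iff.rfl (exists_congr fun d => ?_)
  rw [show y + vec d - a = y - a + vec d by abel]

lemma box_sh (a b : V) (n : ℕ) : sh a (box b n) = box (b + a) n := by
  ext y; simp only [mem_sh, mem_box, Prod.fst_sub, Prod.snd_sub, Prod.fst_add, Prod.snd_add]; omega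

end Pool.Agent.Lib.MP_1f6494_pr
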