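import Pool.Agent.Lib.MP_1f6494_pr.Match

set_option autoImplicit false

namespace Pool.Agent.Lib.MP_1f6494_pr

open Finset Classical Function

lemma sm_eta {S : Type*} {w : V → S → ENNReal} {L : Finset V} {f : (V → S) → ENNReal}
    {η η' : V → S} (h : ∀ x, x ∉ L → η x = η' x) : sm w L f η = sm w L f η' :=
  Dep.sm (P := fun _ => True) (fun σ σ' e => by rw [funext fun x => e x trivial]) L η η'
    fun x hx => h x hx.2

def St.free (m : Dir → ℕ) : St := ⟨m, id, fun _ => rfl, fun _ _ => rfl⟩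

lemma glue_mid {Y T N : Finset V} (hd : Disjoint Y T) {η : Cfg} (hY : Valid Y η)
    (base : V → Dir → ℕ) (rank : V → ℕ) (par : V → Dir) (hN : N ⊆ T)
    (sym : ∀ x ∈ T, ∀ d, x + vec d ∈ T → base x d = base (x + vec d) (opp d))
    (fix : ∀ x ∈ T, ∀ d, x + vec d ∈ Y → base x d = (η (x + vec d)).m (opp d))
    (hp : ∀ x ∈ N, 0 < base x (par x) ∧
      ((x + vec (par x) ∈ T ∧ rank (x + vec (par x)) < rank x) ∨ x + vec (par x) ∉ Y ∪ T))
    (hr : N = T ∨ ∃ r c, T = insert r N ∧ c.2 < base r c.1 ∧ Esc (Y ∪ T) T η (r, c) ∧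
      (∀ x ∈ N, x + vec (par x) ∈ T) ∧ ∑ x ∈ T, (deg (base x) : ZMod 2) = 0) :
    ∃ (m0 : V → Dir → ℕ) (j : V → ℕ),
      (∀ x ∈ T, ∀ d, m0 x d = base x d ∨ (m0 x d = base x d + 1 ∧ x + vec d ∉ Y ∧
        (x + vec d ∈ T ∨ (x ∈ N ∧ par x = d)))) ∧ (∀ x ∈ T, deg (m0 x) = 2 * (j x + 1)) ∧
      ∀ (W : St → ENNReal) (ω : V → ENNReal),
        (∀ x ∈ T, ∀ s : St, s.m = m0 x → op s = ∅ → ω x ≤ W s) →
        ∏ x ∈ T, (ω x * Df (j x)) ≤
          sm (fun _ => W) T (fun σ => ind ((∀ x ∈ T, (σ x).m = m0 x) ∧ Valid (Y ∪ T) σ)) η := by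
  obtain ⟨fl, f1, f2, f3, f4⟩ := tjoin rank par base N fun x hx h =>
    ((hp x hx).2.resolve_right fun g => g (mem_union_right _ (hN h))).2
  have f5 : ∀ x ∈ T, ∀ d, fl x d ≠ 0 → x + vec d ∉ Y ∧ (x + vec d ∈ T ∨ (x ∈ N ∧ par x = d)) := by
    intro x _ d h
    rcases f3 x d h with ⟨g1, rfl⟩ | ⟨g1, -⟩
    · exact ⟨fun g => (hp x g1).2.elim (fun g' => disjoint_left.1 hd g g'.1)
        fun g' => g' (mem_union_left _ g), Or.inr ⟨g1, rfl⟩⟩
    · exact ⟨disjoint_right.1 hd (hN g1), Or.inl (hN g1)⟩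
  have ev : ∀ x ∈ T, Even (deg fun d => base x d + fl x d) := by
    intro x hx
    by_cases hxN : x ∈ N
    · exact f4 x hxN
    rcases hr with rfl | ⟨r, c, rfl, -, -, h1, h2⟩
    · exact absurd hx hxN
    obtain rfl := (mem_insert.1 hx).resolve_right hxN
    have p1 := parity (A := insert x N) fl fun y _ d _ => f2 y d
    rw [sum_eq_zero (s := insert x N) (f := fun y => ∑ d, if y + vec d ∈ insert x N then 0 else
      (fl y d : ZMod 2)) fun y hy => sum_eq_zero fun d _ => by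
        split_ifs with h
        · rfl
        · by_contra hn
          rcases (f5 y hy d fun e => hn (by simp [e])).2 with g | ⟨g, rfl⟩
          · exact h g
          · exact h (h1 y g)] at p1
    have p2 : ∑ y ∈ insert x N, (deg (fun d => base y d + fl y d) : ZMod 2) = 0 := by
      have : ∀ y, deg (fun d => base y d + fl y d) = deg (base y) + deg (fl y) := fun y =>
        sum_add_distrib
      simp only [this, Nat.cast_add, sum_add_distrib, h2, p1, add_zero]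
    rw [sum_insert hxN, sum_eq_zero fun y hy => ZMod.natCast_eq_zero_iff_even.2 (f4 y hy),
      add_zero] at p2
    exact ZMod.natCast_eq_zero_iff_even.1 p2
  have esc : ∀ x ∈ T, ∃ c : Hs, c.2 < base x c.1 ∧
      ((x + vec c.1 ∈ T ∧ rank (x + vec c.1) < rank x) ∨ Esc (Y ∪ T) T η (x, c)) := by
    intro x hx
    by_cases hxN : x ∈ N
    · exact ⟨(par x, 0), (hp x hxN).1, (hp x hxN).2.imp id fun h => ⟨0, h, fun j h0 h1 => by omega⟩⟩
    rcases hr with rfl | ⟨r, c, rfl, h1, h2, -⟩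
    · exact absurd hx hxN
    obtain rfl := (mem_insert.1 hx).resolve_right hxN
    exact ⟨c, h1, Or.inr h2⟩
  have dg : ∀ x ∈ T, deg (fun d => base x d + fl x d) =
      2 * (deg (fun d => base x d + fl x d) / 2 - 1 + 1) := by
    intro x hx
    obtain ⟨c, h1, -⟩ := esc x hx
    have : base x c.1 + fl x c.1 ≤ deg (fun d => base x d + fl x d) :=
      single_le_sum (f := fun d => base x d + fl x d) (fun _ _ => Nat.zero_le _) (mem_univ c.1)
    obtain ⟨t, ht⟩ := ev x hx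
    omega
  refine ⟨fun x d => base x d + fl x d, fun x => deg (fun d => base x d + fl x d) / 2 - 1,
    fun x hx d => ?_, dg, fun W ω hω => ?_⟩
  · by_cases h : fl x d = 0
    · left; simp [h]
    · right
      have := f1 x d
      exact ⟨by simp only; omega, f5 x hx d h⟩
  have cons : ∀ σ : Cfg, (∀ x, x ∉ T → σ x = η x) →
      (∀ x ∈ T, (σ x).m = fun d => base x d + fl x d) → Cons (Y ∪ T) σ := by
    intro σ h1 h2
    have A : ∀ x ∈ T, ∀ d, x + vec d ∈ Y → (σ x).m d = (σ (x + vec d)).m (opp d) := by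
      intro x hx d h
      have : fl x d = 0 := by by_contra hn; exact (f5 x hx d hn).1 h
      rw [h2 x hx, h1 _ (disjoint_left.1 hd h), ← fix x hx d h]; simp [this]
    intro x hx d hxd
    rcases mem_union.1 hx with a | a <;> rcases mem_union.1 hxd with b | b
    · rw [h1 _ (disjoint_left.1 hd a), h1 _ (disjoint_left.1 hd b)]; exact hY.2.1 x a d b
    · have := A _ b (opp d) (by simpa using a)
      simpa using this.symm
    · exact A x a d b
    · rw [h2 _ a, h2 _ b]; simp only; rw [sym x a d b, f2 x d]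
  let η' : Cfg := fun x => if x ∈ T then St.free (fun d => base x d + fl x d) else η x
  have e1 : ∀ x, x ∉ T → η' x = η x := fun x hx => if_neg hx
  have e2 : ∀ x ∈ T, η' x = St.free (fun d => base x d + fl x d) := fun x hx => if_pos hx
  have t0 : Tm (Y ∪ T) η' := tm_init (hY.congr fun x hx => (e1 x (disjoint_left.1 hd hx)).symm)
    (cons η' e1 fun x hx => by rw [e2 x hx]; rfl) fun x hx => by rw [e2 x hx]; rfl
  rw [sm_eta (η' := η') fun x hx => (e1 x hx).symm]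
  refine (glue_core subset_union_right W rank (fun x d => base x d + fl x d) ω _ T le_rfl η' t0
    fun x hx => ?_).trans (sm_mono fun σ hσ => ind_mono fun ⟨g1, g2⟩ => ⟨fun x hx => (g1 x hx).1,
      valid_of_tm (fun x hx => ?_) (cons σ (fun x hx => (hσ x hx).trans (e1 x hx))
        fun x hx => (g1 x hx).1) g2⟩)
  · obtain ⟨c, h1, h2⟩ := esc x hx
    refine ⟨by rw [e2 x hx]; rfl, by rw [e2 x hx]; rfl, dg x hx, hω x hx, c, by omega,
      h2.imp id fun h => h.congr fun z hz => (e1 z (mem_sdiff.1 hz).2).symm⟩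
  · rcases mem_union.1 hx with a | a
    · rw [hσ x (disjoint_left.1 hd a), e1 x (disjoint_left.1 hd a)]; exact hY.1 x a
    · exact ⟨(g1 x a).2, (g1 x a).1 ▸ ev x a⟩

def bq (k : ℕ) : Fin 3 → ℕ := ![0, k, 4 * k]
def J (k : ℕ) (q : Fin 3) (m : ℕ) : Prop := bq k q ≤ m ∧ m ≤ 3 * bq k q
def good (k : ℕ) (q : Fin 3) (s : St) : Prop := ∀ d, J k q (s.m d)
def bad (k : ℕ) (s : St) : Prop := ∀ q, ¬ good k q s
noncomputable def cls (k : ℕ) (s : St) : Fin 3 := if h : ∃ q, good k q s then h.choose else 0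

lemma J_unique {k : ℕ} (hk : 1 ≤ k) {q q' : Fin 3} {m : ℕ} (h : J k q m) (h' : J k q' m) :
    q = q' := by
  unfold J bq at h h'
  fin_cases q <;> fin_cases q' <;> simp at h h' ⊢ <;> omega

lemma bq_pos {k : ℕ} (hk : 1 ≤ k) {q : Fin 3} (hq : q ≠ 0) : 1 ≤ bq k q := by
  fin_cases q <;> simp [bq] at hq ⊢ <;> omega

lemma good_cls {k : ℕ} {s : St} (h : ¬ bad k s) : good k (cls k s) s := by
  have : ∃ q, good k q s := by simpa [bad] using h
  rw [cls, dif_pos this]; exact this.choose_spec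

lemma good.not_bad {k : ℕ} {q : Fin 3} {s : St} (h : good k q s) : ¬ bad k s := fun h' => h' q h

lemma good.cls_eq {k : ℕ} (hk : 1 ≤ k) {q : Fin 3} {s : St} (h : good k q s) : cls k s = q :=
  J_unique hk (good_cls h.not_bad 0) (h 0)

lemma cls_adj {k : ℕ} (hk : 1 ≤ k) {s s' : St} (h : ¬ bad k s) (h' : ¬ bad k s') {d d' : Dir}
    (e : s.m d = s'.m d') : cls k s = cls k s' :=
  J_unique hk (good_cls h d) (e ▸ good_cls h' d')

noncomputable def wh (p : Prop) (a : ENNReal) : ENNReal := if p then a else 1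
lemma wh_pos {p : Prop} {a : ENNReal} (h : p) : wh p a = a := if_pos h
lemma wh_neg {p : Prop} {a : ENNReal} (h : ¬ p) : wh p a = 1 := if_neg h
lemma wh_eq (p : Prop) [Decidable p] (a : ENNReal) : wh p a = if p then a else 1 := by
  by_cases h : p <;> simp [wh, h]

/-- product of the edge factors over the edges from a set to a set -/
noncomputable def X (ψ : ℕ → ENNReal) (A : Finset V) (P : V → Prop) (σ : Cfg) : ENNReal :=
  ∏ x ∈ A, ∏ d, wh (P (x + vec d)) (ψ ((σ x).m d))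

lemma X_swap (ψ : ℕ → ENNReal) (A T : Finset V) (σ : Cfg) :
    ∏ x ∈ T, ∏ d, wh (x + vec d ∈ A) (ψ ((σ (x + vec d)).m (opp d))) = X ψ A (· ∈ T) σ := by
  unfold X
  simp only [wh_eq]
  rw [← prod_product', ← prod_product', ← prod_filter, ← prod_filter]
  refine prod_bij' (fun p _ => (p.1 + vec p.2, opp p.2)) (fun p _ => (p.1 + vec p.2, opp p.2))
    ?_ ?_ ?_ ?_ ?_ <;> simp +contextual

lemma X_congr {ψ : ℕ → ENNReal} {A : Finset V} {P Q : V → Prop} {σ σ' : Cfg}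
    (h : ∀ x ∈ A, ∀ d, P (x + vec d) ↔ Q (x + vec d))
    (h' : ∀ x ∈ A, ∀ d, P (x + vec d) → σ x = σ' x) : X ψ A P σ = X ψ A Q σ' := by
  refine prod_congr rfl fun x hx => prod_congr rfl fun d _ => ?_
  by_cases hp : P (x + vec d)
  · rw [wh_pos hp, wh_pos ((h x hx d).1 hp), h' x hx d hp]
  · rw [wh_neg hp, wh_neg fun g => hp ((h x hx d).2 g)]

lemma X_dep (ψ : ℕ → ENNReal) (A : Finset V) (P : V → Prop) : Dep (· ∈ A) (X ψ A P) :=
  fun _ _ e => X_congr (fun _ _ _ => Iff.rfl) fun x hx _ _ => e x hx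

lemma X_union {ψ : ℕ → ENNReal} {A B : Finset V} (h : Disjoint A B) (P : V → Prop) (σ : Cfg) :
    X ψ (A ∪ B) P σ = X ψ A P σ * X ψ B P σ := prod_union h

lemma X_le_one {ψ : ℕ → ENNReal} (h : ∀ m, ψ m ≤ 1) (A : Finset V) (P : V → Prop) (σ : Cfg) :
    X ψ A P σ ≤ 1 := prod_le_one' fun _ _ => prod_le_one' fun _ _ => by
  unfold wh; split_ifs; exacts [h _, le_rfl]

lemma X_split {ψ : ℕ → ENNReal} {A : Finset V} {P Q R : V → Prop} (σ : Cfg)
    (h : ∀ y, P y ↔ Q y ∨ R y) (h' : ∀ y, Q y → ¬ R y) : X ψ A P σ = X ψ A Q σ * X ψ A R σ := by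
  unfold X
  simp only [← prod_mul_distrib]
  refine prod_congr rfl fun x _ => prod_congr rfl fun d _ => ?_
  by_cases a : Q (x + vec d)
  · simp [wh, h, a, h' _ a]
  · by_cases b : R (x + vec d) <;> simp [wh, h, a, b]

/-- lower bounds on the weights used for gluing -/
structure GH (k : ℕ) (W : St → ENNReal) (ψ : ℕ → ENNReal) (q : Fin 3) (c : ℝ) : Prop where
  hk : 1 ≤ k
  hq : q ≠ 0
  ex : ∃ c1 c2 : ℝ, c1 + 8 * c2 ≤ c ∧ 0 ≤ c2 ∧ ex (-c2) ≤ ψ (2 * bq k q) ∧
    ex (-c2) ≤ ψ (2 * bq k q + 1) ∧ ∀ (m : Dir → ℕ) (j : ℕ), (∀ d, J k q (m d)) →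
    deg m = 2 * (j + 1) → ∃ ω, (∀ s : St, s.m = m → op s = ∅ → ω ≤ W s) ∧
      ex (-c1) * ∏ d, ψ (m d) ≤ ω * Df j

noncomputable def gbase (k : ℕ) (q : Fin 3) (Y : Finset V) (η : Cfg) (x : V) (d : Dir) : ℕ :=
  if x + vec d ∈ Y then (η (x + vec d)).m (opp d) else 2 * bq k q

lemma glue {k : ℕ} {W : St → ENNReal} {ψ : ℕ → ENNReal} {q : Fin 3} {c : ℝ} (H : GH k W ψ q c)
    {Y T : Finset V} (hd : Disjoint Y T) {η : Cfg} (hY : Valid Y η)
    (hg : ∀ x ∈ T, ∀ d, x + vec d ∈ Y → good k q (η (x + vec d)))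
    (hr : (∀ x ∈ T, ∃ r, (∃ d, r + vec d ∉ Y ∪ T) ∧ Conn (· ∈ T) x r) ∨
      ∃ r c, r ∈ T ∧ (∀ x ∈ T, Conn (· ∈ T) x r) ∧ c.2 < gbase k q Y η r c.1 ∧
        Esc (Y ∪ T) T η (r, c) ∧ ∑ x ∈ T, (deg (gbase k q Y η x) : ZMod 2) = 0) :
    ex (-(c * T.card)) * X ψ Y (· ∈ T) η ≤ sm (fun _ => W) T (fun σ => X ψ T (· ∉ Y ∪ T) σ *
      ind ((∀ x ∈ T, good k q (σ x)) ∧ Valid (Y ∪ T) σ)) η := by
  obtain ⟨c1, c2, hc, hc2, p1, p2, p3⟩ := H.ex
  have hb := bq_pos H.hk H.hq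
  have bJ : ∀ x ∈ T, ∀ d, J k q (gbase k q Y η x d) := by
    intro x hx d
    unfold gbase
    split_ifs with h
    · exact hg x hx d h _
    · constructor <;> omega
  have main : ∃ (m0 : V → Dir → ℕ) (j : V → ℕ),
      (∀ x ∈ T, ∀ d, m0 x d = gbase k q Y η x d ∨ (m0 x d = gbase k q Y η x d + 1 ∧ x + vec d ∉ Y)) ∧
      (∀ x ∈ T, deg (m0 x) = 2 * (j x + 1)) ∧
      ∀ (ω : V → ENNReal), (∀ x ∈ T, ∀ s : St, s.m = m0 x → op s = ∅ → ω x ≤ W s) →
        ∏ x ∈ T, (ω x * Df (j x)) ≤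
          sm (fun _ => W) T (fun σ => ind ((∀ x ∈ T, (σ x).m = m0 x) ∧ Valid (Y ∪ T) σ)) η := by
    have sym : ∀ x ∈ T, ∀ d, x + vec d ∈ T →
        gbase k q Y η x d = gbase k q Y η (x + vec d) (opp d) := fun x hx d h => by
      simp [gbase, disjoint_right.1 hd hx, disjoint_right.1 hd h]
    have fix : ∀ x ∈ T, ∀ d, x + vec d ∈ Y → gbase k q Y η x d = (η (x + vec d)).m (opp d) :=
      fun x _ d h => if_pos h
    have pos : ∀ x ∈ T, ∀ d, 0 < gbase k q Y η x d := fun x hx d => lt_of_lt_of_le hb (bJ x hx d).1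
    rcases hr with hr | ⟨r, e, h1, h2, h3, h4, h5⟩
    · obtain ⟨rank, par, hp⟩ := exists_rank _ hr
      obtain ⟨m0, j, g1, g2, g3⟩ := glue_mid (N := T) hd hY _ rank
        (fun x => if h : ∃ d, x + vec d ∉ Y ∪ T then h.choose else par x) le_rfl sym fix
        (fun x hx => ⟨pos x hx _, by
          by_cases h : ∃ d, x + vec d ∉ Y ∪ T
          · right; rw [dif_pos h]; exact h.choose_spec
          · left; rw [dif_neg h]; exact hp x hx h⟩) (Or.inl rfl)
      exact ⟨m0, j, fun x hx d => (g1 x hx d).imp id fun h => ⟨h.1, h.2.1⟩, g2, g3 W⟩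
    · obtain ⟨rank, par, hp⟩ := exists_rank (· = r) fun x hx => ⟨r, rfl, h2 x hx⟩
      obtain ⟨m0, j, g1, g2, g3⟩ := glue_mid (N := T.erase r) hd hY _ rank par (erase_subset _ _)
        sym fix (fun x hx => ⟨pos x (mem_of_mem_erase hx) _,
          Or.inl (hp x (mem_of_mem_erase hx) (ne_of_mem_erase hx))⟩)
        (Or.inr ⟨r, e, (insert_erase h1).symm, h3, h4,
          fun x hx => (hp x (mem_of_mem_erase hx) (ne_of_mem_erase hx)).1, h5⟩)
      exact ⟨m0, j, fun x hx d => (g1 x hx d).imp id fun h => ⟨h.1, h.2.1⟩, g2, g3 W⟩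
  obtain ⟨m0, j, g1, g2, g3⟩ := main
  have mJ : ∀ x ∈ T, ∀ d, J k q (m0 x d) := by
    intro x hx d
    rcases g1 x hx d with h | ⟨h, h'⟩
    · exact h ▸ bJ x hx d
    · rw [h, gbase, if_neg h']; constructor <;> omega
  have mψ : ∀ x ∈ T, ∀ d, x + vec d ∉ Y → ex (-c2) ≤ ψ (m0 x d) := by
    intro x hx d h'
    rcases g1 x hx d with h | ⟨h, -⟩ <;> rw [h, gbase, if_neg h'] <;> assumption
  have : ∀ x, ∃ ω, x ∈ T → (∀ s : St, s.m = m0 x → op s = ∅ → ω ≤ W s) ∧
      ex (-c1) * ∏ d, ψ (m0 x d) ≤ ω * Df (j x) := by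
    intro x
    by_cases hx : x ∈ T
    · obtain ⟨ω, h⟩ := p3 (m0 x) (j x) (mJ x hx) (g2 x hx)
      exact ⟨ω, fun _ => h⟩
    · exact ⟨0, fun h => absurd h hx⟩
  choose ω hω using this
  set Xo : ENNReal := ∏ x ∈ T, ∏ d, wh (x + vec d ∉ Y ∪ T) (ψ (m0 x d)) with hXo
  calc _ ≤ Xo * ∏ x ∈ T, (ω x * Df (j x)) := by
        rw [← X_swap, hXo, ← prod_mul_distrib, show -(c * T.card) = ∑ x ∈ T, -c by simp [mul_comm],
          ← ex_sum, ← prod_mul_distrib]
        refine prod_le_prod' fun x hx => le_trans ?_ (mul_le_mul_right (hω x hx).2 _)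
        rw [mul_left_comm, ← prod_mul_distrib]
        calc _ ≤ ex (-c1) * (∏ d : Dir, ex (-c2) * ex (-c2)) *
              ∏ d, wh (x + vec d ∈ Y) (ψ ((η (x + vec d)).m (opp d))) := by
              gcongr
              rw [← ex_add, ex_sum, ← ex_add]
              exact ex_le (by simp; linarith)
          _ ≤ _ := by
              rw [mul_assoc, ← prod_mul_distrib]
              refine mul_le_mul_right (prod_le_prod' fun d _ => ?_) _
              have e1 : ex (-c2) ≤ 1 := ex_le_one (by linarith)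
              by_cases h : x + vec d ∈ Y
              · rw [wh_pos h, wh_neg (by simp [h]), one_mul]
                rw [(g1 x hx d).resolve_right fun g => g.2 h, gbase, if_pos h]
                exact mul_le_of_le_one_left' (mul_le_one' e1 e1)
              · rw [wh_neg h, mul_one]
                refine mul_le_mul' ?_ (mψ x hx d h)
                unfold wh
                split_ifs
                exacts [e1, mψ x hx d h]
    _ ≤ Xo * _ := mul_le_mul_right (g3 ω fun x hx => (hω x hx).1) _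
    _ ≤ _ := by
        rw [← sm_mul]
        refine sm_mono fun σ _ => mul_ind_le fun ⟨h1, h2⟩ => ?_
        rw [ind_pos ⟨fun x hx d => h1 x hx ▸ mJ x hx d, h2⟩, mul_one]
        exact le_of_eq (prod_congr rfl fun x hx => by rw [h1 x hx])

end Pool.Agent.Lib.MP_1f6494_pr
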