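import Pool.Agent.Lib.MP_1f6494_pr.Main

set_option autoImplicit false

namespace Pool.Agent.Lib.MP_1f6494_pr

open Finset Classical Function Real Filter

variable {k : ℕ} {c F : ℝ}

lemma pois_low {b l : ℕ} (hb : 1 ≤ b) (h : l ≤ 6 * b) : exp (-(10 * b)) ≤ pois (4 * b) l := by
  have b0 : (0 : ℝ) < b := by exact_mod_cast hb
  have h' : (l : ℝ) ≤ 6 * b := by exact_mod_cast h
  have h1 : (l.factorial : ℝ) ≤ (4 * b) ^ l * exp (6 * b) := by
    calc (l.factorial : ℝ) ≤ (l : ℝ) ^ l := by exact_mod_cast Nat.factorial_le_pow l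
      _ ≤ (4 * b * exp 1) ^ l := by
          gcongr; nlinarith [add_one_le_exp (1 : ℝ)]
      _ ≤ _ := by rw [mul_pow, ← exp_nat_mul, mul_one]; gcongr
  rw [pois, le_div_iff₀ (by positivity)]
  refine (mul_le_mul_of_nonneg_left h1 (exp_pos _).le).trans (le_of_eq ?_)
  rw [mul_left_comm, ← exp_add, mul_comm]; congr 2; ring

lemma win_uniq (hk : 1 ≤ k) {q q' : Fin 3} {l : ℕ} (h : Win k q l) (h' : Win k q' l) : q = q' := by
  unfold Win bq at h h'
  fin_cases q <;> fin_cases q' <;> simp at h h' ⊢ <;> omega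

lemma log_pois (hk : 1 ≤ k) {q : Fin 3} {l : ℕ} (hq : q ≠ 0) (h : Win k q l) :
    0 < pois (4 * bq k q) l ∧ -(40 * k) ≤ log (pois (4 * bq k q) l) ∧ log (pois (4 * bq k q) l) ≤ 0 := by
  have h1 := pois_low (bq_pos hk hq) h.2
  have h2 := (exp_pos _).trans_le h1
  have h3 : (bq k q : ℝ) ≤ 4 * k := by exact_mod_cast bq_le k q
  refine ⟨h2, ?_, log_nonpos h2.le (pois_le_one (by positivity) _)⟩
  rw [le_log_iff_exp_le h2]
  exact (exp_le_exp.2 (by linarith)).trans h1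

def XP (k : ℕ) (F : ℝ) (q : Fin 3) (l : ℕ) (x : ℝ) : Prop :=
  32 * F * k * (2 * x - x ^ 2) = F * l + log (pois (4 * bq k q) l) ∧
    (lo q + 1) * (1 / (400 * k)) * l ≤ x ∧ x ≤ (hi q - 1) * (1 / (400 * k)) * l ∧ x ≤ 2 ∧
    (q ≠ 0 → 1 / 40 ≤ x)

lemma exists_x (hk : 1 ≤ k) (hF : 1000 ≤ F) : ∃ x : ℕ → ℝ, ∀ q l, Win k q l → XP k F q l (x l) := by
  suffices h : ∀ l, ∃ x, ∀ q, Win k q l → XP k F q l x by
    choose x hx using h
    exact ⟨x, fun q l => hx l q⟩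
  intro l
  by_cases w : ∃ q, Win k q l
  swap
  · exact ⟨0, fun q h => (w ⟨q, h⟩).elim⟩
  obtain ⟨q, w⟩ := w
  suffices h : ∃ x, XP k F q l x from h.imp fun x hx q' h' => win_uniq hk w h' ▸ hx
  by_cases hq : q = 0
  · subst hq
    have : l = 0 := by simpa [Win, bq] using w
    exact ⟨0, by simp [XP, this, pois, bq]⟩
  obtain ⟨-, p1, p2⟩ := log_pois hk hq w
  have k1 : (1 : ℝ) ≤ k := by exact_mod_cast hk
  have w1 := win_le w
  have w2 := win_ge hq w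
  have b0 : 0 < 32 * F * k := by positivity
  obtain ⟨y, hy⟩ : ∃ y, 32 * F * k * y = F * l + log (pois (4 * bq k q) l) :=
    ⟨_, mul_div_cancel₀ _ b0.ne'⟩
  have y1 : 1 / 20 ≤ y := le_of_mul_le_mul_left (by nlinarith) b0
  have y2 : 32 * k * y ≤ l := le_of_mul_le_mul_left (by nlinarith) (show 0 < F by linarith)
  have y3 : y ≤ 3 / 4 := by nlinarith
  have r0 := sqrt_nonneg (1 - y)
  have r1 := sq_sqrt (show 0 ≤ 1 - y by linarith)
  generalize √(1 - y) = r at r0 r1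
  have r2 : r ≤ 1 := by nlinarith
  have r3 : 1 / 2 ≤ r := by nlinarith
  have e : ∀ t : ℝ, t * (1 / (400 * k)) * l = t * l / (400 * k) := fun t => by ring
  unfold XP
  rw [← hy, e, e]
  simp only [le_div_iff₀ (show (0 : ℝ) < 400 * k by positivity),
    div_le_iff₀ (show (0 : ℝ) < 400 * k by positivity)]
  fin_cases q
  · exact (hq rfl).elim
  · refine ⟨1 - r, by congr 1; linarith, by simp [lo]; nlinarith, ?_, by linarith, fun _ => by nlinarith⟩
    have : 1 - r ≤ y := by nlinarith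
    simp [hi]; nlinarith
  · have : 8 * k ≤ l := by have := w.1; simp [bq] at this; omega
    have : 8 * (k : ℝ) ≤ l := by exact_mod_cast this
    exact ⟨1 + r, by congr 1; linarith, by simp [lo]; nlinarith, by simp [hi]; nlinarith, by linarith,
      fun _ => by linarith⟩

noncomputable def TT (k : ℕ) : Finset ℕ := (range (24 * k + 1)).filter fun j => ∃ q, Win k q j

lemma mem_TT {j : ℕ} : j ∈ TT k ↔ ∃ q, Win k q j := by
  rw [TT, mem_filter, mem_range, and_iff_right_iff_imp]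
  rintro ⟨q, h⟩
  have := h.2; have := bq_le k q; omega

lemma zero_TT : 0 ∈ TT k := mem_TT.2 ⟨0, by simp [Win, bq]⟩

def vv (x : ℕ → ℝ) (j : ℕ) : ℝ := (1 - j) * 40 + x j
noncomputable def Om (x : ℕ → ℝ) {l : ℕ} (ω : Fin l → TT k) : ℝ := ∑ i, vv x (ω i)
def phs (k : ℕ) (F s t : ℝ) : ℝ := (64 * F * k + s) * t - 32 * F * k * t ^ 2
noncomputable def gl (k : ℕ) (F : ℝ) (x P : ℕ → ℝ) (s : ℝ) (l : ℕ) : ℝ :=
  ∑ ω : Fin l → TT k, (∏ i, P (ω i)) * exp (phs k F s (Om x ω))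

variable {x P : ℕ → ℝ}

lemma x_basic (hk : 1 ≤ k) (hx : ∀ q l, Win k q l → XP k F q l (x l)) {j : ℕ} (hj : j ∈ TT k) :
    0 ≤ x j ∧ 4 * k * x j ≤ j ∧ (j : ℝ) ≤ 24 * k ∧ x j ≤ 2 ∧ 32 * F * k * (2 * x j - x j ^ 2) ≤ F * j ∧
      (j ≠ 0 → 1 / 40 ≤ x j ∧ 2 * (k : ℝ) ≤ j) ∧ (j = 0 → x j = 0) := by
  obtain ⟨q, w⟩ := mem_TT.1 hj
  obtain ⟨h1, h2, h3, h4, h5⟩ := hx q j w
  have k1 : (1 : ℝ) ≤ k := by exact_mod_cast hk
  have j0 : (0 : ℝ) ≤ j := Nat.cast_nonneg j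
  have a1 : 0 ≤ lo q + 1 := by fin_cases q <;> simp [lo] <;> norm_num
  have a2 : hi q - 1 ≤ 100 := by fin_cases q <;> simp [hi] <;> norm_num
  have b1 : 0 ≤ x j := le_trans (by positivity) h2
  have b2 : 4 * k * x j ≤ j := by
    have : x j ≤ 100 * (1 / (400 * k)) * j := h3.trans (by gcongr)
    refine (mul_le_mul_of_nonneg_left this (by positivity)).trans (le_of_eq ?_)
    field_simp; norm_num
  refine ⟨b1, b2, win_le w, h4, ?_, fun h => ?_, fun h => ?_⟩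
  · linarith [log_nonpos (pois_nonneg (show (0 : ℝ) ≤ 4 * bq k q by positivity) j)
      (pois_le_one (by positivity) j)]
  · have hq : q ≠ 0 := by rintro rfl; exact h (by simpa [Win, bq] using w)
    exact ⟨h5 hq, win_ge hq w⟩
  · subst h; simp only [Nat.cast_zero] at b2; nlinarith

lemma Om_abs (hk : 1 ≤ k) (hx : ∀ q l, Win k q l → XP k F q l (x l)) {l : ℕ} (ω : Fin l → TT k) :
    |Om x ω| ≤ 960 * k * l := by
  have k1 : (1 : ℝ) ≤ k := by exact_mod_cast hk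
  refine (abs_sum_le_sum_abs _ _).trans ((sum_le_card_nsmul _ _ (960 * k : ℝ) fun i _ => ?_).trans
    (by simp [mul_comm]))
  obtain ⟨h1, -, h2, h3, -⟩ := x_basic hk hx (ω i).2
  have j0 : (0 : ℝ) ≤ (ω i : ℕ) := Nat.cast_nonneg _
  rw [vv, abs_le]; constructor <;> linarith

lemma classify (hk : 1 ≤ k) (hF : 1000 ≤ F) (hx : ∀ q l, Win k q l → XP k F q l (x l)) {s : ℝ}
    (hs : |s| ≤ k) {l : ℕ} (ω : Fin l → TT k) :
    phs k F s (Om x ω) ≤ 999 / 1000 * F * l ∨ (l ∈ TT k ∧ Om x ω = x l) := by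
  have k1 : (1 : ℝ) ≤ k := by exact_mod_cast hk
  have l0 : (0 : ℝ) ≤ l := Nat.cast_nonneg l
  have B := fun i => x_basic hk hx (ω i).2
  have Fk : 1000 * k ≤ F * k := by gcongr
  obtain ⟨s1, s2⟩ := abs_le.1 hs
  by_cases hl : 36 * (k : ℝ) ≤ l
  · left
    generalize Om x ω = t
    have : s * (t - 1) ≤ k * (1 + (t - 1) ^ 2) := by nlinarith [sq_nonneg (t - 1 - 1), sq_nonneg (t - 1 + 1)]
    unfold phs
    nlinarith [sq_nonneg (t - 1)]
  have e : Om x ω = 40 * (l - (∑ i, (ω i : ℕ) : ℕ)) + ∑ i, x (ω i) := by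
    simp only [Om, vv, sum_add_distrib, ← sum_mul, sum_sub_distrib]; simp; ring
  have X0 : 0 ≤ ∑ i, x (ω i) := sum_nonneg fun i _ => (B i).1
  have X1 : 4 * k * ∑ i, x (ω i) ≤ (∑ i, (ω i : ℕ) : ℕ) := by
    rw [mul_sum, Nat.cast_sum]; exact sum_le_sum fun i _ => (B i).2.1
  have Fl : 0 ≤ 999 / 1000 * F * l := by positivity
  rcases lt_trichotomy (∑ i, (ω i : ℕ)) l with h | h | h
  · left
    have : ((∑ i, (ω i : ℕ) : ℕ) : ℝ) + 1 ≤ l := by exact_mod_cast h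
    have : 40 ≤ Om x ω := by linarith
    generalize Om x ω = t at *
    refine le_trans ?_ Fl
    rw [phs, show (64 * F * k + s) * t - 32 * F * k * t ^ 2 = t * (64 * F * k + s - 32 * F * k * t) by ring]
    exact mul_nonpos_of_nonneg_of_nonpos (by linarith) (by nlinarith)
  swap
  · left
    have : (l : ℝ) + 1 ≤ ((∑ i, (ω i : ℕ) : ℕ) : ℝ) := by exact_mod_cast h
    have : Om x ω ≤ 0 := by
      rw [e]
      generalize ((∑ i, (ω i : ℕ) : ℕ) : ℝ) = N at *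
      nlinarith
    generalize Om x ω = t at *
    refine le_trans ?_ Fl
    rw [phs, show (64 * F * k + s) * t - 32 * F * k * t ^ 2 = t * (64 * F * k + s - 32 * F * k * t) by ring]
    exact mul_nonpos_of_nonpos_of_nonneg this (by nlinarith)
  rw [h] at X1
  rw [h, sub_self, mul_zero, zero_add] at e
  by_cases two : ∃ i j, j ≠ i ∧ (ω i : ℕ) ≠ 0 ∧ (ω j : ℕ) ≠ 0
  · left
    obtain ⟨i, j, ij, hi, hj⟩ := two
    have a1 := add_sum_erase univ (fun i => x (ω i)) (mem_univ i)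
    have a2 := add_sum_erase univ (fun i => x (ω i) ^ 2) (mem_univ i)
    have a3 := sum_sq_le_sq_sum_of_nonneg (s := univ.erase i) (f := fun i => x (ω i)) fun i _ => (B i).1
    have a4 := single_le_sum (s := univ.erase i) (f := fun i => x (ω i)) (fun i _ => (B i).1)
      (mem_erase.2 ⟨ij, mem_univ j⟩)
    have a5 := ((B i).2.2.2.2.2.1 hi).1
    have a6 := ((B j).2.2.2.2.2.1 hj).1
    have a7 : ∑ i, x (ω i) ^ 2 + 1 / 800 ≤ (∑ i, x (ω i)) ^ 2 := by
      rw [← a1, ← a2]; nlinarith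
    have a8 : 32 * F * k * (2 * ∑ i, x (ω i) - ∑ i, x (ω i) ^ 2) ≤ F * l := by
      conv_rhs => rw [← h]
      rw [mul_sum, ← sum_sub_distrib, mul_sum, Nat.cast_sum, mul_sum]
      exact sum_le_sum fun i _ => (B i).2.2.2.2.1
    have a9 : ∑ i, x (ω i) ≤ 9 := by nlinarith
    rw [e, phs]
    generalize ∑ i, x (ω i) = X at *
    generalize ∑ i, x (ω i) ^ 2 = Y at *
    have b1 : s * X ≤ 9 * k := by nlinarith
    have b2 := mul_le_mul_of_nonneg_left a7 (show 0 ≤ 32 * F * k by positivity)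
    have b3 : F * l ≤ F * (36 * k) := by gcongr; linarith
    nlinarith
  right
  push Not at two
  by_cases z : ∃ i, (ω i : ℕ) ≠ 0
  · obtain ⟨i, hi⟩ := z
    rw [Fintype.sum_eq_single i fun j hj => two i j hj hi] at h
    rw [e, Fintype.sum_eq_single i fun j hj => (B j).2.2.2.2.2.2 (two i j hj hi), ← h]
    exact ⟨(ω i).2, rfl⟩
  · push Not at z
    rw [sum_eq_zero fun i _ => z i] at h
    rw [e, sum_eq_zero fun i _ => (B i).2.2.2.2.2.2 (z i), ← h]
    exact ⟨zero_TT, ((x_basic hk hx zero_TT).2.2.2.2.2.2 rfl).symm⟩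

end Pool.Agent.Lib.MP_1f6494_pr
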