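import Pool.Agent.Lib.MP_1f6494_pr.Law

set_option autoImplicit false

namespace Pool.Agent.Lib.MP_1f6494_pr

open Finset Classical Function Real Filter

variable {k : ℕ} {c F : ℝ} {x P : ℕ → ℝ}

lemma sum_P (h1 : ∑ j : TT k, P j = 1) (l : ℕ) : ∑ ω : Fin l → TT k, ∏ i, P (ω i) = 1 := by
  rw [← Fintype.piFinset_univ, ← prod_univ_sum (fun _ => univ) fun _ (j : TT k) => P j]
  simp only [h1, prod_const_one]

lemma gl_le (h0 : ∀ j, 0 < P j) (h1 : ∑ j : TT k, P j = 1) {s B : ℝ} {l : ℕ}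
    (h : ∀ ω : Fin l → TT k, phs k F s (Om x ω) ≤ B) : gl k F x P s l ≤ exp B := by
  refine (sum_le_sum fun ω _ => mul_le_mul_of_nonneg_left (exp_le_exp.2 (h ω))
    (prod_nonneg fun _ _ => (h0 _).le)).trans ?_
  rw [← sum_mul, sum_P h1, one_mul]

lemma phs_add (s s' t : ℝ) : phs k F (s + s') t = phs k F s t + s' * t := by unfold phs; ring

lemma main_term (hk : 1 ≤ k) (hx : ∀ q l, Win k q l → XP k F q l (x l)) (c4 : 4 ≤ c)
    (h2 : exp (-(2 / (3 * k))) ≤ P 0) (h3 : ∀ j ≠ 0, exp (-(2 * c)) ≤ P j) {q : Fin 3} {l : ℕ}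
    (hq : q ≠ 0) (w : Win k q l) : ∃ ω : Fin l → TT k, Om x ω = x l ∧ exp (-(6 * c)) ≤ ∏ i, P (ω i) := by
  have k1 : (1 : ℝ) ≤ k := by exact_mod_cast hk
  have w1 := win_le w
  have w2 := win_ge hq w
  obtain _ | m := l
  · simp at w2; linarith
  refine ⟨Fin.cons ⟨m + 1, mem_TT.2 ⟨q, w⟩⟩ fun _ => ⟨0, zero_TT⟩, ?_, ?_⟩
  · simp [Om, Fin.sum_univ_succ, vv, (x_basic hk hx zero_TT).2.2.2.2.2.2 rfl]
  · simp only [Fin.prod_univ_succ, Fin.cons_zero, Fin.cons_succ, prod_const, card_univ, Fintype.card_fin]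
    refine le_trans ?_ (mul_le_mul (h3 _ (by omega)) (pow_le_pow_left₀ (exp_pos _).le h2 m)
      (by positivity) ((exp_pos _).le.trans (h3 _ (by omega))))
    rw [← exp_nat_mul, ← exp_add]
    refine exp_le_exp.2 ?_
    have : m * (2 / (3 * (k : ℝ))) ≤ 16 := by
      rw [mul_div_assoc', div_le_iff₀ (by positivity)]; push_cast at w1; linarith
    linarith

lemma lawH (hk : 1 ≤ k) (hc : 100 * k ≤ exp c) (hc' : 10 ^ 11 * c ≤ k) (c4 : 4 ≤ c)
    (hF : F = 10 ^ 10 * k ^ 3) (hx : ∀ q l, Win k q l → XP k F q l (x l)) (h0 : ∀ j, 0 < P j)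
    (h1 : ∑ j : TT k, P j = 1) (h2 : exp (-(2 / (3 * k))) ≤ P 0) (h3 : ∀ j ≠ 0, exp (-(2 * c)) ≤ P j) :
    LawH k c F (gl k F x P) := by
  have k1 : (1 : ℝ) ≤ k := by exact_mod_cast hk
  have k3 : (k : ℝ) ^ 2 ≤ k ^ 3 := pow_le_pow_right₀ k1 (by norm_num)
  have k2 : (k : ℝ) ≤ k ^ 2 := le_self_pow₀ k1 (by norm_num)
  have F1 : 1000 ≤ F := by linarith
  have w0 : ∀ {l : ℕ} (ω : Fin l → TT k), 0 < ∏ i, P (ω i) := fun ω => prod_pos fun _ _ => h0 _
  have cl := fun s (hs : |s| ≤ 4800 * c) l => classify hk F1 hx (s := s) (by linarith) (l := l)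
  have px : ∀ s q l, q ≠ 0 → Win k q l →
      |phs k F s (x l) - (F * l + log (pois (4 * bq k q) l))| ≤ 2 * |s| := fun s q l hq w => by
    obtain ⟨a1, -, -, a2, a3⟩ := hx q l w
    rw [← a1, show phs k F s (x l) - 32 * F * k * (2 * x l - x l ^ 2) = x l * s by unfold phs; ring,
      abs_mul, abs_of_nonneg (by linarith [a3 hq])]
    gcongr
  have Fl : ∀ q l, q ≠ 0 → Win k q l → 10 ^ 7 * (k : ℝ) ^ 2 ≤ 1 / 1000 * F * l := fun q l hq w => by
    have := win_ge hq w
    nlinarith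
  refine ⟨hk, hc, hc', hF, fun s => by simp [gl, Om, phs], fun s j => ?_, fun s => ?_,
    fun s hs q l hq w => ?_, fun s hs q l hq w => ?_, fun s hs l w => ?_, fun s hs s' q l hq w => ?_,
    fun s s' l => ?_⟩
  · have : Nonempty (TT k) := ⟨⟨0, zero_TT⟩⟩
    exact sum_pos (fun ω _ => mul_pos (w0 ω) (exp_pos _)) univ_nonempty
  · refine ⟨|64 * F * k + s| * (960 * k), fun j => gl_le h0 h1 fun ω => ?_⟩
    have a1 := mul_le_mul_of_nonneg_left (Om_abs hk hx ω) (abs_nonneg (64 * F * k + s))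
    have a2 := le_abs_self ((64 * F * k + s) * Om x ω)
    rw [abs_mul] at a2
    have : 0 ≤ 32 * F * k * Om x ω ^ 2 := by positivity
    unfold phs; linarith
  · obtain ⟨ω, e1, e2⟩ := main_term hk hx c4 h2 h3 hq w
    refine le_trans ?_ (single_le_sum (fun ω _ => (mul_pos (w0 ω) (exp_pos _)).le) (mem_univ ω))
    refine le_trans ?_ (mul_le_mul_of_nonneg_right e2 (exp_pos _).le)
    rw [e1, ← exp_add, ← exp_log (log_pois hk hq w).1, ← exp_add]
    exact exp_le_exp.2 (by linarith [(abs_le.1 (px s q l hq w)).1])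
  · rw [← exp_log (log_pois hk hq w).1, ← exp_add]
    refine gl_le h0 h1 fun ω => (cl s hs l ω).elim (fun h => ?_) fun h => ?_
    · linarith [(log_pois hk hq w).2.1, Fl q l hq w, abs_nonneg s]
    · rw [h.2]; linarith [(abs_le.1 (px s q l hq w)).2]
  · exact gl_le h0 h1 fun ω => (cl s hs l ω).resolve_right fun h => (mem_TT.1 h.1).elim w
  · obtain ⟨ω0, e1, e2⟩ := main_term hk hx c4 h2 h3 hq w
    have l0 : (0 : ℝ) ≤ l := Nat.cast_nonneg l
    have s0 := abs_nonneg s'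
    have a0 : 0 < 1 / (400 * (k : ℝ)) := by positivity
    have a1 : 1 / (400 * (k : ℝ)) * (400 * k) = 1 := by field_simp
    have hh := abs_le.1 (hq_abs a0.le q s')
    obtain ⟨-, x1, x2, -⟩ := hx q l w
    have m1 : |s'| * (1 / (400 * k)) * l ≤ s' * x l - Pool.Agent.Lib.MP_1f6494_pr.hq (1 / (400 * k)) q s' * l := by
      unfold Pool.Agent.Lib.MP_1f6494_pr.hq
      split_ifs with h
      · rw [abs_of_nonneg h]; nlinarith
      · rw [abs_of_neg (not_le.1 h)]; nlinarith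
    generalize 1 / (400 * (k : ℝ)) = a at *
    generalize Pool.Agent.Lib.MP_1f6494_pr.hq a q s' = h at *
    set B := exp (999 / 1000 * F * l) * (|s'| * (961 * k) * l) with hB
    have B0 : 0 ≤ B := by positivity
    have t1 : ∀ ω : Fin l → TT k, 0 ≤ exp (phs k F s (Om x ω)) * (s' * Om x ω - h * l) + B := by
      intro ω
      refine (cl s hs l ω).elim (fun g => ?_) fun g => ?_
      · have b1 := mul_le_mul_of_nonneg_left (Om_abs hk hx ω) s0
        have b2 := neg_abs_le (s' * Om x ω)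
        rw [abs_mul] at b2
        have b3 : 101 * a ≤ k := by nlinarith
        have b4 := mul_le_mul_of_nonneg_right (hh.2.trans (mul_le_mul_of_nonneg_left b3 s0)) l0
        have b5 := mul_le_mul_of_nonneg_right (exp_le_exp.2 g) (show 0 ≤ |s'| * (961 * k) * l by positivity)
        have b6 := mul_le_mul_of_nonneg_left (show -(|s'| * (961 * k) * l) ≤ s' * Om x ω - h * l by linarith)
          (exp_pos (phs k F s (Om x ω))).le
        linarith
      · rw [g.2]
        exact add_nonneg (mul_nonneg (exp_pos _).le (le_trans (by positivity) m1)) B0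
    have t2 : B ≤ (∏ i, P (ω0 i)) * (exp (phs k F s (Om x ω0)) * (s' * Om x ω0 - h * l) + B) := by
      refine le_trans ?_ (mul_le_mul e2 (le_add_of_nonneg_right B0) (by
        rw [e1]; exact mul_nonneg (exp_pos _).le (le_trans (by positivity) m1)) (w0 _).le)
      rw [e1, ← mul_assoc, ← exp_add]
      refine le_trans ?_ (mul_le_mul_of_nonneg_left m1 (exp_pos _).le)
      have b1 : exp (999 / 1000 * F * l) * (961 * k * (400 * k)) ≤ exp (-(6 * c) + phs k F s (x l)) := by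
        rw [← le_div_iff₀' (exp_pos _), ← exp_sub]
        refine le_trans ?_ (add_one_le_exp _)
        linarith [(abs_le.1 (px s q l hq w)).1, (log_pois hk hq w).2.1, Fl q l hq w]
      refine le_trans (le_of_eq ?_) (mul_le_mul_of_nonneg_right b1 (by positivity))
      rw [hB]
      linear_combination (-(exp (999 / 1000 * F * l) * (|s'| * (961 * k) * l))) * a1
    have t3 := t2.trans (single_le_sum (f := fun ω : Fin l → TT k => (∏ i, P (ω i)) *
      (exp (phs k F s (Om x ω)) * (s' * Om x ω - h * l) + B)) (fun ω _ => mul_nonneg (w0 ω).le (t1 ω))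
      (mem_univ ω0))
    simp only [mul_add, sum_add_distrib, ← sum_mul, sum_P h1, one_mul, le_add_iff_nonneg_left] at t3
    rw [← le_div_iff₀ (exp_pos _)]
    refine (le_add_of_nonneg_right t3).trans ?_
    rw [gl, gl, ← sum_add_distrib, sum_div]
    refine sum_le_sum fun ω _ => ?_
    rw [← mul_add, mul_div_assoc, phs_add, exp_add, mul_div_assoc, ← exp_sub, ← mul_one_add]
    gcongr
    · exact (w0 ω).le
    · linarith [add_one_le_exp (s' * Om x ω - h * l)]
  · rw [gl, gl, sum_mul]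
    refine sum_le_sum fun ω _ => ?_
    rw [mul_assoc, phs_add, ← exp_add]
    refine mul_le_mul_of_nonneg_left (exp_le_exp.2 ?_) (w0 ω).le
    have b1 := mul_le_mul_of_nonneg_left (Om_abs hk hx ω) (abs_nonneg s')
    have b2 := neg_abs_le (s' * Om x ω)
    rw [abs_mul] at b2
    linarith

lemma exists_P (hk : 3 ≤ k) (hc : 100 * k ≤ exp c) (hx : ∀ q l, Win k q l → XP k F q l (x l)) :
    ∃ P : ℕ → ℝ, (∀ j, 0 < P j) ∧ ∑ j : TT k, P j = 1 ∧ exp (-(2 / (3 * k))) ≤ P 0 ∧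
      (∀ j ≠ 0, exp (-(2 * c)) ≤ P j) ∧ ∑ j : TT k, P j * vv x j = 0 := by
  have k1 : (3 : ℝ) ≤ k := by exact_mod_cast hk
  have B := fun j (hj : j ∈ (TT k).erase 0) => x_basic (by omega) hx (mem_of_mem_erase hj)
  set D := ∑ j ∈ (TT k).erase 0, (40 * j - x j) with hD
  set N : ℝ := (((TT k).erase 0).card : ℝ) with hN
  have n1 : 1 ≤ N := by
    rw [hN]
    exact_mod_cast card_pos.2 ⟨2 * k, mem_erase.2 ⟨by omega, mem_TT.2 ⟨1, by simp [Win, bq]; omega⟩⟩⟩
  have n2 : N ≤ 24 * k + 1 := by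
    rw [hN]
    exact_mod_cast card_erase_le.trans ((card_filter_le _ _).trans (card_range _).le)
  have d1 : N * (78 * k) ≤ D := by
    rw [hN, ← nsmul_eq_mul]
    exact card_nsmul_le_sum _ _ _ fun j hj => by
      linarith [(B j hj).2.2.2.1, ((B j hj).2.2.2.2.2.1 (ne_of_mem_erase hj)).2]
  have d2 : D ≤ N * (960 * k) := by
    rw [hN, ← nsmul_eq_mul]
    exact sum_le_card_nsmul _ _ _ fun j hj => by linarith [(B j hj).1, (B j hj).2.2.1]
  have d0 : 0 < D := lt_of_lt_of_le (by positivity) d1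
  have t1 : N * (40 / D) * (78 * k) ≤ 40 := by
    rw [mul_right_comm, mul_div_assoc', div_le_iff₀ d0]; linarith
  have t0 : 0 < 40 / D := by positivity
  have p0 : exp (-(2 / (3 * k))) ≤ 1 - N * (40 / D) := by
    have u0 : 2 / (3 * (k : ℝ)) * (3 * k) = 2 := by field_simp
    have u1 : 0 < 2 / (3 * (k : ℝ)) := by positivity
    have := add_one_le_exp (2 / (3 * (k : ℝ)))
    have t2 : 0 < N * (40 / D) := by positivity
    rw [exp_neg, inv_le_iff_one_le_mul₀ (exp_pos _)]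
    generalize 2 / (3 * (k : ℝ)) = u at *
    generalize N * (40 / D) = t at *
    have t3 : t ≤ 1 / 5 := by nlinarith
    have t4 : t * 117 ≤ 90 * u := le_of_mul_le_mul_right (by nlinarith) (show (0 : ℝ) < k by linarith)
    nlinarith
  have s1 : ∀ f : ℕ → ℝ, ∑ j ∈ (TT k).erase 0, (if j = 0 then 1 - N * (40 / D) else 40 / D) * f j =
      40 / D * ∑ j ∈ (TT k).erase 0, f j := fun f => by
    rw [mul_sum]; exact sum_congr rfl fun j hj => by rw [if_neg (ne_of_mem_erase hj)]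
  refine ⟨fun j => if j = 0 then 1 - N * (40 / D) else 40 / D, fun j => ?_, ?_, by simpa using p0,
    fun j hj => ?_, ?_⟩
  · dsimp only
    split_ifs
    exacts [(exp_pos _).trans_le p0, t0]
  · have := s1 fun _ => 1
    simp only [mul_one, sum_const, nsmul_eq_mul] at this
    rw [sum_coe_sort (TT k) fun j => if j = 0 then 1 - N * (40 / D) else 40 / D,
      ← add_sum_erase _ _ zero_TT, this, if_pos rfl]
    ring
  · dsimp only
    rw [if_neg hj, exp_neg, inv_le_iff_one_le_mul₀ (exp_pos _), show 2 * c = c + c by ring, exp_add,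
      div_mul_eq_mul_div, one_le_div d0]
    have := mul_le_mul hc hc (by positivity) (exp_pos _).le
    nlinarith
  · rw [sum_coe_sort (TT k) fun j => (if j = 0 then 1 - N * (40 / D) else 40 / D) * vv x j,
      ← add_sum_erase _ _ zero_TT, s1, if_pos rfl, show ∑ j ∈ (TT k).erase 0, vv x j = N * 40 - D by
        rw [hD, hN, ← nsmul_eq_mul, ← sum_const, ← sum_sub_distrib]
        exact sum_congr rfl fun j _ => by unfold vv; ring]
    simp only [vv, (x_basic (by omega) hx zero_TT).2.2.2.2.2.2 rfl]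
    field_simp; ring

theorem exists_law : ∃ (k : ℕ) (F : ℝ) (x P : ℕ → ℝ) (s : ℝ), (∀ j, 0 < P j) ∧ ∑ j : TT k, P j = 1 ∧
    ∑ j : TT k, P j * vv x j = 0 ∧ vv x 0 = 40 ∧ 0 < 64 * F * k + s ∧ 0 < 32 * F * k ∧
    0 < FE (gl k F x P s) ∧ ¬ DifferentiableAt ℝ (fun s => FE (gl k F x P s)) s := by
  obtain ⟨k, hk, hk'⟩ : ∃ k : ℕ, 3 ≤ k ∧ 10 ^ 11 * log (100 * k) ≤ k := by
    obtain ⟨r, hr⟩ := eventually_atTop.1 (isLittleO_log_id_atTop.bound (show (0 : ℝ) < 1 / 10 ^ 13 by norm_num))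
    obtain ⟨n, hn⟩ := exists_nat_ge r
    have n0 : (0 : ℝ) ≤ n := Nat.cast_nonneg n
    have := hr (100 * (n + 3 : ℕ)) (by push_cast; linarith)
    rw [id, norm_eq_abs, norm_eq_abs, abs_of_nonneg (a := (100 * (n + 3 : ℕ) : ℝ)) (by positivity)] at this
    exact ⟨n + 3, by omega, by linarith [le_abs_self (log (100 * (n + 3 : ℕ)))]⟩
  have k1 : (3 : ℝ) ≤ k := by exact_mod_cast hk
  have hc : 100 * k ≤ exp (log (100 * k)) := (exp_log (by positivity)).ge
  have c4 : 4 ≤ log (100 * k) := by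
    rw [le_log_iff_exp_le (by positivity), show (4 : ℝ) = (4 : ℕ) * 1 by norm_num, exp_nat_mul]
    have : exp 1 ^ 4 ≤ 3 ^ 4 := by gcongr; linarith [exp_one_lt_d9]
    linarith
  have k3 : (1 : ℝ) ≤ k ^ 3 := one_le_pow₀ (by linarith)
  obtain ⟨x, hx⟩ := exists_x (k := k) (F := 10 ^ 10 * k ^ 3) (by omega) (by linarith)
  obtain ⟨P, h0, h1, h2, h3, h4⟩ := exists_P hk hc hx
  obtain ⟨s, s1, s2, s3⟩ := (lawH (by omega) hc hk' c4 rfl hx h0 h1 h2 h3).main
  refine ⟨k, _, x, P, s, h0, h1, h4, by simp [vv, (x_basic (by omega) hx zero_TT).2.2.2.2.2.2 rfl],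
    ?_, by positivity, s2, s3⟩
  nlinarith [(abs_le.1 s1).1]

end Pool.Agent.Lib.MP_1f6494_pr
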