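import Pool.Agent.Lib.MP_1f6494_pr.Press

set_option autoImplicit false

namespace Pool.Agent.Lib.MP_1f6494_pr

open Finset Classical Function

variable {k : ℕ} {W : St → ENNReal} {ψ : ℕ → ENNReal} {q : Fin 3} {n : ℕ} {L G Y : Finset V}
  {σ σ' : Cfg} {C τ : ℝ}

noncomputable def Yp (Y : Finset V) (F : Finset (Finset V)) : Finset V :=
  (Y \ bd Y) \ F.biUnion fill

def OK (Y : Finset V) (F : Finset (Finset V)) : Prop :=
  ∀ G ∈ F, Cn G ∧ ∃ x ∈ bd (Y \ bd Y), x ∈ fill G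

lemma mem_Yp {F : Finset (Finset V)} {x : V} :
    x ∈ Yp Y F ↔ x ∈ Y \ bd Y ∧ ∀ G ∈ F, x ∉ fill G := by
  simp only [Yp, mem_sdiff (s := Y \ bd Y), mem_biUnion, not_exists, not_and]

lemma inner_nbr {x : V} (hx : x ∈ Y \ bd Y) (d : Dir) : x + vec d ∈ Y := by
  by_contra h
  exact (mem_sdiff.1 hx).2 (mem_bd.2 ⟨(mem_sdiff.1 hx).1, d, h⟩)

lemma anch_Yp {F : Finset (Finset V)} (h : OK Y F) : Anch Y (Yp Y F) := by
  have s : Yp Y F ⊆ Y \ bd Y := sdiff_subset
  refine ⟨s.trans sdiff_subset, fun x hx => ?_⟩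
  have nb : ∀ r ∈ bd Y, r ∉ Yp Y F := fun r hr g => (mem_sdiff.1 (s g)).2 hr
  by_cases h1 : x ∈ bd Y
  · exact ⟨x, h1, nb x h1, Conn.refl⟩
  have h2 : x ∈ Y \ bd Y := mem_sdiff.2 ⟨(mem_sdiff.1 hx).1, h1⟩
  have h3 : ∃ G ∈ F, x ∈ fill G := by
    by_contra hn
    exact (mem_sdiff.1 hx).2 (mem_Yp.2 ⟨h2, fun G hG g => hn ⟨G, hG, g⟩⟩)
  obtain ⟨G, hG, h4⟩ := h3
  obtain ⟨cG, z, hz, hz'⟩ := h G hG
  have st : ∀ a d, a ∈ Y \ bd Y → a ∈ fill G → Conn (· ∈ Y \ Yp Y F) x a → a + vec d ∉ Y \ bd Y →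
      ∃ r ∈ bd Y, r ∉ Yp Y F ∧ Conn (· ∈ Y \ Yp Y F) x r := by
    intro a d a1 a2 a3 a4
    have b1 := inner_nbr a1 d
    have b2 : a + vec d ∈ bd Y := by by_contra g; exact a4 (mem_sdiff.2 ⟨b1, g⟩)
    exact ⟨_, b2, nb _ b2, a3.tail (mem_sdiff.2 ⟨(mem_sdiff.1 a1).1, fun g => (mem_Yp.1 g).2 G hG a2⟩)
      (mem_sdiff.2 ⟨b1, nb _ b2⟩) (adj_vec _ _)⟩
  have := (cn_fill cG x h4 z hz').ind (R := fun a => (∃ r ∈ bd Y, r ∉ Yp Y F ∧
    Conn (· ∈ Y \ Yp Y F) x r) ∨ (a ∈ Y \ bd Y ∧ Conn (· ∈ Y \ Yp Y F) x a)) (Or.inr ⟨h2, Conn.refl⟩)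
    (by
      rintro a b ha hb ⟨d, rfl⟩ (g | ⟨g1, g2⟩)
      · exact Or.inl g
      by_cases g3 : a + vec d ∈ Y \ bd Y
      · exact Or.inr ⟨g3, g2.tail (mem_sdiff.2 ⟨(mem_sdiff.1 g1).1, fun g => (mem_Yp.1 g).2 G hG ha⟩)
          (mem_sdiff.2 ⟨(mem_sdiff.1 g3).1, fun g => (mem_Yp.1 g).2 G hG hb⟩) (adj_vec _ _)⟩
      · exact Or.inl (st a d g1 ha g2 g3))
  rcases this with g | ⟨g1, g2⟩
  · exact g
  · obtain ⟨-, d, g3⟩ := mem_bd.1 hz
    exact st z d g1 hz' g2 g3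

noncomputable def fam (k : ℕ) (L Y : Finset V) (σ : Cfg) : Finset (Finset V) :=
  (mx k L σ).filter (fun G => ∃ x ∈ bd (Y \ bd Y), x ∈ fill G)

lemma lw_geo (hk : 1 ≤ k) (h : Ens k q n L σ) (hY : Y ⊆ L) :
    OK Y (fam k L Y σ) ∧ Ens k q n (Yp Y (fam k L Y σ)) σ ∧
      Cut k (Y \ Yp Y (fam k L Y σ)) (Yp Y (fam k L Y σ)) σ := by
  set F := fam k L Y σ with hF
  have s : Yp Y F ⊆ L := (sdiff_subset.trans sdiff_subset).trans hY
  have keep : ∀ x ∈ Yp Y F, ∀ G, IsComp (TB k L σ) G → x ∈ fill G →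
      ∀ y ∈ fill G, y ∈ Yp Y F ∧ ∀ d, y + vec d ∈ Yp Y F := by
    intro x hx G0 hG0 hx0 y hy0
    obtain ⟨G, hG, hs⟩ := exists_maxC hG0
    have hy := hs hy0
    obtain ⟨x1, x2⟩ := mem_Yp.1 hx
    have nF : G ∉ F := fun g => x2 G g (hs hx0)
    have nb : ∀ z ∈ fill G, z ∈ Y \ bd Y → ∀ d, z + vec d ∈ Y \ bd Y := fun z hz h1 d => by
      by_contra g
      exact nF (mem_filter.2 ⟨mem_mx.2 hG, z, mem_bd.2 ⟨h1, d, g⟩, hz⟩)
    have y1 : y ∈ Y \ bd Y := (cn_fill hG.1.2.2.1 x (hs hx0) y hy).ind (R := (· ∈ Y \ bd Y)) x1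
      (by rintro a b ha _ ⟨d, rfl⟩ g; exact nb a ha g d)
    have dj : ∀ A ∈ F, Disjoint (fill G) (fill A) := fun A hA =>
      hG.disj (mem_mx.1 (mem_filter.1 hA).1) fun e => nF (e ▸ hA)
    exact ⟨mem_Yp.2 ⟨y1, fun A hA => disjoint_left.1 (dj A hA) hy⟩, fun d =>
      mem_Yp.2 ⟨nb y hy y1 d, fun A hA g =>
        comp_nbr hG.1 (mem_mx.1 (mem_filter.1 hA).1).1 (dj A hA) hy g (adj_vec _ _)⟩⟩
  have nf : ∀ x ∈ bd (Yp Y F), ∀ G, IsComp (TB k L σ) G → x ∉ fill G := fun x hx G hG g => by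
    obtain ⟨x1, d, x2⟩ := mem_bd.1 hx
    exact x2 ((keep x x1 G hG g x g).2 d)
  refine ⟨fun G hG => ⟨(mem_mx.1 (mem_filter.1 hG).1).1.2.2.1, (mem_filter.1 hG).2⟩,
    ⟨⟨h.1.1.mono s, fun x hx => ?_, fun x hx => h.1.ext hk (s (mem_bd.1 hx).1) (nf x hx)⟩,
      fun G hG => ?_⟩, fun x hx d hd => ?_⟩
  · obtain ⟨G, hG, g⟩ := exists_comp (TB_mono s hx)
    have : ∃ y ∈ Yp Y F, y ∈ G := by
      rcases mem_thick.1 hx with a | ⟨y, a, b⟩
      · exact ⟨x, (mem_badS.1 a).1, g⟩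
      · exact ⟨y, (mem_badS.1 a).1, hG.2.2.2 x g y (TB_mono s (sub_thick _ a)) b.symm⟩
    obtain ⟨y, y1, y2⟩ := this
    exact keep y y1 G hG (sub_fill G y2) x (sub_fill G g)
  · obtain ⟨x, hx⟩ := hG.1
    obtain ⟨G', h1, h2⟩ := exists_comp (TB_mono s (hG.2.1 hx))
    exact (card_le_card (fill_mono (h1.sub hG.2.2.1 (hG.2.1.trans (TB_mono s)) hx h2))).trans
      (h.2 G' h1)
  · have x1 := hY (mem_sdiff.1 hx).1
    refine ⟨not_bad_of_adj x1 (fun g => ?_) (adj_vec x d).symm, h.1.1.2.1 x x1 d (s hd)⟩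
    obtain ⟨G, hG, g'⟩ := exists_comp g
    exact nf _ (mem_bd.2 ⟨hd, opp d, by simpa using (mem_sdiff.1 hx).2⟩) G hG (sub_fill G g')

noncomputable def fY (k : ℕ) (q : Fin 3) (n : ℕ) (θ : ℝ) (Y : Finset V) (σ : Cfg) : ENNReal :=
  ∑' F : Finset (Finset V), (ind (OK Y F) * ∏ G ∈ F, ex (-(θ * (fill G).card))) *
    ind (Ens k q n (Yp Y F) σ ∧ Cut k (Y \ Yp Y F) (Yp Y F) σ)

lemma dep_fY (θ : ℝ) : Dep (· ∈ Y) (fY k q n θ Y) := by
  intro σ σ' e
  unfold fY
  congr 1; ext F; congr 1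
  have s : Yp Y F ⊆ Y := sdiff_subset.trans sdiff_subset
  refine Dep.ind (P := (· ∈ Y)) (p := fun σ => Ens k q n (Yp Y F) σ ∧ Cut k (Y \ Yp Y F) (Yp Y F) σ)
    (fun σ σ' e h => ⟨h.1.congr fun x hx => e x (s hx), fun x hx d hd => ?_⟩) σ σ' e
  rw [← e x (mem_sdiff.1 hx).1, ← e _ (s hd)]
  exact h.2 x hx d hd

lemma card_bd_inner (Y : Finset V) : (bd (Y \ bd Y)).card ≤ 4 * (bd Y).card :=
  card_bd_le fun x hx => by
    obtain ⟨h1, d, h2⟩ := mem_bd.1 hx
    refine ⟨x + vec d, ?_, (adj_vec _ _).symm⟩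
    by_contra g
    exact h2 (mem_sdiff.2 ⟨inner_nbr h1 d, g⟩)

lemma Hyp.fY_le (H : Hyp k W ψ C τ) {p c2 : ℝ} (η : Cfg)
    (h : ∀ Y', Anch Y Y' → ZZ W ψ Y' (Ens k q n Y') ≤
      ex (p * Y.card + C * (Y \ Y').card - c2 * (bd Y).card)) :
    sm (fun _ => W) Y (fY k q n (2 * C + 5) Y) η ≤
      ex (p * Y.card - (c2 - 2 * C - 4) * (bd Y).card) := by
  have hC : 0 ≤ C := by linarith [H.hC]
  have hτ : 0 ≤ τ := by linarith [H.hC, H.hτ]
  set r : Finset V → ENNReal := fun G => ind (Cn G ∧ ∃ x ∈ bd (Y \ bd Y), x ∈ fill G) *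
    ex (-(5 * (fill G).card)) with hr
  have hs : ∑' G, r G ≤ ENNReal.ofReal (4 * (bd Y).card) := by
    calc _ ≤ ∑' G : Finset V, ∑ x ∈ bd (Y \ bd Y), ind (Cn G ∧ x ∈ fill G) * ex (-(5 * G.card)) := by
          refine ENNReal.tsum_le_tsum fun G => ?_
          rw [hr]; simp only; rw [mul_comm]
          refine mul_ind_le fun ⟨h1, x, h2, h3⟩ => le_trans ?_ (single_le_sum (fun _ _ => zero_le) h2)
          rw [ind_pos ⟨h1, h3⟩, one_mul]
          have : (G.card : ℝ) ≤ (fill G).card := by exact_mod_cast card_le_card (sub_fill G)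
          exact ex_le (by linarith)
      _ ≤ ∑ x ∈ bd (Y \ bd Y), 1 := by
          rw [Summable.tsum_finsetSum (fun _ _ => ENNReal.summable)]
          exact sum_le_sum fun x _ => (tsum_fill x le_rfl).trans (ex_le_one (by norm_num))
      _ ≤ _ := by
          rw [sum_const, nsmul_eq_mul, mul_one, ← ENNReal.ofReal_natCast]
          exact ENNReal.ofReal_le_ofReal (by exact_mod_cast card_bd_inner Y)
  unfold fY
  rw [sm_tsum]
  calc _ ≤ ∑' F : Finset (Finset V), ex (p * Y.card - (c2 - 2 * C) * (bd Y).card) * ∏ G ∈ F, r G := by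
        refine ENNReal.tsum_le_tsum fun F => ?_
        rw [sm_mul, mul_assoc, mul_comm]
        refine mul_ind_le fun ok => ?_
        have an := anch_Yp ok
        have a1 : sm (fun _ => W) Y (fun σ => ind (Ens k q n (Yp Y F) σ ∧
            Cut k (Y \ Yp Y F) (Yp Y F) σ)) η ≤
            ex (C * (Y \ Yp Y F).card) * ZZ W ψ (Yp Y F) (Ens k q n (Yp Y F)) := by
          conv_lhs => rw [← union_sdiff_of_subset an.1]
          rw [sm_union disjoint_sdiff, union_sdiff_of_subset an.1, ZZ, dep_ens.sm_eq vcf η, ← sm_mul]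
          refine sm_mono fun ξ _ => ?_
          simp only [ind_and]
          rw [sm_mul_dep ((Dep.ind fun _ _ e g => Ens.congr g e).mono fun x hx g =>
            (mem_sdiff.1 g).2 hx), mul_comm, ← mul_assoc]
          refine mul_le_mul_left ?_ _
          have := H.cut (G := Y \ Yp Y F) (A := Yp Y F) sdiff_disjoint (fun _ => W) (fun _ => ex C)
            (fun _ _ => Or.inl ⟨rfl, rfl⟩) ξ
          refine ((sm_mono fun σ _ => le_mul_of_one_le_left' (one_le_ex (by positivity))).trans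
            this).trans (le_of_eq ?_)
          rw [prod_const, ex_pow, mul_comm C]
          congr 1
          exact X_congr (fun x hx d => by simp [inner_nbr (mem_Yp.1 hx).1 d]) fun _ _ _ _ => rfl
        have a2 : ((Y \ Yp Y F).card : ℝ) ≤ (bd Y).card + ∑ G ∈ F, ((fill G).card : ℝ) := by
          have : Y \ Yp Y F ⊆ bd Y ∪ F.biUnion fill := by
            intro x; simp only [Yp, mem_sdiff, mem_union]; tauto
          exact_mod_cast (card_le_card this).trans ((card_union_le _ _).trans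
            (Nat.add_le_add_left card_biUnion_le _))
        rw [prod_congr rfl (f := r) (g := fun G => ex (-(5 * (fill G).card))) fun G hG => by
          rw [hr]; simp only; rw [ind_pos (ok G hG), one_mul]]
        refine (mul_le_mul_right (a1.trans (mul_le_mul_right (h _ an) _)) _).trans ?_
        rw [ex_sum, ex_sum, ← ex_add, ← ex_add, ← ex_add]
        refine ex_le ?_
        simp only [sum_neg_distrib, ← mul_sum]
        nlinarith
    _ ≤ ex (p * Y.card - (c2 - 2 * C) * (bd Y).card) * ex (4 * (bd Y).card) := by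
        rw [ENNReal.tsum_mul_left]
        exact mul_le_mul_right (tsum_fam r (by positivity) hs) _
    _ = _ := by rw [← ex_add]; congr 1; ring

lemma sh_sdiff (a : V) (A B : Finset V) : sh a (A \ B) = sh a A \ sh a B := by
  ext; simp [mem_sh]

lemma Anch.shift {Y' : Finset V} (a : V) (h : Anch Y Y') : Anch (sh a Y) (sh a Y') := by
  refine ⟨image_subset_image h.1, fun x hx => ?_⟩
  rw [← sh_sdiff] at hx ⊢
  obtain ⟨r, h1, h2, h3⟩ := h.2 _ (mem_sh.1 hx)
  refine ⟨r + a, by rw [bd_sh]; exact add_mem_sh.2 h1, fun g => h2 (add_mem_sh.1 g), ?_⟩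
  simpa using h3.shift (Q := (· ∈ sh a (Y \ Y'))) a fun z hz => add_mem_sh.2 hz

lemma quad_large {a : ℝ} (ha : 0 < a) (b c : ℝ) :
    ∃ M0 : ℕ, ∀ M : ℕ, M0 ≤ M → 0 < a * M ^ 2 + b * M + c := by
  obtain ⟨M0, h⟩ := exists_nat_gt ((|b| + |c|) / a + 1)
  refine ⟨M0, fun M hM => ?_⟩
  have h1 : (M0 : ℝ) ≤ M := by exact_mod_cast hM
  have h0 : 0 ≤ (|b| + |c|) / a := by positivity
  have h2 : |b| + |c| < a * M := by
    rw [← div_lt_iff₀' ha]; linarith
  have h3 : (1 : ℝ) ≤ M := by linarith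
  nlinarith [neg_abs_le b, neg_abs_le c, abs_nonneg c, abs_nonneg b]

lemma Hyp.lw (H : Hyp k W ψ C τ) (hq : q ≠ 0) (hA : Adm k W ψ τ q n) (Y : Finset V) :
    ∃ Y', Anch Y Y' ∧ ex (pr k W ψ C q n * Y.card + C * (Y \ Y').card - 13 * C * (bd Y).card) ≤
      ZZ W ψ Y' (Ens k q n Y') := by
  rcases Y.eq_empty_or_nonempty with rfl | hne
  · exact ⟨∅, ⟨le_rfl, by simp⟩, by simp [ZZ_empty, bd]⟩
  by_contra hcon
  have hC := H.hC
  set p := pr k W ψ C q n with hp
  have up : ∀ a η, sm (fun _ => W) (sh a Y) (fY k q n (2 * C + 5) (sh a Y)) η ≤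
      ex (p * Y.card - (13 * C - 2 * C - 4) * (bd Y).card) := by
    intro a η
    have := H.fY_le (Y := sh a Y) (q := q) (n := n) (p := p) (c2 := 13 * C) η fun Y' h => by
      have h1 := h.shift (-a)
      rw [sh_sh] at h1
      rw [← ZZ_shift (-a), bd_sh, card_sh, card_sh, ← card_sh (-a) (sh a Y \ Y'), sh_sdiff, sh_sh]
      exact (not_le.1 fun g => hcon ⟨_, h1, g⟩).le
    rwa [bd_sh, card_sh, card_sh] at this
  obtain ⟨r, hr⟩ := exists_bound Y 0
  have hN : (0 : ℝ) < Y.card := by exact_mod_cast hne.card_pos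
  have hβ : (0 : ℝ) < (bd Y).card := by
    obtain ⟨v, hv, hm⟩ := exists_leftmost hne
    exact_mod_cast card_pos.2 ⟨v, mem_bd.2 ⟨hv, 2, (left_out hm).1⟩⟩
  set γ : ℝ := (bd Y).card / Y.card with hγ
  have γ0 : 0 < γ := div_pos hβ hN
  obtain ⟨M0, hM0⟩ := quad_large (half_pos γ0)
    (p * (2 + 4 * r) - γ - 4 * r * (8 * C + 21) * γ - 8 * C * r)
    (p * (1 - 4 * r ^ 2) - γ / 2 + 4 * r ^ 2 * (8 * C + 21) * γ - 1)
  obtain ⟨M, hM, hZ⟩ := H.pr_low (n := n) hq (show p - γ / 2 < p by linarith) (M0 + 2 * r + 1)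
  obtain ⟨K, rfl⟩ : ∃ K, M = K + 2 * r := ⟨M - 2 * r, by omega⟩
  set B := box 0 (K + 2 * r) with hB
  set I := box (-(r : ℤ), -(r : ℤ)) (K + 4 * r) with hI
  set I0 := box ((r : ℤ), (r : ℤ)) K with hI0
  have sI : I0 ⊆ I := by
    intro a; simp only [hI, hI0, mem_box]; push_cast; omega
  have sB : ∀ a ∈ I0, sh a Y ⊆ B := by
    intro a ha x hx
    have := hr _ (mem_sh.1 hx)
    simp only [hI0, hB, mem_box, abs_lt] at ha this ⊢
    simp at ha this ⊢; omega
  set F : V → Cfg → ENNReal := fun a => if a ∈ I0 then fY k q n (2 * C + 5) (sh a Y) else fun _ => 1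
    with hF
  have fin := finner (w := fun _ => W) I (fun a => sh a Y) F hne.card_pos (fun a _ => by
    simp only [hF]; split_ifs
    exacts [dep_fY _, fun _ _ _ => rfl]) B (fun x hx => by
    refine card_bij (fun a _ => x - a) (fun a ha => mem_sh.1 (mem_filter.1 ha).2)
      (fun a _ b _ e => sub_right_injective e) fun y hy => ⟨x - y, mem_filter.2 ⟨?_, by
        simp [mem_sh, hy]⟩, by simp⟩
    have := hr _ hy
    simp only [hI, hB, mem_box, abs_lt] at hx this ⊢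
    simp at hx this ⊢; omega) vcf
  have rhs : ∏ a ∈ I, sm (fun _ => W) (sh a Y ∩ B) (F a) vcf ^ (1 / Y.card : ℝ) ≤
      ex (K ^ 2 * (p - (8 * C + 21) * γ) + C * (8 * (K + 2 * r) * r)) := by
    rw [← prod_sdiff sI, mul_comm, ex_add]
    refine mul_le_mul' ?_ ?_
    · calc _ ≤ ∏ a ∈ I0, ex (p - (8 * C + 21) * γ) := by
            refine prod_le_prod' fun a ha => ?_
            simp only [hF, if_pos ha]
            rw [inter_eq_left.2 (sB a ha)]
            refine (ENNReal.rpow_le_rpow (up a vcf) (by positivity)).trans ?_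
            rw [ex_rpow]
            refine ex_le ?_
            have : γ * Y.card = (bd Y).card := div_mul_cancel₀ _ hN.ne'
            rw [mul_one_div, div_le_iff₀ hN, sub_mul p, mul_assoc, this]
            nlinarith
        _ = _ := by rw [prod_const, ex_pow, hI0, card_box]; norm_cast
    · calc _ ≤ ∏ a ∈ I \ I0, ex C := by
            refine prod_le_prod' fun a ha => ?_
            simp only [hF, if_neg (mem_sdiff.1 ha).2]
            refine (ENNReal.rpow_le_rpow (H.crude _ _) (by positivity)).trans ?_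
            rw [ex_rpow]
            refine ex_le ?_
            have : ((sh a Y ∩ B).card : ℝ) ≤ Y.card := by
              exact_mod_cast (card_le_card inter_subset_left).trans (card_sh a Y).le
            rw [mul_one_div, div_le_iff₀ hN]
            nlinarith
        _ = _ := by
            rw [prod_const, ex_pow, card_sdiff_of_subset sI, hI, hI0, card_box, card_box,
              Nat.cast_sub (Nat.pow_le_pow_left (by omega) 2)]
            congr 1; push_cast; ring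
  have lhs : ex (-((8 * C + 20) * γ * (K + 2 * r) ^ 2)) * ZZ W ψ B (fun σ => Ens k q n B σ ∧
      (SS k B σ : ℝ) ≤ Real.exp (-(τ / 4)) * ((K + 2 * r : ℕ) : ℝ) ^ 2) ≤
      sm (fun _ => W) B (fun σ => ∏ a ∈ I, F a σ ^ (1 / Y.card : ℝ)) vcf := by
    rw [ZZ, ← sm_mul]
    refine sm_mono fun σ _ => ?_
    rw [← mul_assoc]
    refine mul_ind_le fun ⟨h1, h2⟩ => (mul_le_of_le_one_right' (X_le_one H.ψ1 _ _ _)).trans ?_
    rw [← prod_sdiff sI, prod_eq_one fun a ha => by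
      simp only [hF, if_neg (mem_sdiff.1 ha).2, ENNReal.one_rpow], one_mul]
    have b1 : ∀ a ∈ I0, ex (-((2 * C + 5) * ∑ G ∈ fam k B (sh a Y) σ, ((fill G).card : ℝ)) *
        (1 / Y.card)) ≤ F a σ ^ (1 / Y.card : ℝ) := by
      intro a ha
      simp only [hF, if_pos ha]
      rw [← ex_rpow]
      refine ENNReal.rpow_le_rpow (le_trans ?_ (ENNReal.le_tsum (fam k B (sh a Y) σ))) (by positivity)
      obtain ⟨g1, g2⟩ := lw_geo H.hk h1 (sB a ha)
      rw [ind_pos g1, ind_pos g2, one_mul, mul_one, ex_sum, sum_neg_distrib, ← mul_sum]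
    refine le_trans ?_ (prod_le_prod' b1)
    rw [ex_sum]
    refine ex_le ?_
    have b2 : ∑ a ∈ I0, ∑ G ∈ fam k B (sh a Y) σ, (fill G).card ≤ 4 * (bd Y).card * SS k B σ := by
      simp only [fam, sum_filter]
      rw [sum_comm, SS, mul_sum]
      refine sum_le_sum fun G _ => ?_
      rw [← sum_filter, sum_const, smul_eq_mul]
      have : (I0.filter fun a => ∃ x ∈ bd (sh a Y \ bd (sh a Y)), x ∈ fill G) ⊆
          (fill G ×ˢ bd (Y \ bd Y)).image (fun z => z.1 - z.2) := by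
        intro a ha
        obtain ⟨-, x, h3, h4⟩ := mem_filter.1 ha
        rw [bd_sh, ← sh_sdiff, bd_sh] at h3
        exact mem_image.2 ⟨(x, x - a), mem_product.2 ⟨h4, mem_sh.1 h3⟩, by simp⟩
      have h3 := (card_le_card this).trans card_image_le
      rw [card_product] at h3
      calc _ ≤ (G.card ^ 2 * (4 * (bd Y).card)) * G.card ^ 2 :=
            Nat.mul_le_mul (h3.trans (Nat.mul_le_mul (card_fill G) (card_bd_inner Y))) (card_fill G)
        _ = _ := by ring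
    have b3 : (SS k B σ : ℝ) ≤ (K + 2 * r) ^ 2 := by
      refine h2.trans ?_
      push_cast
      exact mul_le_of_le_one_left (by positivity) (Real.exp_le_one_iff.2 (by linarith [H.hτ]))
    have b4 : ∑ a ∈ I0, ∑ G ∈ fam k B (sh a Y) σ, ((fill G).card : ℝ) ≤
        4 * (bd Y).card * (K + 2 * r) ^ 2 := by
      refine le_trans (by exact_mod_cast b2) (mul_le_mul_of_nonneg_left b3 (by positivity))
    rw [← sum_mul, sum_neg_distrib, ← mul_sum, mul_one_div, le_div_iff₀ hN, hγ]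
    field_simp
    nlinarith
  have mk := H.markov hA (M := K + 2 * r) (by omega)
  have := (mul_le_mul_right (hZ.trans (mk.trans (mul_le_mul_left two_le_ex _)))
    (ex (-((8 * C + 20) * γ * (K + 2 * r) ^ 2)))).trans
    ((le_of_eq (mul_left_comm _ _ _)).trans (mul_le_mul_right (lhs.trans (fin.trans rhs)) _))
  rw [← ex_add, ← ex_add, ex_le_iff] at this
  have h2 := hM0 (K + 2 * r) (by omega)
  push_cast at this h2
  nlinarith

end Pool.Agent.Lib.MP_1f6494_pr
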