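import Pool.Agent.Lib.MP_1f6494_pr.Model

set_option autoImplicit false

namespace Pool.Agent.Lib.MP_1f6494_pr

open Finset Classical Function Real Filter

def lo : Fin 3 → ℝ := ![0, -1, 24]
def hi : Fin 3 → ℝ := ![0, 14, 101]
noncomputable def hq (a : ℝ) (q : Fin 3) (s : ℝ) : ℝ := if 0 ≤ s then s * (lo q * a) else s * (hi q * a)

lemma hq_abs {a : ℝ} (ha : 0 ≤ a) (q : Fin 3) (s : ℝ) : |hq a q s| ≤ |s| * (101 * a) := by
  have h1 : |lo q| ≤ 101 := by fin_cases q <;> simp [lo] <;> norm_num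
  have h2 : |hi q| ≤ 101 := by fin_cases q <;> simp [hi] <;> norm_num
  unfold hq
  split_ifs <;> rw [abs_mul, abs_mul, abs_of_nonneg ha] <;> gcongr

lemma kink {f : ℝ → ℝ} {a c F : ℝ} (ha : 0 < a) (hc : 0 < c) (hF : 520000 * c * a ≤ F)
    (hA : ∀ s, |s| ≤ 4800 * c → ∀ u, |u - F| ≤ 520000 * c * a → f s ≤ u ∨
      ∃ q, q ≠ 0 ∧ ∀ s', u + hq a q s' - |s'| * a ≤ f (s + s'))
    (hB : ∀ q, q ≠ 0 → ∀ s', F - 2400 * c * a + hq a q s' - |s'| * a ≤ f s')
    (hC : f 0 ≤ F + 2400 * c * a) :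
    ∃ s, |s| ≤ 4800 * c ∧ 0 < f s ∧ ¬ DifferentiableAt ℝ f s := by
  have ca := mul_pos hc ha
  have bd : ∀ q s, |s| ≤ 4800 * c → -(489600 * c * a) ≤ hq a q s - |s| * a := fun q s hs => by
    have := (abs_le.1 (hq_abs ha.le q s)).1
    nlinarith
  have l1 : ∀ s, |s| ≤ 4800 * c → F - 492000 * c * a ≤ f s := fun s hs => by
    have := hB 1 (by decide) s
    have := bd 1 s hs
    linarith
  have l2 : ∀ s, |s| ≤ 4800 * c → f s ≤ F + 520000 * c * a := fun s hs => by
    refine (hA s hs _ (by rw [add_sub_cancel_left, abs_of_pos (by linarith)])).resolve_right ?_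
    rintro ⟨q, -, h⟩
    have := h (-s)
    have := bd q (-s) (by rwa [abs_neg])
    rw [add_neg_cancel] at *
    linarith
  have l3 : ∀ s, |s| ≤ 4800 * c → ∃ q, q ≠ 0 ∧ ∀ s', f s + hq a q s' - |s'| * a ≤ f (s + s') := by
    intro s hs
    by_contra hn
    push Not at hn
    obtain ⟨s1, h1⟩ := hn 1 (by decide)
    obtain ⟨s2, h2⟩ := hn 2 (by decide)
    obtain ⟨u, u1, u2⟩ := exists_between (max_lt (max_lt (show f (s + s1) - (hq a 1 s1 - |s1| * a) < f s
      by linarith) (show f (s + s2) - (hq a 2 s2 - |s2| * a) < f s by linarith))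
      (show F - 520000 * c * a < f s by linarith [l1 s hs]))
    simp only [max_lt_iff] at u1
    rcases hA s hs u (abs_le.2 ⟨by linarith [u1.2], by linarith [l2 s hs]⟩) with g | ⟨q, q0, g⟩
    · exact g.not_gt u2
    · fin_cases q
      · exact q0 rfl
      · have := g s1; simp at this; linarith [u1.1.1]
      · have := g s2; simp at this; linarith [u1.1.2]
  by_contra hn
  have dif : ∀ s ∈ Set.Icc (-(4800 * c)) (4800 * c), DifferentiableAt ℝ f s := fun s hs => by
    by_contra g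
    exact hn ⟨s, abs_le.2 hs, by linarith [l1 s (abs_le.2 hs)], g⟩
  have mv : ∀ x y, -(4800 * c) ≤ x → x < y → y ≤ 4800 * c →
      ∃ z ∈ Set.Icc (-(4800 * c)) (4800 * c), deriv f z = (f y - f x) / (y - x) := by
    intro x y h1 h2 h3
    obtain ⟨z, z1, z2⟩ := exists_deriv_eq_slope f h2
      (fun t ht => (dif t ⟨h1.trans ht.1, ht.2.trans h3⟩).continuousAt.continuousWithinAt)
      fun t ht => (dif t ⟨h1.trans ht.1.le, ht.2.le.trans h3⟩).differentiableWithinAt
    exact ⟨z, ⟨h1.trans z1.1.le, z1.2.le.trans h3⟩, z2⟩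
  obtain ⟨z1, a1, a2⟩ := mv 0 (4800 * c) (by linarith) (by linarith) le_rfl
  obtain ⟨z2, b1, b2⟩ := mv (-(4800 * c)) 0 le_rfl (by linarith) (by linarith)
  have c1 : 19 * a ≤ deriv f z1 := by
    have := hB 2 (by decide) (4800 * c)
    rw [hq, if_pos (by linarith), abs_of_pos (by linarith)] at this
    simp [lo] at this
    rw [a2, le_div_iff₀ (by linarith)]
    nlinarith
  have c2 : deriv f z2 ≤ 19 * a := by
    have := hB 1 (by decide) (-(4800 * c))
    rw [hq, if_neg (by linarith), abs_of_neg (by linarith)] at this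
    simp [hi] at this
    rw [b2, div_le_iff₀ (by linarith)]
    nlinarith
  obtain ⟨z, z3, z4⟩ := (Set.ordConnected_Icc.image_deriv dif).out ⟨z2, b1, rfl⟩ ⟨z1, a1, rfl⟩ ⟨c2, c1⟩
  obtain ⟨q, q0, h⟩ := l3 z (abs_le.2 z3)
  have d := (dif z z3).hasDerivAt
  rw [z4] at d
  have r1 : (lo q - 1) * a ≤ 19 * a := by
    refine ge_of_tendsto d.tendsto_slope_zero_right (eventually_nhdsWithin_of_forall fun t ht => ?_)
    have ht : 0 < t := ht
    have := h t
    rw [hq, if_pos ht.le, abs_of_pos ht] at this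
    rw [smul_eq_mul, ← div_eq_inv_mul, le_div_iff₀ ht]
    linarith
  have r2 : 19 * a ≤ (hi q + 1) * a := by
    refine le_of_tendsto d.tendsto_slope_zero_left (eventually_nhdsWithin_of_forall fun t ht => ?_)
    have ht : t < 0 := ht
    have := h t
    rw [hq, if_neg ht.not_ge, abs_of_neg ht] at this
    rw [smul_eq_mul, ← div_eq_inv_mul, div_le_iff_of_neg ht]
    linarith
  fin_cases q
  · exact q0 rfl
  · simp [hi] at r2; nlinarith
  · simp [lo] at r1; nlinarith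

/-- properties of the local weights -/
structure LawH (k : ℕ) (c F : ℝ) (g : ℝ → ℕ → ℝ) : Prop where
  hk : 1 ≤ k
  hc : 100 * k ≤ exp c
  hc' : 10 ^ 11 * c ≤ k
  hF : F = 10 ^ 10 * k ^ 3
  g0 : ∀ s, g s 0 = 1
  gp : ∀ s j, 0 < g s j
  gA : ∀ s, ∃ A, ∀ j : ℕ, g s j ≤ exp (A * j)
  low : ∀ s, |s| ≤ 4800 * c → ∀ q l, q ≠ 0 → Win k q l →
    exp (F * l - 6 * c - 2 * |s|) * pois (4 * bq k q) l ≤ g s l
  upp : ∀ s, |s| ≤ 4800 * c → ∀ q l, q ≠ 0 → Win k q l →
    g s l ≤ exp (F * l + 1 + 2 * |s|) * pois (4 * bq k q) l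
  out : ∀ s, |s| ≤ 4800 * c → ∀ l, (∀ q, ¬ Win k q l) → g s l ≤ exp (999 / 1000 * F * l)
  tilt : ∀ s, |s| ≤ 4800 * c → ∀ s' q l, q ≠ 0 → Win k q l →
    g s l * exp (hq (1 / (400 * k)) q s' * l) ≤ g (s + s') l
  gen : ∀ s s' (l : ℕ), g s l * exp (-(|s'| * (960 * k) * l)) ≤ g (s + s') l

variable {k : ℕ} {c F : ℝ} {g : ℝ → ℕ → ℝ}

lemma LawH.num (H : LawH k c F g) : (1 : ℝ) ≤ k ∧ 4 ≤ c := by
  have k1 : (1 : ℝ) ≤ k := by exact_mod_cast H.hk
  refine ⟨k1, ?_⟩
  by_contra h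
  have := exp_lt_exp.2 (not_le.1 h)
  have e := exp_one_lt_d9
  rw [show (4 : ℝ) = (4 : ℕ) * 1 by norm_num, exp_nat_mul] at this
  have : exp 1 ^ 4 ≤ 3 ^ 4 := by gcongr; linarith
  linarith [H.hc]

lemma win_le {q : Fin 3} {l : ℕ} (h : Win k q l) : (l : ℝ) ≤ 24 * k := by
  have : l ≤ 24 * k := by have := h.2; have := bq_le k q; omega
  exact_mod_cast this

lemma win_ge {q : Fin 3} {l : ℕ} (hq : q ≠ 0) (h : Win k q l) : 2 * (k : ℝ) ≤ l := by
  have : 2 * k ≤ l := by have := h.1; have := bq_ge (k := k) hq; omega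
  exact_mod_cast this

lemma LawH.hyp (H : LawH k c F g) {s u : ℝ} (hs : |s| ≤ 4800 * c)
    (hu : |u - F| ≤ 520000 * c * (1 / (400 * k))) :
    Hyp k (Wt (GG (g s) u)) (psi k) (41000 * c + 6 * c) (5 * 10 ^ 7 * c) ∧
      (∀ q l, Win k q l → GG (g s) u l ≤ exp (41000 * c) * pois (4 * bq k q) l) ∧
      ∀ l, (∀ q, ¬ Win k q l) → GG (g s) u l ≤ exp (-(F / 2000 * l)) := by
  obtain ⟨k1, c4⟩ := H.num
  have hc' := H.hc'
  have hu' : |u - F| * k ≤ 1300 * c := by
    rw [← le_div_iff₀ (by linarith)]; refine hu.trans (le_of_eq ?_); field_simp; norm_num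
  have wl : ∀ q l, Win k q l → |(u - F) * l| ≤ 31200 * c := fun q l h => by
    rw [abs_mul, Nat.abs_cast]
    nlinarith [win_le h, abs_nonneg (u - F)]
  have F1 : 10 ^ 10 * k ≤ F := by rw [H.hF]; gcongr; exact le_self_pow₀ k1 (by norm_num)
  have a1 : ∀ q l, Win k q l → GG (g s) u l ≤ exp (41000 * c) * pois (4 * bq k q) l := by
    intro q l h
    by_cases hq : q = 0
    · subst hq
      have : l = 0 := by simpa [Win, bq] using h
      simp [this, GG, H.g0, pois, bq]; linarith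
    refine (mul_le_mul_of_nonneg_right (H.upp s hs q l hq h) (exp_pos _).le).trans ?_
    rw [mul_right_comm, ← exp_add]
    exact mul_le_mul_of_nonneg_right (exp_le_exp.2 (by linarith [(abs_le.1 (wl q l h)).1]))
      (pois_nonneg (by positivity) _)
  have a2 : ∀ l, (∀ q, ¬ Win k q l) → GG (g s) u l ≤ exp (-(F / 2000 * l)) := by
    intro l h
    refine (mul_le_mul_of_nonneg_right (H.out s hs l h) (exp_pos _).le).trans ?_
    rw [← exp_add]
    refine exp_le_exp.2 ?_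
    have : |u - F| ≤ 1300 * c := by nlinarith [abs_nonneg (u - F)]
    have := (abs_le.1 this).1
    have l0 : (0 : ℝ) ≤ l := Nat.cast_nonneg l
    nlinarith
  refine ⟨site_hyp H.hk H.hc (by simp [GG, H.g0]) (by linarith) a1 (fun q l hq h => ?_) a2
    (by linarith) (by linarith) (by linarith), a1, a2⟩
  refine le_trans ?_ (mul_le_mul_of_nonneg_right (H.low s hs q l hq h) (exp_pos _).le)
  rw [mul_right_comm, ← exp_add]
  exact mul_le_mul_of_nonneg_right (exp_le_exp.2 (by linarith [(abs_le.1 (wl q l h)).2]))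
    (pois_nonneg (by positivity) _)

lemma LawH.eps (H : LawH k c F g) : exp (-(5 * 10 ^ 7 * c / 4)) * (10 ^ 8 * k ^ 4) ≤ 1 := by
  obtain ⟨k1, c4⟩ := H.num
  have : (100 * k : ℝ) ^ 4 ≤ exp (5 * 10 ^ 7 * c / 4) := by
    refine (pow_le_pow_left₀ (by positivity) H.hc 4).trans ?_
    rw [← exp_nat_mul]; exact exp_le_exp.2 (by push_cast; linarith)
  rw [exp_neg, ← div_eq_inv_mul, div_le_one (exp_pos _)]
  linarith

lemma LawH.of_dense (H : LawH k c F g) {s u : ℝ} (hs : |s| ≤ 4800 * c)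
    (hu : |u - F| ≤ 520000 * c * (1 / (400 * k))) {q : Fin 3} (hq' : q ≠ 0)
    (hD : Dense k (Wt (GG (g s) u)) (psi k) q (exp (-(5 * 10 ^ 7 * c / 4)))) (s' : ℝ) :
    u + hq (1 / (400 * k)) q s' - |s'| * (1 / (400 * k)) ≤ FE (g (s + s')) := by
  obtain ⟨k1, c4⟩ := H.num
  obtain ⟨h1, -, h3⟩ := H.hyp hs hu
  obtain ⟨A, hA⟩ := H.gA (s + s')
  have e1 := H.eps
  have hc' := H.hc'
  have e0 := exp_pos (-(5 * 10 ^ 7 * c / 4))
  generalize exp (-(5 * 10 ^ 7 * c / 4)) = ε at *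
  have k4 : (1 : ℝ) ≤ k ^ 4 := one_le_pow₀ k1
  have k3 : (k : ℝ) ^ 3 ≤ k ^ 4 := pow_le_pow_right₀ k1 (by norm_num)
  have F1 : 10 ^ 10 * k ≤ F := by rw [H.hF]; gcongr; exact le_self_pow₀ k1 (by norm_num)
  have F0 : F ≠ 0 := (by linarith : 0 < F).ne'
  have := dense_FE (u := u + hq (1 / (400 * k)) q s') (ε' := 4000 * k / F) (γ := |s'| * (961 * k))
    H.hk hq' (by linarith) h1.tot h3 (by linarith)
    (by rw [show F / 2000 / 2 * (4000 * k / F) = k by field_simp; norm_num]; linarith) (by positivity)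
    e0.le (by nlinarith) (H.g0 _) (H.gp _) hA (fun l h => by
      refine le_trans (le_of_eq ?_) (mul_le_mul_of_nonneg_right (H.tilt s hs s' q l hq' h) (exp_pos _).le)
      rw [GG, mul_assoc, ← exp_add]; congr 2; ring) (fun l => by
      refine le_trans ?_ (mul_le_mul_of_nonneg_left (mul_le_mul_of_nonneg_right (H.gen s s' l)
        (exp_pos _).le) (exp_pos _).le)
      rw [GG, mul_assoc (g s l), mul_left_comm, ← exp_add, ← exp_add]
      refine mul_le_mul_of_nonneg_left (exp_le_exp.2 ?_) (H.gp _ _).le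
      have a1 := (abs_le.1 (hq_abs (a := 1 / (400 * k)) (by positivity) q s')).2
      have a2 : 101 * (1 / (400 * (k : ℝ))) ≤ k := by
        rw [mul_one_div, div_le_iff₀ (by positivity)]; nlinarith
      have a3 := mul_le_mul_of_nonneg_left a2 (abs_nonneg s')
      have l0 : (0 : ℝ) ≤ l := Nat.cast_nonneg l
      nlinarith) hD
  refine le_trans (sub_le_sub_left ?_ _) this
  rw [mul_assoc]
  refine mul_le_mul_of_nonneg_left ?_ (abs_nonneg _)
  rw [le_div_iff₀ (by positivity), H.hF, show 961 * (k : ℝ) * (24 * k * ε + 4000 * k / (10 ^ 10 * k ^ 3)) *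
    (400 * k) = 961 * 24 * 400 * (ε * k ^ 3) + 961 * 4000 * 400 / 10 ^ 10 by field_simp]
  nlinarith

lemma LawH.top (H : LawH k c F g) {s u : ℝ} (hs : |s| ≤ 4800 * c)
    (hu : |u - F| ≤ 520000 * c * (1 / (400 * k))) : FE (g s) ≤ u ∨
      ∃ q, q ≠ 0 ∧ Dense k (Wt (GG (g s) u)) (psi k) q (exp (-(5 * 10 ^ 7 * c / 4))) := by
  obtain ⟨k1, c4⟩ := H.num
  obtain ⟨h1, h2, h3⟩ := H.hyp hs hu
  refine h1.dich.imp (fun h => ?_) id
  have F1 : 10 ^ 10 * k ≤ F := by rw [H.hF]; gcongr; exact le_self_pow₀ k1 (by norm_num)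
  obtain ⟨D, d1, d2⟩ := top_bound (B := exp (41000 * c + 240 * k)) h1 (by simp [GG, H.g0])
    (fun j => (GG_pos (H.gp s) u j).le) (fun j => by
      rw [← exp_add]
      by_cases w : ∃ q, Win k q j
      · obtain ⟨q, w⟩ := w
        refine (h2 q j w).trans ((mul_le_of_le_one_right (exp_pos _).le
          (pois_le_one (by positivity) _)).trans (exp_le_exp.2 ?_))
        linarith [win_le w]
      · refine (h3 j (not_exists.1 w)).trans (exp_le_exp.2 ?_)
        have l0 : (0 : ℝ) ≤ j := Nat.cast_nonneg j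
        nlinarith) h
  exact FE_le (H.gp s) d1 d2

theorem LawH.main (H : LawH k c F g) : ∃ s, |s| ≤ 4800 * c ∧ 0 < FE (g s) ∧
    ¬ DifferentiableAt ℝ (fun s => FE (g s)) s := by
  obtain ⟨k1, c4⟩ := H.num
  have hc' := H.hc'
  have a0 : 0 < 1 / (400 * (k : ℝ)) := by positivity
  have a1 : 1 / (400 * (k : ℝ)) ≤ 1 := by rw [div_le_one (by positivity)]; linarith
  have F1 : 10 ^ 10 * k ≤ F := by rw [H.hF]; gcongr; exact le_self_pow₀ k1 (by norm_num)
  have s0 : |(0 : ℝ)| ≤ 4800 * c := by rw [abs_zero]; linarith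
  have ca : 0 < c * (1 / (400 * (k : ℝ))) := mul_pos (by linarith) a0
  have wl : ∀ q l, q ≠ 0 → Win k q l → 12 * c ≤ 2400 * c * (1 / (400 * k)) * l := fun q l hq h => by
    refine le_trans (le_of_eq ?_) (mul_le_mul_of_nonneg_left (win_ge hq h) (by linarith))
    field_simp; norm_num
  refine kink a0 (by linarith) (by nlinarith) (fun s hs u hu => (H.top hs hu).imp id
    fun ⟨q, q0, h⟩ => ⟨q, q0, H.of_dense hs hu q0 h⟩) (fun q q0 s' => ?_) ?_
  · have := H.of_dense (u := F - 2400 * c * (1 / (400 * k))) s0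
      (by rw [sub_sub_cancel_left, abs_neg, abs_of_pos (by linarith)]; linarith) q0
      (dense_pure (site_gh (cL := -(6 * c)) H.hk H.hc q0 (fun l h => ?_) (by linarith)) (exp_pos _).le) s'
    · rwa [zero_add] at this
    refine le_trans ?_ (mul_le_mul_of_nonneg_right (H.low 0 s0 q l q0 h) (exp_pos _).le)
    rw [mul_right_comm, ← exp_add]
    refine mul_le_mul_of_nonneg_right (exp_le_exp.2 ?_) (pois_nonneg (by positivity) _)
    rw [abs_zero]; linarith [wl q l q0 h]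
  · have hu : |F + 2400 * c * (1 / (400 * k)) - F| ≤ 520000 * c * (1 / (400 * k)) := by
      rw [add_sub_cancel_left, abs_of_pos (by linarith)]; linarith
    refine (H.top s0 hu).resolve_right fun ⟨q, q0, h⟩ => dense_not (psi_le_one k) (by linarith)
      (H.hyp s0 hu).1.tot ?_ ?_ h
    · have := site_good (G := GG (g 0) (F + 2400 * c * (1 / (400 * k)))) (cH := 1 - 12 * c) H.hk H.hc
        (· = q) (fun q' l e hw => by
          subst e
          refine (mul_le_mul_of_nonneg_right (H.upp 0 s0 q' l q0 hw) (exp_pos _).le).trans ?_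
          rw [mul_right_comm, ← exp_add]
          refine mul_le_mul_of_nonneg_right (exp_le_exp.2 ?_) (pois_nonneg (by positivity) _)
          rw [abs_zero]; linarith [wl q' l q0 hw]) (fun _ => False) fun _ => 0
      simp only [wh_neg not_false, prod_const_one, mul_one] at this
      exact le_trans (ENNReal.tsum_le_tsum fun s => mul_le_mul_right (ind_mono fun h =>
        ⟨⟨q, rfl, h⟩, by simp⟩) _) (this.trans (ex_le (by linarith)))
    · have e1 := H.eps
      have e0 := exp_pos (-(5 * 10 ^ 7 * c / 4))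
      have k4 : (k : ℝ) ≤ k ^ 4 := le_self_pow₀ k1 (by norm_num)
      nlinarith

end Pool.Agent.Lib.MP_1f6494_pr
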