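import Pool.Agent.Lib.MP_1f6494_pr.Strand

set_option autoImplicit false

namespace Pool.Agent.Lib.MP_1f6494_pr

open Finset Classical Function

def St.pair (s : St) (a b : Hs) (ha : a ∈ op s) (hb : b ∈ op s) : St where
  m := s.m
  μ := Equiv.swap a b ∘ s.μ
  inv := fun h => by
    have h1 := (mem_op.1 ha).2
    have h2 := (mem_op.1 hb).2
    simp only [comp_apply]
    by_cases e1 : s.μ h = a
    · have : h = a := by rw [← s.inv h, e1, h1]
      rw [e1, Equiv.swap_apply_left, h2, Equiv.swap_apply_right, this]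
    by_cases e2 : s.μ h = b
    · have : h = b := by rw [← s.inv h, e2, h2]
      rw [e2, Equiv.swap_apply_right, h1, Equiv.swap_apply_left, this]
    rw [Equiv.swap_apply_of_ne_of_ne e1 e2, s.inv]
    exact Equiv.swap_apply_of_ne_of_ne (fun e => e1 (by rw [e, h1])) (fun e => e2 (by rw [e, h2]))
  out := fun h hh => by
    rw [comp_apply, s.out h hh]
    exact Equiv.swap_apply_of_ne_of_ne (fun e => (mem_op.1 ha).1.not_ge (e ▸ hh))
      (fun e => (mem_op.1 hb).1.not_ge (e ▸ hh))

lemma St.pair_ne (s : St) {a b : Hs} (ha : a ∈ op s) (hb : b ∈ op s) {h : Hs} (hh : s.μ h ≠ h) :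
    (s.pair a b ha hb).μ h = s.μ h :=
  Equiv.swap_apply_of_ne_of_ne
    (fun e => hh (by rw [← s.inv h, e, (mem_op.1 ha).2, (mem_op.1 ha).2]))
    (fun e => hh (by rw [← s.inv h, e, (mem_op.1 hb).2, (mem_op.1 hb).2]))

lemma St.pair_left (s : St) {a b : Hs} (ha : a ∈ op s) (hb : b ∈ op s) :
    (s.pair a b ha hb).μ a = b := by
  simp [St.pair, (mem_op.1 ha).2]

lemma op_pair (s : St) {a b : Hs} (ha : a ∈ op s) (hb : b ∈ op s) (hab : a ≠ b) :
    op (s.pair a b ha hb) = ((op s).erase a).erase b := by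
  ext h
  simp only [mem_erase, mem_op]
  by_cases hh : s.μ h = h
  · have : (s.pair a b ha hb).μ h = Equiv.swap a b h := by simp [St.pair, hh]
    rw [this]
    by_cases e1 : h = a
    · simp [e1, hab.symm]
    by_cases e2 : h = b
    · simp [e2, hab]
    simp [Equiv.swap_apply_of_ne_of_ne e1 e2, e1, e2, hh, St.pair]
  · rw [s.pair_ne ha hb hh]; simp [hh]

lemma mu_pair (σ : Cfg) (x : V) {a b : Hs} (ha : a ∈ op (σ x)) (hb : b ∈ op (σ x)) :
    mu (update σ x ((σ x).pair a b ha hb)) = Equiv.swap (x, a) (x, b) ∘ mu σ := by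
  funext ⟨y, h⟩
  by_cases hy : y = x
  · subst hy
    simp only [mu, update_self, comp_apply, St.pair]
    exact (Injective.map_swap (Prod.mk_right_injective y) a b _)
  · simp only [mu, update_of_ne hy, comp_apply]
    exact (Equiv.swap_apply_of_ne_of_ne (fun e => hy (congrArg Prod.fst e))
      (fun e => hy (congrArg Prod.fst e))).symm

def Df : ℕ → ℕ
  | 0 => 1
  | j + 1 => (2 * j + 1) * Df j

lemma Df_ge (j : ℕ) : 2 ^ (j + 1) * (j + 1).factorial ≤ 4 * (j + 1) ^ 2 * Df j := by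
  induction j with
  | zero => simp [Df]
  | succ j ih =>
    rw [pow_succ, Nat.factorial_succ, Df]
    calc 2 ^ (j + 1) * 2 * ((j + 1 + 1) * (j + 1).factorial)
        = 2 * (j + 2) * (2 ^ (j + 1) * (j + 1).factorial) := by ring
      _ ≤ 2 * (j + 2) * (4 * (j + 1) ^ 2 * Df j) := by gcongr
      _ = 4 * (j + 2) * Df j * (2 * (j + 1) ^ 2) := by ring
      _ ≤ 4 * (j + 2) * Df j * ((j + 2) * (2 * j + 1)) :=
          Nat.mul_le_mul_left _ (by nlinarith)
      _ = _ := by ring

/-- escape from one site to a stopping point -/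
def Esc1 (L : Finset V) (σ : Cfg) (h : HH) : Prop :=
  ∃ n, 0 < n ∧ (¬ ((ph σ)^[n] h).1 ∈ L ∨ mu σ ((ph σ)^[n] h) = (ph σ)^[n] h) ∧
    ∀ j, 0 < j → j ≤ n → ((ph σ)^[j] h).1 ≠ h.1

lemma Esc1.update {L : Finset V} {σ : Cfg} {h : HH} (e : Esc1 L σ h) (s : St) :
    Esc1 L (update σ h.1 s) h := by
  obtain ⟨n, h0, h1, h2⟩ := e
  have : ∀ j ≤ n, (ph (Function.update σ h.1 s))^[j] h = (ph σ)^[j] h := fun j hj =>
    iter_congr fun k k0 hk => (update_of_ne (h2 k k0 (by omega)) _ _).symm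
  refine ⟨n, h0, ?_, fun j j0 hj => this j hj ▸ h2 j j0 hj⟩
  rw [this n le_rfl]
  refine h1.imp id fun e => ?_
  unfold mu at e ⊢
  rwa [update_of_ne (h2 n h0 le_rfl)]

lemma complete {L : Finset V} {x : V} (hx : x ∈ L) (c : Hs) (j : ℕ) : ∀ σ : Cfg, Tm L σ →
    (op (σ x)).card = 2 * (j + 1) → c ∈ op (σ x) → Esc1 L σ (x, c) →
    (Df j : ENNReal) ≤ ∑' s : St, ind (s.m = (σ x).m ∧ (∀ h, (σ x).μ h ≠ h → s.μ h = (σ x).μ h) ∧
      op s = ∅ ∧ Tm L (update σ x s)) := by
  have step : ∀ (σ : Cfg) (a b : Hs) (ha : a ∈ op (σ x)) (hb : b ∈ op (σ x)), Tm L σ →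
      (∀ n, First (·.1 ∈ L) io (mu σ) (x, a) n → (ph σ)^[n] (x, a) ≠ (x, b)) →
      Tm L (update σ x ((σ x).pair a b ha hb)) := by
    intro σ a b ha hb ht hne
    unfold Tm
    rw [mu_pair]
    exact match_step io_inv (mu_inv σ) io_ne (fun h => Iff.rfl)
      (by simp [mu, (mem_op.1 ha).2]) (by simp [mu, (mem_op.1 hb).2]) hx hx ht hne
  induction j with
  | zero =>
    intro σ ht hc hco he
    obtain ⟨a, ha⟩ : ((op (σ x)).erase c).Nonempty := by
      rw [← card_pos, card_erase_of_mem hco]; omega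
    obtain ⟨hac, ha'⟩ := mem_erase.1 ha
    refine le_trans ?_ (ENNReal.le_tsum ((σ x).pair c a hco ha'))
    rw [ind_pos]
    · simp [Df]
    refine ⟨rfl, fun h hh => (σ x).pair_ne _ _ hh, ?_, step σ c a hco ha' ht fun n f e => ?_⟩
    · rw [op_pair _ _ _ hac.symm, ← card_eq_zero, card_erase_of_mem ha, card_erase_of_mem hco]
      omega
    · obtain ⟨k, k0, h1, h2⟩ := he
      exact h2 n f.1 (f.le k0 h1) (by rw [e])
  | succ j ih =>
    intro σ ht hc hco he
    obtain ⟨a, ha⟩ : ((op (σ x)).erase c).Nonempty := by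
      rw [← card_pos, card_erase_of_mem hco]; omega
    obtain ⟨hac, ha'⟩ := mem_erase.1 ha
    obtain ⟨n, f⟩ := (ht (x, a) hx).first
    set B := (((op (σ x)).erase c).erase a).erase ((ph σ)^[n] (x, a)).2 with hB
    have cB : 2 * j + 1 ≤ B.card := by
      have := pred_card_le_card_erase (s := ((op (σ x)).erase c).erase a)
        (a := ((ph σ)^[n] (x, a)).2)
      rw [card_erase_of_mem ha, card_erase_of_mem hco, ← hB] at this
      omega
    have key : ∀ b ∈ B, (Df j : ENNReal) ≤ ∑' s : St, ind (s.μ a = b ∧ s.m = (σ x).m ∧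
        (∀ h, (σ x).μ h ≠ h → s.μ h = (σ x).μ h) ∧ op s = ∅ ∧ Tm L (update σ x s)) := by
      intro b hb
      simp only [hB, mem_erase] at hb
      obtain ⟨b1, b2, b3, hb'⟩ := hb
      have t := step σ a b ha' hb' ht fun n' f' e => b1 (by
        rw [show n = n' from le_antisymm (f.le f'.1 f'.2.1) (f'.le f.1 f.2.1), e])
      have o := op_pair _ ha' hb' (Ne.symm b2)
      refine (ih _ t ?_ ?_ (he.update _)).trans (ENNReal.tsum_le_tsum fun s => ind_mono ?_)
      · rw [update_self, o, card_erase_of_mem (mem_erase.2 ⟨b2, hb'⟩), card_erase_of_mem ha']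
        omega
      · rw [update_self, o]
        exact mem_erase.2 ⟨Ne.symm b3, mem_erase.2 ⟨hac.symm, hco⟩⟩
      · rw [update_self, update_idem]
        rintro ⟨h1, h2, h3, h4⟩
        have pl := (σ x).pair_left ha' hb'
        refine ⟨by rw [h2 a (by rw [pl]; exact b2), pl], h1, fun h hh => ?_, h3, h4⟩
        have := (σ x).pair_ne ha' hb' hh
        rw [h2 h (by rwa [this]), this]
    calc (Df (j + 1) : ENNReal) ≤ ∑ b ∈ B, (Df j : ENNReal) := by
          rw [sum_const, nsmul_eq_mul, Df]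
          exact_mod_cast Nat.mul_le_mul_right _ cB
      _ ≤ _ := sum_le_sum key
      _ ≤ _ := by
          rw [← Summable.tsum_finsetSum (fun _ _ => ENNReal.summable)]
          refine ENNReal.tsum_le_tsum fun s => ?_
          simp only [ind_and, ← sum_mul]
          refine mul_le_of_le_one_left' ?_
          by_cases hb : s.μ a ∈ B
          · rw [sum_eq_single_of_mem _ hb fun b _ h => ind_neg (Ne.symm h)]
            exact ind_le_one _
          · rw [sum_eq_zero fun b h => ind_neg fun e : s.μ a = b => hb (e ▸ h)]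
            exact zero_le

lemma op_of_id {s : St} (h : s.μ = id) : op s = rng s.m := by
  ext a; simp [mem_op, mem_rng, h]

lemma glue_core {L T0 : Finset V} (hL : T0 ⊆ L) (W : St → ENNReal) (rank : V → ℕ)
    (m0 : V → Dir → ℕ) (ω : V → ENNReal) (j : V → ℕ) (T : Finset V) : T ⊆ T0 →
    ∀ η : Cfg, Tm L η → (∀ x ∈ T, (η x).μ = id ∧ (η x).m = m0 x ∧ deg (m0 x) = 2 * (j x + 1) ∧
      (∀ s : St, s.m = m0 x → op s = ∅ → ω x ≤ W s) ∧ ∃ c : Hs, c.2 < m0 x c.1 ∧
        ((x + vec c.1 ∈ T ∧ rank (x + vec c.1) < rank x) ∨ Esc L T0 η (x, c))) →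
    ∏ x ∈ T, (ω x * Df (j x)) ≤
      sm (fun _ => W) T (fun σ => ind ((∀ x ∈ T, (σ x).m = m0 x ∧ op (σ x) = ∅) ∧ Tm L σ)) η := by
  induction T using Finset.induction_on_max_value rank with
  | empty => intro _ η ht _; rw [sm_empty, ind_pos ⟨by simp, ht⟩]; simp
  | insert x T hx hmax ih =>
    intro hT η ht h
    have hx0 := hT (mem_insert_self _ _)
    obtain ⟨h1, h2, h3, h4, c, h5, h6⟩ := h x (mem_insert_self _ _)
    have e1 : Esc1 L η (x, c) := by
      rcases h6 with ⟨h6, -⟩ | ⟨n, h6, h7⟩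
      · refine ⟨1, one_pos, Or.inr ?_, fun k k0 k1 => ?_⟩
        · simp [ph, mu, io, (h _ h6).1]
        · rw [show k = 1 by omega]; exact add_vec_ne _ _
      · refine ⟨n + 1, by omega, Or.inl h6, fun k k0 k1 e => ?_⟩
        rcases k1.lt_or_eq with k1 | rfl
        · exact (mem_sdiff.1 (h7 k k0 (by omega))).2 (e ▸ hx0)
        · exact h6 (e ▸ hL hx0)
    have cp := complete (hL hx0) c (j x) η ht (by rw [op_of_id h1, card_rng, h2, h3])
      (by rw [op_of_id h1, mem_rng, h2]; exact h5) e1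
    rw [sm_insert hx, prod_insert hx]
    calc ω x * Df (j x) * ∏ y ∈ T, (ω y * Df (j y))
        ≤ ω x * (∑' s : St, ind (s.m = (η x).m ∧ (∀ h, (η x).μ h ≠ h → s.μ h = (η x).μ h) ∧
          op s = ∅ ∧ Tm L (update η x s))) * ∏ y ∈ T, (ω y * Df (j y)) := by gcongr
      _ ≤ _ := by
        rw [← ENNReal.tsum_mul_left, ← ENNReal.tsum_mul_right]
        refine ENNReal.tsum_le_tsum fun s => ?_
        rw [mul_right_comm]
        refine mul_ind_le fun ⟨g1, _, g3, g4⟩ => mul_le_mul' (h4 s (g1.trans h2) g3) ?_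
        refine (ih ((subset_insert _ _).trans hT) _ g4 fun y hy => ?_).trans
          (sm_mono fun σ hσ => ind_mono fun g => ⟨fun y hy => ?_, g.2⟩)
        · have hyx : y ≠ x := fun e => hx (e ▸ hy)
          obtain ⟨k1, k2, k3, k4, c', k5, k6⟩ := h y (mem_insert_of_mem hy)
          rw [update_of_ne hyx]
          refine ⟨k1, k2, k3, k4, c', k5, k6.imp (fun k => ⟨?_, k.2⟩) fun k => k.congr
            fun z hz => (update_of_ne (fun e : z = x => (mem_sdiff.1 hz).2 (e ▸ hx0)) _ _).symm⟩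
          refine (mem_insert.1 k.1).resolve_left fun e => ?_
          have := hmax y hy
          rw [← e] at this
          exact this.not_gt k.2
        · rcases mem_insert.1 hy with rfl | hy
          · rw [hσ y hx, update_self]; exact ⟨g1.trans h2, g3⟩
          · exact g.1 y hy

def Mf (n : ℕ) : ℕ := 2 ^ (n / 2) * (n / 2).factorial

lemma Mf_mono {a b : ℕ} (h : a ≤ b) : Mf a ≤ Mf b :=
  Nat.mul_le_mul (Nat.pow_le_pow_right two_pos (by omega)) (Nat.factorial_le (by omega))

lemma count_pm (n : ℕ) : ∀ O : Finset Hs, O.card = n → ∑' μ : Hs → Hs,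
    ind (Involutive μ ∧ (∀ h ∉ O, μ h = h) ∧ ∀ h ∈ O, μ h ≠ h) ≤ Mf n := by
  induction n using Nat.strong_induction_on with
  | _ n ih =>
  intro O hO
  rcases O.eq_empty_or_nonempty with rfl | ⟨a, ha⟩
  · rw [tsum_eq_single id]
    · refine (ind_le_one _).trans ?_
      rw [← hO]; simp [Mf]
    · intro μ hμ
      exact ind_neg fun h => hμ (funext fun x => h.2.1 x (by simp))
  have hn : 0 < n := hO ▸ card_pos.2 ⟨a, ha⟩
  calc _ ≤ ∑' μ : Hs → Hs, ∑ b ∈ O.erase a, ind (Involutive μ ∧ μ a = b) *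
        ind (Involutive (Equiv.swap a b ∘ μ) ∧ (∀ h ∉ (O.erase a).erase b, (Equiv.swap a b ∘ μ) h = h) ∧
          ∀ h ∈ (O.erase a).erase b, (Equiv.swap a b ∘ μ) h ≠ h) := by
        refine ENNReal.tsum_le_tsum fun μ => ind_le fun ⟨h1, h2, h3⟩ => ?_
        have hb : μ a ∈ O.erase a := mem_erase.2 ⟨h3 a ha, by
          by_contra hn
          have := h2 _ hn
          rw [h1] at this
          exact hn (this ▸ ha)⟩
        refine le_trans ?_ (single_le_sum (fun _ _ => zero_le) hb)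
        have e : ∀ h, h ≠ a → h ≠ μ a → (Equiv.swap a (μ a) ∘ μ) h = μ h := fun h g1 g2 =>
          Equiv.swap_apply_of_ne_of_ne (fun e => g2 (by rw [← e, h1])) (fun e => g1 (h1.injective e))
        have ea : (Equiv.swap a (μ a) ∘ μ) a = a := by simp
        have eb : (Equiv.swap a (μ a) ∘ μ) (μ a) = μ a := by simp [h1 a]
        rw [ind_pos ⟨h1, rfl⟩, ind_pos, one_mul]
        refine ⟨fun h => ?_, fun h hh => ?_, fun h hh => ?_⟩
        · by_cases g1 : h = a
          · rw [g1, ea, ea]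
          by_cases g2 : h = μ a
          · rw [g2, eb, eb]
          rw [e h g1 g2, e _ (fun e => g2 (by rw [← e, h1])) (fun e => g1 (h1.injective e)), h1]
        · by_cases g1 : h = a
          · rw [g1, ea]
          by_cases g2 : h = μ a
          · rw [g2, eb]
          rw [e h g1 g2]
          exact h2 h fun g => hh (by simp [g, g1, g2])
        · simp only [mem_erase] at hh
          rw [e h hh.2.1 hh.1]
          exact h3 h hh.2.2
    _ ≤ ∑ b ∈ O.erase a, (Mf (n - 2) : ENNReal) := by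
        rw [Summable.tsum_finsetSum (fun _ _ => ENNReal.summable)]
        refine sum_le_sum fun b hb => ?_
        refine (tsum_ind_le _ (fun μ : Hs → Hs => Equiv.swap a b ∘ μ) (fun μ μ' _ _ e =>
          (Equiv.swap a b).injective.comp_left e) (fun μ => ind (Involutive μ ∧
            (∀ h ∉ (O.erase a).erase b, μ h = h) ∧ ∀ h ∈ (O.erase a).erase b, μ h ≠ h))).trans ?_
        refine ih _ (by omega) _ ?_
        rw [card_erase_of_mem hb, card_erase_of_mem ha]; omega
    _ ≤ _ := by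
        rw [sum_const, nsmul_eq_mul, card_erase_of_mem ha, hO]
        norm_cast
        rcases Nat.lt_or_ge n 2 with h | h
        · rw [show n - 1 = 0 by omega]; simp
        · unfold Mf
          obtain ⟨k, hk⟩ : ∃ k, n / 2 = k + 1 := ⟨n / 2 - 1, by omega⟩
          rw [hk, show (n - 2) / 2 = k by omega, pow_succ, Nat.factorial_succ]
          calc _ ≤ (2 * (k + 1)) * (2 ^ k * k.factorial) := by gcongr; omega
            _ = _ := by ring

lemma count_op (m : Dir → ℕ) (U : Finset Hs) :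
    ∑' s : St, ind (s.m = m ∧ op s = U) ≤ Mf (deg m) := by
  have h1 := tsum_ind_le (fun s : St => s.m = m ∧ op s = U) (fun s => s.μ)
    (fun a b ha hb e => St.ext (ha.1.trans hb.1.symm) e)
    (fun μ => ind (Involutive μ ∧ (∀ h ∉ rng m \ U, μ h = h) ∧ ∀ h ∈ rng m \ U, μ h ≠ h))
  refine le_trans (ENNReal.tsum_le_tsum fun s => ind_le fun hs => ?_) (h1.trans
    ((count_pm _ _ rfl).trans ?_))
  · rw [ind_pos hs, ind_pos, one_mul]
    obtain ⟨rfl, rfl⟩ := hs
    refine ⟨s.inv, fun h hh => ?_, fun h hh e => ?_⟩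
    · by_cases r : h.2 < s.m h.1
      · by_contra hn
        exact hh (mem_sdiff.2 ⟨mem_rng.2 r, fun g => hn (mem_op.1 g).2⟩)
      · exact s.out h (not_lt.1 r)
    · exact (mem_sdiff.1 hh).2 (mem_op.2 ⟨mem_rng.1 (mem_sdiff.1 hh).1, e⟩)
  · exact_mod_cast Mf_mono ((card_le_card sdiff_subset).trans (card_rng m).le)

lemma count_all (m : Dir → ℕ) : ∑' s : St, ind (s.m = m) ≤ 2 ^ deg m * Mf (deg m) := by
  calc _ ≤ ∑' s : St, ∑ U ∈ (rng m).powerset, ind (s.m = m ∧ op s = U) := by
        refine ENNReal.tsum_le_tsum fun s => ind_le fun hs => ?_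
        refine le_trans ?_ (single_le_sum (f := fun U => ind (s.m = m ∧ op s = U))
          (fun _ _ => zero_le) (mem_powerset.2 (hs ▸ filter_subset _ _ : op s ⊆ rng m)))
        exact (ind_pos ⟨hs, rfl⟩).ge
    _ ≤ ∑ U ∈ (rng m).powerset, (Mf (deg m) : ENNReal) := by
        rw [Summable.tsum_finsetSum (fun _ _ => ENNReal.summable)]
        exact sum_le_sum fun U _ => count_op m U
    _ = _ := by rw [sum_const, card_powerset, card_rng, nsmul_eq_mul]; norm_cast

lemma exists_rank {T : Finset V} (R : V → Prop)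
    (h : ∀ x ∈ T, ∃ r, R r ∧ Conn (· ∈ T) x r) :
    ∃ (rank : V → ℕ) (par : V → Dir), ∀ x ∈ T, ¬ R x →
      x + vec (par x) ∈ T ∧ rank (x + vec (par x)) < rank x := by
  let P : ℕ → V → Prop := fun n => Nat.rec R (fun _ Q x => Q x ∨ ∃ d, x + vec d ∈ T ∧ Q (x + vec d)) n
  have hP : ∀ x ∈ T, ∃ n, P n x := by
    intro x hx
    obtain ⟨r, hr, hc⟩ := h x hx
    refine hc.symm.ind (R := fun y => ∃ n, P n y) ⟨0, hr⟩ ?_
    rintro a b ha _ hab ⟨n, hn⟩
    obtain ⟨d, rfl⟩ := hab.symm
    exact ⟨n + 1, Or.inr ⟨d, ha, hn⟩⟩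
  have : ∀ x, ∃ d, x ∈ T → ¬ R x → x + vec d ∈ T ∧
      sInf {n | P n (x + vec d)} < sInf {n | P n x} := by
    intro x
    by_cases hx : x ∈ T ∧ ¬ R x
    swap
    · exact ⟨0, fun h1 h2 => absurd ⟨h1, h2⟩ hx⟩
    have h1 : P (sInf {n | P n x}) x := Nat.sInf_mem (hP x hx.1)
    have h2 : ∀ k < sInf {n | P n x}, ¬ P k x := fun k hk => Nat.notMem_of_lt_sInf hk
    generalize sInf {n | P n x} = k at *
    cases k with
    | zero => exact absurd h1 hx.2
    | succ k =>
      rcases h1 with h1 | ⟨d, h3, h4⟩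
      · exact absurd h1 (h2 k (by omega))
      · exact ⟨d, fun _ _ => ⟨h3, Nat.lt_succ_of_le (Nat.sInf_le h4)⟩⟩
  choose par hpar using this
  exact ⟨fun x => sInf {n | P n x}, par, hpar⟩

lemma exists_tri (rank : V → ℕ) (par : V → Dir) (b : V → ZMod 2) (T : Finset V) :
    (∀ x ∈ T, x + vec (par x) ∈ T → rank (x + vec (par x)) < rank x) →
    ∃ u : V → ZMod 2, ∀ x ∈ T, u x = b x +
      ∑ d, if x + vec d ∈ T ∧ par (x + vec d) = opp d then u (x + vec d) else 0 := by
  induction T using Finset.induction_on_min_value rank with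
  | empty => exact fun _ => ⟨0, by simp⟩
  | insert x T hx hmin ih =>
    intro h
    obtain ⟨u, hu⟩ := ih fun y hy h' => h y (mem_insert_of_mem hy) (mem_insert_of_mem h')
    have key : ∀ t, ∀ y ∈ insert x T, ∀ d,
        (if y + vec d ∈ insert x T ∧ par (y + vec d) = opp d then update u x t (y + vec d) else 0) =
        if y + vec d ∈ T ∧ par (y + vec d) = opp d then u (y + vec d) else 0 := by
      intro t y hy d
      by_cases e : y + vec d = x
      · rw [if_neg, if_neg (fun g => hx (e ▸ g.1))]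
        rintro ⟨-, g⟩
        have e2 : x + vec (par x) = y := by rw [← e, g]; simp
        have h3 := h x (mem_insert_self _ _) (e2 ▸ hy)
        rw [e2] at h3
        rcases mem_insert.1 hy with rfl | hy
        · exact lt_irrefl _ h3
        · exact (hmin y hy).not_gt h3
      · simp [e]
    refine ⟨update u x (b x + ∑ d, if x + vec d ∈ T ∧ par (x + vec d) = opp d
      then u (x + vec d) else 0), fun y hy => ?_⟩
    simp only [key _ y hy]
    rcases mem_insert.1 hy with rfl | hy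
    · rw [update_self]
    · rw [update_of_ne (fun e : y = x => hx (e ▸ hy)), hu y hy]

/-- adjusting parities along a forest -/
lemma tjoin (rank : V → ℕ) (par : V → Dir) (base : V → Dir → ℕ) (N : Finset V)
    (h : ∀ x ∈ N, x + vec (par x) ∈ N → rank (x + vec (par x)) < rank x) :
    ∃ fl : V → Dir → ℕ, (∀ x d, fl x d ≤ 1) ∧ (∀ x d, fl x d = fl (x + vec d) (opp d)) ∧
      (∀ x d, fl x d ≠ 0 → (x ∈ N ∧ par x = d) ∨ (x + vec d ∈ N ∧ par (x + vec d) = opp d)) ∧
      ∀ x ∈ N, Even (deg (fun d => base x d + fl x d)) := by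
  obtain ⟨u, hu⟩ := exists_tri rank par (fun x => (deg (base x) : ZMod 2)) N h
  let t : V → Dir → ZMod 2 := fun x d => (if x ∈ N ∧ par x = d then u x else 0) +
    if x + vec d ∈ N ∧ par (x + vec d) = opp d then u (x + vec d) else 0
  refine ⟨fun x d => (t x d).val, fun x d => Nat.lt_succ_iff.1 (ZMod.val_lt _), fun x d => ?_,
    fun x d hd => ?_, fun x hx => ?_⟩
  · simp only [t, add_vec_opp, opp_opp, add_comm]
  · by_contra hn
    rw [not_or] at hn
    exact hd (by simp only [t, if_neg hn.1, if_neg hn.2]; rfl)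
  · rw [← ZMod.natCast_eq_zero_iff_even, deg, sum_add_distrib, Nat.cast_add, Nat.cast_sum (f := fun d => (t x d).val)]
    simp only [ZMod.natCast_val, ZMod.cast_id', id_eq, t, sum_add_distrib, hx, true_and,
      sum_ite_eq, mem_univ, if_true]
    have := hu x hx
    rw [deg] at this
    rw [add_left_comm, ← this]
    generalize u x = z; revert z; decide

end Pool.Agent.Lib.MP_1f6494_pr
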