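import Pool.Agent.Lib.MP_1f6494_pr.Close

set_option autoImplicit false

namespace Pool.Agent.Lib.MP_1f6494_pr

open Finset Classical Function Real Filter

noncomputable def Zr (g : ℕ → ℝ) (n : ℕ) : ℝ := ∑ s : Fin n → Dir, wt g 0 s
noncomputable def FE (g : ℕ → ℝ) : ℝ := limsup (fun n : ℕ => log (Zr g n) / n) atTop
noncomputable def GG (g : ℕ → ℝ) (u : ℝ) (j : ℕ) : ℝ := g j * exp (-(u * j))

variable {g : ℕ → ℝ} {k : ℕ}

lemma sum_lt_im {n : ℕ} (s : Fin n → Dir) :
    ∑ x ∈ univ.image (fun t : Fin n => pos 0 s (t + 1)), lt 0 s x = n :=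
  sum_lt fun t => mem_image.2 ⟨t, mem_univ t, rfl⟩

lemma wt_pos (hg : ∀ j, 0 < g j) {n : ℕ} (s : Fin n → Dir) : 0 < wt g 0 s :=
  div_pos (prod_pos fun _ _ => hg _) (by positivity)

lemma Zr_pos (hg : ∀ j, 0 < g j) (n : ℕ) : 0 < Zr g n := sum_pos (fun s _ => wt_pos hg s) univ_nonempty

lemma wt_GG (u : ℝ) {n : ℕ} (s : Fin n → Dir) : wt (GG g u) 0 s = wt g 0 s * exp (-(u * n)) := by
  unfold wt GG
  rw [prod_mul_distrib, ← exp_sum, sum_neg_distrib, ← mul_sum, ← Nat.cast_sum,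
    sum_lt_im]
  ring

lemma ZW_GG (hg : ∀ j, 0 < g j) (u : ℝ) (n : ℕ) :
    ZW (GG g u) n = ENNReal.ofReal (Zr g n * exp (-(u * n))) := by
  rw [ZW, Zr, sum_mul, ENNReal.ofReal_sum_of_nonneg fun s _ => (mul_pos (wt_pos hg s) (exp_pos _)).le]
  simp only [wt_GG]

lemma FE_bdd (hg : ∀ j, 0 < g j) {A : ℝ} (hA : ∀ j : ℕ, g j ≤ exp (A * j)) :
    IsBoundedUnder (· ≤ ·) atTop (fun n : ℕ => log (Zr g n) / n) := by
  refine isBoundedUnder_of_eventually_le (a := A) (eventually_atTop.2 ⟨1, fun n hn => ?_⟩)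
  have n0 : (0 : ℝ) < n := by exact_mod_cast hn
  rw [div_le_iff₀ n0, log_le_iff_le_exp (Zr_pos hg n)]
  calc Zr g n ≤ ∑ s : Fin n → Dir, exp (A * n) / 4 ^ n := by
        refine sum_le_sum fun s _ => div_le_div_of_nonneg_right ?_ (by positivity)
        refine (prod_le_prod (fun _ _ => (hg _).le) fun _ _ => hA _).trans (le_of_eq ?_)
        rw [← exp_sum, ← mul_sum, ← Nat.cast_sum, sum_lt_im]
    _ = _ := by simp; field_simp

lemma FE_cob (hg : ∀ j, 0 < g j) :
    IsCoboundedUnder (· ≤ ·) atTop (fun n : ℕ => log (Zr g n) / n) := by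
  refine isCoboundedUnder_le_of_eventually_le atTop (x := log (g 1 / 4))
    (eventually_atTop.2 ⟨1, fun n hn => ?_⟩)
  have n0 : (0 : ℝ) < n := by exact_mod_cast hn
  have g1 := hg 1
  rw [le_div_iff₀ n0, mul_comm, ← log_pow]
  refine log_le_log (by positivity) (le_trans (le_of_eq ?_)
    (single_le_sum (fun s _ => (wt_pos hg s).le) (mem_univ fun _ => 0)))
  have p : ∀ i ≤ n, pos 0 (fun _ : Fin n => (0 : Dir)) i = ((i : ℤ), 0) := by
    intro i
    induction i with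
    | zero => intro; rw [pos_zero]; rfl
    | succ i ih => intro hi; rw [pos_succ ⟨i, hi⟩, ih (by omega)]; simp [vec0]
  have inj : Injective fun t : Fin n => pos 0 (fun _ : Fin n => (0 : Dir)) (t + 1) := fun a b e => by
    simp only [p _ a.2, p _ b.2] at e
    exact Fin.ext (by simpa using e)
  rw [wt, prod_image fun a _ b _ e => inj e, prod_congr rfl (g := fun _ => g 1) fun t _ => by
    rw [lt, filter_congr (q := (· = t)) fun a _ => inj.eq_iff, filter_eq']; simp]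
  simp [div_pow]

lemma exists_ex {X : ENNReal} (h : X ≠ ⊤) : ∃ A, X ≤ ex A :=
  ⟨X.toReal, by
    conv_lhs => rw [← ENNReal.ofReal_toReal h]
    exact ENNReal.ofReal_le_ofReal (by linarith [add_one_le_exp X.toReal])⟩

lemma FE_le (hg : ∀ j, 0 < g j) {u : ℝ} {D : ENNReal} (hD : D ≠ ⊤)
    (h : ∀ n, 0 < n → ZW (GG g u) n ≤ D) : FE g ≤ u := by
  obtain ⟨A, hA⟩ := exists_ex hD
  refine le_of_forall_pos_le_add fun ε hε => limsup_le_of_le (FE_cob hg) ?_
  obtain ⟨N, hN⟩ := exists_nat_gt (A / ε)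
  refine eventually_atTop.2 ⟨N + 1, fun n hn => ?_⟩
  have n0 : (0 : ℝ) < n := by exact_mod_cast (by omega : 0 < n)
  have h1 := (h n (by omega)).trans hA
  rw [ZW_GG hg, ex, ENNReal.ofReal_le_ofReal_iff (exp_pos _).le, ← le_div_iff₀ (exp_pos _),
    ← exp_sub, ← log_le_iff_le_exp (Zr_pos hg n)] at h1
  have : (N : ℝ) ≤ n := by exact_mod_cast (by omega : N ≤ n)
  rw [div_lt_iff₀ hε] at hN
  rw [div_le_iff₀ n0]
  nlinarith

lemma FE_lt (hg : ∀ j, 0 < g j) {A : ℝ} (hA : ∀ j : ℕ, g j ≤ exp (A * j)) {v : ℝ} (h : FE g < v)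
    (u : ℝ) : ∃ N, ∀ n ≥ N, ZW (GG g u) n ≤ ex (-((u - v) * n)) := by
  obtain ⟨N, hN⟩ := eventually_atTop.1 (eventually_lt_of_limsup_lt h (FE_bdd hg hA))
  refine ⟨N + 1, fun n hn => ?_⟩
  have n0 : (0 : ℝ) < n := by exact_mod_cast (by omega : 0 < n)
  have := hN n (by omega)
  rw [div_lt_iff₀ n0, log_lt_iff_lt_exp (Zr_pos hg n)] at this
  rw [ZW_GG hg]
  refine ENNReal.ofReal_le_ofReal ?_
  rw [show -((u - v) * n) = v * n + -(u * n) by ring, exp_add]
  gcongr

lemma GG_pos (hg : ∀ j, 0 < g j) (u : ℝ) (j : ℕ) : 0 < GG g u j := mul_pos (hg j) (exp_pos _)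

lemma Wt_le {G G' : ℕ → ℝ} {a : ℝ} {s : St} (h : G (deg s.m / 2) ≤ exp a * G' (deg s.m / 2)) :
    Wt G s ≤ Wt G' s * ex a := by
  rw [Wt, Wt, mul_assoc, ex, ← ENNReal.ofReal_mul' (exp_pos _).le]
  refine mul_le_mul_right (ENNReal.ofReal_le_ofReal ?_) _
  have := rf_pos s.m
  unfold w0
  calc _ ≤ exp a * G' (deg s.m / 2) / 4 ^ (deg s.m / 2) / rf s.m := by gcongr
    _ = _ := by ring

lemma dense_tilt {G G' : ℕ → ℝ} {q : Fin 3} {C t ε ε' γ : ℝ} (hC : 0 ≤ C)
    (tot : ∑' s, Wt G s ≤ ex C) (h2 : ∀ l, (∀ q, ¬ Win k q l) → G l ≤ exp (-(t * l))) (ht : 14 ≤ t)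
    (he : C + 3 ≤ t / 2 * ε') (hγ : 0 ≤ γ) (G0 : ∀ l, 0 ≤ G' l) (r1 : ∀ l, Win k q l → G l ≤ G' l)
    (r2 : ∀ l : ℕ, G l ≤ exp (γ * l) * G' l) {M : ℕ} (hM : 1 ≤ M) {E : Cfg → Prop}
    (hE : ∀ σ, E σ → (((box 0 M).filter (fun x => ¬ good k q (σ x))).card : ℝ) ≤ ε * M ^ 2)
    (h : 1 ≤ 2 * ZZ (Wt G) (psi k) (box 0 M) E) :
    ex (-(γ * (24 * k * ε + ε') * M ^ 2) - 2) ≤ sm (fun _ => Wt G') (box 0 M) (fun σ => ind (E σ)) vcf := by
  set B := box 0 M with hB
  have M1 : (1 : ℝ) ≤ M ^ 2 := one_le_pow₀ (by exact_mod_cast hM)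
  let ou : St → ℝ := fun s => if ∀ q, ¬ Win k q (deg s.m / 2) then (deg s.m / 2 : ℕ) else 0
  have a1 : sm (fun _ => Wt G) B (fun σ => ind (¬ ∑ x ∈ B, ou (σ x) ≤ ε' * M ^ 2)) vcf ≤ ex (-2) := by
    calc _ ≤ sm (fun _ => Wt G) B (fun σ => ex (-(t / 2 * (ε' * M ^ 2))) *
          ∏ x ∈ B, ex (t / 2 * ou (σ x))) vcf := by
          refine sm_mono fun σ _ => ind_le fun h => ?_
          rw [ex_sum, ← ex_add, ← mul_sum]
          exact one_le_ex (by nlinarith [not_le.1 h])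
      _ ≤ ex (-(t / 2 * (ε' * M ^ 2))) * ∏ x ∈ B, ex (C + 1) := by
          rw [sm_mul, sm_prod (fun _ s => ex (t / 2 * ou s))]
          refine mul_le_mul_right (prod_le_prod' fun x _ => ?_) _
          calc _ ≤ ∑' s, (Wt G s + Wt G s * (ind (∀ q, ¬ Win k q (deg s.m / 2)) *
                ex (t / 2 * (deg s.m / 2 : ℕ)))) := by
                refine ENNReal.tsum_le_tsum fun s => ?_
                simp only [ou]
                split_ifs with g
                · rw [ind_pos g, one_mul]; exact le_add_self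
                · simp
            _ ≤ ex C + ex C := by
                rw [ENNReal.tsum_add]
                exact add_le_add tot ((site_out h2 (by linarith)).trans (ex_le (by linarith)))
            _ ≤ _ := by rw [← two_mul, add_comm C, ex_add]; exact mul_le_mul_left two_le_ex _
      _ ≤ _ := by
          rw [prod_const, ex_pow, ← ex_add, hB, card_box]
          refine ex_le ?_
          push_cast; nlinarith
  have a2 : ex (-2) ≤ sm (fun _ => Wt G) B (fun σ => ind (E σ ∧ ∑ x ∈ B, ou (σ x) ≤ ε' * M ^ 2)) vcf := by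
    have b1 : 2 * (ex (-2) + ex (-2)) ≤ 1 := by
      rw [← two_mul, ← mul_assoc]
      refine (mul_le_mul_left (mul_le_mul' two_le_ex two_le_ex) _).trans ?_
      rw [← ex_add, ← ex_add]; exact ex_le_one (by norm_num)
    have b2 := (ENNReal.mul_le_mul_iff_right two_ne_zero ENNReal.ofNat_ne_top).1 (b1.trans h)
    rw [← ENNReal.add_le_add_iff_right (ex_ne_top (-2))]
    refine b2.trans (le_trans ?_ (add_le_add_right a1 _))
    rw [← sm_add]
    refine sm_mono fun σ _ => mul_ind_le fun g => (X_le_one (psi_le_one k) _ _ _).trans ?_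
    by_cases g' : ∑ x ∈ B, ou (σ x) ≤ ε' * M ^ 2
    · rw [ind_pos ⟨g, g'⟩]; exact le_self_add
    · rw [ind_pos (p := ¬ _) g']; exact le_add_self
  rw [sub_eq_add_neg, ex_add]
  refine (mul_le_mul_right a2 _).trans ?_
  unfold sm
  rw [← ENNReal.tsum_mul_left]
  refine ENNReal.tsum_le_tsum fun σ => ?_
  rw [mul_left_comm, ← mul_assoc (ex _)]
  refine mul_le_mul_right (mul_ind_le fun ⟨e1, e2⟩ => ?_) _
  simp only [ind_pos e1, mul_one]
  let a : St → ℝ := fun s => 24 * k * (if ¬ good k q s then 1 else 0) + ou s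
  have b3 : ∀ s, Wt G s ≤ Wt G' s * ex (γ * a s) := fun s => Wt_le (by
    by_cases g : good k q s
    · simp only [a, ou, g, not_true, if_false, if_neg fun h : ∀ q, ¬ Win k q _ => h q (win_of_J g)]
      simpa using r1 _ (win_of_J g)
    · refine (r2 _).trans (mul_le_mul_of_nonneg_right (exp_le_exp.2
        (mul_le_mul_of_nonneg_left ?_ hγ)) (G0 _))
      simp only [a, ou, g, not_false_iff, if_true, mul_one]
      split_ifs with w
      · exact le_add_of_nonneg_left (by positivity)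
      · push Not at w
        obtain ⟨q', w⟩ := w
        have : deg s.m / 2 ≤ 24 * k := by have := w.2; have := bq_le k q'; omega
        rw [add_zero]; exact_mod_cast this)
  refine (mul_le_mul_right (prod_le_prod' fun x _ => b3 _) _).trans ?_
  rw [prod_mul_distrib, ex_sum, mul_left_comm, ← ex_add]
  refine mul_le_of_le_one_right' (ex_le_one ?_)
  have := hE σ e1
  rw [card_filter] at this
  push_cast at this
  simp only [a, ← mul_sum, sum_add_distrib]
  have k0 : (0 : ℝ) ≤ k := Nat.cast_nonneg k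
  have := mul_le_mul_of_nonneg_left this (show (0 : ℝ) ≤ 24 * k by positivity)
  nlinarith

lemma dense_FE {G g' : ℕ → ℝ} {q : Fin 3} {C t ε ε' γ u A : ℝ} (hk : 1 ≤ k) (hq : q ≠ 0) (hC : 0 ≤ C)
    (tot : ∑' s, Wt G s ≤ ex C) (h2 : ∀ l, (∀ q, ¬ Win k q l) → G l ≤ exp (-(t * l))) (ht : 14 ≤ t)
    (he : C + 3 ≤ t / 2 * ε') (hγ : 0 ≤ γ) (e0 : 0 ≤ ε) (e1 : ε ≤ 1 / 2) (g0 : g' 0 = 1)
    (hg : ∀ j, 0 < g' j) (hA : ∀ j : ℕ, g' j ≤ exp (A * j)) (r1 : ∀ l, Win k q l → G l ≤ GG g' u l)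
    (r2 : ∀ l : ℕ, G l ≤ exp (γ * l) * GG g' u l) (hD : Dense k (Wt G) (psi k) q ε) :
    u - γ * (24 * k * ε + ε') ≤ FE g' := by
  by_contra hn
  obtain ⟨v, v1, v2⟩ := exists_between (not_le.1 hn)
  obtain ⟨N, hN⟩ := FE_lt hg hA v1 u
  obtain ⟨κ, hκ⟩ := close_ring (GG_pos hg u) k
  have e2 : 0 ≤ ε' := by by_contra c; nlinarith
  have x0 : 0 ≤ γ * (24 * k * ε + ε') := by positivity
  generalize hξ : γ * (24 * k * ε + ε') = ξ at *
  obtain ⟨S, hS⟩ := exists_ex (X := ENNReal.ofReal (8 / GG g' u 1) * ∑' j : ℕ, ex (-(u - v)) ^ j)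
    (ENNReal.mul_ne_top ENNReal.ofReal_ne_top (by
      rw [ENNReal.tsum_geometric, ENNReal.inv_ne_top, ne_eq, tsub_eq_zero_iff_le, ← ex_zero, ex_le_iff]
      linarith))
  obtain ⟨M0, hM0⟩ := quad_large (show 0 < u - v - ξ by linarith) (-(4 * κ)) (-(4 * κ) - 2 - S)
  obtain ⟨M, m1, m2⟩ := hD (M0 + N + 1)
  have d1 := dense_tilt hC tot h2 ht he hγ (fun l => (GG_pos hg u l).le) r1 r2 (by omega)
    (fun σ h => h.2.2) m2
  have d2 := hκ q M (M ^ 2) _ fun η (h : Valid (box 0 M) η ∧ (∀ x ∈ bd (box 0 M), good k q (η x)) ∧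
    (((box 0 M).filter (fun x => ¬ good k q (η x))).card : ℝ) ≤ ε * M ^ 2) => ⟨h.1, h.2.1, by
      have c1 := card_filter_add_card_filter_not (s := box 0 M) (fun x => good k q (η x))
      rw [card_box] at c1
      have c2 : 2 * ((box 0 M).filter (fun x => ¬ good k q (η x))).card ≤ M ^ 2 := by
        have : (2 : ℝ) * ((box 0 M).filter (fun x => ¬ good k q (η x))).card ≤ M ^ 2 := by
          nlinarith [h.2.2, sq_nonneg (M : ℝ)]
        exact_mod_cast this
      have c3 := card_nsmul_le_sum ((box 0 M).filter (fun x => good k q (η x)))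
        (fun x => deg (η x).m / 2) 2 fun x hx => by
          have := (win_of_J (mem_filter.1 hx).2).1; have := bq_pos hk hq; omega
      have c4 := sum_le_sum_of_subset (f := fun x => deg (η x).m / 2)
        (filter_subset (fun x => good k q (η x)) (box 0 M))
      rw [smul_eq_mul] at c3
      omega⟩
  have d3 := close_sum (L := box (-1, -1) (M + 2)) (o := (-2, -1)) (G := GG g' u) (by simp [GG, g0])
    (GG_pos hg u) (by simp [mem_box]) (by simp [mem_box, vec0]; omega) (M ^ 2)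
  have d4 : ∑' n, ind (M ^ 2 ≤ n) * ZW (GG g' u) n ≤
      ex (-((u - v) * M ^ 2)) * ∑' j : ℕ, ex (-(u - v)) ^ j := by
    rw [← ENNReal.tsum_mul_left]
    refine le_trans (ENNReal.tsum_le_tsum fun n => ?_) (tsum_ind_le (fun n => M ^ 2 ≤ n)
      (fun n => n - M ^ 2) (fun a b _ _ _ => by omega)
      fun j => ex (-((u - v) * M ^ 2)) * ex (-(u - v)) ^ j)
    rw [mul_comm]
    refine mul_ind_le fun h => (hN n (le_trans (by nlinarith) h)).trans (le_of_eq ?_)
    rw [ind_pos h, one_mul, ex_pow, ← ex_add, Nat.cast_sub h]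
    congr 1; push_cast; ring
  have := (mul_le_mul_right d1 _).trans (d2.trans (d3.trans ((mul_le_mul_right d4 _).trans
    ((mul_left_comm _ _ _).le.trans (mul_le_mul_right hS _)))))
  rw [← ex_add, ← ex_add, ex_le_iff, hξ] at this
  have := hM0 M (by omega)
  nlinarith

lemma dense_pure {W : St → ENNReal} {ψ : ℕ → ENNReal} {q : Fin 3} (H : GH k W ψ q 0) {ε : ℝ}
    (hε : 0 ≤ ε) : Dense k W ψ q ε := by
  intro M
  refine ⟨M, le_rfl, le_trans ?_ (le_mul_of_one_le_left' one_le_two)⟩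
  have := glueA H (Y := ∅) (T := box 0 M) (disjoint_empty_left _) (E := fun _ => True)
    (E' := fun σ => Valid (box 0 M) σ ∧ (∀ x ∈ bd (box 0 M), good k q (σ x)) ∧
      (((box 0 M).filter (fun x => ¬ good k q (σ x))).card : ℝ) ≤ ε * M ^ 2) (fun x hx => by
      rw [empty_union]
      simp only [mem_box] at hx
      refine ⟨x + (x.1.toNat : ℤ) • vec 2, ⟨2, ?_⟩, conn_line _ x 2 _ fun i hi => ?_⟩ <;>
        simp [mem_box, vec2] at hx ⊢ <;> omega)
    (fun η _ => ⟨valid_empty _, by simp [bd]⟩) fun η σ _ _ h1 h2 => ⟨by simpa using h2,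
      fun x hx => h1 x (mem_bd.1 hx).1, by
        rw [filter_eq_empty_iff.2 fun x hx => not_not.2 (h1 x hx)]; simp; positivity⟩
  simpa [ZZ, sm_empty, X, ind] using this

lemma dense_not {W : St → ENNReal} {ψ : ℕ → ENNReal} {q : Fin 3} {C ε : ℝ} (h1 : ∀ m, ψ m ≤ 1)
    (hC : 0 ≤ C) (tot : ∑' s, W s ≤ ex C) (hg : ∑' s, W s * ind (good k q s) ≤ ex (-2))
    (he : (C + 2) * ε ≤ 1 / 2) : ¬ Dense k W ψ q ε := by
  intro h
  obtain ⟨M, m1, m2⟩ := h 2
  have M1 : (2 : ℝ) ^ 2 ≤ M ^ 2 := by gcongr; exact_mod_cast m1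
  have : ZZ W ψ (box 0 M) (fun σ => Valid (box 0 M) σ ∧ (∀ x ∈ bd (box 0 M), good k q (σ x)) ∧
      (((box 0 M).filter (fun x => ¬ good k q (σ x))).card : ℝ) ≤ ε * M ^ 2) ≤ ex (-2) := by
    calc _ ≤ sm (fun _ => W) (box 0 M) (fun σ => ex ((C + 2) * (ε * M ^ 2)) *
          ∏ x ∈ box 0 M, wh (¬ good k q (σ x)) (ex (-(C + 2)))) vcf := by
          refine sm_mono fun σ _ => mul_ind_le fun h => (X_le_one h1 _ _ _).trans ?_
          simp only [wh_eq]
          rw [← prod_filter, prod_const, ex_pow, ← ex_add]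
          exact one_le_ex (by nlinarith [h.2.2])
      _ ≤ ex ((C + 2) * (ε * M ^ 2)) * ∏ x ∈ box 0 M, ex (-1) := by
          rw [sm_mul, sm_prod (fun _ s => wh (¬ good k q s) (ex (-(C + 2))))]
          refine mul_le_mul_right (prod_le_prod' fun x _ => ?_) _
          calc _ ≤ ∑' s, (W s * ind (good k q s) + W s * ex (-(C + 2))) := by
                refine ENNReal.tsum_le_tsum fun s => ?_
                by_cases g : good k q s
                · rw [wh_neg (not_not.2 g), ind_pos g]; exact le_self_add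
                · rw [wh_pos g]; exact le_add_self
            _ ≤ ex (-2) + ex C * ex (-(C + 2)) := by
                rw [ENNReal.tsum_add, ENNReal.tsum_mul_right]
                exact add_le_add hg (mul_le_mul_left tot _)
            _ ≤ _ := by
                rw [← ex_add, show C + -(C + 2) = -2 by ring, ← two_mul,
                  show (-1 : ℝ) = 1 + -2 by norm_num, ex_add]
                exact mul_le_mul_left two_le_ex _
      _ ≤ _ := by
          rw [prod_const, ex_pow, ← ex_add, card_box]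
          refine ex_le ?_
          push_cast; nlinarith
  have := m2.trans (mul_le_mul' two_le_ex this)
  rw [← ex_add, ← ex_zero, ex_le_iff] at this
  linarith

end Pool.Agent.Lib.MP_1f6494_pr
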