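import Pool.Agent.Lib.MP_1f6494_pr.Lw

set_option autoImplicit false

namespace Pool.Agent.Lib.MP_1f6494_pr

open Finset Classical Function

variable {k : ℕ} {W : St → ENNReal} {ψ : ℕ → ENNReal} {q : Fin 3} {n : ℕ} {L G I : Finset V}
  {σ σ' : Cfg} {C τ : ℝ}

lemma card_bd_box (a : V) (g : ℕ) :
    ((box a g).filter (fun x => ∃ d, x + vec d ∉ box a g)).card ≤ 4 * g := by
  have : (box a g).filter (fun x => ∃ d, x + vec d ∉ box a g) ⊆
      (({a.1, a.1 + g - 1} : Finset ℤ) ×ˢ Ico a.2 (a.2 + g)) ∪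
        (Ico a.1 (a.1 + g) ×ˢ ({a.2, a.2 + g - 1} : Finset ℤ)) := by
    intro x hx
    obtain ⟨h1, d, h2⟩ := mem_filter.1 hx
    simp only [mem_box] at h1 h2
    simp only [mem_union, mem_product, mem_insert, mem_singleton, mem_Ico]
    fin_cases d <;> simp [vec] at h2 <;> omega
  refine (card_le_card this).trans ((card_union_le _ _).trans ?_)
  simp only [card_product, Int.card_Ico, add_sub_cancel_left, Int.toNat_natCast]
  have h1 := card_le_two (a := a.1) (b := a.1 + g - 1)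
  have h2 := card_le_two (a := a.2) (b := a.2 + g - 1)
  nlinarith

lemma Hyp.up (H : Hyp k W ψ C τ) (hq : q ≠ 0) (hA : Adm k W ψ τ q n) (hG : Guard G I) :
    ZZ W ψ I (Ens k q n I) ≤ ex (pr k W ψ C q n * I.card + 113 * C * G.card) := by
  obtain ⟨a, hs, r, hr, hr'⟩ := exists_box hG.1 hG.2.1
  set B := box a G.card with hB
  have IB : I ⊆ B := hG.2.2.2.1.trans hs
  have GB : G ⊆ B := (sub_fill G).trans hs
  obtain ⟨Y, ⟨hY, hA'⟩, hZ⟩ := H.lw hq hA (B \ (G ∪ I))
  have dIY : Disjoint I Y := disjoint_of_subset_right hY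
    (disjoint_of_subset_left subset_union_right disjoint_sdiff)
  have m := mult_ens (k := k) (W := W) (ψ := ψ) (q := q) (n := n) dIY fun x hx d g =>
    (mem_sdiff.1 (hY g)).2 ((hG.2.2.2.2 x hx d).elim (mem_union_right _) (mem_union_left _))
  have s1 : I ∪ Y ⊆ B := union_subset IB (hY.trans sdiff_subset)
  have GT : G ⊆ B \ (I ∪ Y) := fun x hx => mem_sdiff.2 ⟨GB hx, fun g => (mem_union.1 g).elim
    (disjoint_left.1 hG.2.2.1 hx) fun g => (mem_sdiff.1 (hY g)).2 (mem_union_left _ hx)⟩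
  have YT : (B \ (G ∪ I)) \ Y ⊆ B \ (I ∪ Y) := by
    intro x; simp only [mem_sdiff, mem_union]; tauto
  have nbG : ∀ b ∈ bd (B \ (G ∪ I)), (∃ d, b + vec d ∉ B) ∨ ∃ d, b + vec d ∈ G := by
    intro b hb
    obtain ⟨b1, d, b2⟩ := mem_bd.1 hb
    by_cases g : b + vec d ∈ B
    · refine Or.inr ⟨d, ?_⟩
      have : b + vec d ∈ G ∪ I := by by_contra g'; exact b2 (mem_sdiff.2 ⟨g, g'⟩)
      refine (mem_union.1 this).resolve_right fun g' => (mem_sdiff.1 b1).2 ?_
      have := hG.2.2.2.2 _ g' (opp d)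
      rw [add_vec_opp] at this
      exact this.elim (mem_union_right _) (mem_union_left _)
    · exact Or.inl ⟨d, g⟩
  have g := glue_ens (n := n) (H.G q hq) (disjoint_sdiff (s := I ∪ Y) (t := B)) (by
    rw [union_sdiff_of_subset s1]
    have cG : ∀ x ∈ G, ∃ r, (∃ d, r + vec d ∉ B) ∧ Conn (· ∈ B \ (I ∪ Y)) x r := fun x hx =>
      ⟨r, ⟨2, by simp [hB, mem_box, vec2]; omega⟩, (hG.2.1 x hx r hr).mono fun a ha => GT ha⟩
    intro x hx
    by_cases hx' : x ∈ G
    · exact cG x hx'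
    obtain ⟨b, b1, b2, b3⟩ := hA' x (by simp only [mem_sdiff, mem_union] at hx ⊢; tauto)
    have b4 := b3.mono (Q := (· ∈ B \ (I ∪ Y))) fun a ha => YT ha
    rcases nbG b b1 with g | ⟨d, g⟩
    · exact ⟨b, g, b4⟩
    · obtain ⟨r, r1, r2⟩ := cG _ g
      exact ⟨r, r1, (b4.tail (b4.mem hx) (GT g) (adj_vec _ _)).trans r2⟩)
  rw [union_sdiff_of_subset s1, hB, ZZ_box] at g
  have := (mul_le_mul_right ((mul_le_mul_right hZ _).trans m) _).trans (g.trans (H.pr_up _))
  rw [mul_comm (ZZ _ _ _ _), ← mul_assoc, ← ex_add] at this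
  refine (mul_ex_le this).trans ?_
  rw [← ex_add]
  refine ex_le ?_
  have c1 : (B \ (I ∪ Y)).card = G.card + ((B \ (G ∪ I)) \ Y).card := by
    rw [← card_union_of_disjoint (disjoint_of_subset_right sdiff_subset
      (disjoint_of_subset_left subset_union_left disjoint_sdiff))]
    congr 1; ext y
    have := @GT y
    simp only [mem_sdiff, mem_union] at *; tauto
  have c2 : (B \ (G ∪ I)).card + (G.card + I.card) = G.card ^ 2 := by
    rw [← card_union_of_disjoint hG.2.2.1, card_sdiff_add_card_eq_card (union_subset GB IB), hB,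
      card_box]
  have c3 : (bd (B \ (G ∪ I))).card ≤ 8 * G.card := by
    have : bd (B \ (G ∪ I)) ⊆ B.filter (fun x => ∃ d, x + vec d ∉ B) ∪
        G.biUnion (fun x => univ.image (fun d => x + vec d)) := by
      intro b hb
      rcases nbG b hb with g | ⟨d, g⟩
      · exact mem_union_left _ (mem_filter.2 ⟨(mem_sdiff.1 (mem_bd.1 hb).1).1, g⟩)
      · exact mem_union_right _ (mem_biUnion.2 ⟨_, g, mem_image.2 ⟨opp d, mem_univ _, by simp⟩⟩)
    have h1 := (card_le_card this).trans (card_union_le _ _)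
    have h2 := card_biUnion_le_card_mul G (fun x => univ.image (fun d : Dir => x + vec d)) 4
      fun x _ => card_image_le.trans (by simp)
    have h3 := card_bd_box a G.card
    rw [← hB] at h3
    omega
  rw [← hB, c1]
  have c2' : ((B \ (G ∪ I)).card : ℝ) = G.card ^ 2 - G.card - I.card := by
    have : ((B \ (G ∪ I)).card : ℝ) + (G.card + I.card) = G.card ^ 2 := by exact_mod_cast c2
    linarith
  have c3' : ((bd (B \ (G ∪ I))).card : ℝ) ≤ 8 * G.card := by exact_mod_cast c3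
  have c4 : (1 : ℝ) ≤ G.card := by exact_mod_cast hG.1.card_pos
  have := H.pr_le (q := q) (n := n)
  have := H.hC
  rw [c2']; push_cast
  nlinarith

lemma ens_iff_EE : EE k q n L ∅ σ ↔ Ens k q n L σ := by simp [EE, Ens]

lemma Guard.card_lt (h : Guard G I) : I.card < (fill G).card := by
  obtain ⟨x, hx⟩ := h.1
  exact card_lt_card ⟨h.2.2.2.1, fun g => disjoint_left.1 h.2.2.1 hx (g (sub_fill G hx))⟩

lemma Hyp.sw_fam (H : Hyp k W ψ C τ) (hq : q ≠ 0) {n' N : ℕ} (hn : n' ≤ n)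
    (hA : Adm k W ψ τ q n') {p : ℝ} (hU : ∀ G q I, Guard G I → I.card < N →
      ZZ W ψ I (Base k q I) ≤ ex (p * I.card + 113 * C * G.card)) (F : Finset (Finset V)) :
    Fam L F → (∀ G ∈ F, (fill G).card ≤ N) → ZZ W ψ L (EE k q n L F) ≤
      (∏ G ∈ F, ex (-((τ - 394 * C) * G.card) + (p - pr k W ψ C q n') * (fill G \ G).card)) *
        ZZ W ψ L (Ens k q n L) := by
  induction F using Finset.induction_on with
  | empty => exact fun _ _ => by simpa using ZZ_mono fun σ => ens_iff_EE.1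
  | insert G F hG ih =>
    intro h1 h2
    have hC := H.hC
    refine (H.sw hq hn (fun A hA => h1.2 A (mem_insert_of_mem hA) G (mem_insert_self _ _)
      fun e => hG (e ▸ hA)) (h1.1 G (mem_insert_self _ _)).2 (c2 := 13 * C) (by linarith)
      (fun q I g => hU G q I g (g.card_lt.trans_le (h2 G (mem_insert_self _ _)))) (H.lw hq hA)).trans ?_
    rw [prod_insert hG, mul_assoc]
    refine mul_le_mul' (ex_le ?_) (ih ⟨fun A hA => h1.1 A (mem_insert_of_mem hA), fun A hA B hB =>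
      h1.2 A (mem_insert_of_mem hA) B (mem_insert_of_mem hB)⟩ fun A hA => h2 A (mem_insert_of_mem hA))
    have : (0 : ℝ) ≤ G.card := Nat.cast_nonneg _
    nlinarith

lemma ZZ_ne_zero {E : Cfg → Prop} (h : ZZ W ψ L E ≠ 0) : ∃ σ, E σ := by
  by_contra hn
  refine h ?_
  rw [ZZ, sm_congr (g := fun _ => 0) fun σ _ => by rw [ind_neg fun g => hn ⟨σ, g⟩, mul_zero], sm_zero]

lemma Hyp.fail (H : Hyp k W ψ C τ) (hq : q ≠ 0) {N : ℕ} (hA : Adm k W ψ τ q n)
    (hf : ¬ Adm k W ψ τ q (n + 1)) (hN : n + 1 ≤ N) {p : ℝ}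
    (hU : ∀ G q I, Guard G I → I.card < N →
      ZZ W ψ I (Base k q I) ≤ ex (p * I.card + 113 * C * G.card)) :
    0 < p - pr k W ψ C q n ∧ ∀ g : ℕ, n + 1 ≤ g ^ 2 → 2 ≤ (p - pr k W ψ C q n) * g := by
  simp only [Adm, not_forall, not_le] at hf
  obtain ⟨M, G, h⟩ := hf
  obtain ⟨σ, h1, h2⟩ := ZZ_ne_zero (ne_zero_of_lt h)
  have h3 := h1.2 G h2.1
  have h4 := H.sw_fam (L := box 0 M) hq (Nat.le_succ n) hA hU {G} ⟨by
    simpa using ⟨h2.1.1, (noHole_box _ _).fill_sub fun x hx => (h1.1.2.1 x (h2.1.2.1 hx)).1⟩,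
    by simp⟩ (by simpa using h3.trans hN)
  have h5 := h.trans_le ((ZZ_mono fun σ g => ⟨g.1.1, by simpa using g.2,
    fun A hA => Or.inr (g.1.2 A hA)⟩).trans h4)
  rw [prod_singleton] at h5
  have h6 := ex_lt_iff.1 (lt_of_mul_lt_mul_right' h5)
  generalize p - pr k W ψ C q n = a at *
  have g1 : (1 : ℝ) ≤ G.card := by exact_mod_cast h2.1.1.card_pos
  have f0 : (0 : ℝ) ≤ (fill G \ G).card := Nat.cast_nonneg _
  have f1 : ((fill G \ G).card : ℝ) ≤ G.card ^ 2 := by
    exact_mod_cast (card_le_card sdiff_subset).trans (card_fill G)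
  have f2 : (fill G \ G).card ≤ n + 1 := (card_le_card sdiff_subset).trans h3
  have h7 : 2 * G.card < a * (fill G \ G).card := by nlinarith [H.hC, H.hτ]
  have a0 : 0 < a := by by_contra g; nlinarith
  refine ⟨a0, fun g hg => ?_⟩
  have f3 : ((fill G \ G).card : ℝ) ≤ g ^ 2 := by exact_mod_cast f2.trans hg
  have g0 : (0 : ℝ) ≤ g := Nat.cast_nonneg _
  by_contra hn
  push Not at hn
  rcases le_total (G.card : ℝ) g with c | c
  · nlinarith
  · nlinarith

lemma small_sum {a s : ℝ} (ha : 0 < a) (hs : 6 ≤ s) (hg : ∀ g : ℕ, n + 1 ≤ g ^ 2 → 2 ≤ a * g) (x : V) :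
    ex (-a) + ∑' G : Finset V, ind (x ∈ fill G) * (ind (Cn G ∧ n < (fill G).card) *
      ex (-(s * G.card))) ≤ 1 := by
  have h1 : ex (-a) ≤ ENNReal.ofReal (1 / (1 + a)) := by
    refine ENNReal.ofReal_le_ofReal ?_
    rw [Real.exp_neg, ← one_div]
    exact one_div_le_one_div_of_le (by linarith) (by linarith [Real.add_one_le_exp a])
  have h2 : ∑' G : Finset V, ind (x ∈ fill G) * (ind (Cn G ∧ n < (fill G).card) *
      ex (-(s * G.card))) ≤ ENNReal.ofReal (a / (1 + a)) := by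
    calc _ ≤ ∑' G : Finset V, ENNReal.ofReal (a / (1 + a)) *
          (ind (Cn G ∧ x ∈ fill G) * ex (-((s - 1) * G.card))) := by
          refine ENNReal.tsum_le_tsum fun G => ?_
          rw [← mul_assoc, ← ind_and, mul_comm]
          refine mul_ind_le fun ⟨g1, g2, g3⟩ => ?_
          rw [ind_pos ⟨g2, g1⟩, one_mul, show -(s * G.card) = -G.card + -((s - 1) * G.card) by ring,
            ex_add]
          refine mul_le_mul_left (ENNReal.ofReal_le_ofReal ?_) _
          have h3 := hg G.card (g3.trans_le (card_fill G))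
          have h4 := Real.add_one_le_exp (G.card : ℝ)
          rw [Real.exp_neg, ← one_div, div_le_div_iff₀ (Real.exp_pos _) (by linarith)]
          nlinarith
      _ ≤ _ := by
          rw [ENNReal.tsum_mul_left]
          exact mul_le_of_le_one_right' ((tsum_fill x (by linarith)).trans (ex_le_one (by linarith)))
  refine (add_le_add h1 h2).trans (le_of_eq ?_)
  rw [← ENNReal.ofReal_add (by positivity) (by positivity), ← add_div, div_self (by linarith)]
  simp

lemma Hyp.upper (H : Hyp k W ψ C τ) {p : ℝ} (hp : 0 ≤ p)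
    (hp' : ∀ q n, q ≠ 0 → (∀ n' ≤ n, Adm k W ψ τ q n') → pr k W ψ C q n ≤ p) (N : ℕ) :
    ∀ G q I, Guard G I → I.card < N →
      ZZ W ψ I (Base k q I) ≤ ex (p * I.card + 113 * C * G.card) := by
  have hC := H.hC
  induction N with
  | zero => intro _ _ _ _ h; omega
  | succ N ih =>
    intro G q I hG hI
    by_cases hq : q = 0
    · rw [hq]; exact (H.ZZ_zero I).trans (one_le_ex (by positivity))
    by_cases hA : ∀ n' ≤ I.card, Adm k W ψ τ q n'
    · refine ((ZZ_mono fun σ h => h.ens hG.noHole).trans (H.up hq (hA _ le_rfl) hG)).trans (ex_le ?_)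
      have := hp' q _ hq hA
      gcongr
    have ex0 : ∃ m, ¬ Adm k W ψ τ q m := by
      by_contra g
      exact hA fun n' _ => by_contra fun g' => g ⟨n', g'⟩
    have h0 : Nat.find ex0 ≠ 0 := fun e => (e ▸ Nat.find_spec ex0 :) fun M G => by
      by_contra g
      obtain ⟨σ, h1, h2⟩ := ZZ_ne_zero (ne_zero_of_lt (not_le.1 g))
      have := h1.2 G h2.1
      have := card_le_card (sub_fill G)
      have := h2.1.1.card_pos
      omega
    obtain ⟨n, hn⟩ := Nat.exists_eq_succ_of_ne_zero h0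
    have a1 : ∀ n' ≤ n, Adm k W ψ τ q n' := fun n' h => not_not.1 (Nat.find_min ex0 (by omega))
    have a2 : ¬ Adm k W ψ τ q (n + 1) := by have := Nat.find_spec ex0; rwa [hn] at this
    have a3 : n + 1 ≤ I.card := by
      by_contra g
      exact hA fun n' h => a1 n' (by omega)
    obtain ⟨b1, b2⟩ := H.fail hq (a1 n le_rfl) a2 (by omega) ih
    set a := p - pr k W ψ C q n with ha
    set r : Finset V → ENNReal := fun A => ind (Cn A ∧ n < (fill A).card) *
      ex (-((τ - 394 * C) * A.card)) with hr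
    calc _ ≤ ∑' F : Finset (Finset V), ind (Fam I F ∧ ∀ A ∈ F, Cn A ∧ n < (fill A).card) *
          ZZ W ψ I (EE k q n I F) := by
          simp only [ZZ, ← sm_mul, ← sm_tsum]
          refine sm_mono fun σ _ => mul_ind_le fun h => le_trans ?_
            (ENNReal.le_tsum ((mx k I σ).filter (fun A => n < (fill A).card)))
          rw [ind_pos, ind_pos, one_mul, mul_one]
          · refine ⟨h, fun A hA => h.qc H.hk (mem_mx.1 (mem_filter.1 hA).1), fun A hA => ?_⟩
            obtain ⟨M, m1, m2⟩ := exists_maxC hA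
            by_cases g : n < (fill M).card
            · exact Or.inl ⟨M, mem_filter.2 ⟨mem_mx.2 m1, g⟩, (sub_fill A).trans m2⟩
            · exact Or.inr ((card_le_card m2).trans (not_lt.1 g))
          · refine ⟨⟨fun A hA => ?_, fun A hA B hB => (mem_mx.1 (mem_filter.1 hA).1).disj
              (mem_mx.1 (mem_filter.1 hB).1)⟩, fun A hA =>
              ⟨(mem_mx.1 (mem_filter.1 hA).1).1.2.2.1, (mem_filter.1 hA).2⟩⟩
            have g := (mem_mx.1 (mem_filter.1 hA).1).1
            exact ⟨g.1, hG.noHole.fill_sub fun x hx => (h.2.1 x (g.2.1 hx)).1⟩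
      _ ≤ ∑' F : Finset (Finset V), (ind (Fam I F) * ∏ A ∈ F, (r A * ex (a * (fill A).card))) *
          ZZ W ψ I (Ens k q n I) := by
          refine ENNReal.tsum_le_tsum fun F => ?_
          rw [mul_comm]
          refine mul_ind_le fun ⟨f1, f2⟩ => (H.sw_fam hq le_rfl (a1 n le_rfl) ih F f1 fun A hA =>
            (card_le_card (f1.1 A hA).2).trans (by omega)).trans (mul_le_mul_left ?_ _)
          rw [ind_pos f1, one_mul]
          refine prod_le_prod' fun A hA => ?_
          simp only [hr, ind_pos (f2 A hA), one_mul, ← ex_add]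
          have : ((fill A \ A).card : ℝ) ≤ (fill A).card := by exact_mod_cast card_le_card sdiff_subset
          exact ex_le (by nlinarith)
      _ ≤ ex (a * I.card) * ex (pr k W ψ C q n * I.card + 113 * C * G.card) := by
          rw [ENNReal.tsum_mul_right]
          exact mul_le_mul' (scan r (small_sum b1 (by linarith [H.hτ]) b2) I)
            (H.up hq (a1 n le_rfl) hG)
      _ = _ := by rw [← ex_add, ha]; congr 1; ring

/-- the dense phase has large weight in boxes -/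
def Dense (k : ℕ) (W : St → ENNReal) (ψ : ℕ → ENNReal) (q : Fin 3) (ε : ℝ) : Prop :=
  ∀ M0 : ℕ, ∃ M ≥ M0, 1 ≤ 2 * ZZ W ψ (box 0 M) (fun σ => Valid (box 0 M) σ ∧
    (∀ x ∈ bd (box 0 M), good k q (σ x)) ∧
    (((box 0 M).filter (fun x => ¬ good k q (σ x))).card : ℝ) ≤ ε * M ^ 2)

theorem Hyp.dich (H : Hyp k W ψ C τ) :
    (∀ G q I, Guard G I → ZZ W ψ I (Base k q I) ≤ ex (0 * I.card + 113 * C * G.card)) ∨
      ∃ q, q ≠ 0 ∧ Dense k W ψ q (Real.exp (-(τ / 4))) := by
  set P := insert 0 {t | ∃ q n, q ≠ 0 ∧ (∀ n' ≤ n, Adm k W ψ τ q n') ∧ t = pr k W ψ C q n} with hP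
  have bdd : BddAbove P := ⟨C, by
    rintro t (rfl | ⟨q, n, -, -, rfl⟩)
    exacts [by linarith [H.hC], H.pr_le]⟩
  have p0 : 0 ≤ sSup P := le_csSup bdd (Or.inl rfl)
  have U := H.upper p0 fun q n h1 h2 => le_csSup bdd (Or.inr ⟨q, n, h1, h2, rfl⟩)
  rcases p0.eq_or_lt with e | p1
  · exact Or.inl fun G q I h => e ▸ U _ G q I h (Nat.lt_succ_self _)
  right
  have : ∃ q, q ≠ 0 ∧ (∀ n, Adm k W ψ τ q n) ∧ ∃ n, 0 < pr k W ψ C q n := by
    by_contra hn
    have : ∀ q, ∃ t < sSup P, q ≠ 0 → ∀ n, (∀ n' ≤ n, Adm k W ψ τ q n') → pr k W ψ C q n ≤ t := by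
      intro q
      by_cases hq : q = 0
      · exact ⟨0, p1, fun h => absurd hq h⟩
      by_cases ha : ∀ n, Adm k W ψ τ q n
      · exact ⟨0, p1, fun _ n _ => not_lt.1 fun g => hn ⟨q, hq, ha, n, g⟩⟩
      have ex0 : ∃ m, ¬ Adm k W ψ τ q m := not_forall.1 ha
      rcases e : Nat.find ex0 with _ | n
      · exact ⟨0, p1, fun _ n h => absurd (h 0 (Nat.zero_le _)) (e ▸ Nat.find_spec ex0 :)⟩
      have a2 : ¬ Adm k W ψ τ q (n + 1) := by have := Nat.find_spec ex0; rwa [e] at this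
      have := (H.fail hq (not_not.1 (Nat.find_min ex0 (by omega))) a2 le_rfl (U _)).1
      exact ⟨pr k W ψ C q n, by linarith, fun _ m h => H.pr_mono (by
        by_contra g
        exact a2 (h _ (by omega)))⟩
    choose t ht using this
    have : sSup P ≤ max 0 (max (t 1) (t 2)) := by
      refine csSup_le ⟨0, Or.inl rfl⟩ ?_
      rintro _ (rfl | ⟨q, n, h1, h2, rfl⟩)
      · exact le_max_left _ _
      · refine ((ht q).2 h1 n h2).trans (le_max_of_le_right ?_)
        fin_cases q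
        exacts [absurd rfl h1, le_max_left _ _, le_max_right _ _]
    exact this.not_gt (max_lt p1 (max_lt (ht 1).1 (ht 2).1))
  obtain ⟨q, hq, hA, n, hn⟩ := this
  refine ⟨q, hq, fun M0 => ?_⟩
  obtain ⟨M, h1, h2⟩ := H.pr_low hq hn (M0 + 1)
  refine ⟨M, by omega, le_trans (by simpa using h2) ((H.markov (hA n) (by omega)).trans
    (mul_le_mul_right (ZZ_mono fun σ ⟨g1, g2⟩ => ⟨g1.1.1, g1.1.2.2, le_trans ?_ g2⟩) _))⟩
  have : (box 0 M).filter (fun x => ¬ good k q (σ x)) ⊆ (mx k (box 0 M) σ).biUnion fill := by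
    intro x hx
    obtain ⟨A, g3, g4⟩ := g1.1.cover H.hk (mem_filter.1 hx).1 (mem_filter.1 hx).2
    exact mem_biUnion.2 ⟨A, mem_mx.2 g3, g4⟩
  exact_mod_cast (card_le_card this).trans (card_biUnion_le.trans (sum_le_sum fun A hA =>
    (card_fill A).trans (Nat.pow_le_pow_right (mem_mx.1 hA).1.1.card_pos (by norm_num))))

end Pool.Agent.Lib.MP_1f6494_pr
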