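import Pool.Agent.Lib.MP_1f6494_pr.Swap

set_option autoImplicit false

namespace Pool.Agent.Lib.MP_1f6494_pr

open Finset Classical Function

variable {k : ℕ} {W : St → ENNReal} {ψ : ℕ → ENNReal} {q : Fin 3} {n : ℕ} {L G : Finset V}
  {σ σ' : Cfg} {C τ : ℝ}

noncomputable def Zb (k : ℕ) (W : St → ENNReal) (ψ : ℕ → ENNReal) (q : Fin 3) (n M : ℕ) : ENNReal :=
  ZZ W ψ (box 0 M) (Ens k q n (box 0 M))

lemma ZZ_box (a : V) (M : ℕ) : ZZ W ψ (box a M) (Ens k q n (box a M)) = Zb k W ψ q n M := by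
  rw [Zb, ← ZZ_shift (L := box 0 M) a, box_sh, zero_add]

lemma doubling {c : ℝ} (H : GH k W ψ q c) (hc : 0 ≤ c) (M : ℕ) :
    ex (-(c * (4 * M + 2))) * Zb k W ψ q n M ^ 4 ≤ Zb k W ψ q n (2 * M + 1) := by
  set Y := (box 0 M ∪ box ((M : ℤ) + 1, 0) M) ∪ (box (0, (M : ℤ) + 1) M ∪
    box ((M : ℤ) + 1, (M : ℤ) + 1) M) with hY
  have vb : ∀ d, (-1 ≤ (vec d).1 ∧ (vec d).1 ≤ 1) ∧ -1 ≤ (vec d).2 ∧ (vec d).2 ≤ 1 := fun d =>
    ⟨abs_le.1 (vec_fst d), abs_le.1 (vec_snd d)⟩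
  have m : Zb k W ψ q n M ^ 4 ≤ ZZ W ψ Y (Ens k q n Y) := by
    refine le_trans ?_ (mult_ens ?_ ?_)
    · refine le_trans ?_ (mul_le_mul' (mult_ens ?_ ?_) (mult_ens ?_ ?_))
      · simp only [ZZ_box]; exact le_of_eq (by ring)
      · simp only [disjoint_left, mem_box]; simp; omega
      · intro x hx d; have := vb d; simp only [mem_box] at hx ⊢; simp at hx ⊢; omega
      · simp only [disjoint_left, mem_box]; simp; omega
      · intro x hx d; have := vb d; simp only [mem_box] at hx ⊢; simp at hx ⊢; omega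
    · simp only [disjoint_left, mem_union, mem_box]; simp; omega
    · intro x hx d; have := vb d; simp only [mem_union, mem_box] at hx ⊢; simp at hx ⊢; omega
  have hs : Y ⊆ box 0 (2 * M + 1) := by
    intro x hx; simp only [hY, mem_union, mem_box] at hx ⊢; simp at hx ⊢; omega
  have mT : ∀ x, x ∈ box 0 (2 * M + 1) \ Y ↔ x ∈ box 0 (2 * M + 1) ∧ (x.1 = M ∨ x.2 = M) := by
    intro x; simp only [hY, mem_sdiff, mem_union, mem_box]; simp; omega
  have g := glue_ens (n := n) H (disjoint_sdiff (s := Y) (t := box 0 (2 * M + 1))) (by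
    rw [union_sdiff_of_subset hs]
    intro x hx
    obtain ⟨h1, h2⟩ := (mT x).1 hx
    simp only [mem_box] at h1
    rcases h2 with h2 | h2
    · refine ⟨x + (x.2.toNat : ℤ) • vec 3, ⟨3, ?_⟩, conn_line _ x 3 _ fun i hi => (mT _).2 ?_⟩
      · simp [mem_box, vec3] at h1 ⊢; omega
      · simp [mem_box, vec3] at h1 ⊢; omega
    · refine ⟨x + (x.1.toNat : ℤ) • vec 2, ⟨2, ?_⟩, conn_line _ x 2 _ fun i hi => (mT _).2 ?_⟩
      · simp [mem_box, vec2] at h1 ⊢; omega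
      · simp [mem_box, vec2] at h1 ⊢; omega)
  rw [union_sdiff_of_subset hs] at g
  refine le_trans (mul_le_mul' (ex_le ?_) m) g
  have : (box 0 (2 * M + 1) \ Y).card ≤ 4 * M + 2 := by
    have : box 0 (2 * M + 1) \ Y ⊆ ({(M : ℤ)} ×ˢ Ico (0 : ℤ) (2 * M + 1)) ∪
        (Ico (0 : ℤ) (2 * M + 1) ×ˢ {(M : ℤ)}) := by
      intro x hx
      obtain ⟨h1, h2⟩ := (mT x).1 hx
      simp only [mem_box] at h1
      simp only [mem_union, mem_product, mem_singleton, mem_Ico]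
      simp at h1; omega
    refine (card_le_card this).trans ((card_union_le _ _).trans ?_)
    simp only [card_product, card_singleton, Int.card_Ico]; omega
  have : ((box 0 (2 * M + 1) \ Y).card : ℝ) ≤ 4 * M + 2 := by exact_mod_cast this
  nlinarith

noncomputable def pr (k : ℕ) (W : St → ENNReal) (ψ : ℕ → ENNReal) (C : ℝ) (q : Fin 3) (n : ℕ) : ℝ :=
  sInf {t | ∀ M : ℕ, Zb k W ψ q n M ≤ ex (t * (M + 1) ^ 2 + 2 * C * (M + 1))}

lemma Hyp.pr_C (H : Hyp k W ψ C τ) (M : ℕ) :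
    Zb k W ψ q n M ≤ ex (C * (M + 1) ^ 2 + 2 * C * (M + 1)) := by
  refine (H.ZZ_le _ _).trans (ex_le ?_)
  rw [card_box]; push_cast
  have := H.hC
  have : (0 : ℝ) ≤ M := Nat.cast_nonneg M
  nlinarith

lemma pr_bdd : BddBelow {t | ∀ M : ℕ, Zb k W ψ q n M ≤ ex (t * (M + 1) ^ 2 + 2 * C * (M + 1))} := by
  refine ⟨-(2 * C), fun t ht => ?_⟩
  have := ht 0
  rw [Zb, show box 0 0 = ∅ by simp [box], ZZ_empty, ← ex_zero, ex_le_iff] at this
  simp at this; linarith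

lemma Hyp.pr_le (H : Hyp k W ψ C τ) : pr k W ψ C q n ≤ C := csInf_le pr_bdd H.pr_C

lemma Hyp.pr_up (H : Hyp k W ψ C τ) (M : ℕ) :
    Zb k W ψ q n M ≤ ex (pr k W ψ C q n * (M + 1) ^ 2 + 2 * C * (M + 1)) := by
  refine le_ex_of_forall fun ε hε => ?_
  have hp : (0 : ℝ) < (M + 1) ^ 2 := by positivity
  obtain ⟨t, h1, h2⟩ := exists_lt_of_csInf_lt (s := {t | ∀ M : ℕ, Zb k W ψ q n M ≤
    ex (t * (M + 1) ^ 2 + 2 * C * (M + 1))}) ⟨C, H.pr_C (q := q) (n := n)⟩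
    (show pr k W ψ C q n < pr k W ψ C q n + ε / (M + 1) ^ 2 by linarith [div_pos hε hp])
  refine (h1 M).trans (ex_le ?_)
  have := mul_le_mul_of_nonneg_right h2.le hp.le
  rw [add_mul, div_mul_cancel₀ _ hp.ne'] at this
  linarith

lemma Hyp.pr_mono (H : Hyp k W ψ C τ) {n' : ℕ} (h : n ≤ n') : pr k W ψ C q n ≤ pr k W ψ C q n' :=
  csInf_le pr_bdd fun M => (ZZ_mono fun _ g => g.mono h).trans (H.pr_up M)

lemma Hyp.pr_low (H : Hyp k W ψ C τ) (hq : q ≠ 0) {t : ℝ} (ht : t < pr k W ψ C q n) (M0 : ℕ) :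
    ∃ M ≥ M0, ex (t * (M + 1) ^ 2) ≤ Zb k W ψ q n M := by
  have hC : 0 ≤ C := by linarith [H.hC]
  have : ∃ M ≥ M0, ex (t * (M + 1) ^ 2 + 2 * C * (M + 1)) ≤ Zb k W ψ q n M := by
    induction M0 with
    | zero =>
      have := notMem_of_lt_csInf ht pr_bdd
      simp only [Set.mem_setOf_eq, not_forall, not_le] at this
      obtain ⟨M, h⟩ := this
      exact ⟨M, Nat.zero_le _, h.le⟩
    | succ M0 ih =>
      obtain ⟨M, h1, h2⟩ := ih
      refine ⟨2 * M + 1, by omega, le_trans ?_ (doubling (H.G q hq) hC M)⟩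
      refine le_trans ?_ (mul_le_mul_right (pow_le_pow_left' h2 4) _)
      rw [ex_pow, ← ex_add]
      refine ex_le ?_
      push_cast; nlinarith
  obtain ⟨M, h1, h2⟩ := this
  refine ⟨M, h1, (ex_le ?_).trans h2⟩
  have : 0 ≤ 2 * C * (M + 1) := by positivity
  linarith

noncomputable def mx (k : ℕ) (L : Finset V) (σ : Cfg) : Finset (Finset V) :=
  (TB k L σ).powerset.filter (MaxC (TB k L σ))

lemma mem_mx : G ∈ mx k L σ ↔ MaxC (TB k L σ) G :=
  mem_filter.trans ⟨fun h => h.2, fun h => ⟨mem_powerset.2 h.1.2.1, h⟩⟩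

noncomputable def SS (k : ℕ) (L : Finset V) (σ : Cfg) : ℕ := ∑ G ∈ mx k L σ, G.card ^ 4

/-- Peierls bound in boxes -/
def Adm (k : ℕ) (W : St → ENNReal) (ψ : ℕ → ENNReal) (τ : ℝ) (q : Fin 3) (n : ℕ) : Prop :=
  ∀ M G, ZZ W ψ (box 0 M) (fun σ => Ens k q n (box 0 M) σ ∧ QC k q (box 0 M) σ G) ≤
    ex (-(τ / 2 * G.card)) * Zb k W ψ q n M

lemma Hyp.markov (H : Hyp k W ψ C τ) (hA : Adm k W ψ τ q n) {M : ℕ} (hM : 0 < M) :
    Zb k W ψ q n M ≤ 2 * ZZ W ψ (box 0 M) (fun σ => Ens k q n (box 0 M) σ ∧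
      (SS k (box 0 M) σ : ℝ) ≤ Real.exp (-(τ / 4)) * M ^ 2) := by
  have hτ : 10000 ≤ τ := by linarith [H.hC, H.hτ]
  set B := box 0 M with hB
  have e1 : sm (fun _ => W) B (fun σ => X ψ B (· ∉ B) σ * ind (Ens k q n B σ) * SS k B σ) vcf ≤
      (M ^ 2 : ℕ) * ex (5 - τ / 2) * Zb k W ψ q n M := by
    calc _ ≤ sm (fun _ => W) B (fun σ => ∑' G : Finset V, ∑ x ∈ B, (ind (x ∈ G ∧ Cn G) *
          ex (4 * G.card)) * (X ψ B (· ∉ B) σ * ind (Ens k q n B σ ∧ QC k q B σ G))) vcf := by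
          refine sm_mono fun σ _ => ?_
          rw [mul_right_comm]
          refine mul_ind_le fun h => ?_
          rw [SS, Nat.cast_sum, mul_sum]
          refine le_trans (sum_le_sum fun G hG => ?_) (ENNReal.sum_le_tsum _)
          have g := mem_mx.1 hG
          obtain ⟨x, hx⟩ := g.1.1
          refine le_trans ?_ (single_le_sum (fun _ _ => zero_le) (h.1.2.1 x (g.1.2.1 hx)).1)
          rw [ind_pos ⟨hx, g.1.2.2.1⟩, ind_pos ⟨h, h.1.qc H.hk g⟩, one_mul, mul_one, mul_comm]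
          refine mul_le_mul_left ?_ _
          rw [Nat.cast_pow, show (4 : ℝ) = (4 : ℕ) by norm_num, ← ex_pow]
          exact pow_le_pow_left' (nat_le_ex' _) 4
      _ ≤ ∑' G : Finset V, ∑ x ∈ B, ind (x ∈ G ∧ Cn G) * ex (-((τ / 2 - 4) * G.card)) *
          Zb k W ψ q n M := by
          rw [sm_tsum]
          refine ENNReal.tsum_le_tsum fun G => ?_
          rw [sm_sum]
          refine sum_le_sum fun x _ => ?_
          rw [sm_mul]
          refine (mul_le_mul_right (hA M G) _).trans (le_of_eq ?_)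
          rw [show -((τ / 2 - 4) * G.card) = 4 * G.card + -(τ / 2 * G.card) by ring, ex_add]
          ring
      _ ≤ ∑ x ∈ B, ex (5 - τ / 2) * Zb k W ψ q n M := by
          rw [Summable.tsum_finsetSum (fun _ _ => ENNReal.summable)]
          refine sum_le_sum fun x _ => ?_
          rw [ENNReal.tsum_mul_right]
          exact mul_le_mul_left ((tsum_cn x (by linarith)).trans (ex_le (by linarith))) _
      _ = _ := by rw [sum_const, nsmul_eq_mul, hB, card_box, mul_assoc]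
  set A := ZZ W ψ B (fun σ => Ens k q n B σ ∧ ¬ (SS k B σ : ℝ) ≤ Real.exp (-(τ / 4)) * M ^ 2)
    with hA'
  have e2 : (M ^ 2 : ℕ) * ex (-(τ / 4)) * A ≤ (M ^ 2 : ℕ) * ex (5 - τ / 2) * Zb k W ψ q n M := by
    refine le_trans ?_ e1
    rw [hA', ZZ, ← sm_mul]
    refine sm_mono fun σ _ => ?_
    rw [← mul_assoc]
    refine mul_ind_le fun h => ?_
    rw [ind_pos h.1, mul_one, mul_comm]
    refine mul_le_mul_right ?_ _
    rw [ex, ← ENNReal.ofReal_natCast, ← ENNReal.ofReal_mul (by positivity),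
      ← ENNReal.ofReal_natCast]
    refine ENNReal.ofReal_le_ofReal ?_
    push_cast; linarith [not_le.1 h.2]
  rw [mul_assoc, mul_assoc, ENNReal.mul_le_mul_iff_right (by simpa using hM.ne') (by simp)] at e2
  have e3 : 2 * A ≤ Zb k W ψ q n M := by
    calc 2 * A ≤ ex 1 * (ex (- -(τ / 4)) * (ex (5 - τ / 2) * Zb k W ψ q n M)) :=
          mul_le_mul' two_le_ex (mul_ex_le e2)
      _ ≤ _ := by
          rw [← mul_assoc, ← mul_assoc, ← ex_add, ← ex_add]
          exact mul_le_of_le_one_left' (ex_le_one (by linarith))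
  have fin : Zb k W ψ q n M ≠ ⊤ := ne_top_of_le_ne_top (ex_ne_top _) (H.pr_C M)
  rw [← ENNReal.add_le_add_iff_right fin, ← two_mul]
  refine le_trans ?_ (add_le_add_right e3 _)
  rw [← mul_add]
  refine mul_le_mul_right ?_ _
  rw [hA', Zb, ZZ, ZZ, ZZ, ← sm_add]
  refine sm_mono fun σ _ => ?_
  rw [← mul_add]
  refine mul_le_mul_right (ind_le fun h => ?_) _
  by_cases g : (SS k B σ : ℝ) ≤ Real.exp (-(τ / 4)) * M ^ 2
  · rw [ind_pos ⟨h, g⟩]; exact le_self_add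
  · rw [ind_pos (p := _ ∧ ¬ _) ⟨h, g⟩]; exact le_add_self

end Pool.Agent.Lib.MP_1f6494_pr
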