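import Pool.Agent.Lib.MP_1f6494_pr.PS

set_option autoImplicit false

namespace Pool.Agent.Lib.MP_1f6494_pr

open Finset Classical Function Real

noncomputable def pois (l : ℝ) (j : ℕ) : ℝ := exp (-l) * l ^ j / j.factorial
noncomputable def rf (m : Dir → ℕ) : ℝ := √(∏ d, ((m d).factorial : ℝ))
noncomputable def w0 (G : ℕ → ℝ) (m : Dir → ℕ) : ℝ := G (deg m / 2) / 4 ^ (deg m / 2) / rf m
noncomputable def Wt (G : ℕ → ℝ) (s : St) : ENNReal := ind (Std s) * ENNReal.ofReal (w0 G s.m)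
noncomputable def psi (k : ℕ) (j : ℕ) : ENNReal :=
  if h : ∃ q, J k q j then ENNReal.ofReal √(pois (2 * bq k h.choose) j) else 0
def Win (k : ℕ) (q : Fin 3) (l : ℕ) : Prop := 2 * bq k q ≤ l ∧ l ≤ 6 * bq k q

lemma psi_eq {k : ℕ} (hk : 1 ≤ k) {q : Fin 3} {j : ℕ} (h : J k q j) :
    psi k j = ENNReal.ofReal √(pois (2 * bq k q) j) := by
  have e : ∃ q, J k q j := ⟨q, h⟩
  rw [psi, dif_pos e, J_unique hk e.choose_spec h]

lemma pois_nonneg {l : ℝ} (h : 0 ≤ l) (j : ℕ) : 0 ≤ pois l j := by unfold pois; positivity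

lemma pois_tilt {l θ : ℝ} (h : 0 ≤ l) (hθ : 0 ≤ θ) (j : ℕ) : pois l j * θ ^ j ≤ exp (l * (θ - 1)) := by
  have := pow_div_factorial_le_exp (l * θ) (by positivity) j
  rw [mul_sub, mul_one, sub_eq_add_neg, exp_add]
  calc pois l j * θ ^ j = (l * θ) ^ j / j.factorial * exp (-l) := by unfold pois; rw [mul_pow]; ring
    _ ≤ _ := by gcongr

lemma pois_le_one {l : ℝ} (h : 0 ≤ l) (j : ℕ) : pois l j ≤ 1 := by
  simpa using pois_tilt h zero_le_one j

lemma psi_le_one (k j : ℕ) : psi k j ≤ 1 := by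
  unfold psi
  split_ifs
  · exact ENNReal.ofReal_le_one.2 (sqrt_le_one.2 (pois_le_one (by positivity) _))
  · exact zero_le

lemma pois_tail {b j : ℕ} (h : ¬ (b ≤ j ∧ j ≤ 3 * b)) : pois (2 * b) j ≤ exp (-(b / 10)) := by
  have hb : (0 : ℝ) ≤ 2 * b := by positivity
  have p0 := pois_nonneg hb j
  rcases not_and_or.1 h with h | h
  · have h1 := pois_tilt hb (θ := 1 / 2) (by norm_num) j
    have h2 : (2 : ℝ) ^ j ≤ exp (b * (9 / 10)) := by
      rw [exp_nat_mul]
      calc (2 : ℝ) ^ j ≤ 2 ^ b := pow_le_pow_right₀ one_le_two (by omega)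
        _ ≤ _ := by
          gcongr
          have := quadratic_le_exp_of_nonneg (x := 9 / 10) (by norm_num)
          linarith
    calc pois (2 * b) j = pois (2 * b) j * (1 / 2) ^ j * 2 ^ j := by
          rw [mul_assoc, ← mul_pow]; simp
      _ ≤ exp (2 * b * (1 / 2 - 1)) * exp (b * (9 / 10)) := by gcongr
      _ = _ := by rw [← exp_add]; congr 1; ring
  · have h1 := pois_tilt hb (θ := 3 / 2) (by norm_num) j
    have h2 : exp (b * (11 / 10)) ≤ (3 / 2 : ℝ) ^ j := by
      rw [exp_nat_mul]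
      calc _ ≤ ((3 / 2 : ℝ) ^ 3) ^ b := by
            gcongr
            have a := exp_one_lt_d9
            have c := exp_bound_div_one_sub_of_interval (x := 1 / 10) (by norm_num) (by norm_num)
            rw [show (11 / 10 : ℝ) = 1 + 1 / 10 by norm_num, exp_add]
            nlinarith [exp_pos 1, exp_pos (1 / 10)]
        _ ≤ _ := by rw [← pow_mul]; exact pow_le_pow_right₀ (by norm_num) (by omega)
    have h3 : pois (2 * b) j * exp (b * (11 / 10)) ≤ exp (-(b / 10)) * exp (b * (11 / 10)) := by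
      refine (mul_le_mul_of_nonneg_left h2 p0).trans (h1.trans (le_of_eq ?_))
      rw [← exp_add]; congr 1; ring
    exact le_of_mul_le_mul_right h3 (exp_pos _)

lemma fact_upper (n : ℕ) : ((n + 1).factorial : ℝ) * exp (n + 1) ≤ exp 1 * (n + 1) ^ (n + 2) := by
  induction n with
  | zero => simp
  | succ n ih =>
    have h1 : ((n + 1 : ℝ) / (n + 2)) ^ (n + 2) ≤ exp (-1) := by
      have : (n + 1 : ℝ) / (n + 2) ≤ exp (-(1 / (n + 2))) := by
        have := add_one_le_exp (-(1 / (n + 2 : ℝ)))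
        refine le_trans (le_of_eq ?_) this
        field_simp; ring
      refine (pow_le_pow_left₀ (by positivity) this _).trans (le_of_eq ?_)
      rw [← exp_nat_mul]; congr 1; push_cast; field_simp
    rw [div_pow, div_le_iff₀ (by positivity), exp_neg, ← div_eq_inv_mul, le_div_iff₀ (exp_pos 1)] at h1
    rw [Nat.factorial_succ]
    push_cast
    rw [exp_add (n + 1 : ℝ) 1]
    calc _ = (n + 2) * (((n + 1).factorial * exp (n + 1)) * exp 1) := by ring
      _ ≤ (n + 2) * (exp 1 * ((n + 1) ^ (n + 2) * exp 1)) := by rw [← mul_assoc (exp 1)]; gcongr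
      _ ≤ (n + 2) * (exp 1 * (n + 2) ^ (n + 2)) := by gcongr
      _ = _ := by ring

lemma pois_mode {n : ℕ} (hn : 1 ≤ n) : 1 / (6 * n) ≤ pois n n ∧ 1 / (6 * n) ≤ pois n (n + 1) := by
  obtain ⟨n, rfl⟩ := Nat.exists_eq_add_of_le' hn
  have h := fact_upper n
  have e := exp_one_lt_d9
  have h1 : 1 / (3 * (n + 1 : ℝ)) ≤ pois (n + 1 : ℕ) (n + 1) := by
    unfold pois
    push_cast
    rw [div_le_div_iff₀ (by positivity) (by positivity), exp_neg, one_mul, mul_assoc,
      ← div_eq_inv_mul, le_div_iff₀ (exp_pos _)]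
    refine h.trans ?_
    rw [pow_succ _ (n + 1)]
    have : (0 : ℝ) ≤ (n + 1) ^ (n + 1) * (n + 1) := by positivity
    nlinarith
  have h2 : pois (n + 1 : ℕ) (n + 1 + 1) = pois (n + 1 : ℕ) (n + 1) * ((n + 1) / (n + 2)) := by
    unfold pois
    rw [Nat.factorial_succ (n + 1), pow_succ]; push_cast; field_simp; ring
  have n0 : (0 : ℝ) ≤ n := Nat.cast_nonneg n
  constructor
  · refine le_trans ?_ h1
    push_cast; gcongr; norm_num
  · rw [h2]
    calc _ = 1 / (3 * (n + 1 : ℝ)) * (1 / 2) := by push_cast; field_simp; ring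
      _ ≤ _ := by
        refine mul_le_mul h1 ?_ (by norm_num) (pois_nonneg (by positivity) _)
        rw [div_le_div_iff₀ (by positivity) (by positivity)]; linarith

lemma rf_pos (m : Dir → ℕ) : 0 < rf m := sqrt_pos.2 (prod_pos fun _ _ => by positivity)

lemma fact_deg (m : Dir → ℕ) : (deg m).factorial ≤ 4 ^ deg m * ∏ d, (m d).factorial := by
  have two : ∀ a b : ℕ, (a + b).factorial ≤ 2 ^ (a + b) * (a.factorial * b.factorial) := fun a b => by
    rw [← Nat.add_choose_mul_factorial_mul_factorial, mul_assoc]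
    exact Nat.mul_le_mul_right _ (Nat.choose_le_two_pow _ _)
  have e : deg m = (m 0 + m 1) + (m 2 + m 3) := by simp [deg, Fin.sum_univ_four, add_assoc]
  rw [Fin.prod_univ_four, e]
  refine (two _ _).trans ((Nat.mul_le_mul_left _ (Nat.mul_le_mul (two _ _) (two _ _))).trans
    (le_of_eq ?_))
  have : ∀ a : ℕ, 4 ^ a = 2 ^ a * 2 ^ a := fun a => (mul_pow 2 2 a :)
  rw [this, pow_add 2 (m 0 + m 1) (m 2 + m 3)]; ring

lemma half_fact (m : Dir → ℕ) : ((deg m / 2).factorial : ℝ) ≤ 2 ^ deg m * rf m := by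
  have h1 : (deg m / 2).factorial * (deg m / 2).factorial ≤ (deg m).factorial :=
    (Nat.le_of_dvd (Nat.factorial_pos _) (Nat.factorial_mul_factorial_dvd_factorial_add _ _)).trans
      (Nat.factorial_le (by omega))
  refine (pow_le_pow_iff_left₀ (by positivity) (mul_pos (by positivity) (rf_pos m)).le
    two_ne_zero).1 ?_
  rw [mul_pow, rf, sq_sqrt (by positivity), ← pow_mul, mul_comm (deg m), pow_mul, sq]
  exact_mod_cast h1.trans (fact_deg m)

lemma key_id {b : ℝ} (hb : 0 ≤ b) {m : Dir → ℕ} {l : ℕ} (h : deg m = 2 * l) :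
    pois (4 * b) l / 4 ^ l / rf m * Mf (2 * l) = ∏ d, √(pois (2 * b) (m d)) := by
  rw [← sqrt_prod _ fun d _ => pois_nonneg (by positivity) _]
  symm
  have := rf_pos m
  rw [sqrt_eq_iff_mul_self_eq (prod_nonneg fun d _ => pois_nonneg (by positivity) _)
    (by have := pois_nonneg (l := 4 * b) (by positivity) l; positivity)]
  have e : rf m * rf m = ∏ d, ((m d).factorial : ℝ) := mul_self_sqrt (by positivity)
  unfold pois Mf
  rw [prod_div_distrib, prod_mul_distrib, prod_pow_eq_pow_sum, ← e, prod_const,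
    show ∑ d, m d = 2 * l from h, show 2 * l / 2 = l by omega, card_univ, Fintype.card_fin,
    show exp (-(2 * b)) ^ 4 = exp (-(4 * b)) * exp (-(4 * b)) by
      rw [← exp_nat_mul, ← exp_add]; congr 1; push_cast; ring]
  push_cast
  rw [mul_pow, mul_pow]
  field_simp
  ring

noncomputable def Am (G : ℕ → ℝ) (m : Dir → ℕ) : ENNReal :=
  ind (Even (deg m)) * ENNReal.ofReal (w0 G m * Mf (deg m))

lemma sum_by_m (G : ℕ → ℝ) (F : (Dir → ℕ) → ENNReal) :
    ∑' s, Wt G s * F s.m ≤ ∑' m, Am G m * F m := by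
  calc _ ≤ ∑' s : St, ∑' m, ind (s.m = m ∧ op s = ∅) *
        (ind (Even (deg m)) * ENNReal.ofReal (w0 G m) * F m) := by
        refine ENNReal.tsum_le_tsum fun s => le_trans ?_ (ENNReal.le_tsum s.m)
        rw [Wt, Std, ind_and, ind_and, ind_pos (rfl : s.m = s.m), one_mul]
        exact le_of_eq (by ring)
    _ ≤ _ := by
        rw [ENNReal.tsum_comm]
        refine ENNReal.tsum_le_tsum fun m => ?_
        rw [ENNReal.tsum_mul_right]
        refine (mul_le_mul_left (count_op m ∅) _).trans (le_of_eq ?_)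
        rw [Am, ENNReal.ofReal_mul' (by positivity), ENNReal.ofReal_natCast]; ring

lemma Am_win {G : ℕ → ℝ} {b c : ℝ} (hb : 0 ≤ b) {m : Dir → ℕ}
    (h : G (deg m / 2) ≤ exp c * pois (4 * b) (deg m / 2)) :
    Am G m ≤ ex c * ∏ d, ENNReal.ofReal √(pois (2 * b) (m d)) := by
  rw [Am, mul_comm]
  refine mul_ind_le fun ⟨l, hl⟩ => ?_
  rw [← two_mul] at hl
  rw [← ENNReal.ofReal_prod_of_nonneg fun _ _ => sqrt_nonneg _, ← key_id hb hl, ex,
    ← ENNReal.ofReal_mul (exp_pos _).le]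
  refine ENNReal.ofReal_le_ofReal ?_
  rw [w0]
  rw [hl, show 2 * l / 2 = l by omega] at h ⊢
  have := rf_pos m
  calc _ ≤ exp c * pois (4 * b) l / 4 ^ l / rf m * Mf (2 * l) := by gcongr
    _ = _ := by ring

lemma Am_out {G : ℕ → ℝ} {t : ℝ} {m : Dir → ℕ} (h : G (deg m / 2) ≤ exp (-(t * (deg m / 2 : ℕ)))) :
    Am G m ≤ ind (Even (deg m)) * ex (-((t - 1) * (deg m / 2 : ℕ))) := by
  by_cases he : Even (deg m)
  swap
  · simp [Am, ind_neg he]
  obtain ⟨l, hl⟩ := id he
  rw [← two_mul] at hl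
  refine mul_le_mul_right (ENNReal.ofReal_le_ofReal ?_) _
  have h1 := half_fact m
  have := rf_pos m
  rw [w0, Mf]
  rw [hl, show 2 * l / 2 = l by omega] at h h1 ⊢
  push_cast
  have h2 : (2 : ℝ) ^ l ≤ exp l := by
    rw [← mul_one (l : ℝ), exp_nat_mul]; gcongr; linarith [add_one_le_exp 1]
  calc _ ≤ exp (-(t * l)) / 4 ^ l / rf m * (exp l * (2 ^ (2 * l) * rf m)) := by gcongr
    _ = exp (-(t * l)) * exp l := by rw [pow_mul]; field_simp; norm_num
    _ = _ := by rw [← exp_add]; congr 1; ring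

lemma tsum_deg : ∑' m : Dir → ℕ, ex (-(deg m : ℝ)) ≤ ex 4 := by
  rw [ENNReal.tsum_eq_iSup_sum]
  refine iSup_le fun S => ?_
  calc _ ≤ ∑ m ∈ Fintype.piFinset (fun d => S.image (fun m : Dir → ℕ => m d)), ∏ d, ex (-(((m d : ℕ) : ℝ) * 1)) := by
        refine le_trans (le_of_eq (sum_congr rfl fun m _ => ?_)) (sum_le_sum_of_subset fun m hm =>
          Fintype.mem_piFinset.2 fun d => mem_image_of_mem _ hm)
        rw [ex_sum, deg]; simp
    _ ≤ ∏ d : Dir, ex 1 := by
        rw [← prod_univ_sum (f := fun _ (j : ℕ) => ex (-((j : ℝ) * 1)))]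
        exact prod_le_prod' fun d _ => (ENNReal.sum_le_tsum _).trans ((tsum_geom le_rfl).trans two_le_ex)
    _ = _ := by rw [ex_sum]; simp

lemma tsum_cube (N : ℕ) (B : ENNReal) (F : (Dir → ℕ) → ENNReal)
    (h : ∀ m, F m ≠ 0 → (∀ d, m d < N) ∧ F m ≤ B) : ∑' m, F m ≤ N ^ 4 * B := by
  rw [tsum_eq_sum (s := Fintype.piFinset fun _ => range N) fun m hm => by
    by_contra g
    exact hm (Fintype.mem_piFinset.2 fun d => mem_range.2 ((h m g).1 d))]
  refine (sum_le_card_nsmul _ _ B fun m _ => ?_).trans ?_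
  · by_cases g : F m = 0
    · rw [g]; exact zero_le
    · exact (h m g).2
  · simp

lemma le_deg (m : Dir → ℕ) (d : Dir) : m d ≤ deg m :=
  single_le_sum (f := m) (fun _ _ => Nat.zero_le _) (mem_univ d)

lemma bq_le (k : ℕ) (q : Fin 3) : bq k q ≤ 4 * k := by fin_cases q <;> simp [bq]; omega
lemma bq_ge {k : ℕ} {q : Fin 3} (hq : q ≠ 0) : k ≤ bq k q := by
  fin_cases q <;> simp [bq] at hq ⊢; omega

lemma win_of_J {k : ℕ} {q : Fin 3} {m : Dir → ℕ} (h : ∀ d, J k q (m d)) : Win k q (deg m / 2) := by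
  have h0 := h 0; have h1 := h 1; have h2 := h 2; have h3 := h 3
  simp only [J, Win, deg, Fin.sum_univ_four] at *
  omega

variable {k : ℕ} {G : ℕ → ℝ} {c cH cL t : ℝ}

lemma site_out (h2 : ∀ l, (∀ q, ¬ Win k q l) → G l ≤ exp (-(t * l))) {t' : ℝ} (ht : t' + 3 ≤ t) :
    ∑' s, Wt G s * (ind (∀ q, ¬ Win k q (deg s.m / 2)) * ex (t' * (deg s.m / 2 : ℕ))) ≤
      ex (7 - (t - t')) := by
  refine (sum_by_m G fun m => ind (∀ q, ¬ Win k q (deg m / 2)) * ex (t' * (deg m / 2 : ℕ))).trans ?_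
  calc _ ≤ ∑' m : Dir → ℕ, ex (3 - (t - t')) * ex (-(deg m : ℝ)) := by
        refine ENNReal.tsum_le_tsum fun m => ?_
        rw [mul_left_comm, mul_comm]
        refine mul_ind_le fun h => (mul_le_mul_left (Am_out (h2 _ h)) _).trans ?_
        rw [mul_assoc, mul_comm]
        refine mul_ind_le fun ⟨l, hl⟩ => ?_
        have h0 := h 0
        rw [← ex_add, ← ex_add, hl, show (l + l) / 2 = l by omega] at *
        have : (1 : ℝ) ≤ l := by
          have : 1 ≤ l := by simp [Win, bq] at h0; omega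
          exact_mod_cast this
        refine ex_le ?_
        push_cast; nlinarith
    _ ≤ ex (3 - (t - t')) * ex 4 := by rw [ENNReal.tsum_mul_left]; exact mul_le_mul_right tsum_deg _
    _ = _ := by rw [← ex_add]; congr 1; ring

lemma pow4_le {N : ℕ} (hc : 100 * k ≤ exp c) (h : N ≤ 100 * k) : (N : ENNReal) ^ 4 ≤ ex (4 * c) := by
  rw [show (4 : ℝ) = (4 : ℕ) by norm_num, ← ex_pow]
  exact pow_le_pow_left' (nat_le_ex (le_trans (by exact_mod_cast h) hc)) 4

lemma site_good (hk : 1 ≤ k) (hc : 100 * k ≤ exp c) (P : Fin 3 → Prop)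
    (h1 : ∀ q l, P q → Win k q l → G l ≤ exp cH * pois (4 * bq k q) l)
    (F : Dir → Prop) (v : Dir → ℕ) :
    ∑' s, Wt G s * ind ((∃ q, P q ∧ good k q s) ∧ ∀ d, F d → s.m d = v d) ≤
      ex (cH + 4 * c) * ∏ d, wh (F d) (psi k (v d)) := by
  refine (sum_by_m G fun m => ind ((∃ q, P q ∧ ∀ d, J k q (m d)) ∧ ∀ d, F d → m d = v d)).trans
    ((tsum_cube (12 * k + 1) (ex cH * ∏ d, wh (F d) (psi k (v d))) _ fun m hm => ?_).trans ?_)
  · have h : (∃ q, P q ∧ ∀ d, J k q (m d)) ∧ ∀ d, F d → m d = v d := by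
      by_contra g; exact hm (by rw [ind_neg g, mul_zero])
    rw [ind_pos h, mul_one]
    obtain ⟨⟨q, g1, g2⟩, g3⟩ := h
    refine ⟨fun d => by have := (g2 d).2; have := bq_le k q; omega,
      (Am_win (by positivity) (h1 q _ g1 (win_of_J g2))).trans (mul_le_mul_right
        (prod_le_prod' fun d _ => ?_) _)⟩
    rw [← psi_eq hk (g2 d)]
    by_cases g : F d
    · rw [wh_pos g, g3 d g]
    · rw [wh_neg g]; exact psi_le_one _ _
  · rw [add_comm cH, ex_add, mul_assoc]
    exact mul_le_mul_left (pow4_le (N := 12 * k + 1) hc (by omega)) _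

lemma site_bad (hk : 1 ≤ k) (hc : 100 * k ≤ exp c)
    (h1 : ∀ q l, Win k q l → G l ≤ exp cH * pois (4 * bq k q) l) :
    ∑' s, Wt G s * ind (bad k s ∧ ∃ q, Win k q (deg s.m / 2)) ≤ ex (cH + 4 * c - k / 20) := by
  refine (sum_by_m G fun m => ind ((∀ q, ¬ ∀ d, J k q (m d)) ∧ ∃ q, Win k q (deg m / 2))).trans
    ((tsum_cube (48 * k + 2) (ex cH * ex (-(k / 20))) _ fun m hm => ?_).trans ?_)
  · have h : (∀ q, ¬ ∀ d, J k q (m d)) ∧ ∃ q, Win k q (deg m / 2) := by
      by_contra g; exact hm (by rw [ind_neg g, mul_zero])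
    have ev : Even (deg m) := by by_contra g; exact hm (by rw [Am, ind_neg g, zero_mul, zero_mul])
    rw [ind_pos h, mul_one]
    obtain ⟨g1, q, g2⟩ := h
    refine ⟨fun d => by have := g2.2; have := bq_le k q; have := le_deg m d; omega,
      (Am_win (by positivity) (h1 q _ g2)).trans (mul_le_mul_right ?_ _)⟩
    obtain ⟨d, hd⟩ := not_forall.1 (g1 q)
    have hq : q ≠ 0 := by
      rintro rfl
      have := le_deg m d
      obtain ⟨l, hl⟩ := ev
      simp [J, Win, bq] at hd g2; omega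
    rw [← mul_prod_erase _ _ (mem_univ d)]
    refine (mul_le_of_le_one_right' (prod_le_one' fun d _ => ENNReal.ofReal_le_one.2
      (sqrt_le_one.2 (pois_le_one (by positivity) _)))).trans (ENNReal.ofReal_le_ofReal ?_)
    refine (sqrt_le_sqrt (pois_tail hd)).trans ?_
    rw [← exp_half]
    have : (k : ℝ) ≤ bq k q := by exact_mod_cast bq_ge hq
    exact exp_le_exp.2 (by linarith)
  · rw [← ex_add]
    refine (mul_le_mul_left (pow4_le (N := 48 * k + 2) hc (by omega)) _).trans (le_of_eq ?_)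
    rw [← ex_add]; congr 1; ring

lemma site_gh (hk : 1 ≤ k) (hc : 100 * k ≤ exp c) {q : Fin 3} (hq : q ≠ 0)
    (h1 : ∀ l, Win k q l → exp (-cL) * pois (4 * bq k q) l ≤ G l) {C : ℝ} (hC : cL + 6 * c ≤ C) :
    GH k (Wt G) (psi k) q C := by
  have hb := bq_pos hk hq
  have hb' := bq_le k q
  have k1 : (1 : ℝ) ≤ k := by exact_mod_cast hk
  have c0 : 0 ≤ c := by
    by_contra g
    have := exp_lt_one_iff.2 (not_le.1 g)
    linarith
  have md := pois_mode (n := 2 * bq k q) (by omega)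
  have low : ∀ x : ℝ, 1 / (6 * (2 * bq k q : ℕ)) ≤ x → ex (-(c / 2)) ≤ ENNReal.ofReal √x := by
    intro x hx
    refine ENNReal.ofReal_le_ofReal (le_trans ?_ (sqrt_le_sqrt hx))
    rw [← neg_div, exp_half]
    refine sqrt_le_sqrt ?_
    have : ((bq k q : ℕ) : ℝ) ≤ 4 * k := by exact_mod_cast hb'
    have : (1 : ℝ) ≤ bq k q := by exact_mod_cast hb
    rw [exp_neg, ← one_div]
    push_cast
    exact one_div_le_one_div_of_le (by positivity) (by linarith)
  refine ⟨hk, hq, cL + 2 * c, c / 2, by linarith, by linarith, ?_, ?_, fun m j hm hj => ?_⟩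
  · rw [psi_eq hk (q := q) ⟨by omega, by omega⟩]
    exact low _ (by exact_mod_cast md.1)
  · rw [psi_eq hk (q := q) ⟨by omega, by omega⟩]
    exact low _ (by exact_mod_cast md.2)
  refine ⟨ENNReal.ofReal (w0 G m), fun s h1 h2 => ?_, ?_⟩
  · rw [Wt, ind_pos ⟨h2, by rw [h1, hj]; exact even_two_mul _⟩, one_mul, h1]
  have hw := win_of_J hm
  have h2 := h1 _ hw
  rw [prod_congr rfl fun d _ => psi_eq hk (hm d),
    ← ENNReal.ofReal_prod_of_nonneg fun _ _ => sqrt_nonneg _, ← key_id (by positivity) hj, ex,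
    ← ENNReal.ofReal_mul (exp_pos _).le, ← ENNReal.ofReal_natCast,
    ← ENNReal.ofReal_mul' (by positivity)]
  refine ENNReal.ofReal_le_ofReal ?_
  rw [w0]
  rw [hj, show 2 * (j + 1) / 2 = j + 1 by omega] at *
  have h3 : (Mf (2 * (j + 1)) : ℝ) ≤ exp (2 * c) * Df j := by
    have a : (Mf (2 * (j + 1)) : ℝ) ≤ 4 * (j + 1) ^ 2 * Df j := by
      rw [Mf, show 2 * (j + 1) / 2 = j + 1 by omega]; exact_mod_cast Df_ge j
    refine a.trans (mul_le_mul_of_nonneg_right ?_ (by positivity))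
    have b : (j + 1 : ℝ) ≤ 24 * k := by
      have : j + 1 ≤ 24 * k := by have := hw.2; omega
      exact_mod_cast this
    rw [two_mul, exp_add]
    nlinarith
  have := rf_pos m
  have p0 := pois_nonneg (l := 4 * bq k q) (by positivity) (j + 1)
  calc _ ≤ exp (-(cL + 2 * c)) * (pois (4 * bq k q) (j + 1) / 4 ^ (j + 1) / rf m *
        (exp (2 * c) * Df j)) := by gcongr
    _ = exp (-cL) * pois (4 * bq k q) (j + 1) / 4 ^ (j + 1) / rf m * Df j := by
        rw [show exp (-cL) = exp (-(cL + 2 * c)) * exp (2 * c) by rw [← exp_add]; congr 1; ring]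
        ring
    _ ≤ _ := by gcongr

lemma site_hyp (hk : 1 ≤ k) (hc : 100 * k ≤ exp c) (h0 : G 0 ≤ 1) (hH : 0 ≤ cH)
    (h1 : ∀ q l, Win k q l → G l ≤ exp cH * pois (4 * bq k q) l)
    (h1' : ∀ q l, q ≠ 0 → Win k q l → exp (-cH) * pois (4 * bq k q) l ≤ G l)
    (h2 : ∀ l, (∀ q, ¬ Win k q l) → G l ≤ exp (-(t * l))) {τ : ℝ}
    (t1 : 1000 * (cH + 6 * c) ≤ τ) (t2 : 55 * τ + cH + 4 * c ≤ k / 20) (t3 : 55 * τ + 7 ≤ t) :
    Hyp k (Wt G) (psi k) (cH + 6 * c) τ := by
  have k1 : (1 : ℝ) ≤ k := by exact_mod_cast hk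
  have c0 : 2 ≤ c := by
    by_contra g
    have := exp_lt_exp.2 (not_le.1 g)
    have e := exp_one_lt_d9
    rw [show (2 : ℝ) = 1 + 1 by norm_num, exp_add] at this
    nlinarith [exp_pos 1]
  have sg := fun F v => site_good hk hc (fun _ => True) (fun q l _ => h1 q l) F v
  refine ⟨hk, by linarith, t1, psi_le_one k, ?_, ?_, fun F v => ?_,
    fun q hq => site_gh hk hc hq (fun l => h1' q l hq) le_rfl⟩
  · refine mul_le_one' (ind_le_one _) (ENNReal.ofReal_le_one.2 ?_)
    simpa [w0, St.free, deg, rf] using h0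
  · calc _ ≤ ∑' s, (Wt G s * ind ((∃ q, True ∧ good k q s) ∧ ∀ d, False → s.m d = 0) +
          (ex (55 * τ) * (Wt G s * ind (bad k s ∧ ∃ q, Win k q (deg s.m / 2))) + ex (55 * τ) *
          (Wt G s * (ind (∀ q, ¬ Win k q (deg s.m / 2)) * ex (0 * (deg s.m / 2 : ℕ)))))) := by
          refine ENNReal.tsum_le_tsum fun s => ?_
          by_cases hb : bad k s
          · rw [wh_pos hb, mul_comm]
            refine le_add_left ?_
            by_cases hw : ∃ q, Win k q (deg s.m / 2)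
            · rw [ind_pos ⟨hb, hw⟩, mul_one]; exact le_self_add
            · rw [ind_pos (not_exists.1 hw), zero_mul, ex_zero, mul_one, mul_one]; exact le_add_self
          · rw [wh_neg hb, ind_pos ⟨⟨_, trivial, good_cls hb⟩, by simp⟩]; exact le_self_add
      _ ≤ ex (cH + 4 * c) + (ex (cH + 4 * c) + ex (cH + 4 * c)) := by
          rw [ENNReal.tsum_add, ENNReal.tsum_add, ENNReal.tsum_mul_left, ENNReal.tsum_mul_left]
          refine add_le_add ((sg (fun _ => False) fun _ => 0).trans (by simp [wh])) (add_le_add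
            ((mul_le_mul_right (site_bad hk hc h1) _).trans ?_)
            ((mul_le_mul_right (site_out h2 (by linarith)) _).trans ?_)) <;>
          rw [← ex_add] <;> exact ex_le (by linarith)
      _ ≤ _ := by
          rw [show cH + 6 * c = 2 * c + (cH + 4 * c) by ring, ex_add (2 * c), ← two_mul, add_comm,
            ← add_one_mul]
          refine mul_le_mul_left ?_ _
          have := nat_le_ex (n := 3) (t := 2 * c) (by push_cast; linarith [add_one_le_exp (2 * c)])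
          exact le_trans (by norm_num) this
  · refine le_trans (ENNReal.tsum_le_tsum fun s => mul_le_mul_right (ind_mono fun h =>
      ⟨⟨_, trivial, good_cls h.1⟩, h.2⟩) _) ((sg F v).trans (mul_le_mul_left (ex_le (by linarith)) _))

end Pool.Agent.Lib.MP_1f6494_pr
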