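import Pool.Agent.Lib.MP_1f6494_pr.Count

set_option autoImplicit false

namespace Pool.Agent.Lib.MP_1f6494_pr

open Finset Classical Function

section abstract
variable {H : Type*} {i μ : H → H}

lemma iter_refl (hi : Involutive i) (hμ : Involutive μ) (j : ℕ) (h : H) :
    (μ ∘ i)^[j] (μ ((μ ∘ i)^[j] h)) = μ h := by
  induction j with
  | zero => rfl
  | succ j ih =>
    rw [iterate_succ_apply, iterate_succ_apply']
    simp only [comp_apply]
    rw [hμ, hi, ih]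

lemma iter_back (hi : Involutive i) (hμ : Involutive μ) {a b : H} {n j : ℕ} (hj : j ≤ n)
    (h : (μ ∘ i)^[n] b = μ a) : (μ ∘ i)^[n - j] b = μ ((μ ∘ i)^[j] a) := by
  have inj : Injective (μ ∘ i)^[j] := (hμ.injective.comp hi.injective).iterate j
  apply inj
  rw [iter_refl hi hμ, ← iterate_add_apply, ← h]
  congr 1; omega

lemma palin (hi : Involutive i) (hμ : Involutive μ) (hf : ∀ h, i h ≠ h) {a : H} {n : ℕ}
    (h : (μ ∘ i)^[n] a = μ a) : ∃ j, n = 2 * j ∧ μ ((μ ∘ i)^[j] a) = (μ ∘ i)^[j] a := by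
  obtain ⟨j, rfl | rfl⟩ := Nat.even_or_odd' n
  · refine ⟨j, rfl, ?_⟩
    rw [← iter_back hi hμ (j := j) (by omega) h]
    congr 1; omega
  · have := iter_back hi hμ (j := j + 1) (by omega) h
    rw [iterate_succ_apply', show 2 * j + 1 - (j + 1) = j by omega] at this
    simp only [comp_apply] at this
    rw [hμ] at this
    exact absurd this.symm (hf _)

/-- first stopping time -/
def First (inn : H → Prop) (i μ : H → H) (h : H) (n : ℕ) : Prop :=
  0 < n ∧ (¬ inn ((μ ∘ i)^[n] h) ∨ μ ((μ ∘ i)^[n] h) = (μ ∘ i)^[n] h) ∧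
    ∀ j, 0 < j → j < n → inn ((μ ∘ i)^[j] h) ∧ μ ((μ ∘ i)^[j] h) ≠ (μ ∘ i)^[j] h

def Term (inn : H → Prop) (i μ : H → H) (h : H) : Prop :=
  ∃ n, 0 < n ∧ (¬ inn ((μ ∘ i)^[n] h) ∨ μ ((μ ∘ i)^[n] h) = (μ ∘ i)^[n] h)

variable {inn : H → Prop}

lemma Term.first {h : H} (t : Term inn i μ h) : ∃ n, First inn i μ h n := by
  refine ⟨Nat.find t, (Nat.find_spec t).1, (Nat.find_spec t).2, fun j h0 hj => ?_⟩
  have := Nat.find_min t hj
  tauto

lemma First.le {h : H} {n n' : ℕ} (f : First inn i μ h n) (h0 : 0 < n')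
    (h' : ¬ inn ((μ ∘ i)^[n'] h) ∨ μ ((μ ∘ i)^[n'] h) = (μ ∘ i)^[n'] h) : n ≤ n' := by
  by_contra hn
  have := f.2.2 n' h0 (by omega)
  tauto

lemma Term.of_iter {h : H} (n : ℕ) (t : Term inn i μ ((μ ∘ i)^[n] h)) : Term inn i μ h := by
  obtain ⟨k, h0, hk⟩ := t
  exact ⟨k + n, by omega, by rwa [iterate_add_apply]⟩

lemma match_step [DecidableEq H] (hi : Involutive i) (hμ : Involutive μ) (hf : ∀ h, i h ≠ h)
    (hinn : ∀ h, inn (μ h) ↔ inn h) {a b : H} (ha : μ a = a) (hb : μ b = b) (ia : inn a)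
    (ib : inn b) (hT : ∀ h, inn h → Term inn i μ h)
    (hne : ∀ n, First inn i μ a n → (μ ∘ i)^[n] a ≠ b) :
    ∀ h, inn h → Term inn i (Equiv.swap a b ∘ μ) h := by
  have A : ∀ h n, First inn i μ h n →
      ((Equiv.swap a b ∘ μ) ∘ i)^[n] h = Equiv.swap a b ((μ ∘ i)^[n] h) := by
    intro h n f
    have : ∀ j, j < n → ((Equiv.swap a b ∘ μ) ∘ i)^[j] h = (μ ∘ i)^[j] h := by
      intro j
      induction j with
      | zero => intro; rfl
      | succ j ih =>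
        intro hj
        have h2 := (f.2.2 (j + 1) (by omega) hj).2
        rw [iterate_succ_apply', ih (by omega)]
        rw [iterate_succ_apply'] at h2 ⊢
        exact Equiv.swap_apply_of_ne_of_ne (fun e => h2 (by rw [show (μ ∘ i) _ = a from e, ha]))
          (fun e => h2 (by rw [show (μ ∘ i) _ = b from e, hb]))
    obtain ⟨k, rfl⟩ := Nat.exists_eq_succ_of_ne_zero f.1.ne'
    rw [iterate_succ_apply', this k (by omega), iterate_succ_apply']
    rfl
  have B : ∀ h n, First inn i μ h n → (μ ∘ i)^[n] h ≠ a → (μ ∘ i)^[n] h ≠ b →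
      Term inn i (Equiv.swap a b ∘ μ) h := by
    intro h n f h1 h2
    refine ⟨n, f.1, ?_⟩
    rw [A h n f, Equiv.swap_apply_of_ne_of_ne h1 h2]
    refine f.2.1.imp id fun e => ?_
    rw [comp_apply, e, Equiv.swap_apply_of_ne_of_ne h1 h2]
  have P : ∀ c n, μ c = c → First inn i μ c n → (μ ∘ i)^[n] c ≠ c := by
    intro c n hc f e
    obtain ⟨j, rfl, hj⟩ := palin hi hμ hf (e.trans hc.symm)
    have := f.1
    exact (f.2.2 j (by omega) (by omega)).2 hj
  have Ta : Term inn i (Equiv.swap a b ∘ μ) a := by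
    obtain ⟨n, f⟩ := (hT a ia).first
    exact B a n f (P a n ha f) (hne n f)
  have Tb : Term inn i (Equiv.swap a b ∘ μ) b := by
    obtain ⟨n, f⟩ := (hT b ib).first
    refine B b n f (fun e => ?_) (P b n hb f)
    have bk : ∀ j, j ≤ n → (μ ∘ i)^[j] a = μ ((μ ∘ i)^[n - j] b) := fun j hj => by
      rw [iter_back hi hμ hj (e.trans ha.symm), hμ]
    have e2 : (μ ∘ i)^[n] a = b := by rw [bk n le_rfl, Nat.sub_self, iterate_zero_apply, hb]
    refine hne n ⟨f.1, Or.inr (by rw [e2, hb]), fun j h0 hj => ?_⟩ e2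
    have := f.2.2 (n - j) (by omega) (by omega)
    rw [bk j hj.le, hinn, hμ]
    exact ⟨this.1, this.2.symm⟩
  intro h ih
  obtain ⟨n, f⟩ := (hT h ih).first
  by_cases h1 : (μ ∘ i)^[n] h = a
  · refine Term.of_iter n ?_
    rwa [A h n f, h1, Equiv.swap_apply_left]
  by_cases h2 : (μ ∘ i)^[n] h = b
  · refine Term.of_iter n ?_
    rwa [A h n f, h2, Equiv.swap_apply_right]
  exact B h n f h1 h2

end abstract

abbrev Hs := Dir × ℕ

/-- state of a site: numbers of strands on the four edges and a pairing of the strand ends -/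
@[ext] structure St where
  m : Dir → ℕ
  μ : Hs → Hs
  inv : ∀ h, μ (μ h) = h
  out : ∀ h : Hs, m h.1 ≤ h.2 → μ h = h

abbrev Cfg := V → St
abbrev HH := V × Hs

def io (h : HH) : HH := (h.1 + vec h.2.1, (opp h.2.1, h.2.2))
def mu (σ : Cfg) (h : HH) : HH := (h.1, (σ h.1).μ h.2)
abbrev ph (σ : Cfg) : HH → HH := mu σ ∘ io
def InR (σ : Cfg) (h : HH) : Prop := h.2.2 < (σ h.1).m h.2.1
def deg (m : Dir → ℕ) : ℕ := ∑ d, m d

lemma io_inv : Involutive io := fun h => by simp [io]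
lemma io_ne (h : HH) : io h ≠ h := fun e => add_vec_ne _ _ (congrArg Prod.fst e)
lemma mu_inv (σ : Cfg) : Involutive (mu σ) := fun h => by simp [mu, St.inv]
lemma ph_fst (σ : Cfg) (h : HH) : (ph σ h).1 = h.1 + vec h.2.1 := rfl
lemma ph_iter_fst (σ : Cfg) (h : HH) (n : ℕ) :
    ((ph σ)^[n + 1] h).1 = ((ph σ)^[n] h).1 + vec ((ph σ)^[n] h).2.1 := by
  rw [iterate_succ_apply']; rfl

lemma St.inr (s : St) {h : Hs} (hh : h.2 < s.m h.1) : (s.μ h).2 < s.m (s.μ h).1 := by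
  by_contra hn
  have := s.out _ (not_lt.1 hn)
  rw [s.inv] at this
  exact hn (this ▸ hh)

noncomputable def rng (m : Dir → ℕ) : Finset Hs :=
  univ.biUnion (fun d => (range (m d)).image (fun j => (d, j)))

lemma mem_rng {m : Dir → ℕ} {h : Hs} : h ∈ rng m ↔ h.2 < m h.1 := by
  obtain ⟨d, j⟩ := h
  simp [rng]

lemma card_rng (m : Dir → ℕ) : (rng m).card = deg m := by
  rw [rng, card_biUnion]
  · exact sum_congr rfl fun d _ => by
      rw [card_image_of_injective _ (Prod.mk_right_injective d), card_range]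
  · intro a _ b _ hab
    simp only [disjoint_left, mem_image]
    rintro _ ⟨_, _, rfl⟩ ⟨_, _, e⟩
    exact hab (congrArg Prod.fst e).symm

noncomputable def op (s : St) : Finset Hs := (rng s.m).filter (fun h => s.μ h = h)

lemma mem_op {s : St} {h : Hs} : h ∈ op s ↔ h.2 < s.m h.1 ∧ s.μ h = h := by
  rw [op, mem_filter, mem_rng]

def Std (s : St) : Prop := op s = ∅ ∧ Even (deg s.m)

def Cons (L : Finset V) (σ : Cfg) : Prop :=
  ∀ x ∈ L, ∀ d, x + vec d ∈ L → (σ x).m d = (σ (x + vec d)).m (opp d)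

def Valid (L : Finset V) (σ : Cfg) : Prop :=
  (∀ x ∈ L, Std (σ x)) ∧ Cons L σ ∧ ∀ h : HH, h.1 ∈ L → InR σ h → ∃ n, ((ph σ)^[n] h).1 ∉ L

def Tm (L : Finset V) (σ : Cfg) : Prop := ∀ h : HH, h.1 ∈ L → Term (·.1 ∈ L) io (mu σ) h

variable {L : Finset V} {σ σ' : Cfg}

lemma Cons.inR (hc : Cons L σ) {h : HH} (h1 : h.1 ∈ L) (h2 : (ph σ h).1 ∈ L) (r : InR σ h) :
    InR σ (ph σ h) := by
  have := hc _ h1 _ h2
  exact (σ (h.1 + vec h.2.1)).inr (h := (opp h.2.1, h.2.2)) (by rw [← this]; exact r)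

lemma Cons.inR_iter (hc : Cons L σ) {h : HH} (r : InR σ h) {n : ℕ}
    (hn : ∀ j ≤ n, ((ph σ)^[j] h).1 ∈ L) : InR σ ((ph σ)^[n] h) := by
  induction n with
  | zero => exact r
  | succ n ih =>
    have := hn (n + 1) le_rfl
    rw [iterate_succ_apply'] at this ⊢
    exact hc.inR (hn n (by omega)) this (ih fun j hj => hn j (by omega))

lemma ex_min {h : HH} (h1 : h.1 ∈ L) (h2 : ∃ n, ((ph σ)^[n] h).1 ∉ L) :
    ∃ n, (∀ j ≤ n, ((ph σ)^[j] h).1 ∈ L) ∧ ((ph σ)^[n + 1] h).1 ∉ L := by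
  have h0 : Nat.find h2 ≠ 0 := fun e => (e ▸ Nat.find_spec h2 :) h1
  obtain ⟨k, hk⟩ := Nat.exists_eq_succ_of_ne_zero h0
  exact ⟨k, fun j hj => not_not.1 (Nat.find_min h2 (by omega)),
    by have := Nat.find_spec h2; rwa [hk] at this⟩

lemma iter_congr {h : HH} {n : ℕ}
    (e : ∀ j, 0 < j → j ≤ n → σ ((ph σ)^[j] h).1 = σ' ((ph σ)^[j] h).1) :
    (ph σ')^[n] h = (ph σ)^[n] h := by
  induction n with
  | zero => rfl
  | succ n ih =>
    have := e (n + 1) (by omega) le_rfl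
    rw [iterate_succ_apply'] at this
    rw [iterate_succ_apply', iterate_succ_apply', ih fun j h0 hj => e j h0 (by omega)]
    simp only [ph, mu, comp_apply] at this ⊢
    rw [this]

lemma Valid.congr (h : Valid L σ) (e : ∀ x, x ∈ L → σ x = σ' x) : Valid L σ' := by
  refine ⟨fun x hx => e x hx ▸ h.1 x hx, fun x hx d hd => ?_, fun a ha r => ?_⟩
  · rw [← e x hx, ← e _ hd]; exact h.2.1 x hx d hd
  · obtain ⟨n, h1, h2⟩ := ex_min ha (h.2.2 a ha (by unfold InR at r ⊢; rwa [e _ ha]))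
    refine ⟨n + 1, ?_⟩
    rw [ph_iter_fst] at h2 ⊢
    rwa [iter_congr (σ := σ) fun j _ hj => e _ (h1 j hj)]

lemma Valid.mono (h : Valid L σ) {L' : Finset V} (hs : L' ⊆ L) : Valid L' σ :=
  ⟨fun x hx => h.1 x (hs hx), fun x hx d hd => h.2.1 x (hs hx) d (hs hd), fun a ha r =>
    (h.2.2 a (hs ha) r).imp fun _ hn h' => hn (hs h')⟩

lemma Valid.union {A B : Finset V} (hA : Valid A σ) (hB : Valid B σ)
    (hn : ∀ x ∈ A, ∀ d, x + vec d ∉ B) : Valid (A ∪ B) σ := by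
  have hn' : ∀ x ∈ B, ∀ d, x + vec d ∉ A := fun x hx d h => hn _ h (opp d) (by simpa using hx)
  refine ⟨fun x hx => (mem_union.1 hx).elim (hA.1 x) (hB.1 x), fun x hx d hd => ?_,
    fun a ha r => ?_⟩
  · rcases mem_union.1 hx with h | h <;> rcases mem_union.1 hd with h' | h'
    · exact hA.2.1 x h d h'
    · exact absurd h' (hn x h d)
    · exact absurd h' (hn' x h d)
    · exact hB.2.1 x h d h'
  · rcases mem_union.1 ha with h | h
    · obtain ⟨n, h1, h2⟩ := ex_min h (hA.2.2 a h r)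
      exact ⟨n + 1, fun h' => (mem_union.1 h').elim h2 (ph_iter_fst σ a n ▸ hn _ (h1 n le_rfl) _)⟩
    · obtain ⟨n, h1, h2⟩ := ex_min h (hB.2.2 a h r)
      exact ⟨n + 1, fun h' => (mem_union.1 h').elim (ph_iter_fst σ a n ▸ hn' _ (h1 n le_rfl) _) h2⟩

lemma valid_empty (σ : Cfg) : Valid ∅ σ := ⟨by simp, by simp [Cons], by simp⟩

lemma Valid.shift {a : V} (h : Valid L (fun x => σ (x + a))) : Valid (sh a L) σ := by
  refine ⟨fun x hx => by simpa using h.1 _ (mem_sh.1 hx), fun x hx d hd => ?_, fun b hb r => ?_⟩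
  · have := h.2.1 _ (mem_sh.1 hx) d (by rw [show x - a + vec d = x + vec d - a by abel]; exact mem_sh.1 hd)
    simp only [sub_add_cancel] at this
    rw [this]; congr 2; abel
  · obtain ⟨n, hn⟩ := h.2.2 (b.1 - a, b.2) (mem_sh.1 hb) (by simpa [InR] using r)
    have : ∀ n, (ph (fun x => σ (x + a)))^[n] (b.1 - a, b.2) =
        (((ph σ)^[n] b).1 - a, ((ph σ)^[n] b).2) := by
      intro n
      induction n with
      | zero => rfl
      | succ n ih =>
        rw [iterate_succ_apply', iterate_succ_apply', ih]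
        simp only [ph, mu, io, comp_apply]
        refine Prod.ext (by simp only; abel) ?_
        simp only
        congr 2; abel
    exact ⟨n, fun h' => hn (by rw [this]; exact mem_sh.1 h')⟩

lemma Valid.vacuum (h : Valid L σ) (hb : ∀ x ∈ bd L, ∀ d, (σ x).m d = 0) :
    ∀ x ∈ L, ∀ d, (σ x).m d = 0 := by
  intro x hx d
  by_contra hn
  have r : InR σ (x, d, 0) := Nat.pos_of_ne_zero hn
  obtain ⟨n, h1, h2⟩ := ex_min hx (h.2.2 _ hx r)
  have := h.2.1.inR_iter r h1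
  unfold InR at this
  rw [hb _ (mem_bd.2 ⟨h1 n le_rfl, _, ph_iter_fst σ _ n ▸ h2⟩)] at this
  omega

lemma valid_of_tm (hs : ∀ x ∈ L, Std (σ x)) (hc : Cons L σ) (ht : Tm L σ) : Valid L σ := by
  refine ⟨hs, hc, fun h hh r => ?_⟩
  by_contra hn
  push Not at hn
  obtain ⟨n, -, h1 | h1⟩ := ht h hh
  · exact h1 (hn n)
  · have := hc.inR_iter r (n := n) fun j _ => hn j
    have h2 : ((ph σ)^[n] h).2 ∈ op (σ ((ph σ)^[n] h).1) := mem_op.2 ⟨this, congrArg Prod.snd h1⟩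
    rw [(hs _ (hn n)).1] at h2
    simp at h2

lemma tm_init {Y T : Finset V} (hY : Valid Y σ) (hc : Cons (Y ∪ T) σ)
    (hT : ∀ x ∈ T, (σ x).μ = id) : Tm (Y ∪ T) σ := by
  have st : ∀ h : HH, h.1 ∉ Y → ¬ h.1 ∈ Y ∪ T ∨ mu σ h = h := fun h h1 => by
    by_cases h2 : h.1 ∈ T
    · right; simp [mu, hT _ h2]
    · left; simp [h1, h2]
  have A : ∀ h : HH, h.1 ∈ Y → InR σ h → Term (·.1 ∈ Y ∪ T) io (mu σ) h := fun h h1 r => by
    obtain ⟨n, -, h3⟩ := ex_min h1 (hY.2.2 h h1 r)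
    exact ⟨n + 1, by omega, st _ h3⟩
  intro h hh
  by_cases h1 : (ph σ h).1 ∈ Y
  swap
  · exact ⟨1, by omega, st _ h1⟩
  by_cases r : InR σ h
  · exact Term.of_iter 1 (A _ h1 (hc.inR hh (mem_union_left _ h1) r))
  · refine ⟨1, by omega, Or.inr ?_⟩
    have h2 := hc _ hh _ (mem_union_left _ h1)
    have h3 := (σ (h.1 + vec h.2.1)).out (opp h.2.1, h.2.2) (by rw [← h2]; exact not_lt.1 r)
    simp [ph, mu, io, h3]

/-- escape from the region avoiding a set -/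
def Esc (L F : Finset V) (σ : Cfg) (h : HH) : Prop :=
  ∃ n, ((ph σ)^[n + 1] h).1 ∉ L ∧ ∀ j, 0 < j → j ≤ n → ((ph σ)^[j] h).1 ∈ L \ F

lemma Esc.congr {F : Finset V} {h : HH} (e : Esc L F σ h) (hs : ∀ x ∈ L \ F, σ x = σ' x) :
    Esc L F σ' h := by
  obtain ⟨n, h1, h2⟩ := e
  have : ∀ j ≤ n, (ph σ')^[j] h = (ph σ)^[j] h := fun j hj =>
    iter_congr fun k h0 hk => hs _ (h2 k h0 (by omega))
  refine ⟨n, ?_, fun j h0 hj => this j hj ▸ h2 j h0 hj⟩
  rw [ph_iter_fst] at h1 ⊢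
  rwa [this n le_rfl]

lemma Esc.mono {F F' : Finset V} {h : HH} (e : Esc L F σ h) (hs : F' ⊆ F) : Esc L F' σ h :=
  e.imp fun _ h => ⟨h.1, fun j h0 hj => sdiff_subset_sdiff le_rfl hs (h.2 j h0 hj)⟩

lemma Valid.esc (hv : Valid L σ) {F : Finset V} (hF : F ⊆ L) {h : HH} (h1 : h.1 ∈ F)
    (r : InR σ h) : ∃ h' : HH, h'.1 ∈ F ∧ InR σ h' ∧ Esc L F σ h' := by
  obtain ⟨n, h2, h3⟩ := ex_min (hF h1) (hv.2.2 h (hF h1) r)
  have h4 := Nat.findGreatest_spec (P := fun j => ((ph σ)^[j] h).1 ∈ F) (Nat.zero_le n) h1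
  have h5 := Nat.findGreatest_le (P := fun j => ((ph σ)^[j] h).1 ∈ F) n
  have h6 := fun k => Nat.findGreatest_is_greatest (P := fun j => ((ph σ)^[j] h).1 ∈ F) (n := n)
    (k := k)
  generalize Nat.findGreatest (fun j => ((ph σ)^[j] h).1 ∈ F) n = j at *
  refine ⟨(ph σ)^[j] h, h4, hv.2.1.inR_iter r fun k hk => h2 k (by omega), n - j, ?_,
    fun k h0 hk => ?_⟩
  · rwa [← iterate_add_apply, show n - j + 1 + j = n + 1 by omega]
  · rw [← iterate_add_apply]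
    exact mem_sdiff.2 ⟨h2 _ (by omega), h6 _ (by omega) (by omega)⟩

lemma parity {A : Finset V} (m : V → Dir → ℕ)
    (hc : ∀ x ∈ A, ∀ d, x + vec d ∈ A → m x d = m (x + vec d) (opp d)) :
    ∑ x ∈ A, (deg (m x) : ZMod 2) = ∑ x ∈ A, ∑ d, if x + vec d ∈ A then 0 else (m x d : ZMod 2) := by
  have : ∑ p ∈ (A ×ˢ (univ : Finset Dir)).filter (fun p => p.1 + vec p.2 ∈ A),
      (m p.1 p.2 : ZMod 2) = 0 := by
    refine sum_involution (fun p _ => (p.1 + vec p.2, opp p.2)) ?_ ?_ ?_ ?_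
    · intro p hp
      obtain ⟨h1, h2⟩ := mem_filter.1 hp
      simp only
      rw [← hc _ (mem_product.1 h1).1 _ h2]
      generalize (m p.1 p.2 : ZMod 2) = t; revert t; decide
    · intro p _ _ e
      exact opp_ne _ (congrArg Prod.snd e)
    · intro p hp
      obtain ⟨h1, h2⟩ := mem_filter.1 hp
      simp [h2, (mem_product.1 h1).1]
    · intro p _; simp
  rw [sum_filter, sum_product] at this
  rw [← add_zero (∑ x ∈ A, ∑ d, if x + vec d ∈ A then 0 else (m x d : ZMod 2))]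
  conv_rhs => rhs; rw [← this]
  rw [← sum_add_distrib]
  refine sum_congr rfl fun x _ => ?_
  rw [← sum_add_distrib, deg, Nat.cast_sum]
  refine sum_congr rfl fun d _ => ?_
  split_ifs <;> simp

end Pool.Agent.Lib.MP_1f6494_pr
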