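import Pool.Agent.Lib.MP_1f6494_pr.Geo2

set_option autoImplicit false

namespace Pool.Agent.Lib.MP_1f6494_pr

open Finset Classical Function

noncomputable def ex (t : ℝ) : ENNReal := ENNReal.ofReal (Real.exp t)

lemma ex_add (s t : ℝ) : ex (s + t) = ex s * ex t := by
  rw [ex, Real.exp_add, ENNReal.ofReal_mul (Real.exp_pos s).le]; rfl
@[simp] lemma ex_zero : ex 0 = 1 := by simp [ex]
lemma ex_le {s t : ℝ} (h : s ≤ t) : ex s ≤ ex t := ENNReal.ofReal_le_ofReal (Real.exp_le_exp.2 h)
lemma ex_lt_iff {s t : ℝ} : ex s < ex t ↔ s < t := by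
  rw [ex, ex, ENNReal.ofReal_lt_ofReal_iff (Real.exp_pos t), Real.exp_lt_exp]
lemma ex_le_iff {s t : ℝ} : ex s ≤ ex t ↔ s ≤ t := by rw [← not_lt, ex_lt_iff, not_lt]
lemma ex_ne_zero (t : ℝ) : ex t ≠ 0 := by simp [ex, Real.exp_pos]
lemma ex_ne_top (t : ℝ) : ex t ≠ ⊤ := ENNReal.ofReal_ne_top
lemma ex_pow (t : ℝ) (n : ℕ) : ex t ^ n = ex (n * t) := by
  induction n with
  | zero => simp
  | succ n ih => rw [pow_succ, ih, ← ex_add]; congr 1; push_cast; ring
lemma ex_sum {ι : Type*} (A : Finset ι) (t : ι → ℝ) : ∏ a ∈ A, ex (t a) = ex (∑ a ∈ A, t a) := by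
  induction A using Finset.induction_on with
  | empty => simp
  | insert a A h ih => rw [prod_insert h, sum_insert h, ih, ex_add]
lemma ex_rpow (t r : ℝ) : ex t ^ r = ex (t * r) := by
  rw [ex, ENNReal.ofReal_rpow_of_pos (Real.exp_pos t), ← Real.exp_mul]; rfl
lemma ex_le_one {t : ℝ} (h : t ≤ 0) : ex t ≤ 1 := by simpa using ex_le h
lemma one_le_ex {t : ℝ} (h : 0 ≤ t) : 1 ≤ ex t := by simpa using ex_le h
lemma nat_le_ex {n : ℕ} {t : ℝ} (h : (n : ℝ) ≤ Real.exp t) : (n : ENNReal) ≤ ex t := by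
  rw [← ENNReal.ofReal_natCast]; exact ENNReal.ofReal_le_ofReal h
lemma nat_le_ex' (n : ℕ) : (n : ENNReal) ≤ ex n :=
  nat_le_ex (by linarith [Real.add_one_le_exp (n : ℝ)])
lemma two_le_ex : (2 : ENNReal) ≤ ex 1 := by
  exact_mod_cast nat_le_ex (n := 2) (t := 1) (by have := Real.add_one_le_exp 1; push_cast; linarith)
lemma le_ex_of_forall {X : ENNReal} {t : ℝ} (h : ∀ ε > 0, X ≤ ex (t + ε)) : X ≤ ex t := by
  have : Filter.Tendsto (fun ε => ex (t + ε)) (nhdsWithin 0 (Set.Ioi 0)) (nhds (ex t)) := by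
    have c : Continuous fun ε => ex (t + ε) := ENNReal.continuous_ofReal.comp (by fun_prop)
    have := c.tendsto 0
    rw [add_zero] at this
    exact this.mono_left nhdsWithin_le_nhds
  exact ge_of_tendsto this (eventually_nhdsWithin_of_forall h)
lemma mul_ex_le {X Y : ENNReal} {t : ℝ} (h : ex t * X ≤ Y) : X ≤ ex (-t) * Y := by
  calc X = ex (-t) * (ex t * X) := by rw [← mul_assoc, ← ex_add]; simp
    _ ≤ _ := by gcongr

/-- indicator -/
noncomputable def ind (p : Prop) : ENNReal := if p then 1 else 0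

lemma ind_le_one (p : Prop) : ind p ≤ 1 := by unfold ind; split_ifs <;> simp
lemma ind_pos {p : Prop} (h : p) : ind p = 1 := if_pos h
lemma ind_neg {p : Prop} (h : ¬ p) : ind p = 0 := if_neg h
lemma ind_mono {p q : Prop} (h : p → q) : ind p ≤ ind q := by
  by_cases hp : p
  · rw [ind_pos hp, ind_pos (h hp)]
  · simp [ind_neg hp]
lemma ind_and (p q : Prop) : ind (p ∧ q) = ind p * ind q := by
  by_cases hp : p <;> by_cases hq : q <;> simp [ind, hp, hq]
lemma ind_congr {p q : Prop} (h : p ↔ q) : ind p = ind q := by rw [propext h]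
lemma ind_le {p : Prop} {X : ENNReal} (h : p → 1 ≤ X) : ind p ≤ X := by
  by_cases hp : p
  · rw [ind_pos hp]; exact h hp
  · simp [ind_neg hp]
lemma mul_ind_le {p : Prop} {X Y : ENNReal} (h : p → X ≤ Y) : X * ind p ≤ Y := by
  by_cases hp : p
  · rw [ind_pos hp, mul_one]; exact h hp
  · simp [ind_neg hp]

variable {S : Type*}

/-- weighted sum over the states on a finite set of sites -/
noncomputable def sm (w : V → S → ENNReal) (L : Finset V) (f : (V → S) → ENNReal) (η : V → S) :
    ENNReal :=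
  ∑' σ : V → S, ind (∀ x, x ∉ L → σ x = η x) * ((∏ x ∈ L, w x (σ x)) * f σ)

variable {w : V → S → ENNReal} {L A B : Finset V} {f g : (V → S) → ENNReal} {η : V → S}

lemma sm_mono (h : ∀ σ, (∀ x, x ∉ L → σ x = η x) → f σ ≤ g σ) : sm w L f η ≤ sm w L g η := by
  refine ENNReal.tsum_le_tsum fun σ => ?_
  by_cases hσ : ∀ x, x ∉ L → σ x = η x
  · gcongr; exact h σ hσ
  · rw [ind_neg hσ, zero_mul, zero_mul]

lemma sm_congr (h : ∀ σ, (∀ x, x ∉ L → σ x = η x) → f σ = g σ) : sm w L f η = sm w L g η :=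
  le_antisymm (sm_mono fun σ hσ => (h σ hσ).le) (sm_mono fun σ hσ => (h σ hσ).ge)

lemma sm_congr_w {w' : V → S → ENNReal} (h : ∀ x ∈ L, w x = w' x) : sm w L f η = sm w' L f η := by
  unfold sm
  congr 1; ext σ
  rw [prod_congr rfl fun x hx => by rw [h x hx]]

lemma sm_mul (c : ENNReal) : sm w L (fun σ => c * f σ) η = c * sm w L f η := by
  unfold sm
  rw [← ENNReal.tsum_mul_left]
  congr 1; ext σ; ring

lemma sm_zero : sm w L (fun _ => 0) η = 0 := by simp [sm]

lemma sm_tsum {ι : Type*} (F : ι → (V → S) → ENNReal) :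
    sm w L (fun σ => ∑' i, F i σ) η = ∑' i, sm w L (F i) η := by
  unfold sm
  rw [ENNReal.tsum_comm]
  congr 1; ext σ
  rw [ENNReal.tsum_mul_left, ENNReal.tsum_mul_left]

lemma sm_add : sm w L (fun σ => f σ + g σ) η = sm w L f η + sm w L g η := by
  unfold sm
  rw [← ENNReal.tsum_add]
  congr 1; ext σ; ring

lemma sm_sum {ι : Type*} (I : Finset ι) (F : ι → (V → S) → ENNReal) :
    sm w L (fun σ => ∑ i ∈ I, F i σ) η = ∑ i ∈ I, sm w L (F i) η := by
  induction I using Finset.induction_on with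
  | empty => simp [sm_zero]
  | insert a I h ih => simp only [sum_insert h]; rw [sm_add, ih]

lemma sm_empty : sm w ∅ f η = f η := by
  unfold sm
  rw [tsum_eq_single η]
  · simp [ind]
  · intro σ hσ
    rw [ind_neg, zero_mul]
    exact fun h => hσ (funext fun x => h x (by simp))

lemma sm_union (h : Disjoint A B) : sm w (A ∪ B) f η = sm w A (sm w B f) η := by
  unfold sm
  simp only [← ENNReal.tsum_mul_left]
  rw [ENNReal.tsum_comm]
  congr 1; ext σ
  rw [tsum_eq_single (fun x => if x ∈ B then η x else σ x)]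
  · rw [prod_union h]
    have e : ∏ x ∈ A, w x (if x ∈ B then η x else σ x) = ∏ x ∈ A, w x (σ x) :=
      prod_congr rfl fun x hx => by rw [if_neg (disjoint_left.1 h hx)]
    rw [e, ind_pos (p := ∀ x, x ∉ B → σ x = if x ∈ B then η x else σ x)
      (fun x hx => by rw [if_neg hx]), ind_congr (q := ∀ x, x ∉ A → (if x ∈ B then η x else σ x) = η x)]
    · ring
    · refine ⟨fun h1 x hx => ?_, fun h1 x hx => ?_⟩
      · split_ifs with hb
        · rfl
        · exact h1 x (by simp [hx, hb])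
      · have := h1 x (fun h => hx (by simp [h]))
        rwa [if_neg (fun h => hx (by simp [h]))] at this
  · intro σ' hσ
    by_cases h1 : ∀ x, x ∉ A → σ' x = η x
    · rw [ind_neg (p := ∀ x, x ∉ B → σ x = σ' x)]
      · simp
      · intro h2
        refine hσ (funext fun x => ?_)
        split_ifs with hb
        · exact h1 x (disjoint_right.1 h hb)
        · exact (h2 x hb).symm
    · rw [ind_neg h1, zero_mul]

lemma sm_single (x : V) : sm w {x} f η = ∑' s, w x s * f (update η x s) := by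
  unfold sm
  symm
  refine tsum_eq_tsum_of_ne_zero_bij (fun σ => σ.1 x) ?_ ?_ ?_
  · rintro ⟨σ, h⟩ ⟨σ', h'⟩ e
    have a : ∀ τ : V → S, τ ∈ support (fun σ : V → S => ind (∀ y, y ∉ ({x} : Finset V) → σ y = η y) *
        ((∏ y ∈ {x}, w y (σ y)) * f σ)) → ∀ y, y ≠ x → τ y = η y := by
      intro τ hτ y hy
      by_contra hn
      refine hτ ?_
      show ind _ * _ = 0
      rw [ind_neg fun h => hn (h y (by simpa using hy)), zero_mul]
    ext y
    by_cases hy : y = x
    · rw [hy]; exact e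
    · exact (a σ h y hy).trans (a σ' h' y hy).symm
  · intro s hs
    refine ⟨⟨update η x s, ?_⟩, by simp⟩
    simp only [mem_support, prod_singleton, update_self]
    rw [ind_pos (fun y hy => update_of_ne (by simpa using hy) _ _), one_mul]
    exact hs
  · rintro ⟨σ, h⟩
    have a : ∀ y, y ∉ ({x} : Finset V) → σ y = η y := by
      by_contra hn
      exact h (by simp only [ind_neg hn, zero_mul])
    have : update η x (σ x) = σ := by
      ext y
      by_cases hy : y = x
      · rw [hy, update_self]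
      · rw [update_of_ne hy, a y (by simpa using hy)]
    simp only [this, ind_pos a, prod_singleton, one_mul]

lemma sm_insert {x : V} (h : x ∉ L) :
    sm w (insert x L) f η = ∑' s, w x s * sm w L f (update η x s) := by
  rw [insert_eq, sm_union (by simpa using h), sm_single]

/-- dependence on a set of sites only -/
def Dep {β : Type*} (P : V → Prop) (f : (V → S) → β) : Prop :=
  ∀ σ σ', (∀ x, P x → σ x = σ' x) → f σ = f σ'

lemma Dep.mono {β : Type*} {P Q : V → Prop} {f : (V → S) → β} (h : Dep P f) (hs : ∀ x, P x → Q x) :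
    Dep Q f := fun σ σ' e => h σ σ' fun x hx => e x (hs x hx)

lemma Dep.mul {P : V → Prop} (h : Dep P f) (h' : Dep P g) : Dep P (fun σ => f σ * g σ) :=
  fun σ σ' e => by simp only [h σ σ' e, h' σ σ' e]

lemma Dep.ind {P : V → Prop} {p : (V → S) → Prop}
    (h : ∀ σ σ', (∀ x, P x → σ x = σ' x) → p σ → p σ') : Dep P (fun σ => ind (p σ)) :=
  fun σ σ' e => ind_congr ⟨h σ σ' e, h σ' σ fun x hx => (e x hx).symm⟩

lemma Dep.sm {P : V → Prop} (h : Dep P f) (L : Finset V) :
    Dep (fun x => P x ∧ x ∉ L) (sm w L f) := by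
  induction L using Finset.induction_on with
  | empty => intro σ σ' e; rw [sm_empty, sm_empty]; exact h σ σ' fun x hx => e x ⟨hx, by simp⟩
  | insert a L ha ih =>
    intro σ σ' e
    rw [sm_insert ha, sm_insert ha]
    congr 1; ext s; congr 1
    refine ih _ _ fun x hx => ?_
    by_cases hxa : x = a
    · rw [hxa, update_self, update_self]
    · rw [update_of_ne hxa, update_of_ne hxa]; exact e x ⟨hx.1, by simp [hxa, hx.2]⟩

lemma Dep.sm_eq (h : Dep (· ∈ L) f) (η η' : V → S) :
    Pool.Agent.Lib.MP_1f6494_pr.sm w L f η = Pool.Agent.Lib.MP_1f6494_pr.sm w L f η' :=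
  h.sm L η η' fun _ hx => absurd hx.1 hx.2

lemma sm_mul_dep (h : Dep (· ∉ L) g) : sm w L (fun σ => g σ * f σ) η = g η * sm w L f η := by
  rw [← sm_mul]
  exact sm_congr fun σ hσ => by rw [h σ η hσ]

lemma sm_mul_sm (h : Disjoint A B) (hf : Dep (· ∈ A) f) (hg : Dep (· ∈ B) g) :
    sm w (A ∪ B) (fun σ => f σ * g σ) η = sm w A f η * sm w B g η := by
  rw [sm_union h, mul_comm, ← sm_mul]
  refine sm_congr fun σ _ => ?_
  rw [sm_mul_dep (hf.mono fun x hx => disjoint_left.1 h hx), hg.sm_eq σ η, mul_comm]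

lemma sm_prod (F : V → S → ENNReal) :
    sm w L (fun σ => ∏ x ∈ L, F x (σ x)) η = ∏ x ∈ L, ∑' s, w x s * F x s := by
  induction L using Finset.induction_on generalizing η with
  | empty => simp [sm_empty]
  | insert a L ha ih =>
    rw [sm_insert ha, prod_insert ha, ← ENNReal.tsum_mul_right]
    congr 1; ext s
    rw [mul_assoc, ← ih (η := update η a s), ← sm_mul (F a s)]
    congr 1
    refine sm_congr fun σ hσ => ?_
    rw [prod_insert ha, hσ a ha, update_self]

lemma sm_weight (F : V → S → ENNReal) :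
    sm w L (fun σ => (∏ x ∈ L, F x (σ x)) * f σ) η = sm (fun x s => w x s * F x s) L f η := by
  unfold sm
  congr 1; ext σ; rw [prod_mul_distrib]; ring

lemma sm_shift (W : S → ENNReal) (a : V) :
    sm (fun _ => W) (sh a L) (fun σ => f (fun x => σ (x + a))) η =
      sm (fun _ => W) L f (fun x => η (x + a)) := by
  unfold sm
  rw [← (Equiv.arrowCongr (Equiv.addRight a) (Equiv.refl S)).tsum_eq]
  congr 1; ext σ
  have e : ∀ x, (Equiv.arrowCongr (Equiv.addRight a) (Equiv.refl S)) σ x = σ (x + -a) :=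
    fun x => rfl
  simp only [e]
  rw [sh, prod_image fun x _ y _ h => add_left_injective a h]
  simp only [add_neg_cancel_right]
  congr 1
  refine ind_congr ⟨fun h x hx => ?_, fun h x hx => ?_⟩
  · simpa using h (x + a) (fun h' => hx (add_mem_sh.1 h'))
  · have := h (x + -a) fun h' => hx (mem_sh.2 (by rwa [sub_eq_add_neg]))
    simpa using this

lemma le_sm {ι : Type*} (c : ι → V → S) (hc : Injective c) (h : ∀ i x, x ∉ L → c i x = η x) :
    ∑' i, (∏ x ∈ L, w x (c i x)) * f (c i) ≤ sm w L f η := by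
  refine le_trans (le_of_eq ?_) (ENNReal.tsum_comp_le_tsum_of_injective hc _)
  congr 1; ext i; rw [ind_pos (h i), one_mul]

lemma holder_tsum {ι : Type*} (I : Finset ι) (hI : I.Nonempty) (W : S → ENNReal)
    (G : ι → S → ENNReal) :
    ∑' s, W s * ∏ a ∈ I, G a s ^ (1 / I.card : ℝ) ≤
      ∏ a ∈ I, (∑' s, W s * G a s) ^ (1 / I.card : ℝ) := by
  let _ : MeasurableSpace S := ⊤
  have hn : (0 : ℝ) < I.card := by exact_mod_cast hI.card_pos
  have := ENNReal.lintegral_prod_norm_pow_le (μ := MeasureTheory.Measure.count) I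
    (f := fun a s => W s * G a s) (p := fun _ => (1 / I.card : ℝ))
    (fun _ _ => (measurable_from_top).aemeasurable)
    (by rw [sum_const, nsmul_eq_mul]; field_simp) (fun _ _ => by positivity)
  rw [MeasureTheory.lintegral_count' measurable_from_top] at this
  simp only [MeasureTheory.lintegral_count' measurable_from_top] at this
  refine le_trans (le_of_eq ?_) this
  congr 1; ext s
  simp only [ENNReal.mul_rpow_of_nonneg _ _ (show (0 : ℝ) ≤ 1 / I.card by positivity)]
  rw [prod_mul_distrib, prod_const, ← ENNReal.rpow_natCast, ← ENNReal.rpow_mul,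
    one_div_mul_cancel hn.ne', ENNReal.rpow_one]

/-- generalised Hoelder inequality for an exact cover -/
lemma finner {ι : Type*} (I : Finset ι) (R : ι → Finset V) (F : ι → (V → S) → ENNReal) {n : ℕ}
    (hn : 0 < n) (hdep : ∀ a ∈ I, Dep (· ∈ R a) (F a)) (B : Finset V)
    (hcov : ∀ x ∈ B, (I.filter (fun a => x ∈ R a)).card = n) (η : V → S) :
    sm w B (fun σ => ∏ a ∈ I, F a σ ^ (1 / n : ℝ)) η ≤
      ∏ a ∈ I, sm w (R a ∩ B) (F a) η ^ (1 / n : ℝ) := by
  induction B using Finset.induction_on generalizing η with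
  | empty => simp [sm_empty]
  | insert x B hx ih =>
    have ih' := ih fun y hy => hcov y (mem_insert_of_mem hy)
    have hc := hcov x (mem_insert_self _ _)
    rw [sm_insert hx]
    refine (ENNReal.tsum_le_tsum fun s => mul_le_mul_right (ih' (update η x s)) _).trans ?_
    simp only [← prod_filter_mul_prod_filter_not I (fun a => x ∈ R a), ← mul_assoc]
    have e : ∀ s, ∏ a ∈ I.filter (fun a => ¬ x ∈ R a), sm w (R a ∩ B) (F a) (update η x s) ^ (1 / n : ℝ)
        = ∏ a ∈ I.filter (fun a => ¬ x ∈ R a), sm w (R a ∩ insert x B) (F a) η ^ (1 / n : ℝ) := by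
      intro s
      refine prod_congr rfl fun a ha => ?_
      obtain ⟨h1, h2⟩ := mem_filter.1 ha
      rw [inter_insert_of_notMem h2]
      congr 1
      exact (hdep a h1).sm _ _ _ fun y hy => update_of_ne (fun e : y = x => h2 (e ▸ hy.1)) _ _
    simp only [e]
    rw [ENNReal.tsum_mul_right]
    gcongr
    have := holder_tsum (I.filter (fun a => x ∈ R a)) (card_pos.1 (hc ▸ hn)) (w x)
      (fun a s => sm w (R a ∩ B) (F a) (update η x s))
    rw [hc] at this
    refine this.trans (le_of_eq (prod_congr rfl fun a ha => ?_))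
    rw [inter_insert_of_mem (mem_filter.1 ha).2, sm_insert (by simp [hx])]

end Pool.Agent.Lib.MP_1f6494_pr
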