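import Pool.Agent.Lib.MP_1f6494_pr.Ens

set_option autoImplicit false

namespace Pool.Agent.Lib.MP_1f6494_pr

open Finset Classical Function

variable {k : ℕ} {W : St → ENNReal} {ψ : ℕ → ENNReal} {q : Fin 3} {n : ℕ} {L G : Finset V}
  {σ σ' : Cfg} {C τ : ℝ}

def NLev (k : ℕ) (G L : Finset V) (σ : Cfg) : Prop :=
  Cons L σ ∧ Valid (fill G \ G) σ ∧ (∀ x ∈ G, ∀ d, x + vec d ∈ L) ∧
    (∀ u, u ∉ G → (∃ v ∈ G, Adj u v) → u ∉ TB k L σ) ∧ G.card ≤ 55 * (badS k G σ).card

noncomputable def lab (G : Finset V) (c : G → Fin 3) (q : Fin 3) : Finset V :=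
  (fill G \ G).filter (fun y => ∃ h : le G y ∈ G, c ⟨_, h⟩ = q)

lemma lab_disj (c : G → Fin 3) {q q' : Fin 3} (h : q ≠ q') : Disjoint (lab G c q) (lab G c q') :=
  disjoint_left.2 fun _ h1 h2 => by
    obtain ⟨-, _, e1⟩ := mem_filter.1 h1
    obtain ⟨-, _, e2⟩ := mem_filter.1 h2
    exact h (e1.symm.trans e2)

lemma lab_union (c : G → Fin 3) : lab G c 0 ∪ (lab G c 1 ∪ lab G c 2) = fill G \ G := by
  ext y
  simp only [mem_union, lab, mem_filter]
  refine ⟨by tauto, fun h => ?_⟩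
  have h1 := le_mem (mem_sdiff.1 h).1
  have : ∀ t : Fin 3, t = 0 ∨ t = 1 ∨ t = 2 := by decide
  rcases this (c ⟨_, h1⟩) with e | e | e
  exacts [Or.inl ⟨h, h1, e⟩, Or.inr (Or.inl ⟨h, h1, e⟩), Or.inr (Or.inr ⟨h, h1, e⟩)]

lemma TB_mono {L' : Finset V} (h : L' ⊆ L) : TB k L' σ ⊆ TB k L σ :=
  thick_mono (filter_subset_filter _ h)

lemma cls_timar (hk : 1 ≤ k) (hG : Cn G) (hL : G ⊆ L) (hc : Cons L σ)
    (h1 : ∀ x ∈ G, ∀ d, x + vec d ∈ L) (h2 : ∀ u, u ∉ G → (∃ v ∈ G, Adj u v) → u ∉ TB k L σ)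
    {y y' v v' : V} (hy : y ∉ G) (hv : v ∈ G) (hv' : v' ∈ G) (a : Adj y v) (a' : Adj y' v')
    (hcn : Conn (· ∉ G) y y') : cls k (σ y) = cls k (σ y') := by
  have inL : ∀ u v, v ∈ G → Adj u v → u ∈ L := fun u v hv a => by
    obtain ⟨d, rfl⟩ := a.symm
    exact h1 v hv d
  refine timar hG (fun x => cls k (σ x)) ?_ ?_ hy hv hv' a a' hcn
  · intro u v hu hv a
    have := inL u v hv a
    have h3 := h2 u hu ⟨v, hv, a⟩
    obtain ⟨d, rfl⟩ := a
    exact cls_step hk hc this h3 d (hL hv)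
  · rintro u u' hu _ ⟨d, rfl⟩ ⟨v, hv, a⟩ ⟨v', hv', a'⟩
    exact cls_step hk hc (inL u v hv a) (h2 u hu ⟨v, hv, a⟩) d (inL _ v' hv' a')

lemma labels (hk : 1 ≤ k) (hne : G.Nonempty) (hG : Cn G) (hL : fill G ⊆ L) (h : NLev k G L σ) :
    ∃ c : G → Fin 3, (∀ q, Guard G (lab G c q)) ∧ (∀ q, Base k q (lab G c q) σ) ∧
      Cut k G (L \ G) σ := by
  obtain ⟨hc, hv, h1, h2, -⟩ := h
  have gL : G ⊆ L := (sub_fill G).trans hL
  have K : ∀ y ∈ fill G \ G, ∀ y' v', v' ∈ G → Adj y' v' → Conn (· ∉ G) y y' →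
      cls k (σ y') = cls k (σ (le G y)) := by
    intro y hy y' v' hv' a cn
    obtain ⟨g1, g2⟩ := mem_sdiff.1 hy
    have c1 := le_conn g2 g1
    have c2 := c1.mem g2
    rw [← cls_timar hk hG gL hc h1 h2 c2 (le_mem g1) hv' (adj_vec _ 0).symm a (c1.symm.trans cn)]
    have := cls_step hk hc (h1 _ (le_mem g1) 0) (h2 _ c2 ⟨_, le_mem g1, (adj_vec _ 0).symm⟩) (opp 0)
      (by simpa using gL (le_mem g1))
    simpa using this
  let c : G → Fin 3 := fun v => cls k (σ v)
  have ml : ∀ q y, y ∈ lab G c q ↔ y ∈ fill G \ G ∧ cls k (σ (le G y)) = q := fun q y =>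
    mem_filter.trans (and_congr_right fun hy =>
      ⟨fun ⟨_, e⟩ => e, fun e => ⟨le_mem (mem_sdiff.1 hy).1, e⟩⟩)
  have gd : ∀ q, Guard G (lab G c q) := by
    intro q
    refine ⟨hne, hG, disjoint_right.2 fun y hy => (mem_sdiff.1 ((ml q y).1 hy).1).2,
      fun y hy => (mem_sdiff.1 ((ml q y).1 hy).1).1, fun x hx d => ?_⟩
    by_cases g : x + vec d ∈ G
    · exact Or.inr g
    obtain ⟨g1, g2⟩ := (ml q x).1 hx
    have cn : Conn (· ∉ G) x (x + vec d) := Conn.single (mem_sdiff.1 g1).2 g (adj_vec _ _)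
    have g3 := fill_conn (mem_sdiff.1 g1).1 cn
    refine Or.inl ((ml q _).2 ⟨mem_sdiff.2 ⟨g3, g⟩, ?_⟩)
    rw [← g2, ← K x g1 _ _ (le_mem g3) (adj_vec _ 0).symm (cn.trans (le_conn g g3)),
      K _ (mem_sdiff.2 ⟨g3, g⟩) _ _ (le_mem g3) (adj_vec _ 0).symm (le_conn g g3)]
  refine ⟨c, gd, fun q => ⟨hv.mono (filter_subset _ _), fun x hx => ?_, fun y hy => ?_⟩,
    fun x hx d hd => ?_⟩
  · have IL : lab G c q ⊆ L := (gd q).2.2.2.1.trans hL
    have A : ∀ z ∈ lab G c q, z ∈ TB k (lab G c q) σ → ∀ d, z + vec d ∈ lab G c q := fun z hz ht d =>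
      ((gd q).2.2.2.2 z hz d).resolve_right fun g =>
        h2 z (disjoint_right.1 (gd q).2.2.1 hz) ⟨_, g, adj_vec _ _⟩ (TB_mono IL ht)
    have : x ∈ lab G c q := by
      rcases mem_thick.1 hx with g | ⟨y, g, d, rfl⟩
      · exact (mem_badS.1 g).1
      · exact A y (mem_badS.1 g).1 (sub_thick _ g) d
    exact ⟨this, A x this hx⟩
  · obtain ⟨g1, d, g2⟩ := mem_bd.1 hy
    have g3 := ((gd q).2.2.2.2 y g1 d).resolve_left g2
    obtain ⟨g4, g5⟩ := (ml q y).1 g1
    rw [← g5, ← K y g4 y _ g3 (adj_vec _ _) Conn.refl]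
    exact good_cls (not_bad_of_not_TB (hL (mem_sdiff.1 g4).1)
      (h2 y (mem_sdiff.1 g4).2 ⟨_, g3, adj_vec _ _⟩))
  · obtain ⟨g1, g2⟩ := mem_sdiff.1 hd
    exact ⟨not_bad_of_adj (gL hx) (h2 _ g2 ⟨x, hx, (adj_vec _ _).symm⟩) (adj_vec _ _).symm,
      hc x (gL hx) d g1⟩

lemma Guard.X_eq {I : Finset V} (h : Guard G I) : X ψ I (· ∈ G) σ = X ψ I (· ∉ I) σ :=
  X_congr (fun x hx d => ⟨fun g => disjoint_left.1 h.2.2.1 g,
    fun g => (h.2.2.2.2 x hx d).resolve_left g⟩) fun _ _ _ _ => rfl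

lemma Hyp.nl (H : Hyp k W ψ C τ) (hne : G.Nonempty) (hG : Cn G) (hL : fill G ⊆ L)
    (w : V → St → ENNReal) (β : V → ENNReal)
    (hw : ∀ x ∈ G, (w x = W ∧ β x = ex C) ∨ ((∀ d, x + vec d ∈ G) ∧
      ∑' s, w x s * wh (bad k s) (ex (55 * τ)) ≤ β x)) (hw' : ∀ x ∈ fill G \ G, w x = W)
    {p c3 : ℝ} (hU : ∀ q I, Guard G I → ZZ W ψ I (Base k q I) ≤ ex (p * I.card + c3 * G.card))
    (η : Cfg) :
    sm w (fill G) (fun σ => ind (NLev k G L σ)) η ≤ (∏ x ∈ G, β x) *
      ex ((-τ + 2 + 3 * c3) * G.card + p * (fill G \ G).card) * X ψ (L \ fill G) (· ∈ G) η := by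
  have hτ : 0 ≤ τ := by linarith [H.hC, H.hτ]
  set Gd := univ.filter (fun c : G → Fin 3 => ∀ q, Guard G (lab G c q)) with hGd
  set B : (G → Fin 3) → Cfg → ENNReal := fun c σ => ind (Base k 0 (lab G c 0) σ) *
    (ind (Base k 1 (lab G c 1) σ) * ind (Base k 2 (lab G c 2) σ)) with hB
  have e0 : fill G = (fill G \ G) ∪ G := (sdiff_union_of_subset (sub_fill G)).symm
  calc _ ≤ sm w (fill G) (fun σ => ∑ c ∈ Gd, ex (-τ * G.card) * (B c σ *
        (ex (55 * τ * (badS k G σ).card) * ind (Cut k G (L \ G) σ)))) η := by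
        refine sm_mono fun σ _ => ind_le fun h => ?_
        obtain ⟨c, c1, c2, c3⟩ := labels H.hk hne hG hL h
        refine le_trans ?_ (single_le_sum (fun _ _ => zero_le) (mem_filter.2 ⟨mem_univ c, c1⟩))
        simp only [hB, ind_pos (c2 _), ind_pos c3, one_mul, mul_one, ← ex_add]
        refine one_le_ex ?_
        have : (G.card : ℝ) ≤ 55 * (badS k G σ).card := by exact_mod_cast h.2.2.2.2
        nlinarith
    _ ≤ ∑ c ∈ Gd, ex (-τ * G.card) * ((∏ x ∈ G, β x) * X ψ (L \ fill G) (· ∈ G) η *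
        ex (p * (fill G \ G).card + 3 * c3 * G.card)) := by
        rw [sm_sum]
        refine sum_le_sum fun c hc => ?_
        have gd := (mem_filter.1 hc).2
        rw [sm_mul]
        refine mul_le_mul_right ?_ _
        conv_lhs => rw [e0]
        rw [sm_union sdiff_disjoint]
        have dB : Dep (· ∉ G) (B c) := by
          have : ∀ q, Dep (· ∉ G) (fun σ => ind (Base k q (lab G c q) σ)) := fun q =>
            Dep.ind fun _ _ e h => h.congr fun x hx => e x (disjoint_right.1 (gd q).2.2.1 hx)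
          exact (this 0).mul ((this 1).mul (this 2))
        calc _ ≤ sm w (fill G \ G) (fun σ => ((∏ x ∈ G, β x) * X ψ (L \ fill G) (· ∈ G) η) *
              ((X ψ (lab G c 0) (· ∉ lab G c 0) σ * ind (Base k 0 (lab G c 0) σ)) *
              ((X ψ (lab G c 1) (· ∉ lab G c 1) σ * ind (Base k 1 (lab G c 1) σ)) *
              (X ψ (lab G c 2) (· ∉ lab G c 2) σ * ind (Base k 2 (lab G c 2) σ))))) η := by
              refine sm_mono fun σ hσ => ?_
              rw [sm_mul_dep dB]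
              refine (mul_le_mul_right (H.cut disjoint_sdiff w β hw σ) _).trans (le_of_eq ?_)
              have e1 : L \ G = (L \ fill G) ∪ (lab G c 0 ∪ (lab G c 1 ∪ lab G c 2)) := by
                rw [lab_union]; ext y
                have := @hL y; have := @sub_fill G y
                simp only [mem_sdiff, mem_union]; tauto
              rw [e1, X_union (by rw [lab_union]; exact disjoint_of_subset_right sdiff_subset sdiff_disjoint),
                X_union (by simp [lab_disj]), X_union (by simp [lab_disj]), (gd 0).X_eq, (gd 1).X_eq,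
                (gd 2).X_eq, X_dep ψ (L \ fill G) (· ∈ G) σ η fun x hx =>
                  hσ x fun g => (mem_sdiff.1 hx).2 (mem_sdiff.1 g).1]
              simp only [hB]; ring
          _ ≤ _ := by
              rw [sm_mul, sm_congr_w hw', ← lab_union c]
              refine mul_le_mul_right ?_ _
              rw [sm_mul_sm (by simp [lab_disj]) dep_base ((dep_base.mono fun x hx =>
                mem_union_left _ hx).mul (dep_base.mono fun x hx => mem_union_right _ hx)),
                sm_mul_sm (by simp [lab_disj]) dep_base dep_base, dep_base.sm_eq η vcf,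
                dep_base.sm_eq η vcf, dep_base.sm_eq η vcf,
                card_union_of_disjoint (by simp [lab_disj]), card_union_of_disjoint (by simp [lab_disj])]
              refine (mul_le_mul' (hU 0 _ (gd 0)) (mul_le_mul' (hU 1 _ (gd 1)) (hU 2 _ (gd 2)))).trans
                (le_of_eq ?_)
              rw [← ex_add, ← ex_add]; congr 1; push_cast; ring
    _ ≤ _ := by
        rw [sum_const, nsmul_eq_mul]
        have : (Gd.card : ENNReal) ≤ ex (2 * G.card) := by
          apply nat_le_ex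
          have h1 : Gd.card ≤ 3 ^ G.card := (card_filter_le _ _).trans (by simp)
          calc (Gd.card : ℝ) ≤ 3 ^ G.card := by exact_mod_cast h1
            _ ≤ Real.exp 2 ^ G.card := by gcongr; linarith [Real.add_one_le_exp 2]
            _ = _ := by rw [← Real.exp_nat_mul, mul_comm]
        refine (mul_le_mul_left this _).trans (le_of_eq ?_)
        rw [show (-τ + 2 + 3 * c3) * G.card + p * (fill G \ G).card = 2 * G.card + (-τ * G.card +
          (p * (fill G \ G).card + 3 * c3 * G.card)) by ring, ex_add (2 * _), ex_add (-τ * _)]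
        ring

lemma swap_geo {F : Finset (Finset V)} {σ0 : Cfg} {Y : Finset V} {n' : ℕ}
    (h0 : EE k q n L (insert G F) σ0) (hF : ∀ A ∈ F, Disjoint (fill A) (fill G))
    (hL : fill G ⊆ L) (hY : Y ⊆ fill G) (e : ∀ x, x ∉ fill G → σ x = σ0 x)
    (hE : Ens k q n' Y σ) (hn : n' ≤ n) (hT : ∀ x ∈ fill G \ Y, good k q (σ x)) (hv : Valid L σ) :
    EE k q n L F σ := by
  obtain ⟨hb, hq, hs⟩ := h0
  have hG := (hq G (mem_insert_self _ _)).1
  have eL : L = (L \ fill G) ∪ fill G := (sdiff_union_of_subset hL).symm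
  have na : ∀ y ∈ TB k L σ0, y ∉ fill G → ∀ x ∈ fill G, ¬ Adj y x := fun y hy hy' x hx a =>
    hy' (sub_fill G (hG.2.2.2 x (fill_bd hx hy' a.symm) y hy a.symm))
  have s1 : ∀ y ∈ TB k (L \ fill G) σ0, y ∉ fill G := by
    intro y hy
    rcases mem_thick.1 hy with g | ⟨x, g, a⟩
    · exact (mem_sdiff.1 (mem_badS.1 g).1).2
    · exact fun h => na x (TB_mono sdiff_subset (sub_thick _ g)) (mem_sdiff.1 (mem_badS.1 g).1).2 y h a
  have s2 : TB k (fill G) σ0 ⊆ fill G := by
    intro y hy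
    by_contra h
    rcases mem_thick.1 hy with g | ⟨x, g, a⟩
    · exact h (mem_badS.1 g).1
    · exact na y (TB_mono hL hy) h x (mem_badS.1 g).1 a.symm
  have s3 : TB k Y σ ⊆ fill G := fun y hy => hY (hE.1.2.1 y hy).1
  have na' : ∀ y ∈ TB k (L \ fill G) σ0, ∀ x ∈ fill G, ¬ Adj y x := fun y hy =>
    na y (TB_mono sdiff_subset hy) (s1 y hy)
  have e0 : TB k L σ0 = TB k (L \ fill G) σ0 ∪ TB k (fill G) σ0 := by rw [← TB_union, ← eL]
  have e1 : TB k L σ = TB k (L \ fill G) σ0 ∪ TB k Y σ := by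
    conv_lhs => rw [eL, ← union_sdiff_of_subset hY]
    rw [union_sdiff_of_subset hY, TB_union, TB_congr fun x hx => e x (mem_sdiff.1 hx).2]
    congr 1
    conv_lhs => rw [← union_sdiff_of_subset hY, TB_union, TB_good hT, union_empty]
  refine ⟨⟨hv, ?_, fun x hx => ?_⟩, fun A hA => ⟨?_, fun x hx d hd => ?_⟩, ?_⟩
  · rw [e1]
    intro x hx
    rcases mem_union.1 hx with g | g
    · exact hb.2.1 x (TB_mono sdiff_subset g)
    · exact ⟨hL (s3 g), fun d => hL (hY ((hE.1.2.1 x g).2 d))⟩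
  · rw [e x]
    · exact hb.2.2 x hx
    · intro g
      obtain ⟨-, d, g2⟩ := mem_bd.1 hx
      exact g2 ((hb.2.1 x (hG.2.1 (fill_bd g (fun h => g2 (hL h)) (adj_vec _ _)))).2 d)
  · have g := (hq A (mem_insert_of_mem hA)).1
    rw [e0] at g
    rw [e1]
    refine isComp_union (fun x hx y hy => na' x hx y (s3 hy))
      ((isComp_cases (fun x hx y hy => na' x hx y (s2 hy)) g).resolve_right fun g' => ?_)
    obtain ⟨x, hx⟩ := g.1
    exact disjoint_left.1 (hF A hA) (sub_fill A hx) (s2 (g'.2.1 hx))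
  · have g := hq A (mem_insert_of_mem hA)
    rw [e _ fun h => comp_nbr g.1 hG (hF A hA) (sub_fill A hx) h (adj_vec _ _)]
    exact g.2 x hx d hd
  · rw [e1]
    intro A hA
    rcases isComp_cases (fun x hx y hy => na' x hx y (s3 hy)) hA with g | g
    · have g' := isComp_union (fun x hx y hy => na' x hx y (s2 hy)) g
      rw [← e0] at g'
      refine (hs A g').imp (fun ⟨A', h1, h2⟩ => ⟨A', (mem_insert.1 h1).resolve_left ?_, h2⟩) id
      rintro rfl
      obtain ⟨x, hx⟩ := g.1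
      exact s1 x (g.2.1 hx) (h2 hx)
    · exact Or.inr ((hE.2 A g).trans hn)

/-- sub-regions whose complement hangs on the boundary -/
def Anch (Y Y' : Finset V) : Prop :=
  Y' ⊆ Y ∧ ∀ x ∈ Y \ Y', ∃ r ∈ bd Y, r ∉ Y' ∧ Conn (· ∈ Y \ Y') x r

lemma Hyp.sw (H : Hyp k W ψ C τ) (hq : q ≠ 0) {F : Finset (Finset V)} {n' : ℕ} (hn : n' ≤ n)
    (hF : ∀ A ∈ F, Disjoint (fill A) (fill G)) (hL : fill G ⊆ L) {p p' c2 c3 : ℝ} (hc2 : 0 ≤ c2)
    (hU : ∀ q I, Guard G I → ZZ W ψ I (Base k q I) ≤ ex (p * I.card + c3 * G.card))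
    (hLw : ∀ Y, ∃ Y', Anch Y Y' ∧
      ex (p' * Y.card + C * (Y \ Y').card - c2 * (bd Y).card) ≤ ZZ W ψ Y' (Ens k q n' Y')) :
    ZZ W ψ L (EE k q n L (insert G F)) ≤ ex ((-τ + 2 + 3 * c3 + 2 * C + 4 * c2) * G.card +
      (p - p') * (fill G \ G).card) * ZZ W ψ L (EE k q n L F) := by
  obtain ⟨Y, ⟨hY, hA⟩, hZ⟩ := hLw (fill G \ G)
  have key : ∀ η : Cfg,
      sm (fun _ => W) (fill G) (fun σ => X ψ L (· ∉ L) σ * ind (EE k q n L (insert G F) σ)) η ≤
      ex ((-τ + 2 + 3 * c3 + 2 * C + 4 * c2) * G.card + (p - p') * (fill G \ G).card) *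
      sm (fun _ => W) (fill G) (fun σ => X ψ L (· ∉ L) σ * ind (EE k q n L F σ)) η := by
    intro η
    by_cases hw : ∃ σ0 : Cfg, (∀ x, x ∉ fill G → σ0 x = η x) ∧ EE k q n L (insert G F) σ0
    swap
    · rw [sm_congr (g := fun _ => 0) fun σ hσ => by rw [ind_neg fun h => hw ⟨σ, hσ, h⟩, mul_zero],
        sm_zero]
      exact zero_le
    obtain ⟨σ0, e0, h0⟩ := hw
    obtain ⟨hG, hgood⟩ := h0.2.1 G (mem_insert_self _ _)
    have nb : ∀ x ∈ fill G, ∀ d, x + vec d ∈ L := fun x hx d => by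
      by_contra g
      exact g ((h0.1.2.1 x (hG.2.1 (fill_bd hx (fun h => g (hL h)) (adj_vec _ _)))).2 d)
    have dX : Dep (· ∉ fill G) (X ψ L (· ∉ L)) := fun σ σ' e =>
      X_congr (fun _ _ _ => Iff.rfl) fun x _ d hd => e x fun g => hd (nb x g d)
    rw [sm_mul_dep dX, sm_mul_dep dX, mul_left_comm]
    refine mul_le_mul_right ?_ _
    have up := H.nl hG.1 hG.2.2.1 hL (fun _ => W) (fun _ => ex C) (fun _ _ => Or.inl ⟨rfl, rfl⟩)
      (fun _ _ => rfl) hU η
    refine ((sm_mono fun σ _ => ind_mono fun h => ?_).trans up).trans ?_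
    · have g := (h.2.1 G (mem_insert_self _ _)).1
      refine ⟨h.1.1.2.1, h.1.1.mono (sdiff_subset.trans hL), fun x hx => (h.1.2.1 x (g.2.1 hx)).2,
        fun u hu ⟨v, hv, a⟩ ht => hu (g.2.2.2 v hv u ht a.symm), ?_⟩
      have := (card_le_card (comp_thick g)).trans (card_thick _)
      have h2 : (badS k L σ ∩ G).card ≤ (badS k G σ).card := card_le_card fun x hx =>
        mem_badS.2 ⟨(mem_inter.1 hx).2, (mem_badS.1 (mem_inter.1 hx).1).2⟩
      omega
    have YF : Y ⊆ fill G := hY.trans sdiff_subset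
    have GT : G ⊆ fill G \ Y := fun x hx =>
      mem_sdiff.2 ⟨sub_fill G hx, fun g => (mem_sdiff.1 (hY g)).2 hx⟩
    have lo : ex (-(C * (fill G \ Y).card)) * X ψ (L \ fill G) (· ∈ G) η * ZZ W ψ Y (Ens k q n' Y) ≤
        sm (fun _ => W) (fill G) (fun σ => ind (EE k q n L F σ)) η := by
      conv_rhs => rw [← union_sdiff_of_subset YF]
      rw [sm_union disjoint_sdiff, ZZ, dep_ens.sm_eq vcf η, ← sm_mul]
      refine sm_mono fun ξ hξ => ?_
      rw [← mul_assoc]
      refine mul_ind_le fun hE => ?_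
      have e1 : ∀ x, x ∉ fill G → ξ x = σ0 x := fun x hx => (hξ x fun g => hx (YF g)).trans (e0 x hx).symm
      have nY : ∀ y ∈ Y, ∀ d, y + vec d ∈ fill G := fun y hy d => by
        by_contra g
        exact (mem_sdiff.1 (hY hy)).2 (fill_bd (YF hy) g (adj_vec _ _))
      have dj : Disjoint (L \ fill G) Y := disjoint_of_subset_right YF sdiff_disjoint
      have dj2 : Disjoint (L \ fill G ∪ Y) (fill G \ Y) :=
        disjoint_union_left.2 ⟨disjoint_of_subset_right sdiff_subset sdiff_disjoint, disjoint_sdiff⟩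
      have eL : L \ fill G ∪ Y ∪ fill G \ Y = L := by
        rw [union_assoc, union_sdiff_of_subset YF, sdiff_union_of_subset hL]
      have v1 : Valid (L \ fill G ∪ Y) ξ :=
        (hE.1.1.union ((h0.1.1.mono sdiff_subset).congr fun x hx => (e1 x (mem_sdiff.1 hx).2).symm)
          fun y hy d g => (mem_sdiff.1 g).2 (nY y hy d)).mono (by rw [union_comm])
      have gb : ∀ x ∈ fill G, ∀ d, x + vec d ∉ fill G →
          gbase k q (L \ fill G ∪ Y) ξ x d = (σ0 x).m d := fun x hx d hd => by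
        rw [gbase, if_pos (mem_union_left _ (mem_sdiff.2 ⟨nb x hx d, hd⟩)), e1 _ hd,
          h0.1.1.2.1 x (hL hx) d (nb x hx d)]
      have g := glue (H.G q hq) dj2 v1 (fun x hx d hd => ?_) (Or.inr ?_)
      · rw [eL, X_union dj] at g
        refine le_trans (le_of_eq ?_) (g.trans (sm_mono fun σ hσ => mul_ind_le fun h =>
          (X_le_one H.ψ1 _ _ _).trans (ind_pos ?_).ge))
        · rw [mul_assoc]
          congr 2
          · refine X_congr (fun x hx d => ⟨fun g => GT g, fun g => fill_bd (mem_sdiff.1 g).1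
              (mem_sdiff.1 hx).2 (adj_vec _ _).symm⟩) fun x hx _ _ =>
              (hξ x (disjoint_left.1 dj hx)).symm
          · exact X_congr (fun x hx d => by simp [nY x hx d]) fun _ _ _ _ => rfl
        · exact swap_geo h0 hF hL YF
            (fun x hx => (hσ x fun g => hx (mem_sdiff.1 g).1).trans (e1 x hx))
            (hE.congr fun x hx => (hσ x fun g => (mem_sdiff.1 g).2 hx).symm) hn h.1 h.2
      · rcases mem_union.1 hd with g | g
        · rw [e1 _ (mem_sdiff.1 g).2]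
          exact hgood x (fill_bd (mem_sdiff.1 hx).1 (mem_sdiff.1 g).2 (adj_vec _ _)) d (mem_sdiff.1 g).2
        · exact hE.1.2.2 _ (mem_bd.2 ⟨g, opp d, by simpa using (mem_sdiff.1 hx).2⟩)
      · obtain ⟨v, hv, hm⟩ := exists_leftmost hG.1
        have o := not_mem_fill.2 (left_out hm)
        have r0 : InR σ0 (v, 2, 0) := by
          have := (hgood v hv 2 o (opp 2)).1
          have := bq_pos H.hk hq
          have := h0.1.1.2.1 v (hL (sub_fill G hv)) 2 (nb v (sub_fill G hv) 2)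
          simp only [InR]; omega
        obtain ⟨⟨r, c⟩, r1, r2, r3⟩ := h0.1.1.esc hL (h := (v, 2, 0)) (sub_fill G hv) r0
        have r4 : r + vec c.1 ∉ fill G := by
          obtain ⟨m, m1, m2⟩ := r3
          rcases Nat.eq_zero_or_pos m with rfl | hm
          · exact fun g => m1 (hL g)
          · exact (mem_sdiff.1 (m2 1 one_pos hm)).2
        have r5 := fill_bd r1 r4 (adj_vec _ _)
        refine ⟨r, c, GT r5, fun x hx => ?_, by rw [gb r r1 _ r4]; exact r2, ?_, ?_⟩
        · have cG : ∀ y ∈ G, Conn (· ∈ fill G \ Y) y r := fun y hy =>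
            (hG.2.2.1 y hy r r5).mono fun a ha => GT ha
          by_cases hx' : x ∈ G
          · exact cG x hx'
          obtain ⟨b, b1, b2, b3⟩ := hA x (mem_sdiff.2 ⟨mem_sdiff.2 ⟨(mem_sdiff.1 hx).1, hx'⟩,
            (mem_sdiff.1 hx).2⟩)
          obtain ⟨b4, d, b5⟩ := mem_bd.1 b1
          have b6 : b + vec d ∈ G := by
            by_contra g
            exact b5 (mem_sdiff.2 ⟨fill_conn (mem_sdiff.1 b4).1
              (Conn.single (mem_sdiff.1 b4).2 g (adj_vec _ _)), g⟩)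
          exact ((b3.mono fun a ha => sdiff_subset_sdiff sdiff_subset le_rfl ha).tail
            (mem_sdiff.2 ⟨(mem_sdiff.1 b4).1, b2⟩) (GT b6) (adj_vec _ _)).trans (cG _ b6)
        · rw [eL]
          exact (r3.congr fun x hx => (e1 x (mem_sdiff.1 hx).2).symm).mono sdiff_subset
        · let m1 : V → Dir → ℕ := fun x => if x ∈ Y then (ξ x).m else gbase k q (L \ fill G ∪ Y) ξ x
          have p1 := parity (A := fill G) m1 (fun x hx d hd => by
            have nL : ∀ z ∈ fill G, z ∉ Y → z ∉ L \ fill G ∪ Y := fun z h1 h2 => by simp [h1, h2]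
            by_cases a : x ∈ Y <;> by_cases b : x + vec d ∈ Y
            · simp only [m1, a, b, if_true]; exact hE.1.1.2.1 x a d b
            · simp [m1, a, b, gbase]
            · simp [m1, a, b, gbase]
            · simp [m1, a, b, gbase, hx, hd])
          have p2 := parity (A := fill G) (fun x => (σ0 x).m) fun x hx d hd =>
            h0.1.1.2.1 x (hL hx) d (hL hd)
          rw [sum_eq_zero fun x hx => ZMod.natCast_eq_zero_iff_even.2 (h0.1.1.1 x (hL hx)).2] at p2
          have p3 : ∑ x ∈ fill G, (deg (m1 x) : ZMod 2) = 0 := by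
            rw [p1]
            refine Eq.trans ?_ p2.symm
            refine sum_congr rfl fun x hx => sum_congr rfl fun d _ => ?_
            split_ifs with g
            · rfl
            · simp only [m1, if_neg fun a => g (nY x a d), gb x hx d g]
          rw [← sum_sdiff YF, sum_eq_zero (s := Y) fun x hx => ZMod.natCast_eq_zero_iff_even.2 (by
            simp only [m1, if_pos hx]; exact (hE.1.1.1 x hx).2), add_zero] at p3
          rw [← p3]
          exact sum_congr rfl fun x hx => by simp only [m1, if_neg (mem_sdiff.1 hx).2]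
    refine le_trans ?_ (mul_le_mul_right ((mul_le_mul_right hZ _).trans lo) _)
    rw [prod_const, ex_pow, ← ex_add, mul_right_comm, ← ex_add, ← mul_assoc, ← ex_add]
    refine mul_le_mul_left (ex_le ?_) _
    have c1 : (fill G \ Y).card = G.card + ((fill G \ G) \ Y).card := by
      rw [← card_union_of_disjoint (disjoint_of_subset_right sdiff_subset disjoint_sdiff)]
      congr 1; ext y
      have := @GT y; have := @sub_fill G y
      simp only [mem_sdiff, mem_union] at *; tauto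
    have c2' : ((bd (fill G \ G)).card : ℝ) ≤ 4 * G.card := by
      exact_mod_cast card_bd_le fun b b1 => by
        obtain ⟨b4, d, b5⟩ := mem_bd.1 b1
        refine ⟨b + vec d, ?_, (adj_vec _ _).symm⟩
        by_contra g
        exact b5 (mem_sdiff.2 ⟨fill_conn (mem_sdiff.1 b4).1
          (Conn.single (mem_sdiff.1 b4).2 g (adj_vec _ _)), g⟩)
    rw [c1]; push_cast
    nlinarith
  unfold ZZ
  conv_lhs => rw [← sdiff_union_of_subset hL]
  conv_rhs => rw [← sdiff_union_of_subset hL]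
  rw [sm_union sdiff_disjoint, sm_union sdiff_disjoint, ← sm_mul, sdiff_union_of_subset hL]
  exact sm_mono fun η _ => key η

end Pool.Agent.Lib.MP_1f6494_pr
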