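import Pool.Agent.Lib.MP_1f6494_pr.Walk

set_option autoImplicit false

namespace Pool.Agent.Lib.MP_1f6494_pr

open Finset Classical Function Real

variable {n k : ℕ} {o : V} {s : Fin n → Dir} {l : Fin n → ℕ} {σ : Cfg}

lemma mul_zero_of {x : V} (h : ∀ i ≤ n, pos o s i ≠ x) (d : Dir) : mul o s x d = 0 := by
  rw [mul, card_eq_zero, fib, filter_eq_empty_iff]
  intro t _ e
  exact (key_eq.1 e).elim (fun g => h t t.2.le g.1) fun g => h (t + 1) t.2 g.1

lemma mul_pos_of (hn : 0 < n) {i : ℕ} (hi : i ≤ n) : ∃ d, 0 < mul o s (pos o s i) d := by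
  rcases hi.lt_or_eq with hi | rfl
  · exact ⟨s ⟨i, hi⟩, card_pos.2 ⟨⟨i, hi⟩, (mem_fib _).2 rfl⟩⟩
  · exact ⟨opp (s ⟨i - 1, by omega⟩), card_pos.2 ⟨⟨i - 1, by omega⟩, (mem_fib _).2
      (key_eq.2 (Or.inr ⟨by congr 1; simp; omega, rfl⟩))⟩⟩

lemma good_zero {t : St} : good k 0 t ↔ ∀ d, t.m d = 0 := by simp [good, J, bq]

lemma top_geo (hk : 1 ≤ k) (hn : 0 < n) (h : Prp (key o s) l) (r : ∀ x, Rep o s l σ x) :
    ∃ G, o ∈ G ∧ pos o s n ∈ G ∧ Cn G ∧ (∀ d, o + vec d ∈ G) ∧ (∀ d, pos o s n + vec d ∈ G) ∧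
      (∀ i ≤ n, pos o s i ∈ fill G) ∧ NLev k G (thick (fill G)) σ := by
  set A := (range (n + 1)).image (pos o s) with hA
  have mA : ∀ i ≤ n, pos o s i ∈ A := fun i hi => mem_image.2 ⟨i, mem_range.2 (by omega), rfl⟩
  have cA : Cn A := cn_of_root o fun x hx => by
    obtain ⟨i, hi, rfl⟩ := mem_image.1 hx
    have : ∀ j ≤ n, Conn (· ∈ A) o (pos o s j) := by
      intro j
      induction j with
      | zero => intro; rw [pos_zero]; exact Conn.refl
      | succ j ih =>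
        intro hj
        exact (ih (by omega)).tail (mA j (by omega)) (mA _ hj) ⟨_, pos_succ ⟨j, hj⟩⟩
    exact this i (by simpa [Nat.lt_succ_iff] using hi)
  have z : ∀ x, x ∉ A → good k 0 (σ x) := fun x hx => good_zero.2 fun d => by
    rw [(r x).1]; exact mul_zero_of (fun i hi e => hx (by rw [← e]; exact mA i hi)) d
  have nz : ∀ x ∈ A, ¬ good k 0 (σ x) := fun x hx g => by
    obtain ⟨i, hi, rfl⟩ := mem_image.1 hx
    obtain ⟨d, hd⟩ := mul_pos_of (o := o) (s := s) hn (i := i) (by simpa [Nat.lt_succ_iff] using hi)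
    rw [← (r _).1, good_zero.1 g d] at hd
    exact lt_irrefl _ hd
  have cons : ∀ L, Cons L σ := fun L x _ d _ => by rw [(r _).1, (r _).1, mul_opp]
  have sD : ∀ L, TB k L σ ⊆ TB k A σ := fun L => thick_mono fun x hx => mem_badS.2
    ⟨by_contra fun g => (z x g).not_bad (mem_badS.1 hx).2, (mem_badS.1 hx).2⟩
  obtain ⟨xL, x1, x2⟩ := exists_leftmost ⟨_, mA 0 (Nat.zero_le _)⟩
  have x3 : xL ∈ badS k A σ := mem_badS.2 ⟨x1, fun q g => by
    have h1 : (σ xL).m 2 = 0 := by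
      rw [(r _).1, ← mul_opp, ← (r _).1]; exact good_zero.1 (z _ (left_out x2).1) _
    have h2 : q = 0 := J_unique hk (g 2) (by simp [h1, J, bq])
    exact nz xL x1 (h2 ▸ g)⟩
  obtain ⟨G0, g1, g2⟩ := exists_comp (S := TB k A σ) (sub_thick _ x3)
  have sA : A ⊆ fill G0 := by
    intro y hy
    by_contra hy'
    obtain ⟨a, b, a1, a2, a3, -, a4, a5⟩ := (cA y hy xL x1).exit (R := (· ∉ G0))
      (fun g => hy' (sub_fill _ g)) (not_not.2 g2)
    have a6 := (not_mem_fill.1 hy').of_conn (a1.mono (Q := (· ∉ G0)) fun _ g => g.2).symm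
    obtain ⟨v, v1, v2⟩ := exists_leftmost g1.1
    have a7 : ∀ u, u ∉ G0 → (∃ v ∈ G0, Adj u v) → u ∉ TB k A σ :=
      fun u hu ⟨v, hv, a⟩ g => hu (g1.2.2.2 v hv u g a.symm)
    have := cls_timar hk g1.2.2.1 (sub_thick G0) (cons _)
      (fun x hx d => mem_thick.2 (Or.inr ⟨x, hx, adj_vec _ _⟩))
      (fun u hu hv g => a7 u hu hv (sD _ g)) a3 (not_not.1 a4) v1 a5 (adj_vec v 2).symm
      (a6.conn (left_out v2))
    rw [(z (v + vec 2) fun g => by
      have := x2 _ g; have := v2 _ g2; simp [vec2] at *; omega).cls_eq hk] at this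
    exact nz a a2 (this ▸ good_cls (not_bad_of_not_TB a2 (a7 a a3 ⟨b, not_not.1 a4, a5⟩)))
  obtain ⟨R1, r1, r2, ⟨v1, r3, r4⟩, r5⟩ := exists_ray (sA (mA 0 (Nat.zero_le _)))
  obtain ⟨R2, s1, s2, ⟨v2, s3, s4⟩, s5⟩ := exists_ray (sA (mA n le_rfl))
  rw [pos_zero] at r1
  set D := badS k A σ ∪ (R1 ∪ R2) with hD
  have sT : TB k A σ ⊆ thick D := thick_mono subset_union_left
  obtain ⟨G, h1, h2⟩ := exists_comp (sT (sub_thick _ x3))
  have G0G : G0 ⊆ G := h1.sub g1.2.2.1 (g1.2.1.trans sT) g2 h2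
  have R1D : R1 ⊆ D := subset_union_left.trans subset_union_right
  have R2D : R2 ⊆ D := subset_union_right.trans subset_union_right
  have o1 := h1.sub r2 (R1D.trans (sub_thick _)) r3 (G0G r4) r1
  have o2 := h1.sub s2 (R2D.trans (sub_thick _)) s3 (G0G s4) s1
  refine ⟨G, o1, o2, h1.2.2.1,
    fun d => h1.2.2.2 _ o1 _ (mem_thick.2 (Or.inr ⟨_, R1D r1, adj_vec _ _⟩)) (adj_vec _ _),
    fun d => h1.2.2.2 _ o2 _ (mem_thick.2 (Or.inr ⟨_, R2D s1, adj_vec _ _⟩)) (adj_vec _ _),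
    fun i hi => fill_mono G0G (sA (mA i hi)), cons _,
    rep_valid h r (fun g => (mem_sdiff.1 g).2 o1) (fun g => (mem_sdiff.1 g).2 o2),
    fun x hx d => mem_thick.2 (Or.inr ⟨x, sub_fill G hx, adj_vec _ _⟩),
    fun u hu ⟨v, hv, a⟩ g => hu (h1.2.2.2 v hv u (sT (sD _ g)) a.symm), ?_⟩
  have c1 := (card_le_card (comp_thick h1)).trans (card_thick _)
  have c2 := (card_le_card (comp_thick g1)).trans (card_thick _)
  have c3 : (badS k A σ ∩ G0).card ≤ (badS k G σ).card := card_le_card fun x hx =>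
    mem_badS.2 ⟨G0G (mem_inter.1 hx).2, (mem_badS.1 (mem_inter.1 hx).1).2⟩
  have c4 : (D ∩ G).card ≤ (badS k G σ).card + (R1.card + R2.card) := by
    refine le_trans (card_le_card fun x hx => ?_) ((card_union_le _ (R1 ∪ R2)).trans
      (Nat.add_le_add_left (card_union_le _ _) _))
    exact mem_union.2 ((mem_union.1 (mem_inter.1 hx).1).imp
      (fun g => mem_badS.2 ⟨(mem_inter.1 hx).2, (mem_badS.1 g).2⟩) id)
  omega

noncomputable def Wd (B : ℝ) (t : St) : ENNReal :=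
  ENNReal.ofReal (B * exp (-(5 * deg t.m)) / rf t.m)

lemma Wd_tot {B : ℝ} (hB : 0 ≤ B) :
    ∑' t : St, Wd B t * (deg t.m + 1 : ℕ) ≤ ENNReal.ofReal B * ex 4 := by
  calc _ ≤ ∑' t : St, ∑' m, ind (t.m = m) *
        (ENNReal.ofReal (B * exp (-(5 * deg m)) / rf m) * (deg m + 1 : ℕ)) := by
        refine ENNReal.tsum_le_tsum fun t => le_trans ?_ (ENNReal.le_tsum t.m)
        rw [ind_pos rfl, one_mul, Wd]
    _ ≤ ∑' m : Dir → ℕ, ENNReal.ofReal B * ex (-(deg m : ℝ)) := by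
        rw [ENNReal.tsum_comm]
        refine ENNReal.tsum_le_tsum fun m => ?_
        rw [ENNReal.tsum_mul_right]
        refine (mul_le_mul_left (count_all m) _).trans ?_
        have := rf_pos m
        rw [show (2 : ENNReal) ^ deg m * Mf (deg m) = (2 ^ deg m * Mf (deg m) : ℕ) by norm_cast,
          ← ENNReal.ofReal_natCast, ← ENNReal.ofReal_natCast, ← ENNReal.ofReal_mul (by positivity),
          ← ENNReal.ofReal_mul (by positivity), ex, ← ENNReal.ofReal_mul hB]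
        refine ENNReal.ofReal_le_ofReal ?_
        have h1 := half_fact m
        have h2 : (2 : ℝ) ^ deg m ≤ exp (deg m) := by
          rw [← mul_one (deg m : ℝ), exp_nat_mul]; gcongr; linarith [add_one_le_exp 1]
        have h3 : (2 : ℝ) ^ (deg m / 2) ≤ exp (deg m) :=
          (pow_le_pow_right₀ one_le_two (by omega)).trans h2
        have h4 := add_one_le_exp (deg m : ℝ)
        rw [Mf]; push_cast
        calc _ ≤ exp (deg m) * (exp (deg m) * (exp (deg m) * rf m)) *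
              (B * exp (-(5 * deg m)) / rf m * exp (deg m)) := by
              gcongr
              exact h1.trans (by gcongr)
          _ = B * (exp (deg m) * exp (deg m) * exp (deg m) * exp (deg m) * exp (-(5 * deg m))) := by
              field_simp
          _ = _ := by simp only [← exp_add]; congr 2; ring
    _ ≤ _ := by rw [ENNReal.tsum_mul_left]; exact mul_le_mul_right tsum_deg _

lemma ZW_eq (G : ℕ → ℝ) (o : V) (n : ℕ) : ZW G n = ∑' a : (Fin n → Dir) × (Fin n → ℕ),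
    ind (Prp (key o a.1) a.2) * ENNReal.ofReal (wt G o a.1 / NL o a.1) := by
  rw [ENNReal.tsum_prod', tsum_fintype, ZW]
  refine sum_congr rfl fun s _ => ?_
  simp only
  rw [ENNReal.tsum_mul_right, tsum_prp, ← NL, ← ENNReal.ofReal_natCast,
    ← ENNReal.ofReal_mul (by positivity), wt_shift (o := o), mul_div_cancel₀]
  exact_mod_cast NL_pos.ne'

noncomputable def wA (G : ℕ → ℝ) (B : ℝ) (e x : V) (t : St) : ENNReal :=
  if x = 0 ∨ x = e then Wd B t * (deg t.m + 1 : ℕ) else Wt G t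
noncomputable def wB (G : ℕ → ℝ) (B : ℝ) (e x : V) (t : St) : ENNReal :=
  if x = 0 ∨ x = e then Wd B t else Wt G t
def EG (Γ : Finset V) (e : V) : Prop :=
  0 ∈ Γ ∧ e ∈ Γ ∧ Cn Γ ∧ (∀ d, 0 + vec d ∈ Γ) ∧ ∀ d, e + vec d ∈ Γ
noncomputable def HT (k : ℕ) (G : ℕ → ℝ) (B : ℝ) (p : Finset V × V) (b : Cfg × Hs) : ENNReal :=
  ind (∀ x, x ∉ fill p.1 → b.1 x = vcf x) * ((∏ x ∈ fill p.1, wB G B p.2 x (b.1 x)) *
      ind (NLev k p.1 (thick (fill p.1)) b.1)) * ind (b.2 ∈ rng (b.1 0).m)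

lemma top_one {G : ℕ → ℝ} {B : ℝ} (hk : 1 ≤ k) (G0 : G 0 = 1) (B0 : 0 ≤ B)
    (Gn : ∀ j, 0 ≤ G j) (hB : ∀ j : ℕ, G j ≤ B * exp (-(10 * j))) (hn : 0 < n)
    (h : Prp (key 0 s) l) : ∃ b : (Finset V × V) × Cfg × Hs,
      ((∀ x, Rep 0 s l b.2.1 x) ∧ ho 0 s l ⟨0, hn⟩ = (0, b.2.2)) ∧
      ENNReal.ofReal (wt G 0 s / NL 0 s) ≤ ind (EG b.1.1 b.1.2) * HT k G (B * exp 5) b.1 b.2 := by
  obtain ⟨σ, r⟩ := exists_rep h
  obtain ⟨Γ, g1, g2, g3, g4, g5, g6, g7⟩ := top_geo hk hn h r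
  refine ⟨((Γ, pos 0 s n), σ, s ⟨0, hn⟩, l ⟨0, hn⟩), ⟨r, by simp [ho]⟩, ?_⟩
  have a1 : (s ⟨0, hn⟩, l ⟨0, hn⟩) ∈ rng (σ 0).m := by
    rw [mem_rng, (r 0).1]
    simpa using inr_ho h ⟨0, hn⟩
  have a2 : ∀ x, x ∉ fill Γ → σ x = vcf x := fun x hx => St.eq_vac fun d => by
    rw [(r x).1]; exact mul_zero_of (fun i hi e => hx (by rw [← e]; exact g6 i hi)) d
  have a3 : EG Γ (pos 0 s n) := ⟨g1, g2, g3, g4, g5⟩
  simp only [HT]
  rw [ind_pos a3, ind_pos g7, ind_pos a1, ind_pos a2, one_mul,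
    one_mul, mul_one, mul_one, wt_eq G0 fun t => g6 (t + 1) t.2, ← prod_rf g6,
    ← prod_div_distrib, ENNReal.ofReal_prod_of_nonneg fun x _ =>
      div_nonneg (div_nonneg (Gn _) (by positivity)) (rf_pos _).le]
  refine prod_le_prod' fun x _ => ?_
  have dm := deg_mul (o := 0) (s := s) x
  have := rf_pos (mul 0 s x)
  unfold wB
  by_cases hx : x = 0 ∨ x = pos 0 s n
  · rw [if_pos hx, Wd, (r x).1]
    refine ENNReal.ofReal_le_ofReal (div_le_div_of_nonneg_right ?_ this.le)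
    have h1 : (deg (mul 0 s x) : ℝ) ≤ 2 * lt 0 s x + 1 := by
      have : deg (mul 0 s x) ≤ 2 * lt 0 s x + 1 := by split_ifs at dm <;> omega
      exact_mod_cast this
    refine (div_le_self (Gn _) (one_le_pow₀ (by norm_num))).trans ((hB _).trans ?_)
    rw [mul_assoc, ← exp_add]
    exact mul_le_mul_of_nonneg_left (exp_le_exp.2 (by linarith)) B0
  · have b1 : (0 : V) ≠ x := fun e => hx (Or.inl e.symm)
    have b2 : pos 0 s n ≠ x := fun e => hx (Or.inr e.symm)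
    rw [if_neg hx, Wt, ind_pos ((rep_valid h r (L := {x}) (notMem_singleton.2 b1)
      (notMem_singleton.2 b2)).1 x (mem_singleton_self x)), one_mul, w0, (r x).1]
    rw [if_neg b2, if_neg b1] at dm
    rw [show deg (mul 0 s x) / 2 = lt 0 s x by omega]

lemma top_two {G : ℕ → ℝ} {B : ℝ} {Γ : Finset V} {e : V} (h : 0 ∈ Γ) :
    ∑' b, HT k G B (Γ, e) b ≤ sm (wA G B e) (fill Γ) (fun σ => ind (NLev k Γ (thick (fill Γ)) σ)) vcf := by
  rw [ENNReal.tsum_prod', sm]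
  refine ENNReal.tsum_le_tsum fun σ => ?_
  simp only [HT]
  rw [ENNReal.tsum_mul_left, mul_assoc, mul_right_comm]
  refine mul_le_mul_right (mul_le_mul_left ?_ _) _
  rw [tsum_eq_sum (s := rng (σ 0).m) fun _ h => ind_neg h,
    sum_congr rfl fun _ h => ind_pos h, sum_const, card_rng, nsmul_eq_mul, mul_one,
    ← mul_prod_erase _ (fun x => wB G B e x (σ x)) (sub_fill Γ h),
    ← mul_prod_erase _ (fun x => wA G B e x (σ x)) (sub_fill Γ h), mul_right_comm]
  refine mul_le_mul' ?_ (prod_le_prod' fun x _ => ?_)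
  · simp only [wA, wB, true_or, if_true]
    exact mul_le_mul_right (by exact_mod_cast Nat.le_succ _) _
  · simp only [wA, wB]
    split_ifs
    · exact le_mul_of_one_le_right' (by exact_mod_cast Nat.succ_pos _)
    · exact le_rfl

lemma top_three {G : ℕ → ℝ} {C τ B : ℝ} (H : Hyp k (Wt G) (psi k) C τ) (B0 : 0 ≤ B)
    {Γ : Finset V} {e : V} (h : EG Γ e) {β : ENNReal} (β1 : 1 ≤ β)
    (β2 : ex (55 * τ) * (ENNReal.ofReal B * ex 4) ≤ β)
    (hU : ∀ q I, Guard Γ I → ZZ (Wt G) (psi k) I (Base k q I) ≤ ex (0 * I.card + 113 * C * Γ.card)) :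
    sm (wA G B e) (fill Γ) (fun σ => ind (NLev k Γ (thick (fill Γ)) σ)) vcf ≤
      β ^ 2 * ex (-((τ - 340 * C - 2) * Γ.card)) := by
  obtain ⟨e1, e2, e3, e4, e5⟩ := h
  have hC := H.hC
  have hτ := H.hτ
  refine (H.nl ⟨_, e1⟩ e3 (sub_thick _) (wA G B e) (fun x => if x = 0 ∨ x = e then β else ex C)
    (fun x _ => ?_) (fun x hx => funext fun t => if_neg ?_) hU vcf).trans ?_
  · by_cases hx : x = 0 ∨ x = e
    · right
      refine ⟨by rcases hx with rfl | rfl <;> assumption, ?_⟩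
      simp only [wA, if_pos hx]
      refine le_trans ?_ ((mul_le_mul_right (Wd_tot B0) _).trans β2)
      rw [← ENNReal.tsum_mul_left]
      refine ENNReal.tsum_le_tsum fun t => ?_
      rw [mul_comm]
      refine mul_le_mul_left ?_ _
      unfold wh; split_ifs
      exacts [le_rfl, one_le_ex (by linarith)]
    · left; exact ⟨funext fun t => if_neg hx, if_neg hx⟩
  · rintro (rfl | rfl) <;> exact (mem_sdiff.1 hx).2 (by assumption)
  · refine (mul_le_of_le_one_right' (X_le_one H.ψ1 _ _ _)).trans ?_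
    rw [prod_ite, prod_const, prod_const, ex_pow, mul_assoc, ← ex_add]
    refine mul_le_mul' (pow_le_pow_right' β1 ?_) (ex_le ?_)
    · refine le_trans (card_le_card fun x hx => ?_) (card_le_two (a := 0) (b := e))
      simpa using (mem_filter.1 hx).2
    · have : ((Γ.filter fun x => ¬ (x = 0 ∨ x = e)).card : ℝ) ≤ Γ.card := by
        exact_mod_cast card_filter_le _ _
      nlinarith

end Pool.Agent.Lib.MP_1f6494_pr
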