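import Pool.Agent.Lib.MP_1f6494_pr.Top

set_option autoImplicit false

namespace Pool.Agent.Lib.MP_1f6494_pr

open Finset Classical Function Real

variable {k : ℕ}

lemma top_bound {G : ℕ → ℝ} {C τ B : ℝ} (H : Hyp k (Wt G) (psi k) C τ) (G0 : G 0 = 1)
    (Gn : ∀ j, 0 ≤ G j) (hB : ∀ j : ℕ, G j ≤ B * exp (-(10 * j)))
    (hU : ∀ Γ q I, Guard Γ I → ZZ (Wt G) (psi k) I (Base k q I) ≤ ex (0 * I.card + 113 * C * Γ.card)) :
    ∃ D : ENNReal, D ≠ ⊤ ∧ ∀ n, 0 < n → ZW G n ≤ D := by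
  have B0 : 0 ≤ B := by have := hB 0; simp [G0] at this; linarith
  obtain ⟨β, β0, β1, β2⟩ : ∃ β : ENNReal, β ≠ ⊤ ∧ 1 ≤ β ∧
      ex (55 * τ) * (ENNReal.ofReal (B * exp 5) * ex 4) ≤ β :=
    ⟨1 + _, ENNReal.add_ne_top.2 ⟨ENNReal.one_ne_top, ENNReal.mul_ne_top (ex_ne_top _)
      (ENNReal.mul_ne_top ENNReal.ofReal_ne_top (ex_ne_top _))⟩, le_self_add, le_add_self⟩
  refine ⟨β ^ 2, ENNReal.pow_ne_top β0, fun n hn => ?_⟩
  rw [ZW_eq G 0]
  refine (tsum_le_of_rel _ (fun b : (Finset V × V) × Cfg × Hs => ind (EG b.1.1 b.1.2) *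
    HT k G (B * exp 5) b.1 b.2)
    (fun a b => (∀ x, Rep 0 a.1 a.2 b.2.1 x) ∧ ho 0 a.1 a.2 ⟨0, hn⟩ = (0, b.2.2))
    ?_ ?_).trans ?_
  · rintro ⟨s, l⟩ ha
    have h : Prp (key 0 s) l := by by_contra g; exact ha (by simp only [ind_neg g, zero_mul])
    simp only [ind_pos h, one_mul]
    exact top_one H.hk G0 B0 Gn hB hn h
  · rintro ⟨s, l⟩ ⟨s', l'⟩ b h h'
    exact rep_inj h.1 h'.1 hn (h.2.trans h'.2.symm)
  have hC := H.hC
  have hτ := H.hτ
  rw [ENNReal.tsum_prod']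
  calc _ ≤ ∑' p : Finset V × V, ind (p.2 ∈ p.1) * (ind (0 ∈ p.1 ∧ Cn p.1) *
        (β ^ 2 * ex (-((τ - 340 * C - 2) * p.1.card)))) := by
        refine ENNReal.tsum_le_tsum fun ⟨Γ, e⟩ => ?_
        simp only
        rw [ENNReal.tsum_mul_left, mul_comm]
        refine mul_ind_le fun h => ?_
        rw [ind_pos h.2.1, ind_pos ⟨h.1, h.2.2.1⟩, one_mul, one_mul]
        exact (top_two h.1).trans (top_three H (by positivity) h β1 β2 (hU Γ))
    _ ≤ ∑' Γ : Finset V, β ^ 2 * (ind (0 ∈ Γ ∧ Cn Γ) * ex (-((τ - 340 * C - 3) * Γ.card))) := by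
        rw [ENNReal.tsum_prod']
        refine ENNReal.tsum_le_tsum fun Γ => ?_
        simp only
        rw [ENNReal.tsum_mul_right, tsum_eq_sum (s := Γ) fun _ h => ind_neg h,
          sum_congr rfl fun _ h => ind_pos h, sum_const, nsmul_eq_mul, mul_one]
        refine (mul_le_mul_left (nat_le_ex' _) _).trans (le_of_eq ?_)
        rw [show -((τ - 340 * C - 3) * Γ.card) = Γ.card + -((τ - 340 * C - 2) * Γ.card) by ring,
          ex_add]
        ring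
    _ ≤ _ := by
        rw [ENNReal.tsum_mul_left]
        exact mul_le_of_le_one_right' ((tsum_cn 0 (by linarith)).trans (ex_le_one (by linarith)))

end Pool.Agent.Lib.MP_1f6494_pr
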