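import Pool.Agent.Lib.MP_1f6494_pr.Site

set_option autoImplicit false

namespace Pool.Agent.Lib.MP_1f6494_pr

open Finset Classical Function

lemma tsum_le_of_rel {α β : Type*} (F : α → ENNReal) (H : β → ENNReal) (R : α → β → Prop)
    (h1 : ∀ a, F a ≠ 0 → ∃ b, R a b ∧ F a ≤ H b) (h2 : ∀ a a' b, R a b → R a' b → a = a') :
    ∑' a, F a ≤ ∑' b, H b := by
  calc ∑' a, F a ≤ ∑' a, ∑' b, ind (R a b) * H b := by
        refine ENNReal.tsum_le_tsum fun a => ?_
        by_cases h0 : F a = 0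
        · simp [h0]
        · obtain ⟨b, hb, h⟩ := h1 a h0
          refine le_trans ?_ (ENNReal.le_tsum b)
          rwa [ind_pos hb, one_mul]
    _ ≤ ∑' b, H b := by
        rw [ENNReal.tsum_comm]
        refine ENNReal.tsum_le_tsum fun b => ?_
        by_cases h : ∃ a, R a b
        · obtain ⟨a, ha⟩ := h
          rw [tsum_eq_single a fun a' h' => by rw [ind_neg fun g => h' (h2 _ _ _ g ha), zero_mul],
            ind_pos ha, one_mul]
        · simp [fun a => ind_neg fun g : R a b => h ⟨a, g⟩]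

section labels
variable {n : ℕ} {β : Type*} [DecidableEq β] (κ : Fin n → β)

def fib (e : β) : Finset (Fin n) := univ.filter (fun t => κ t = e)

def Prp (l : Fin n → ℕ) : Prop :=
  (∀ t, l t < (fib κ (κ t)).card) ∧ ∀ t t', κ t = κ t' → l t = l t' → t = t'

lemma mem_fib {e : β} {t : Fin n} : t ∈ fib κ e ↔ κ t = e := by simp [fib]

lemma Prp.surj {κ : Fin n → β} {l : Fin n → ℕ} (h : Prp κ l) {e : β} {j : ℕ}
    (hj : j < (fib κ e).card) : ∃ t, κ t = e ∧ l t = j := by
  obtain ⟨t, ht, e⟩ := surj_on_of_inj_on_of_card_le (s := fib κ e) (t := range (fib κ e).card)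
    (fun t _ => l t) (fun t ht => mem_range.2 ((mem_fib κ).1 ht ▸ h.1 t))
    (fun a b ha hb => h.2 a b (((mem_fib κ).1 ha).trans ((mem_fib κ).1 hb).symm))
    (by simp) j (mem_range.2 hj)
  exact ⟨t, (mem_fib κ).1 ht, e.symm⟩

lemma exists_prp : ∃ l, Prp κ l := by
  refine ⟨fun t => ((fib κ (κ t)).filter (· < t)).card, fun t => card_lt_card ⟨filter_subset _ _,
    fun h => lt_irrefl t (mem_filter.1 (h ((mem_fib κ).2 rfl))).2⟩, ?_⟩
  have key : ∀ t t', κ t = κ t' → t < t' →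
      ((fib κ (κ t)).filter (· < t)).card < ((fib κ (κ t')).filter (· < t')).card := by
    intro t t' e h
    rw [e]
    exact card_lt_card ⟨fun a ha => mem_filter.2 ⟨(mem_filter.1 ha).1, (mem_filter.1 ha).2.trans h⟩,
      fun g => lt_irrefl t (mem_filter.1 (g (mem_filter.2 ⟨(mem_fib κ).2 e, h⟩))).2⟩
  intro t t' e h
  rcases lt_trichotomy t t' with g | g | g
  · exact absurd h (key t t' e g).ne
  · exact g
  · exact absurd h (key t' t e.symm g).ne'

lemma tsum_prp : ∑' l, ind (Prp κ l) = (∏ e ∈ univ.image κ, (fib κ e).card.factorial : ℕ) := by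
  obtain ⟨l0, h0⟩ := exists_prp κ
  have c := DomMulAct.stabilizer_card' κ
  simp only [Fintype.card_subtype] at c
  have e : ∑' g : Equiv.Perm (Fin n), ind (κ ∘ g = κ) =
      (∏ e ∈ univ.image κ, (fib κ e).card.factorial : ℕ) := by
    rw [tsum_fintype]
    refine Eq.trans ?_ (congrArg Nat.cast c)
    rw [card_filter, Nat.cast_sum]
    refine sum_congr rfl fun g _ => ?_
    by_cases h : κ ∘ g = κ <;> simp [ind, h]
  rw [← e]
  apply le_antisymm
  · refine tsum_le_of_rel _ _ (fun l g => l = l0 ∘ g) (fun l hl => ?_) fun a b g h h' => h.trans h'.symm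
    have h : Prp κ l := by by_contra g; exact hl (ind_neg g)
    choose g g1 g2 using fun t => h0.surj (h.1 t)
    have inj : Injective g := fun a b e =>
      h.2 a b (by rw [← g1, e, g1]) (by rw [← g2, e, g2])
    exact ⟨Equiv.ofBijective g inj.bijective_of_finite, funext fun t => (g2 t).symm,
      (ind_le_one _).trans (ind_pos (funext g1)).ge⟩
  · refine tsum_le_of_rel _ _ (fun g l => κ ∘ g = κ ∧ l = l0 ∘ g) (fun g hg => ?_)
      fun a b l h h' => Equiv.ext fun t => h0.2 _ _ ((congrFun h.1 t).trans (congrFun h'.1 t).symm)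
        (congrFun (h.2.symm.trans h'.2) t)
    have h : κ ∘ g = κ := by by_contra g; exact hg (ind_neg g)
    refine ⟨_, ⟨h, rfl⟩, (ind_le_one _).trans (ind_pos ⟨fun t => ?_, fun t t' e e' => ?_⟩).ge⟩
    · rw [← congrFun h t]; exact h0.1 _
    · exact g.injective (h0.2 _ _ ((congrFun h t).trans (e.trans (congrFun h t').symm)) e')

end labels

lemma exists_invol {I H : Type*} (a b : I → H) (ha : Injective a) (hb : Injective b)
    (hab : ∀ i j, a i ≠ b j) : ∃ M : H → H, Involutive M ∧ (∀ i, M (a i) = b i) ∧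
      (∀ i, M (b i) = a i) ∧ ∀ h, (∀ i, h ≠ a i) → (∀ i, h ≠ b i) → M h = h := by
  let M : H → H := fun h => if e : ∃ i, h = a i then b e.choose else
    if e : ∃ i, h = b i then a e.choose else h
  have h1 : ∀ i, M (a i) = b i := fun i => by
    have e : ∃ j, a i = a j := ⟨i, rfl⟩
    simp only [M, dif_pos e, ← ha e.choose_spec]
  have h2 : ∀ i, M (b i) = a i := fun i => by
    have e : ∃ j, b i = b j := ⟨i, rfl⟩
    have e' : ¬ ∃ j, b i = a j := fun ⟨j, g⟩ => hab j i g.symm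
    simp only [M, dif_neg e', dif_pos e, ← hb e.choose_spec]
  have h3 : ∀ h, (∀ i, h ≠ a i) → (∀ i, h ≠ b i) → M h = h := fun h g1 g2 => by
    simp only [M, dif_neg (not_exists.2 g1), dif_neg (not_exists.2 g2)]
  refine ⟨M, fun h => ?_, h1, h2, h3⟩
  by_cases g1 : ∃ i, h = a i
  · obtain ⟨i, rfl⟩ := g1; rw [h1, h2]
  by_cases g2 : ∃ i, h = b i
  · obtain ⟨i, rfl⟩ := g2; rw [h2, h1]
  rw [h3 h (not_exists.1 g1) (not_exists.1 g2), h3 h (not_exists.1 g1) (not_exists.1 g2)]

/-- unoriented edge -/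
def ek (x : V) (d : Dir) : V × Dir := if d = 0 ∨ d = 1 then (x, d) else (x + vec d, opp d)

lemma ek_opp (x : V) (d : Dir) : ek (x + vec d) (opp d) = ek x d := by
  obtain ⟨x1, x2⟩ := x
  fin_cases d <;> simp [ek, opp, vec]

lemma ek_eq {x y : V} {d e : Dir} :
    ek x d = ek y e ↔ (x = y ∧ d = e) ∨ (x + vec d = y ∧ opp d = e) := by
  refine ⟨fun h => ?_, by rintro (⟨rfl, rfl⟩ | ⟨rfl, rfl⟩); exacts [rfl, (ek_opp _ _).symm]⟩
  obtain ⟨x1, x2⟩ := x
  obtain ⟨y1, y2⟩ := y
  fin_cases d <;> fin_cases e <;> simp [ek, opp, vec] at h ⊢ <;> omega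

variable {n : ℕ}

def pos (o : V) (s : Fin n → Dir) (i : ℕ) : V := o + ∑ t : Fin n, if (t : ℕ) < i then vec (s t) else 0
def lt (o : V) (s : Fin n → Dir) (x : V) : ℕ := (univ.filter fun t : Fin n => pos o s (t + 1) = x).card
def key (o : V) (s : Fin n → Dir) (t : Fin n) : V × Dir := ek (pos o s t) (s t)
def mul (o : V) (s : Fin n → Dir) (x : V) (d : Dir) : ℕ := (fib (key o s) (ek x d)).card
def ho (o : V) (s : Fin n → Dir) (l : Fin n → ℕ) (t : Fin n) : HH := (pos o s t, s t, l t)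
def NL (o : V) (s : Fin n → Dir) : ℕ := ∏ e ∈ univ.image (key o s), (fib (key o s) e).card.factorial
noncomputable def wt (G : ℕ → ℝ) (o : V) (s : Fin n → Dir) : ℝ :=
  (∏ x ∈ univ.image (fun t : Fin n => pos o s (t + 1)), G (lt o s x)) / 4 ^ n
noncomputable def ZW (G : ℕ → ℝ) (n : ℕ) : ENNReal := ∑ s : Fin n → Dir, ENNReal.ofReal (wt G 0 s)

variable {o : V} {s : Fin n → Dir} {l : Fin n → ℕ}

@[simp] lemma pos_zero : pos o s 0 = o := by simp [pos]

lemma pos_succ (t : Fin n) : pos o s (t + 1) = pos o s t + vec (s t) := by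
  unfold pos
  rw [add_assoc]
  congr 1
  have : vec (s t) = ∑ u : Fin n, if u = t then vec (s u) else 0 := by simp
  rw [this, ← sum_add_distrib]
  refine sum_congr rfl fun u _ => ?_
  by_cases h : u = t
  · simp [h]
  · have : (u : ℕ) < t + 1 ↔ (u : ℕ) < t := by have := Fin.val_ne_of_ne h; omega
    simp [h, this]

lemma io_ho (t : Fin n) : io (ho o s l t) = (pos o s (t + 1), opp (s t), l t) := by
  rw [pos_succ]; rfl

lemma wt_shift (G : ℕ → ℝ) : wt G o s = wt G 0 s := by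
  have e : ∀ i, pos o s i = o + pos 0 s i := fun i => by simp [pos]
  unfold wt lt
  simp only [e]
  rw [show (univ.image fun t : Fin n => o + pos 0 s (t + 1)) =
    (univ.image fun t : Fin n => pos 0 s (t + 1)).image (o + ·) by rw [image_image]; rfl,
    prod_image fun x _ y _ h => add_right_injective o h]
  simp only [add_right_inj]

lemma mul_opp (x : V) (d : Dir) : mul o s (x + vec d) (opp d) = mul o s x d := by
  rw [mul, ek_opp, mul]

lemma key_eq {t : Fin n} {x : V} {d : Dir} : key o s t = ek x d ↔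
    (pos o s t = x ∧ s t = d) ∨ (pos o s (t + 1) = x ∧ opp (s t) = d) := by
  rw [key, ek_eq, pos_succ]

lemma deg_mul (x : V) : deg (mul o s x) + (if pos o s n = x then 1 else 0) =
    2 * lt o s x + if o = x then 1 else 0 := by
  have e1 : deg (mul o s x) = ∑ t : Fin n, ((if pos o s t = x then 1 else 0) +
      if pos o s (t + 1) = x then 1 else 0) := by
    simp only [deg, mul, fib, card_filter]
    rw [sum_comm]
    refine sum_congr rfl fun t _ => ?_
    simp only [key_eq]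
    by_cases a : pos o s t = x
    · have b : pos o s (t + 1) ≠ x := by rw [pos_succ, a]; exact add_vec_ne _ _
      simp [a, b]
    · by_cases b : pos o s (t + 1) = x <;> simp [a, b]
  have e2 := Fin.sum_univ_castSucc (fun i : Fin (n + 1) => if pos o s i = x then 1 else 0)
  rw [Fin.sum_univ_succ] at e2
  simp only [Fin.val_zero, pos_zero, Fin.val_succ, Fin.val_castSucc, Fin.val_last] at e2
  rw [e1, sum_add_distrib, lt, card_filter]
  omega

lemma sum_lt {A : Finset V} (h : ∀ t : Fin n, pos o s (t + 1) ∈ A) : ∑ x ∈ A, lt o s x = n := by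
  have := card_eq_sum_card_fiberwise (s := univ) (t := A) (f := fun t : Fin n => pos o s (t + 1))
    fun t _ => h t
  simpa [lt] using this.symm

lemma wt_eq {G : ℕ → ℝ} (h0 : G 0 = 1) {A : Finset V} (h : ∀ t : Fin n, pos o s (t + 1) ∈ A) :
    wt G o s = ∏ x ∈ A, G (lt o s x) / 4 ^ lt o s x := by
  rw [prod_div_distrib, prod_pow_eq_pow_sum, sum_lt h, wt]
  congr 1
  refine prod_subset (fun x hx => ?_) fun x _ hx => ?_
  · obtain ⟨t, -, rfl⟩ := mem_image.1 hx
    exact h t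
  · rw [lt, filter_eq_empty_iff.2 fun t _ e => hx (mem_image.2 ⟨t, mem_univ _, e⟩), card_empty, h0]

lemma prod_rf {A : Finset V} (h : ∀ i ≤ n, pos o s i ∈ A) : ∏ x ∈ A, rf (mul o s x) = NL o s := by
  have key1 : ∀ S : Finset (V × Dir), (∀ p ∈ S, ∀ p' ∈ S, ek p.1 p.2 = ek p'.1 p'.2 → p = p') →
      (∀ t, ∃ p ∈ S, ek p.1 p.2 = key o s t) → ∏ p ∈ S, (mul o s p.1 p.2).factorial = NL o s := by
    intro S h1 h2
    symm
    rw [NL, prod_subset (s₂ := S.image fun p => ek p.1 p.2), prod_image h1]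
    · rfl
    · intro e he
      obtain ⟨t, -, rfl⟩ := mem_image.1 he
      exact mem_image.2 (h2 t)
    · intro e _ he
      rw [fib, filter_eq_empty_iff.2 fun t _ g => he (mem_image.2 ⟨t, mem_univ _, g⟩)]; rfl
  have two : ∀ (P : Dir → Prop) [DecidablePred P], (∀ d, P d ↔ ¬ P (opp d)) →
      ∏ p ∈ (A ×ˢ univ).filter (fun p => P p.2), (mul o s p.1 p.2).factorial = NL o s := by
    intro P _ hP
    refine key1 _ (fun p hp p' hp' e => ?_) fun t => ?_
    · rcases ek_eq.1 e with g | g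
      · exact Prod.ext g.1 g.2
      · exact absurd (g.2 ▸ (mem_filter.1 hp').2) ((hP _).1 (mem_filter.1 hp).2)
    · by_cases g : P (s t)
      · exact ⟨(pos o s t, s t), by simp [h t t.2.le, g], rfl⟩
      · refine ⟨(pos o s (t + 1), opp (s t)), ?_, (key_eq.2 (Or.inr ⟨rfl, rfl⟩)).symm⟩
        have : P (opp (s t)) := by by_contra g'; exact g ((hP _).2 g')
        simp [h (t + 1) t.2, this]
  unfold rf
  rw [← Real.sqrt_prod _ fun _ _ => by positivity, Real.sqrt_eq_iff_mul_self_eq (by positivity)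
    (by positivity), ← prod_product']
  norm_cast
  rw [← prod_filter_mul_prod_filter_not _ (fun p : V × Dir => p.2 = 0 ∨ p.2 = 1),
    two (fun d => d = 0 ∨ d = 1) (by decide), two (fun d => ¬ (d = 0 ∨ d = 1)) (by decide)]

lemma NL_pos : 0 < NL o s := prod_pos fun _ _ => Nat.factorial_pos _

lemma inr_ho (h : Prp (key o s) l) (t : Fin n) : l t < mul o s (pos o s t) (s t) := h.1 t

lemma inr_cases (h : Prp (key o s) l) {a : HH} (r : a.2.2 < mul o s a.1 a.2.1) :
    ∃ t, a = ho o s l t ∨ a = io (ho o s l t) := by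
  obtain ⟨t, h1, h2⟩ := h.surj r
  refine ⟨t, (key_eq.1 h1).imp (fun g => ?_) fun g => ?_⟩
  · rw [ho, g.1, g.2, h2]
  · rw [io_ho, g.1, g.2, h2]

lemma ho_inj (h : Prp (key o s) l) : Injective (ho o s l) := fun a b e => by
  simp only [ho, Prod.mk.injEq] at e
  exact h.2 a b (by rw [key, key, e.1, e.2.1]) e.2.2

lemma ho_ne (h : Prp (key o s) l) (a b : Fin n) : io (ho o s l a) ≠ ho o s l b := fun e => by
  have e' := e
  rw [io_ho] at e'
  simp only [ho, Prod.mk.injEq] at e'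
  rw [h.2 a b (key_eq.2 (Or.inr ⟨e'.1, e'.2.1⟩)) e'.2.2] at e
  exact io_ne _ e

lemma ph_apply (σ : Cfg) (h : HH) : ph σ h = mu σ (io h) := rfl

/-- a configuration carries the labelled walk at a site -/
def Rep (o : V) (s : Fin n → Dir) (l : Fin n → ℕ) (σ : Cfg) (x : V) : Prop :=
  (σ x).m = mul o s x ∧ ∀ t t' : Fin n, (t' : ℕ) = t + 1 → pos o s t' = x →
    (σ x).μ (opp (s t), l t) = (s t', l t')

lemma Rep.eq (h : Prp (key o s) l) {σ σ' : Cfg} {x : V} (r : Rep o s l σ x) (r' : Rep o s l σ' x)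
    (h0 : x ≠ o) (hn : x ≠ pos o s n) : σ x = σ' x := by
  refine St.ext (r.1.trans r'.1.symm) (funext fun a => ?_)
  by_cases g : a.2 < mul o s x a.1
  swap
  · rw [(σ x).out a (r.1 ▸ not_lt.1 g), (σ' x).out a (r'.1 ▸ not_lt.1 g)]
  obtain ⟨t, e | e⟩ := inr_cases h (a := (x, a)) g
  · simp only [ho, Prod.mk.injEq] at e
    have t0 : (t : ℕ) ≠ 0 := fun g => h0 (by rw [e.1, g, pos_zero])
    have a1 := r.2 ⟨t - 1, by omega⟩ t (by simp; omega) e.1.symm
    have a2 := r'.2 ⟨t - 1, by omega⟩ t (by simp; omega) e.1.symm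
    rw [e.2]
    conv_lhs => rw [← a1, St.inv]
    conv_rhs => rw [← a2, St.inv]
  · simp only [io_ho, Prod.mk.injEq] at e
    have t0 : (t : ℕ) + 1 ≠ n := fun g => hn (by rw [e.1, g])
    rw [e.2, r.2 t ⟨t + 1, by omega⟩ rfl e.1.symm, r'.2 t ⟨t + 1, by omega⟩ rfl e.1.symm]

lemma exists_rep (h : Prp (key o s) l) : ∃ σ : Cfg, ∀ x, Rep o s l σ x := by
  obtain ⟨M, m1, m2, m3, m4⟩ := exists_invol (I := {t : Fin n // (t : ℕ) + 1 < n})
    (fun t => io (ho o s l t.1)) (fun t => ho o s l ⟨t.1 + 1, t.2⟩)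
    (fun a b e => Subtype.ext (ho_inj h (io_inv.injective e)))
    (fun a b e => Subtype.ext (Fin.ext (by simpa using ho_inj h e))) fun a b => ho_ne h _ _
  have site : ∀ a, (M a).1 = a.1 := by
    intro a
    by_cases g1 : ∃ t : {t : Fin n // (t : ℕ) + 1 < n}, a = io (ho o s l t.1)
    · obtain ⟨t, rfl⟩ := g1; rw [m2, io_ho]; rfl
    by_cases g2 : ∃ t : {t : Fin n // (t : ℕ) + 1 < n}, a = ho o s l ⟨t.1 + 1, t.2⟩
    · obtain ⟨t, rfl⟩ := g2; rw [m3, io_ho]; rfl
    rw [m4 a (not_exists.1 g1) (not_exists.1 g2)]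
  refine ⟨fun x => ⟨mul o s x, fun a => (M (x, a)).2, fun a => ?_, fun a ha => ?_⟩,
    fun x => ⟨rfl, fun t t' e hx => ?_⟩⟩
  · rw [show (x, (M (x, a)).2) = M (x, a) from Prod.ext (site (x, a)).symm rfl, m1]
  · rw [m4]
    · intro t e
      simp only [io_ho, Prod.mk.injEq] at e
      rw [e.1, e.2, pos_succ, mul_opp] at ha
      exact ha.not_gt (inr_ho h _)
    · intro t e
      simp only [ho, Prod.mk.injEq] at e
      rw [e.1, e.2] at ha
      exact ha.not_gt (inr_ho h ⟨t.1 + 1, t.2⟩)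
  · have := m2 ⟨t, e ▸ t'.2⟩
    simp only [io_ho, ← e, hx] at this
    simp only [this, ho]

lemma Rep.ph {σ : Cfg} {t t' : Fin n} (e : (t' : ℕ) = t + 1) (r : Rep o s l σ (pos o s t')) :
    ph σ (ho o s l t) = ho o s l t' := by
  rw [ph_apply, io_ho]
  simp only [mu, ← e, r.2 t t' e rfl, ho]

lemma rep_valid (h : Prp (key o s) l) {σ : Cfg} (r : ∀ x, Rep o s l σ x) {L : Finset V}
    (h0 : o ∉ L) (hn : pos o s n ∉ L) : Valid L σ := by
  have back : ∀ t t' : Fin n, (t' : ℕ) = t + 1 → mu σ (ho o s l t') = io (ho o s l t) := fun t t' e => by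
    rw [← (r _).ph e]; exact mu_inv σ _
  refine ⟨fun x hx => ⟨eq_empty_of_forall_notMem fun a ha => ?_, ?_⟩,
    fun x _ d _ => by rw [(r _).1, (r _).1, mul_opp], fun a _ ra => ?_⟩
  · obtain ⟨a1, a2⟩ := mem_op.1 ha
    have a3 : mu σ (x, a) = (x, a) := by simp [mu, a2]
    obtain ⟨t, e | e⟩ := inr_cases h (a := (x, a)) ((r x).1 ▸ a1)
    · have t0 : (t : ℕ) ≠ 0 := fun g => h0 (by
        have := congrArg Prod.fst e; simp only [ho, g, pos_zero] at this; exact this ▸ hx)
      rw [e, back ⟨t - 1, by omega⟩ t (by simp; omega)] at a3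
      exact ho_ne h _ _ a3
    · have t0 : (t : ℕ) + 1 ≠ n := fun g => hn (by
        have := congrArg Prod.fst e; simp only [io_ho, g] at this; exact this ▸ hx)
      have := (r _).ph (t := t) (t' := ⟨t + 1, by omega⟩) rfl
      rw [e] at a3
      exact ho_ne h _ _ (a3.symm.trans this)
  · have := deg_mul (o := o) (s := s) x
    rw [if_neg fun e : pos o s n = x => hn (e ▸ hx), if_neg fun e : o = x => h0 (e ▸ hx)] at this
    rw [(r x).1]
    exact ⟨lt o s x, by omega⟩
  · have fw : ∀ j, ∀ t : Fin n, t + j + 1 = n → ∃ N, ((ph σ)^[N] (ho o s l t)).1 ∉ L := by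
      intro j
      induction j with
      | zero => exact fun t e => ⟨1, by
          rw [iterate_one, ph_apply, io_ho, show (t : ℕ) + 1 = n from e]; exact hn⟩
      | succ j ih =>
        intro t e
        obtain ⟨N, hN⟩ := ih ⟨t + 1, by omega⟩ (by simp; omega)
        exact ⟨N + 1, by rwa [iterate_succ_apply, (r _).ph (t' := ⟨t + 1, by omega⟩) rfl]⟩
    have bw : ∀ j, ∀ t : Fin n, (t : ℕ) = j → ∃ N, ((ph σ)^[N] (io (ho o s l t))).1 ∉ L := by
      intro j
      induction j with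
      | zero => exact fun t e => ⟨1, by
          rw [iterate_one, ph_apply, io_inv]; simpa [mu, ho, e] using h0⟩
      | succ j ih =>
        intro t e
        obtain ⟨N, hN⟩ := ih ⟨j, by omega⟩ rfl
        exact ⟨N + 1, by rwa [iterate_succ_apply, ph_apply, io_inv, back ⟨j, by omega⟩ t e]⟩
    obtain ⟨t, rfl | rfl⟩ := inr_cases h (a := a) ((r _).1 ▸ ra)
    · exact fw (n - t - 1) t (by omega)
    · exact bw _ t rfl

lemma rep_inj {s' : Fin n → Dir} {l' : Fin n → ℕ} {σ : Cfg} (r : ∀ x, Rep o s l σ x)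
    (r' : ∀ x, Rep o s' l' σ x) (hn : 0 < n) (e : ho o s l ⟨0, hn⟩ = ho o s' l' ⟨0, hn⟩) :
    (s, l) = (s', l') := by
  have : ∀ j (hj : j < n), ho o s l ⟨j, hj⟩ = ho o s' l' ⟨j, hj⟩ := by
    intro j
    induction j with
    | zero => exact fun _ => e
    | succ j ih =>
      intro hj
      rw [← (r _).ph (t := ⟨j, by omega⟩) rfl, ← (r' _).ph (t := ⟨j, by omega⟩) rfl, ih]
  refine Prod.ext (funext fun t => ?_) (funext fun t => ?_)
  · exact congrArg (·.2.1) (this t t.2)
  · exact congrArg (·.2.2) (this t t.2)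

end Pool.Agent.Lib.MP_1f6494_pr
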